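import Pool.Agent.Lib.MP_1e1a64_an.Level

/-!
Averages along a vertical saddle connection at a good level.
-/

open Set Filter Topology MeasureTheory Metric Function Complex
open scoped ENNReal NNReal

namespace Pool.Agent.Lib.MP_1e1a64_an

noncomputable def tk (K k : ℕ) : ℝ := -1 + (2 * k + 1) / K

theorem tk_mem {K k : ℕ} (h : k < K) : tk K k ∈ Ioo (-1 : ℝ) 1 := by
  have h1 : (k : ℝ) + 1 ≤ K := by exact_mod_cast h
  have h0 : (0 : ℝ) ≤ k := Nat.cast_nonneg k
  have h2 : 0 < (2 * (k : ℝ) + 1) / K := div_pos (by linarith) (by linarith)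
  have h3 : (2 * (k : ℝ) + 1) / K < 2 := by rw [div_lt_iff₀ (by linarith)]; linarith
  unfold tk; constructor <;> linarith

namespace Flow

variable {X : Type*} [TopologicalSpace X] {F : Flow X}

theorem IsSC.iter {e : X × ℂ} (he : F.IsSC e) {K : ℕ} {v : ℂ} (hv : e.2 = ((K : ℝ) / 2) • v)
    {k : ℕ} (hk : k < K) : (F.Θ v)^[k] (F.pt e (tk K 0)) = F.pt e (tk K k) := by
  induction k with
  | zero => rfl
  | succ k ih =>
    have hK : (K : ℝ) ≠ 0 := by exact_mod_cast (show K ≠ 0 by omega)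
    rw [iterate_succ_apply', ih (by omega), Θ, ← (he.step (tk_mem (show k < K by omega))
      (tk_mem hk)).2, hv, smul_smul, show (tk K (k + 1) - tk K k) * ((K : ℝ) / 2) = 1 by
        simp only [tk]; push_cast; field_simp; ring, one_smul]

variable [MeasurableSpace X] [BorelSpace X]

theorem intervalIntegrable_pt {f : X → ℝ} (hf : Measurable f) (hb : ∀ x, |f x| ≤ 1) (e : X × ℂ)
    (a b : ℝ) : IntervalIntegrable (fun t => f (F.pt e t)) volume a b :=
  (intervalIntegrable_const (c := (1 : ℝ))).mono_fun' (hf.comp ((measurable_go e.1).comp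
    (by fun_prop : Continuous fun t : ℝ => t • e.2).measurable)).aestronglyMeasurable
    (Eventually.of_forall fun _ => hb _)

theorem IsSC.riemann {e : X × ℂ} (he : F.IsSC e) {K : ℕ} (hK : 0 < K) {f : X → ℝ}
    (hf : Measurable f) (hb : ∀ x, |f x| ≤ 1) {ω : ℝ} (h0 : 0 ≤ ω)
    (hω : ∀ x (s : ℝ), s • e.2 ∈ F.D x → |s| ≤ 1 / K → |f (F.go x (s • e.2)) - f x| ≤ ω) :
    |F.avg f e - (∑ k ∈ Finset.range K, f (F.pt e (tk K k))) / K| ≤ ω := by
  have hK' : (0 : ℝ) < K := by exact_mod_cast hK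
  have h1 := intervalIntegral.sum_integral_adjacent_intervals (μ := volume)
    (f := fun t => f (F.pt e t)) (a := fun k : ℕ => -1 + 2 * (k : ℝ) / K) (n := K)
    fun k _ => intervalIntegrable_pt hf hb e _ _
  rw [show (-1 : ℝ) + 2 * (K : ℝ) / K = 1 by field_simp; ring] at h1
  simp only [Nat.cast_zero, mul_zero, zero_div, add_zero] at h1
  have e1 : F.avg f e - (∑ k ∈ Finset.range K, f (F.pt e (tk K k))) / K =
      (∑ k ∈ Finset.range K, (K / 2 * ∫ t in (-1 + 2 * (k : ℝ) / K)..(-1 + 2 * ((k + 1 : ℕ) : ℝ) / K),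
        (f (F.pt e t) - f (F.pt e (tk K k))))) / K := by
    rw [avg, ← h1, eq_div_iff hK'.ne', sub_mul, div_mul_cancel₀ _ hK'.ne', Finset.sum_div,
      Finset.sum_mul, ← Finset.sum_sub_distrib]
    refine Finset.sum_congr rfl fun k _ => ?_
    rw [intervalIntegral.integral_sub (intervalIntegrable_pt hf hb e _ _) intervalIntegrable_const,
      intervalIntegral.integral_const, smul_eq_mul]
    push_cast; field_simp; ring
  rw [e1]
  refine abs_avg_le h0 fun k hk => ?_
  have hk1 : (k : ℝ) + 1 ≤ K := by exact_mod_cast hk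
  have hle : -1 + 2 * (k : ℝ) / K ≤ -1 + 2 * ((k + 1 : ℕ) : ℝ) / K := by
    push_cast; gcongr; linarith
  have := intervalIntegral.norm_integral_le_of_norm_le_const_ae (C := ω)
    (a := -1 + 2 * (k : ℝ) / K) (b := -1 + 2 * ((k + 1 : ℕ) : ℝ) / K)
    (f := fun t => f (F.pt e t) - f (F.pt e (tk K k))) (by
      filter_upwards [Measure.ae_ne volume (1 : ℝ)] with t ht1 ht
      rw [uIoc_of_le hle] at ht
      have a1 : 0 ≤ 2 * (k : ℝ) / K := by positivity
      have a2 : 2 * ((k + 1 : ℕ) : ℝ) / K ≤ 2 := by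
        push_cast; rw [div_le_iff₀ hK']; linarith
      have h2 := he.step (tk_mem hk) (t' := t)
        ⟨by linarith [ht.1], lt_of_le_of_ne (by linarith [ht.2]) ht1⟩
      rw [← h2.2]
      refine hω _ _ h2.1 ?_
      have a3 : (2 * (k : ℝ) + 1) / K = 2 * k / K + 1 / K := by ring
      have a4 : 2 * ((k + 1 : ℕ) : ℝ) / K = 2 * k / K + 1 / K + 1 / K := by push_cast; ring
      rw [abs_le, tk]
      constructor <;> linarith [ht.1, ht.2])
  rw [Real.norm_eq_abs, show -1 + 2 * ((k + 1 : ℕ) : ℝ) / K - (-1 + 2 * (k : ℝ) / K) = 2 / K by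
    push_cast; ring, abs_of_pos (by positivity : (0 : ℝ) < 2 / K)] at this
  rw [abs_mul, abs_of_pos (by positivity : (0 : ℝ) < K / 2)]
  calc _ ≤ K / 2 * (ω * (2 / K)) := by gcongr
    _ = ω := by field_simp

variable [T2Space X] [CompactSpace X] [SecondCountableTopology X] {μ : Measure X}
  [IsProbabilityMeasure μ] {c : ℝ≥0} {f : X → ℝ} {ε a η ω δ : ℝ} {n J : ℕ}

omit [BorelSpace X] [SecondCountableTopology X] [IsProbabilityMeasure μ] in
theorem Lev.visits (L : F.Lev μ c f ε a η ω δ n J) {e : X × ℂ} (he : F.IsSC e) {K : ℕ}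
    (hv : e.2 = ((K : ℝ) / 2) • ((η : ℂ) * I)) (T : Finset ℕ)
    (hT : ∀ k ∈ T, k < K ∧ ¬ F.Big (8 * a) (F.pt e (tk K k))) : T.card ≤ 77 * a / ε * K := by
  have ha := L.a0
  have hη := L.η0
  have hε : 0 < ε := by linarith [L.aε]
  have hKη : 2 * ε ≤ K * η := by
    have := L.sys e he
    rw [hv, norm_smul, Real.norm_eq_abs, abs_of_nonneg (by positivity)] at this
    simp only [norm_mul, norm_real, norm_I, Real.norm_eq_abs, abs_of_pos hη] at this
    linarith
  have hK : (0 : ℝ) < K := by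
    by_contra h
    nlinarith [not_lt.1 h]
  set W := ⌊ε / (2 * η)⌋₊ with hW
  have W1 : (W : ℝ) * (2 * η) ≤ ε := (le_div_iff₀ (by positivity)).1 (Nat.floor_le (by positivity))
  have W2 : ε < (W + 1) * (2 * η) := (div_lt_iff₀ (by positivity)).1 (Nat.lt_floor_add_one _)
  have W3 : ε ≤ 4 * W * η := by linarith [L.ηa, L.aε]
  have W0 : (0 : ℝ) < W := by
    by_contra h
    nlinarith [not_lt.1 h]
  have := card_windows (K := K) (W := W) (L := ⌈16 * a / η⌉₊) (by exact_mod_cast W0) T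
    (fun k hk => (hT k hk).1) (fun k hk k' hk' hkk hlt => by
      have e1 : ‖(tk K k' - tk K k) • e.2‖ = ((k' - k : ℕ) : ℝ) * η := by
        rw [hv, smul_smul, show (tk K k' - tk K k) * ((K : ℝ) / 2) = ((k' - k : ℕ) : ℝ) by
          simp only [tk]; push_cast [hkk]; field_simp; ring, norm_smul]
        simp [abs_of_pos hη]
      have h1 : ((k' - k : ℕ) : ℝ) ≤ W := by exact_mod_cast hlt.le
      have := L.sys.visit he (tk_mem (hT k hk).1) (tk_mem (hT k' hk').1) (hT k hk).2 (hT k' hk').2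
        (by rw [e1]; nlinarith [L.aε])
      rw [e1] at this
      exact Nat.lt_ceil.2 ((lt_div_iff₀ hη).2 (by linarith)))
  have h2 : (T.card : ℝ) ≤ (⌈16 * a / η⌉₊ : ℝ) * (((K / W : ℕ) : ℝ) + 1) := by exact_mod_cast this
  have h3 : (⌈16 * a / η⌉₊ : ℝ) ≤ 17 * a / η := by
    have := (Nat.ceil_lt_add_one (show 0 ≤ 16 * a / η by positivity)).le
    have h4 : 1 ≤ a / η := (one_le_div hη).2 L.ηa
    have : 17 * a / η = 16 * a / η + a / η := by ring
    linarith
  have h4 : ((K / W : ℕ) : ℝ) ≤ 4 * η * K / ε := Nat.cast_div_le.trans (by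
    rw [div_le_div_iff₀ W0 hε]; nlinarith)
  have h5 : (1 : ℝ) ≤ η * K / (2 * ε) := by rw [one_le_div (by positivity)]; linarith
  calc (T.card : ℝ) ≤ 17 * a / η * (4 * η * K / ε + η * K / (2 * ε)) := by
        refine h2.trans ?_; gcongr
    _ = 153 / 2 * a / ε * K := by field_simp; ring
    _ ≤ _ := by gcongr; norm_num

theorem Lev.along (L : F.Lev μ c f ε a η ω δ n J) {P : ℕ} (hP : 2 ≤ P * (c * a ^ 2)) {e : X × ℂ}
    (he : F.IsSC e) {K : ℕ} (hv : e.2 = ((K : ℝ) / 2) • ((η : ℂ) * I)) :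
    |F.avg f e - ∫ y, f y ∂μ| ≤
      ω + 4 * P * (3 * ω + 2 * δ / (c * a ^ 2)) + 1024 * F.K0 * c * a ^ 2 + 156 * a / ε := by
  classical
  have ha := L.a0
  have hη := L.η0
  have hε : 0 < ε := by linarith [L.aε]
  have hKη : 2 * ε ≤ K * η := by
    have := L.sys e he
    rw [hv, norm_smul, Real.norm_eq_abs, abs_of_nonneg (by positivity)] at this
    simp only [norm_mul, norm_real, norm_I, Real.norm_eq_abs, abs_of_pos hη] at this
    linarith
  have hK : (0 : ℝ) < K := by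
    by_contra h
    nlinarith [not_lt.1 h]
  have hK0 : 0 < K := by exact_mod_cast hK
  have hω : 0 ≤ ω := (abs_nonneg _).trans (L.hω e.1 0 (F.zero_mem _ he.1.reg)
    (by simpa using L.a0.le) (by simpa using L.η0.le))
  have r1 := he.riemann hK0 L.meas L.bdd hω (fun x s h1 h2 => L.hω x _ h1 (by simp [hv, ha.le]) (by
    have : (s • e.2).im = s * (K / 2 * η) := by simp [hv]
    rw [this, abs_mul, abs_of_pos (by positivity : (0 : ℝ) < K / 2 * η)]
    calc _ ≤ 1 / K * (K / 2 * η) := by gcongr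
      _ = η / 2 := by field_simp
      _ ≤ η := by linarith))
  have r2 : (∑ k ∈ Finset.range K, f (F.pt e (tk K k))) / K =
      B (F.Θ (η * I)) K f (F.pt e (tk K 0)) := by
    rw [B, Finset.sum_congr rfl fun k hk => by rw [← he.iter hv (Finset.mem_range.1 hk)]]
  rw [r2] at r1
  have bG := abs_B_le (Θ := F.Θ (η * I)) L.bdd n
  have r3 := B_B_sub (Θ := F.Θ (η * I)) L.bdd L.n0 hK0 (F.pt e (tk K 0))
  have r4 := B_B_sub (Θ := F.Θ (η * I)) bG L.J0 hK0 (F.pt e (tk K 0))
  have r5 : ∀ m : ℕ, m * η ≤ a → (2 : ℝ) * m / K ≤ a / ε := fun m hm => by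
    rw [div_le_div_iff₀ hK hε]
    have : (0 : ℝ) ≤ m := Nat.cast_nonneg m
    nlinarith
  set H := B (F.Θ (η * I)) J (B (F.Θ (η * I)) n f) with hH
  have bH : ∀ x, |H x| ≤ 1 := abs_B_le bG J
  have bI : |∫ y, f y ∂μ| ≤ 1 := by
    have := norm_integral_le_of_norm_le_const (μ := μ) (f := f) (C := 1)
      (Eventually.of_forall L.bdd)
    simpa using this
  set o := 4 * P * (3 * ω + 2 * δ / (c * a ^ 2)) + 1024 * F.K0 * c * a ^ 2 with ho
  have hδ : 0 ≤ δ := le_trans (integral_nonneg fun _ => abs_nonneg _) (L.hδ 0 (by simp [ha.le]))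
  have o0 : 0 ≤ o := by positivity
  have r6 : |B (F.Θ (η * I)) K H (F.pt e (tk K 0)) - ∫ y, f y ∂μ| ≤ o + 154 * a / ε := by
    have e1 : B (F.Θ (η * I)) K H (F.pt e (tk K 0)) - ∫ y, f y ∂μ =
        (∑ k ∈ Finset.range K, (H (F.pt e (tk K k)) - ∫ y, f y ∂μ)) / K := by
      rw [B, Finset.sum_congr rfl fun k hk => by rw [he.iter hv (Finset.mem_range.1 hk)],
        Finset.sum_sub_distrib, Finset.sum_const, Finset.card_range, nsmul_eq_mul]
      field_simp
    have hv2 := L.visits he hv ((Finset.range K).filter fun k => ¬ F.Big (8 * a) (F.pt e (tk K k)))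
      fun k hk => ⟨Finset.mem_range.1 (Finset.mem_filter.1 hk).1, (Finset.mem_filter.1 hk).2⟩
    rw [e1, abs_div, abs_of_pos hK, div_le_iff₀ hK]
    refine (Finset.abs_sum_le_sum_abs _ _).trans ((Finset.sum_le_sum (g := fun k =>
      o + if ¬ F.Big (8 * a) (F.pt e (tk K k)) then 2 else 0) fun k _ => ?_).trans ?_)
    · split_ifs with h
      · rw [add_zero]; exact L.sup hP h
      · linarith [abs_sub (H (F.pt e (tk K k))) (∫ y, f y ∂μ), bH (F.pt e (tk K k))]
    · rw [Finset.sum_add_distrib, ← Finset.sum_filter]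
      simp only [Finset.sum_const, Finset.card_range, nsmul_eq_mul]
      have : 154 * a / ε * K = 77 * a / ε * K * 2 := by ring
      nlinarith
  have r7 := r5 n L.na
  have r8 := r5 J L.Ja
  have : 156 * a / ε = 154 * a / ε + a / ε + a / ε := by ring
  rw [abs_le] at r1 r3 r4 r6 ⊢
  constructor <;> linarith [r1.1, r1.2, r3.1, r3.2, r4.1, r4.2, r6.1, r6.2]

end Flow

end Pool.Agent.Lib.MP_1e1a64_an
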