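import Pool.Agent.Lib.MP_1e1a64_an.Main

/-!
The flat area is finite, positive, null on cone points and Lebesgue measure in every chart.
-/

open Set Filter Topology MeasureTheory Metric Function
open scoped ENNReal NNReal

namespace Pool.Agent.Lib.MP_1e1a64_an

variable {X : Type*} [TopologicalSpace X] [MeasurableSpace X] [BorelSpace X]

theorem chartArea_apply (c : OpenPartialHomeomorph X ℂ) {A : Set X} (hA : MeasurableSet A) :
    chartArea c A = volume (c '' (c.source ∩ A)) := by
  rw [chartArea, Measure.map_apply_of_aemeasurable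
    (c.continuousOn_symm.aemeasurable c.open_target.measurableSet) hA,
    Measure.restrict_apply' c.open_target.measurableSet, c.image_source_inter_eq', inter_comm]

theorem chartArea_of_subset (c : OpenPartialHomeomorph X ℂ) {A : Set X} (hA : MeasurableSet A)
    (h : A ⊆ c.source) : chartArea c A = volume (c '' A) := by
  rw [chartArea_apply c hA, inter_eq_self_of_subset_right h]

theorem volume_image_shift {α : Type*} {f g : α → ℂ} {A : Set α} {v : ℂ}
    (h : ∀ y ∈ A, f y = g y + v) : volume (f '' A) = volume (g '' A) := by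
  rw [image_congr h, ← image_image (fun w => w + v) g, image_add_right, measure_preimage_add_right]

theorem measurableSet_chart_image (c : OpenPartialHomeomorph X ℂ) {A : Set X}
    (hA : MeasurableSet A) (h : A ⊆ c.source) : MeasurableSet (c '' A) := by
  classical
  have hm := c.continuousOn_symm.measurable_piecewise (g := fun _ => c.symm 0) continuousOn_const
    c.open_target.measurableSet
  have e : c '' A = c.target ∩ c.target.piecewise c.symm (fun _ => c.symm 0) ⁻¹' A := by
    rw [← inter_eq_self_of_subset_right h, c.image_source_inter_eq',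
      inter_eq_self_of_subset_right h]
    ext w
    by_cases hw : w ∈ c.target <;> simp [hw]
  rw [e]
  exact c.open_target.measurableSet.inter (hm hA)

variable [SecondCountableTopology X]

namespace TranslationSurface

variable (T : TranslationSurface X)

theorem chart_compat {c c' : OpenPartialHomeomorph X ℂ} (hc : c ∈ T.atlas) (hc' : c' ∈ T.atlas)
    {A : Set X} (hA : MeasurableSet A) (h : A ⊆ c.source) (h' : A ⊆ c'.source) :
    chartArea c' A = chartArea c A := by
  obtain ⟨N, h1, h2, h3, h4⟩ := exists_disjoint_cover (c.source ∩ c'.source)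
    (fun V => ∃ v : ℂ, ∀ y ∈ V, c' y = c y + v) ⟨0, by simp⟩
    (fun x hx => by
      obtain ⟨v, hv⟩ := T.trans c hc c' hc' x hx
      exact ⟨_, hv, v, fun _ hy => hy⟩)
    (fun V W hW ⟨v, hv⟩ => ⟨v, fun y hy => hv y (hW hy)⟩)
  have hs := (subset_inter h h').trans h3
  rw [measure_eq_tsum_inter _ h1 h2 hA hs, measure_eq_tsum_inter _ h1 h2 hA hs]
  refine tsum_congr fun n => ?_
  obtain ⟨v, hv⟩ := h4 n
  rw [chartArea_of_subset _ (hA.inter (h1 n)) (inter_subset_left.trans h),
    chartArea_of_subset _ (hA.inter (h1 n)) (inter_subset_left.trans h')]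
  exact volume_image_shift fun y hy => hv y hy.2

theorem area_spec : T.area T.sing = 0 ∧
    ∀ c ∈ T.atlas, ∀ A ⊆ c.source, MeasurableSet A → T.area A = volume (c '' A) := by
  rcases T.atlas.eq_empty_or_nonempty with h0 | ⟨c0, hc0⟩
  · simp [area, h0]
    rfl
  obtain ⟨N, h1, h2, h3, h4⟩ := exists_disjoint_cover (T.sing : Set X)ᶜ
    (fun V => ∃ c ∈ T.atlas, V ⊆ c.source) ⟨c0, hc0, empty_subset _⟩
    (fun x hx => by
      obtain ⟨c, hc, hx⟩ := T.cover x hx
      exact ⟨_, c.open_source.mem_nhds hx, c, hc, Subset.rfl⟩)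
    (fun V W hW ⟨c, hc, hv⟩ => ⟨c, hc, hW.trans hv⟩)
  choose c hc hN using h4
  set ν := Measure.sum fun n => (chartArea (c n)).restrict (N n) with hν
  have hνA : ∀ A, MeasurableSet A → ν A = ∑' n, chartArea (c n) (A ∩ N n) := fun A hA => by
    rw [hν, Measure.sum_apply _ hA]
    exact tsum_congr fun n => Measure.restrict_apply hA
  have key : ∀ c' ∈ T.atlas, ∀ A ⊆ c'.source, MeasurableSet A → ν A = chartArea c' A := by
    intro c' hc' A hA hm
    rw [hνA A hm, measure_eq_tsum_inter _ h1 h2 hm
      (Subset.trans (fun x hx => T.not_sing c' hc' x (hA hx)) h3)]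
    exact tsum_congr fun n => T.chart_compat hc' (hc n) (hm.inter (h1 n))
      (inter_subset_left.trans hA) (inter_subset_right.trans (hN n))
  have e : T.area = ν := by
    apply le_antisymm
    · refine iSup₂_le fun c' hc' => Measure.le_iff.2 fun A hA => ?_
      have hm := c'.open_source.measurableSet.inter hA
      rw [chartArea_apply _ hA, ← chartArea_of_subset _ hm inter_subset_left,
        ← key c' hc' _ inter_subset_left hm]
      exact measure_mono inter_subset_right
    · refine Measure.le_iff.2 fun A hA => ?_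
      rw [hνA A hA]
      calc ∑' n, chartArea (c n) (A ∩ N n) ≤ ∑' n, T.area (A ∩ N n) :=
            ENNReal.tsum_le_tsum fun n =>
              Measure.le_iff'.1 (le_iSup₂_of_le (f := fun c (_ : c ∈ T.atlas) => chartArea c)
                (c n) (hc n) le_rfl) _
        _ = T.area (⋃ n, A ∩ N n) := (measure_iUnion
            (fun i j hij => (h2 hij).mono inter_subset_right inter_subset_right)
            fun n => hA.inter (h1 n)).symm
        _ ≤ _ := measure_mono (iUnion_subset fun n => inter_subset_left)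
  refine ⟨?_, fun c' hc' A hA hm => by rw [e, key c' hc' A hA hm, chartArea_of_subset _ hm hA]⟩
  rw [e]
  refine measure_mono_null (t := (⋃ n, N n)ᶜ) (fun x hx hx' => ?_) ?_
  · obtain ⟨n, hn⟩ := mem_iUnion.1 hx'
    exact T.not_sing _ (hc n) x (hN n hn) hx
  · rw [hνA _ (MeasurableSet.iUnion h1).compl, ENNReal.tsum_eq_zero]
    intro n
    rw [(disjoint_compl_left_iff_subset.2 (subset_iUnion N n)).inter_eq, measure_empty]

theorem area_cone [T1Space X] {p : X} (hp : p ∈ T.sing) : ∃ V ∈ 𝓝 p, T.area V < ∞ := by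
  obtain ⟨k, ψ, h1, h2, h3⟩ := T.cone p hp
  set V := ψ.source ∩ ψ ⁻¹' ball 0 1 with hV
  have hVo : IsOpen V := ψ.continuousOn.isOpen_inter_preimage ψ.open_source isOpen_ball
  refine ⟨V, hVo.mem_nhds ⟨h1, by simp [h2]⟩, ?_⟩
  have hsm : MeasurableSet (T.sing : Set X) := T.sing.finite_toSet.measurableSet
  obtain ⟨N, g1, g2, g3, g4⟩ := exists_disjoint_cover (V \ T.sing)
    (fun W => W = ∅ ∨ ∃ c ∈ T.atlas, ∃ v : ℂ, ∀ y ∈ W, y ∈ c.source ∧ c y = ψ y ^ (k + 1) + v)
    (Or.inl rfl)
    (fun x hx => by
      obtain ⟨c, hc, hxc⟩ := T.cover x hx.2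
      obtain ⟨v, hv⟩ := h3 c hc x ⟨hxc, hx.1.1⟩
      exact ⟨_, Eventually.and (c.open_source.mem_nhds hxc) hv, Or.inr ⟨c, hc, v, fun _ hy => hy⟩⟩)
    (fun V W hW h => h.imp (fun h => subset_eq_empty hW h)
      fun ⟨c, hc, v, hv⟩ => ⟨c, hc, v, fun y hy => hv y (hW hy)⟩)
  set h : ℂ → ℂ := fun z => z ^ (k + 1) with hh
  have hd : ContDiff ℝ 1 h := contDiff_id.pow _
  have hm : MeasurableSet (V \ T.sing) := hVo.measurableSet.diff hsm
  have hsub : ∀ n, V \ T.sing ∩ N n ⊆ ψ.source := fun n x hx => hx.1.1.1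
  have hmi : ∀ n, MeasurableSet (ψ '' (V \ T.sing ∩ N n)) := fun n =>
    measurableSet_chart_image ψ (hm.inter (g1 n)) (hsub n)
  rw [← measure_sdiff_null (s := V) T.area_spec.1, measure_eq_tsum_inter _ g1 g2 hm g3]
  calc ∑' n, T.area (V \ T.sing ∩ N n)
      ≤ ∑' n, ∫⁻ z in ψ '' (V \ T.sing ∩ N n), ENNReal.ofReal |(fderiv ℝ h z).det| := by
        refine ENNReal.tsum_le_tsum fun n => ?_
        rcases g4 n with h0 | ⟨c, hc, v, hv⟩
        · simp [h0]
        rw [T.area_spec.2 c hc _ (fun y hy => (hv y hy.2).1) (hm.inter (g1 n)),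
          volume_image_shift (g := fun y => h (ψ y)) fun y hy => (hv y hy.2).2, ← image_image h]
        exact addHaar_image_le_lintegral_abs_det_fderiv volume (hmi n) fun z _ =>
          (hd.differentiable one_ne_zero z).hasFDerivAt.hasFDerivWithinAt
    _ = ∫⁻ z in ⋃ n, ψ '' (V \ T.sing ∩ N n), ENNReal.ofReal |(fderiv ℝ h z).det| := by
        refine (lintegral_iUnion hmi (fun i j hij => ?_) _).symm
        exact Set.disjoint_image_image fun a ha b hb hab =>
          Set.disjoint_left.1 (g2 hij) ha.2 (ψ.injOn (hsub i ha) (hsub j hb) hab ▸ hb.2)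
    _ ≤ ∫⁻ z in closedBall 0 1, ENNReal.ofReal |(fderiv ℝ h z).det| := by
        refine lintegral_mono_set (iUnion_subset fun n => ?_)
        rintro _ ⟨y, hy, rfl⟩
        exact ball_subset_closedBall hy.1.1.2
    _ < ∞ := setLIntegral_lt_top_of_isCompact measure_closedBall_lt_top.ne (isCompact_closedBall _ _)
        (continuous_real_toNNReal.comp
          (ContinuousLinearMap.continuous_det.comp (hd.continuous_fderiv one_ne_zero)).abs)

omit [SecondCountableTopology X] in
theorem isNormalisedArea [T2Space X] [CompactSpace X] [ConnectedSpace X] :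
    IsNormalisedArea T T.normArea := by
  have := T.secondCountable
  have hloc : IsLocallyFiniteMeasure T.area := ⟨fun x => by
    by_cases hx : x ∈ T.sing
    · exact T.area_cone hx
    obtain ⟨c, hc, hxc⟩ := T.cover x hx
    have ho : IsOpen (c.source ∩ c ⁻¹' ball (c x) 1) :=
      c.continuousOn.isOpen_inter_preimage c.open_source isOpen_ball
    refine ⟨_, ho.mem_nhds ⟨hxc, by simp⟩, ?_⟩
    rw [T.area_spec.2 c hc _ inter_subset_left ho.measurableSet]
    exact (measure_mono (image_subset_iff.2 inter_subset_right)).trans_lt measure_ball_lt_top⟩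
  have hfin : T.area univ ≠ ∞ := measure_ne_top _ _
  have hpos : T.area univ ≠ 0 := by
    obtain ⟨x, hx⟩ : ∃ x, x ∉ T.sing := by
      obtain ⟨p⟩ := (inferInstance : Nonempty X)
      by_cases hp : p ∈ T.sing
      · obtain ⟨F, hs, -⟩ := T.exists_flow
        exact hs ▸ (F.freq_reg p (hs ▸ hp)).exists
      · exact ⟨p, hp⟩
    obtain ⟨c, hc, hxc⟩ := T.cover x hx
    intro h0
    have := T.area_spec.2 c hc _ Subset.rfl c.open_source.measurableSet
    rw [measure_mono_null (subset_univ _) h0, c.image_source_eq_target] at this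
    exact (c.open_target.measure_pos volume ⟨_, c.map_source hxc⟩).ne this
  refine ⟨⟨by simp [normArea, ENNReal.inv_mul_cancel hpos hfin]⟩, by simp [normArea, T.area_spec.1],
    (T.area univ)⁻¹.toNNReal, fun c hc A hA hm => ?_⟩
  rw [ENNReal.coe_toNNReal (ENNReal.inv_ne_top.2 hpos), normArea, Measure.smul_apply,
    T.area_spec.2 c hc A hA hm, smul_eq_mul]

end TranslationSurface

end Pool.Agent.Lib.MP_1e1a64_an
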