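import Mathlib

/-!
Birkhoff averages: elementary quantitative facts.
-/

open Set Filter Topology MeasureTheory Finset

namespace Pool.Agent.Lib.MP_1e1a64_an

section
variable {X : Type*} (Θ : X → X)

noncomputable def B (n : ℕ) (φ : X → ℝ) (x : X) : ℝ := (∑ k ∈ range n, φ (Θ^[k] x)) / n

theorem abs_avg_le {n : ℕ} {a : ℕ → ℝ} {c : ℝ} (hc : 0 ≤ c) (h : ∀ k < n, |a k| ≤ c) :
    |(∑ k ∈ range n, a k) / n| ≤ c := by
  rcases Nat.eq_zero_or_pos n with rfl | hn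
  · simpa using hc
  have hn' : (0 : ℝ) < n := by exact_mod_cast hn
  rw [abs_div, abs_of_pos hn', div_le_iff₀ hn']
  refine (abs_sum_le_sum_abs _ _).trans ((sum_le_card_nsmul _ _ c fun k hk =>
    h k (mem_range.1 hk)).trans (by simp [mul_comm]))

variable {Θ}

theorem abs_B_le {φ : X → ℝ} (h : ∀ x, |φ x| ≤ 1) (n : ℕ) (x : X) : |B Θ n φ x| ≤ 1 :=
  abs_avg_le zero_le_one fun _ _ => h _

theorem shift_sum {a : ℕ → ℝ} (h : ∀ k, |a k| ≤ 1) (m j : ℕ) :
    |∑ k ∈ range m, a (j + k) - ∑ k ∈ range m, a k| ≤ 2 * j := by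
  have h1 := sum_range_add a j m
  have h2 := sum_range_add a m j
  rw [add_comm m j, h1] at h2
  have h3 : |∑ k ∈ range j, a k| ≤ j := (abs_sum_le_sum_abs _ _).trans
    ((sum_le_card_nsmul _ _ 1 fun k _ => h k).trans (by simp))
  have h4 : |∑ k ∈ range j, a (m + k)| ≤ j := (abs_sum_le_sum_abs _ _).trans
    ((sum_le_card_nsmul _ _ 1 fun k _ => h _).trans (by simp))
  rw [abs_le] at h3 h4 ⊢
  constructor <;> linarith [h3.1, h3.2, h4.1, h4.2]

theorem B_B_sub {φ : X → ℝ} (h : ∀ x, |φ x| ≤ 1) {n m : ℕ} (hn : 0 < n) (hm : 0 < m) (x : X) :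
    |B Θ m (B Θ n φ) x - B Θ m φ x| ≤ 2 * n / m := by
  have hn' : (0 : ℝ) < n := by exact_mod_cast hn
  have hm' : (0 : ℝ) < m := by exact_mod_cast hm
  have e1 : B Θ m (B Θ n φ) x - B Θ m φ x = (∑ j ∈ range n,
      ((∑ k ∈ range m, φ (Θ^[j + k] x) - ∑ k ∈ range m, φ (Θ^[k] x)) / m)) / n := by
    simp only [B, Function.iterate_add_apply]
    rw [← sum_div, ← sum_div, sum_sub_distrib, sum_comm]
    simp only [sum_const, card_range, nsmul_eq_mul]
    field_simp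
  rw [e1]
  refine abs_avg_le (by positivity) fun j hj => ?_
  rw [abs_div, abs_of_pos hm']
  have := shift_sum (a := fun k => φ (Θ^[k] x)) (fun k => h _) m j
  have h2 : (j : ℝ) ≤ n := by exact_mod_cast hj.le
  gcongr
  linarith

theorem B_mul (φ : X → ℝ) (n k : ℕ) (hn : 0 < n) (x : X) :
    B Θ (n * k) φ x = (∑ i ∈ range k, B Θ n φ (Θ^[n * i] x)) / k := by
  have hn' : (0 : ℝ) < n := by exact_mod_cast hn
  have : ∑ r ∈ range (n * k), φ (Θ^[r] x) =
      ∑ i ∈ range k, ∑ j ∈ range n, φ (Θ^[j] (Θ^[n * i] x)) := by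
    induction k with
    | zero => simp
    | succ k ih =>
      rw [mul_add, mul_one, sum_range_add, ih, sum_range_succ]
      simp only [← Function.iterate_add_apply, add_comm]
  simp only [B]
  rw [this, ← sum_div, div_div]
  push_cast; rfl

theorem pigeon {v : ℕ → ℝ} (hv : Antitone v) (h0 : ∀ i, 0 ≤ v i) (h1 : v 0 ≤ 1) (a : ℕ) {δ : ℝ}
    (T : Finset ℕ) (hT : ∀ i ∈ T, δ ≤ v i - v (i + a)) : T.card * δ ≤ a := by
  obtain ⟨N, hN⟩ := T.exists_nat_subset_range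
  have h2 := sum_range_add v a N
  have h3 := sum_range_add v N a
  rw [add_comm N a, h2] at h3
  have h4 : ∑ i ∈ range a, v i ≤ a :=
    (sum_le_card_nsmul _ _ 1 fun k _ => (hv (Nat.zero_le k)).trans h1).trans (by simp)
  have h5 : 0 ≤ ∑ i ∈ range a, v (N + i) := sum_nonneg fun _ _ => h0 _
  have h6 : ∑ i ∈ T, (v i - v (i + a)) ≤ ∑ i ∈ range N, (v i - v (i + a)) :=
    sum_le_sum_of_subset_of_nonneg hN fun i _ _ => sub_nonneg.2 (hv (Nat.le_add_right i a))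
  have h7 := card_nsmul_le_sum T _ δ hT
  rw [sum_sub_distrib] at h6
  simp only [add_comm _ a] at h6 h7
  rw [nsmul_eq_mul, sum_sub_distrib] at h7
  rw [sum_sub_distrib] at h6
  linarith

end

variable {X : Type*} [MeasurableSpace X] {μ : Measure X} [IsProbabilityMeasure μ] {Θ : X → X}

theorem measurable_B (hΘ : Measurable Θ) {φ : X → ℝ} (hφ : Measurable φ) (n : ℕ) :
    Measurable (B Θ n φ) :=
  (Finset.measurable_sum _ fun k _ => hφ.comp (hΘ.iterate k)).div_const _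

theorem integrable_of_bdd {φ : X → ℝ} (hφ : Measurable φ) {c : ℝ} (h : ∀ x, |φ x| ≤ c) :
    Integrable φ μ :=
  Integrable.of_bound hφ.aestronglyMeasurable c (Eventually.of_forall h)

omit [IsProbabilityMeasure μ] in
theorem integral_iter (hΘ : MeasurePreserving Θ μ μ) {φ : X → ℝ} (hφ : Measurable φ) (k : ℕ) :
    ∫ x, φ (Θ^[k] x) ∂μ = ∫ x, φ x ∂μ := by
  have := hΘ.iterate k
  rw [← integral_map this.measurable.aemeasurable hφ.aestronglyMeasurable, this.map_eq]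

theorem integral_sum_iter (hΘ : MeasurePreserving Θ μ μ) {φ : X → ℝ} (hφ : Measurable φ) {c : ℝ}
    (h : ∀ x, |φ x| ≤ c) (s : Finset ℕ) (g : ℕ → ℕ) :
    ∫ x, ∑ k ∈ s, φ (Θ^[g k] x) ∂μ = s.card * ∫ x, φ x ∂μ := by
  rw [integral_finsetSum (f := fun k x => φ (Θ^[g k] x)) _ fun k _ =>
    integrable_of_bdd (hφ.comp (hΘ.measurable.iterate (g k))) fun x => h _]
  simp [integral_iter hΘ hφ]

theorem integral_B (hΘ : MeasurePreserving Θ μ μ) {φ : X → ℝ} (hφ : Measurable φ)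
    (h : ∀ x, |φ x| ≤ 1) {n : ℕ} (hn : 0 < n) : ∫ x, B Θ n φ x ∂μ = ∫ x, φ x ∂μ := by
  have hn' : (0 : ℝ) < n := by exact_mod_cast hn
  simp only [B]
  rw [integral_div, integral_sum_iter hΘ hφ h _ fun k => k, card_range]
  field_simp

theorem abs_sq_le {a : ℝ} (h : |a| ≤ 1) : |a ^ 2| ≤ 1 := by
  rw [abs_pow]; exact pow_le_one₀ (abs_nonneg _) h

theorem integrable_sum_iter (hΘ : Measurable Θ) {φ : X → ℝ} (hφ : Measurable φ) {c : ℝ}
    (h : ∀ x, |φ x| ≤ c) (s : Finset ℕ) (g : ℕ → ℕ) :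
    Integrable (fun x => ∑ k ∈ s, φ (Θ^[g k] x)) μ :=
  integrable_finsetSum _ fun k _ => integrable_of_bdd (hφ.comp (hΘ.iterate (g k))) fun _ => h _

theorem energy_mul_le (hΘ : MeasurePreserving Θ μ μ) {φ : X → ℝ} (hφ : Measurable φ)
    (h : ∀ x, |φ x| ≤ 1) {n k : ℕ} (hn : 0 < n) (hk : 0 < k) :
    ∫ x, B Θ (n * k) φ x ^ 2 ∂μ ≤ ∫ x, B Θ n φ x ^ 2 ∂μ := by
  have hk' : (0 : ℝ) < k := by exact_mod_cast hk
  have m1 : Measurable fun x => B Θ n φ x ^ 2 := (measurable_B hΘ.measurable hφ n).pow_const 2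
  have b1 : ∀ x, |B Θ n φ x ^ 2| ≤ 1 := fun x => abs_sq_le (abs_B_le h n x)
  have := integral_sum_iter hΘ m1 b1 (range k) fun i => n * i
  rw [card_range] at this
  rw [← mul_le_mul_iff_right₀ hk', ← this, ← integral_const_mul]
  refine integral_mono ((integrable_of_bdd ((measurable_B hΘ.measurable hφ _).pow_const 2)
    fun x => abs_sq_le (abs_B_le h _ x)).const_mul _)
    (integrable_sum_iter hΘ.measurable m1 b1 _ _) fun x => ?_
  simp only
  rw [B_mul φ n k hn, div_pow]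
  have := sq_sum_le_card_mul_sum_sq (s := range k) (f := fun i => B Θ n φ (Θ^[n * i] x))
  rw [card_range] at this
  rw [← mul_div_assoc, div_le_iff₀ (by positivity)]
  nlinarith

theorem shift_energy_le (hΘ : MeasurePreserving Θ μ μ) {G : X → ℝ} (hG : Measurable G)
    (h : ∀ x, |G x| ≤ 1) {m j : ℕ} (hm : 0 < m) (hj : 2 * j ≤ m) :
    ∫ x, (G (Θ^[j] x) - G x) ^ 2 ∂μ ≤ 8 * (∫ x, G x ^ 2 ∂μ - ∫ x, B Θ m G x ^ 2 ∂μ) := by
  have hm' : (0 : ℝ) < m := by exact_mod_cast hm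
  obtain ⟨l, rfl⟩ : ∃ l, m = j + l := ⟨m - j, by omega⟩
  have m1 : Measurable fun x => (G (Θ^[j] x) - G x) ^ 2 :=
    ((hG.comp (hΘ.measurable.iterate j)).sub hG).pow_const 2
  have b1 : ∀ x, |(G (Θ^[j] x) - G x) ^ 2| ≤ 4 := by
    intro x
    rw [abs_of_nonneg (sq_nonneg _)]
    have := abs_le.1 (h x)
    have := abs_le.1 (h (Θ^[j] x))
    nlinarith
  have m2 : Measurable fun x => G x ^ 2 := hG.pow_const 2
  have b2 : ∀ x, |G x ^ 2| ≤ 1 := fun x => abs_sq_le (h x)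
  have i3 : Integrable (fun x => B Θ (j + l) G x ^ 2) μ :=
    integrable_of_bdd ((measurable_B hΘ.measurable hG _).pow_const 2)
      fun x => abs_sq_le (abs_B_le h _ x)
  have e1 := integral_sum_iter hΘ m1 b1 (range l) fun i => i
  have e2 := integral_sum_iter hΘ m2 b2 (range (j + l)) fun i => i
  rw [card_range] at e1 e2
  have key : ∫ x, ∑ k ∈ range l, (G (Θ^[j] (Θ^[k] x)) - G (Θ^[k] x)) ^ 2 ∂μ ≤
      ∫ x, (4 * ∑ k ∈ range (j + l), G (Θ^[k] x) ^ 2 -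
        4 * ((j + l : ℕ) : ℝ) * B Θ (j + l) G x ^ 2) ∂μ := by
    refine integral_mono (integrable_sum_iter hΘ.measurable m1 b1 _ _)
      (((integrable_sum_iter hΘ.measurable m2 b2 _ fun i => i).const_mul _).sub (i3.const_mul _))
      fun x => ?_
    simp only
    set a := B Θ (j + l) G x with ha
    have s1 : ∑ k ∈ range (j + l), G (Θ^[k] x) = ((j + l : ℕ) : ℝ) * a := by
      rw [ha, B]; field_simp
    have s2 : ∑ k ∈ range (j + l), (G (Θ^[k] x) - a) ^ 2 =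
        ∑ k ∈ range (j + l), G (Θ^[k] x) ^ 2 - ((j + l : ℕ) : ℝ) * a ^ 2 := by
      simp only [sub_sq, sum_add_distrib, sum_sub_distrib, sum_const, card_range, nsmul_eq_mul]
      rw [← sum_mul, ← mul_sum, s1]; ring
    have s3 : ∑ k ∈ range l, (G (Θ^[j + k] x) - a) ^ 2 ≤
        ∑ k ∈ range (j + l), (G (Θ^[k] x) - a) ^ 2 := by
      rw [sum_range_add]
      exact le_add_of_nonneg_left (sum_nonneg fun _ _ => sq_nonneg _)
    have s4 : ∑ k ∈ range l, (G (Θ^[k] x) - a) ^ 2 ≤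
        ∑ k ∈ range (j + l), (G (Θ^[k] x) - a) ^ 2 :=
      sum_le_sum_of_subset_of_nonneg (range_mono (by omega)) fun _ _ _ => sq_nonneg _
    have s5 : ∑ k ∈ range l, (G (Θ^[j] (Θ^[k] x)) - G (Θ^[k] x)) ^ 2 ≤
        ∑ k ∈ range l, (2 * (G (Θ^[j + k] x) - a) ^ 2 + 2 * (G (Θ^[k] x) - a) ^ 2) := by
      refine sum_le_sum fun k _ => ?_
      rw [Function.iterate_add_apply]
      nlinarith [sq_nonneg (G (Θ^[j] (Θ^[k] x)) + G (Θ^[k] x) - 2 * a)]
    rw [sum_add_distrib, ← mul_sum, ← mul_sum] at s5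
    linarith
  rw [e1, integral_sub ((integrable_sum_iter hΘ.measurable m2 b2 _ fun i => i).const_mul _)
    (i3.const_mul _), integral_const_mul, integral_const_mul, e2] at key
  have hl : ((j + l : ℕ) : ℝ) ≤ 2 * l := by
    have : j + l ≤ 2 * l := by omega
    exact_mod_cast this
  have p1 : 0 ≤ ∫ x, (G (Θ^[j] x) - G x) ^ 2 ∂μ := integral_nonneg fun _ => sq_nonneg _
  rw [← mul_le_mul_iff_right₀ hm']
  nlinarith

theorem l1_le {φ : X → ℝ} (hφ : Measurable φ) (h : ∀ x, |φ x| ≤ 2) {δ : ℝ} (hδ : 0 < δ)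
    (h2 : ∫ x, φ x ^ 2 ∂μ ≤ δ ^ 2) : ∫ x, |φ x| ∂μ ≤ δ := by
  have i1 : Integrable (fun x => φ x ^ 2) μ := integrable_of_bdd (hφ.pow_const 2) (c := 4) fun x => by
    rw [abs_pow]; nlinarith [h x, abs_nonneg (φ x)]
  have : ∫ x, |φ x| ∂μ ≤ ∫ x, (δ / 2 + (2 * δ)⁻¹ * φ x ^ 2) ∂μ := by
    refine integral_mono (integrable_of_bdd hφ h).abs ((integrable_const _).add (i1.const_mul _))
      fun x => ?_
    simp only
    rw [← sq_abs, ← mul_le_mul_iff_right₀ (show 0 < 2 * δ by positivity)]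
    field_simp
    nlinarith [sq_nonneg (|φ x| - δ)]
  rw [integral_add (integrable_const _) (i1.const_mul _), integral_const_mul] at this
  simp only [integral_const, probReal_univ, smul_eq_mul, one_mul] at this
  have h3 : (2 * δ)⁻¹ * ∫ x, φ x ^ 2 ∂μ ≤ δ / 2 := by
    rw [inv_mul_le_iff₀ (by positivity)]; nlinarith
  linarith

theorem shift_l1_le (hΘ : MeasurePreserving Θ μ μ) {f : X → ℝ} (hf : Measurable f)
    (h : ∀ x, |f x| ≤ 1) {n m j : ℕ} (hn : 0 < n) (hm : 0 < m) (hj : 2 * j ≤ m) {δ : ℝ}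
    (hδ : 0 < δ) (hd : 8 * (∫ x, B Θ n f x ^ 2 ∂μ - ∫ x, B Θ m f x ^ 2 ∂μ + 4 * n / m) ≤ δ ^ 2) :
    ∫ x, |B Θ n f (Θ^[j] x) - B Θ n f x| ∂μ ≤ δ := by
  have hG := measurable_B hΘ.measurable hf n
  have hb := abs_B_le (Θ := Θ) h n
  refine l1_le ((hG.comp (hΘ.measurable.iterate j)).sub hG) (fun x => ?_) hδ
    ((shift_energy_le hΘ hG hb hm hj).trans (le_trans ?_ hd))
  · show |B Θ n f (Θ^[j] x) - B Θ n f x| ≤ 2
    exact (abs_sub _ _).trans (by linarith [hb x, hb (Θ^[j] x)])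
  have : ∫ x, B Θ m f x ^ 2 ∂μ ≤ ∫ x, (B Θ m (B Θ n f) x ^ 2 + 4 * n / m) ∂μ := by
    refine integral_mono (integrable_of_bdd ((measurable_B hΘ.measurable hf _).pow_const 2)
      fun x => abs_sq_le (abs_B_le h _ x)) ((integrable_of_bdd
        ((measurable_B hΘ.measurable hG _).pow_const 2) fun x => abs_sq_le (abs_B_le hb _ x)).add
        (integrable_const _)) fun x => ?_
    simp only
    have h1 := abs_le.1 (B_B_sub (Θ := Θ) h hn hm x)
    have h2 := abs_le.1 (abs_B_le (Θ := Θ) h m x)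
    have h3 := abs_le.1 (abs_B_le (Θ := Θ) hb m x)
    have e : (4 : ℝ) * n / m = 2 * (2 * n / m) := by ring
    rw [e]
    nlinarith
  rw [integral_add (integrable_of_bdd ((measurable_B hΘ.measurable hG _).pow_const 2)
    fun x => abs_sq_le (abs_B_le hb _ x)) (integrable_const _)] at this
  simp only [integral_const, probReal_univ, smul_eq_mul, one_mul] at this
  linarith

theorem few_drops (hΘ : MeasurePreserving Θ μ μ) {f : X → ℝ} (hf : Measurable f)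
    (h : ∀ x, |f x| ≤ 1) {β : ℕ} (hβ : 0 < β) (a : ℕ) {δ : ℝ} (T : Finset ℕ)
    (hT : ∀ i ∈ T, δ ≤ ∫ x, B Θ (β ^ i) f x ^ 2 ∂μ - ∫ x, B Θ (β ^ (i + a)) f x ^ 2 ∂μ) :
    T.card * δ ≤ a := by
  refine pigeon (v := fun i => ∫ x, B Θ (β ^ i) f x ^ 2 ∂μ) (antitone_nat_of_succ_le fun i => ?_)
    (fun i => integral_nonneg fun _ => sq_nonneg _) ?_ a T hT
  · rw [pow_succ]; exact energy_mul_le hΘ hf h (pow_pos hβ i) hβ
  · have : ∫ x, B Θ (β ^ 0) f x ^ 2 ∂μ ≤ ∫ _x, (1 : ℝ) ∂μ :=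
      integral_mono (integrable_of_bdd ((measurable_B hΘ.measurable hf _).pow_const 2)
        fun x => abs_sq_le (abs_B_le h _ x)) (integrable_const _)
        fun x => (le_abs_self _).trans (abs_sq_le (abs_B_le h _ x))
    simpa using this

end Pool.Agent.Lib.MP_1e1a64_an
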