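import Pool.Agent.Lib.MP_1e1a64_an.Ext

/-!
Bounds for non crossing families and for chains of complexes.
-/

open Set Filter Topology MeasureTheory Metric
open scoped ENNReal NNReal

namespace Pool.Agent.Lib.MP_1e1a64_an

namespace Flow

variable {X : Type*} [TopologicalSpace X] {F : Flow X} [T2Space X] [CompactSpace X]
variable {S : Set X} {e f : X × ℂ} {d : ℂ}

variable (F) in
def Wedge (S : Set X) (e : X × ℂ) (d : ℂ) : Prop :=
  ∃ C : ℝ, ∀ᶠ t in 𝓝[<] (1 : ℝ), ∃ τ ≤ C * (1 - t), F.Land S e d t τ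

variable (F) in
def Lab (e : X × ℂ) (v : ℂ) (y : X) : Prop :=
  F.Hit y (-v) ∧ ∀ᶠ t in 𝓝[<] (1 : ℝ), F.go y (-v + (t - 1) • e.2) = F.pt e t

theorem ev_small (u : ℂ) {ε : ℝ} (hε : 0 < ε) : ∀ᶠ t in 𝓝[<] (1 : ℝ), ‖(1 - t) • u‖ < ε := by
  apply Eventually.filter_mono nhdsWithin_le_nhds
  have : ContinuousAt (fun t : ℝ => ‖(1 - t) • u‖) 1 := by fun_prop
  exact this.eventually (gt_mem_nhds (by simpa using hε))

theorem exists_lab {ε : ℝ} (hs : F.Sys ε) (he : F.IsSC e) {v : ℂ} (hv : ‖v‖ < ε / 2)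
    (hd : wedge e.2 v ≠ 0) : ∃ y, F.Lab e v y := by
  have hε : 0 < ε / 2 := (norm_nonneg _).trans_lt hv
  obtain ⟨t1, ht1, h1⟩ := (Eventually.and (Ioo_mem_nhdsLT (show (-1 : ℝ) < 1 by norm_num))
    (ev_small e.2 hε)).exists
  have hh := he.hit_end ht1
  have hz : ‖(1 - t1) • e.2 + v‖ < ε := by linarith [norm_add_le ((1 - t1) • e.2) v]
  have hD : (1 - t1) • e.2 + v ∈ F.D (F.pt e t1) := hs.slit hh (by linarith) hz (by
    intro s _ h
    have := congrArg (wedge e.2) h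
    simp only [wedge_add_right, wedge_smul_right, wedge_self] at this
    exact hd (by simpa using this))
  refine ⟨F.go (F.pt e t1) ((1 - t1) • e.2 + v), by simpa using hs.move hh (by linarith) hz hD, ?_⟩
  filter_upwards [Ico_mem_nhdsLT ht1.2] with t ht
  have hk : 0 < 1 - t1 := by linarith [ht1.2]
  have := (F.coc (convex_tri _ _ 2) (hs.tri_sub hh (by linarith) hz hD)
    (z := (1 - t1) • e.2 + v) (z' := (t - t1) • e.2)
    ⟨1, 0, zero_le_one, le_rfl, by norm_num, by norm_num, by norm_num, by simp⟩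
    ⟨0, (t - t1) / (1 - t1), le_rfl, div_nonneg (by linarith [ht.1]) hk.le,
      by rw [zero_add, div_le_one hk]; linarith [ht.2], by norm_num,
      by rw [div_lt_one hk]; linarith [ht.2],
      by rw [zero_smul, zero_add, smul_smul, div_mul_cancel₀ _ hk.ne']⟩).2
  rw [(he.step ht1 ⟨ht1.1.trans_le ht.1, ht.2⟩).2] at this
  rw [← this]
  congr 1; module

theorem tendsto_affine_lt {α : ℝ} (hα : 0 < α) :
    Tendsto (fun t : ℝ => 1 - α * (1 - t)) (𝓝[<] 1) (𝓝[<] 1) := by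
  refine tendsto_nhdsWithin_iff.2 ⟨?_, ?_⟩
  · apply Tendsto.mono_left _ nhdsWithin_le_nhds
    have : Continuous (fun t : ℝ => 1 - α * (1 - t)) := by fun_prop
    simpa using this.tendsto 1
  · filter_upwards [self_mem_nhdsWithin] with t ht
    have : t < 1 := ht
    show 1 - α * (1 - t) < 1
    nlinarith

theorem lab_wedge {ε r : ℝ} (hs : F.Sys ε) (hS : IsClosed S) (he : F.IsSC e) (ho : F.Out S e d)
    (hd : wedge e.2 d ≠ 0) (hsub : F.arc f ⊆ S) (hv : ‖r • d‖ < ε / 2) {y : X}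
    (h1 : F.Lab e (r • d) y) (h2 : F.Lab f (r • d) y) {α β : ℝ} (hα : 0 < α) (hβ : 0 < β)
    (hab : e.2 = α • f.2 + β • d) : F.Wedge S e d := by
  have hε : 0 < ε / 4 := by linarith [norm_nonneg (r • d)]
  have hI := Ioo_mem_nhdsLT (show (-1 : ℝ) < 1 by norm_num)
  refine ⟨β, ?_⟩
  filter_upwards [h1.2, (tendsto_affine_lt hα).eventually (h2.2.and hI), hI, ev_small e.2 hε,
    ev_small (β • d) hε] with t a1 a2 ht n1 n2
  have hc := F.cocycle y (-(r • d) + (t - 1) • e.2) ((β * (1 - t)) • d) (fun θ hθ => by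
    refine hs.slit h1.1 (by rw [norm_neg]; linarith) ?_ ?_
    · have e1 : -(r • d) + (t - 1) • e.2 + θ • (β * (1 - t)) • d =
          -(r • d) + -((1 - t) • e.2) + θ • (1 - t) • β • d := by module
      rw [e1]
      have n3 : ‖θ • (1 - t) • β • d‖ ≤ ‖(1 - t) • β • d‖ := by
        rw [norm_smul θ, Real.norm_eq_abs, abs_of_nonneg hθ.1]
        nlinarith [hθ.2, norm_nonneg ((1 - t) • β • d)]
      have := norm_add₃_le (a := -(r • d)) (b := -((1 - t) • e.2)) (c := θ • (1 - t) • β • d)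
      rw [norm_neg, norm_neg] at this
      linarith
    · intro s _ h
      have := congrArg (fun w => wedge w d) h
      simp only [wedge_add_left, wedge_smul_left, wedge_self, wedge_neg_left] at this
      exact mul_ne_zero (show t - 1 ≠ 0 by linarith [ht.2]) hd (by simpa using this))
  rw [a1, show -(r • d) + (t - 1) • e.2 + (β * (1 - t)) • d =
    -(r • d) + (1 - α * (1 - t) - 1) • f.2 by rw [hab]; module, a2.1] at hc
  have hW : (t, β * (1 - t)) ∈ F.W e d := ⟨ht, hc.1⟩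
  obtain ⟨τ, hτ, hE⟩ := first_event hS ho he hd ht (τ' := β * (1 - t))
    (mul_pos hβ (by linarith [ht.2])) (fun _ => by
      show F.go _ _ ∈ S
      rw [hc.2]; exact hsub (F.pt_mem_arc f a2.2))
  rcases hE with hv | hl
  · exact absurd (W_down hW hτ.1.le hτ.2) hv.2.2.2
  · exact ⟨τ, hτ.2, hl⟩

theorem lab_card (hS : IsClosed S) (B : Finset (X × ℂ))
    (h : ∀ e ∈ B, F.IsSC e ∧ F.arc e ⊆ S ∧ F.Out S e d ∧ ¬ F.Wedge S e d)
    (hsign : ∀ e ∈ B, ∀ f ∈ B, 0 < wedge e.2 d * wedge f.2 d) : B.card ≤ F.K0 := by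
  classical
  rcases B.eq_empty_or_nonempty with rfl | ⟨e0, -⟩
  · simp
  have : Nonempty X := ⟨e0.1⟩
  obtain ⟨ε, hε, hs⟩ := F.exists_sys
  obtain ⟨r, hr0, hr⟩ := (Eventually.and (self_mem_nhdsWithin : Ioi (0 : ℝ) ∈ 𝓝[>] 0)
    ((tendsto_smul_zero' d).eventually (ball_mem_nhds (0 : ℂ) (half_pos hε)))).exists
  have hr0 : 0 < r := hr0
  rw [dist_zero_right] at hr
  have hd : ∀ e ∈ B, wedge e.2 d ≠ 0 := fun e he h0 => by simpa [h0] using hsign e he e he
  choose! y hy using fun e (he : e ∈ B) => exists_lab hs (h e he).1 hr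
    (by rw [wedge_smul_right]; exact mul_ne_zero hr0.ne' (hd e he))
  obtain ⟨G, hG, hG2⟩ := F.hit_finite (-(r • d))
  refine (Finset.card_le_card_of_injOn y (fun e he => hG2 _ (hy e he).1) ?_).trans hG
  intro e he f hf hyy
  have hα : ∀ e ∈ B, ∀ f ∈ B, 0 < wedge e.2 d / wedge f.2 d := fun e he f hf =>
    div_pos_iff.2 (mul_pos_iff.1 (hsign e he f hf))
  have hle := hy e he
  have hlf := hy f hf
  rw [← hyy] at hlf
  rcases lt_trichotomy (wedge f.2 e.2 / wedge f.2 d) 0 with h0 | h0 | h0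
  · refine absurd (lab_wedge hs hS (h f hf).1 (h f hf).2.2.1 (hd f hf) (h e he).2.1 hr hlf hle
      (hα f hf e he) ?_ (wedge_decomp (hd e he) f.2)) (h f hf).2.2.2
    have h1 := hα f hf e he
    have : wedge e.2 f.2 / wedge e.2 d =
        -(wedge f.2 e.2 / wedge f.2 d) * (wedge f.2 d / wedge e.2 d) := by
      have := hd f hf
      rw [wedge_comm e.2 f.2]; field_simp
    rw [this]
    exact mul_pos (by linarith) h1
  · have hab := wedge_decomp (hd f hf) e.2
    rw [h0, zero_smul, add_zero] at hab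
    have hI := Ioo_mem_nhdsLT (show (-1 : ℝ) < 1 by norm_num)
    obtain ⟨t, a1, a2, ht⟩ := (hle.2.and (((tendsto_affine_lt (hα e he f hf)).eventually
      (hlf.2.and hI)).and hI)).exists
    refine ((h f hf).1.eq_of_pos (h e he).1 a2.2 ht ?_ (hα e he f hf) hab).1
    rw [← a1, ← a2.1]
    congr 1
    generalize wedge e.2 d / wedge f.2 d = α at hab
    rw [hab]; module
  · exact absurd (lab_wedge hs hS (h e he).1 (h e he).2.2.1 (hd e he) (h f hf).2.1 hr hle hlf
      (hα e he f hf) h0 (wedge_decomp (hd f hf) e.2)) (h e he).2.2.2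

theorem not_both_wedge (hS : F.Cx S) (he : F.IsSC e) (hd : wedge e.2 d ≠ 0) (ho : F.Out S e d)
    (h1 : F.Wedge S e d) (h2 : F.Wedge S (rev e) d) : ∃ t τ, F.Vis S e d t τ := by
  obtain ⟨C, h1⟩ := h1
  obtain ⟨C', h2⟩ := h2
  obtain ⟨t0, τ0, -, hl⟩ := h1.exists
  obtain ⟨f, hf, s0, h⟩ := hl.edge hS
  have hab := wedge_decomp (h.wedge_ne hf.1 (hS.sub f hf)) e.2
  generalize wedge e.2 d / wedge f.2 d = a at hab
  generalize wedge f.2 e.2 / wedge f.2 d = b at hab
  rcases chord1 (normSeminorm ℝ ℂ) hS he hd ho hf hab h (le_max_left _ _) (le_max_right _ _)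
    le_rfl with ⟨t, τ, hv, -⟩ | h3
  · exact ⟨t, τ, hv⟩
  exfalso
  have hI := Ioo_mem_nhdsLT (show (-1 : ℝ) < 1 by norm_num)
  have a1 : τ0 - b * (1 - t0) - C * (1 - 1) ≤ 0 := by
    have c : Continuous fun t : ℝ => τ0 - b * (t - t0) - C * (1 - t) := by fun_prop
    apply le_of_tendsto ((c.tendsto 1).mono_left (nhdsWithin_le_nhds (s := Iio 1)))
    filter_upwards [h1, hI] with t ⟨τ, h4, h5⟩ ht
    linarith [h5.unique (h3 t ht).1]
  have a2 : τ0 - b * (-1 - t0) - C' * (1 - 1) ≤ 0 := by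
    have c : Continuous fun t : ℝ => τ0 - b * (-t - t0) - C' * (1 - t) := by fun_prop
    apply le_of_tendsto ((c.tendsto 1).mono_left (nhdsWithin_le_nhds (s := Iio 1)))
    filter_upwards [h2, hI] with t ⟨τ, h4, h5⟩ ht
    linarith [h5.rev.unique (h3 (-t) (neg_mem_Ioo ht)).1]
  linarith [(h3 0 ⟨by norm_num, by norm_num⟩).1.2.1]

theorem half_card (hS : F.Cx S) (A : Finset (X × ℂ))
    (h : ∀ e ∈ A, F.IsSC e ∧ F.arc e ⊆ S ∧ F.Out S e d ∧ 0 < wedge e.2 d) (hnc : F.NC A) :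
    A.card ≤ 3 * F.K0 := by
  classical
  have c1 : (A.filter fun e => ∃ t τ, F.Vis S e d t τ).card ≤ F.K0 := by
    choose! t τ hv using fun e (he : e ∈ A.filter fun e => ∃ t τ, F.Vis S e d t τ) =>
      (Finset.mem_filter.1 he).2
    refine vis_card (S := S) (d := d) _ (fun e => F.pt e (t e)) τ (fun e he => ?_) ?_
    · have h1 := h e (Finset.mem_filter.1 he).1
      have h2 := hv e he
      exact ⟨h1.2.1 (F.pt_mem_arc e h2.1), h2.2.1, h2.hit h1.1, fun σ hσ => (h2.2.2.1 σ hσ).2⟩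
    · intro e he f hf hef
      have he' := (Finset.mem_filter.1 he).1
      have hf' := (Finset.mem_filter.1 hf).1
      have hn : (F.arc e ∩ F.arc f).Nonempty :=
        ⟨_, F.pt_mem_arc e (hv e he).1, ⟨_, (hv f hf).1, hef.symm⟩⟩
      rcases (h e he').1.eq_or_rev (h f hf').1 hn (hnc e he' f hf' hn) with h1 | h1
      · exact h1.symm
      · have := (h f hf').2.2.2
        rw [h1, rev_snd, wedge_neg_left] at this
        linarith [(h e he').2.2.2]
  have c2 : (A.filter fun e => ¬ F.Wedge S e d).card ≤ F.K0 := by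
    refine lab_card (d := d) hS.closed _ (fun e he => ?_) (fun e he f hf => ?_)
    · obtain ⟨h1, h2⟩ := Finset.mem_filter.1 he
      exact ⟨(h e h1).1, (h e h1).2.1, (h e h1).2.2.1, h2⟩
    · exact mul_pos (h e (Finset.mem_filter.1 he).1).2.2.2 (h f (Finset.mem_filter.1 hf).1).2.2.2
  have c3 : (A.filter fun e => ¬ F.Wedge S (rev e) d).card ≤ F.K0 := by
    rw [← Finset.card_image_of_injective _ (f := rev) (Function.LeftInverse.injective rev_rev)]
    refine lab_card (d := d) hS.closed _ (fun e he => ?_) (fun e he f hf => ?_)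
    · obtain ⟨e, he', rfl⟩ := Finset.mem_image.1 he
      obtain ⟨h1, h2⟩ := Finset.mem_filter.1 he'
      exact ⟨(h e h1).1.rev, by simpa using (h e h1).2.1, (h e h1).2.2.1.rev, h2⟩
    · obtain ⟨e, he', rfl⟩ := Finset.mem_image.1 he
      obtain ⟨f, hf', rfl⟩ := Finset.mem_image.1 hf
      simpa using
        mul_pos (h e (Finset.mem_filter.1 he').1).2.2.2 (h f (Finset.mem_filter.1 hf').1).2.2.2
  have hsub : A ⊆ (A.filter fun e => ∃ t τ, F.Vis S e d t τ) ∪
      (A.filter fun e => ¬ F.Wedge S e d) ∪ (A.filter fun e => ¬ F.Wedge S (rev e) d) := by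
    intro e he
    simp only [Finset.mem_union, Finset.mem_filter, he, true_and]
    by_contra hn
    push Not at hn
    obtain ⟨t, τ, hv⟩ := not_both_wedge hS (h e he).1 (h e he).2.2.2.ne' (h e he).2.2.1 hn.1.2 hn.2
    exact hn.1.1 t τ hv
  have := (Finset.card_le_card hsub).trans ((Finset.card_union_le _ _).trans
    (add_le_add (Finset.card_union_le _ _) le_rfl))
  omega

theorem nc_card (E : Finset (X × ℂ)) (hsc : ∀ e ∈ E, F.IsSC e) (hnc : F.NC E) :
    E.card ≤ 6 * F.K0 := by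
  classical
  have hcl := closed_family E.finite_toSet hsc
  have hsub : ∀ e ∈ E, F.arc e ⊆ (F.sing : Set X) ∪ ⋃ e ∈ (E : Set (X × ℂ)), F.arc e :=
    fun e he x hx => Or.inr (mem_iUnion₂.2 ⟨e, he, hx⟩)
  have hS : F.Cx ((F.sing : Set X) ∪ ⋃ e ∈ (E : Set (X × ℂ)), F.arc e) :=
    IsCx.cx ⟨hcl, subset_union_left, E.finite_toSet, hsc, hsub, hnc, hcl.frontier_subset⟩
  obtain ⟨s, hs⟩ := Infinite.exists_notMem_finset (E.image fun e => e.2.im / e.2.re)
  have hd : ∀ e ∈ E, wedge e.2 ⟨1, s⟩ ≠ 0 := by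
    intro e he h0
    simp only [wedge, mul_one] at h0
    by_cases h1 : e.2.re = 0
    · exact (hsc e he).ne (Complex.ext h1 (by simpa [h1] using h0))
    · exact hs (Finset.mem_image.2 ⟨e, he, by field_simp; linarith⟩)
  have ho : ∀ e ∈ E, ∀ d, F.Out ((F.sing : Set X) ∪ ⋃ e ∈ (E : Set (X × ℂ)), F.arc e) e d := by
    intro e he d t ht
    filter_upwards [loc_family E.finite_toSet hsc (hsc e he) (hnc e he) ht] with w hw h1 h2
    simp [hw h2] at h1
  have c1 := half_card (d := ⟨1, s⟩) hS (E.filter fun e => 0 < wedge e.2 ⟨1, s⟩) (fun e he => by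
    obtain ⟨h1, h2⟩ := Finset.mem_filter.1 he
    exact ⟨hsc e h1, hsub e h1, ho e h1 _, h2⟩)
    (fun e he f hf => hnc e (Finset.mem_filter.1 he).1 f (Finset.mem_filter.1 hf).1)
  have c2 := half_card (d := -⟨1, s⟩) hS (E.filter fun e => ¬ 0 < wedge e.2 ⟨1, s⟩) (fun e he => by
    obtain ⟨h1, h2⟩ := Finset.mem_filter.1 he
    refine ⟨hsc e h1, hsub e h1, ho e h1 _, ?_⟩
    rw [wedge_neg_right]
    exact neg_pos.2 (lt_of_le_of_ne (not_lt.1 h2) (hd e h1)))
    (fun e he f hf => hnc e (Finset.mem_filter.1 he).1 f (Finset.mem_filter.1 hf).1)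
  have := Finset.card_filter_add_card_filter_not (s := E) (fun e => 0 < wedge e.2 ⟨1, s⟩)
  omega

omit [T2Space X] [CompactSpace X] in
theorem nhds_of_sides (hf : F.IsSC f) (hsub : F.arc f ⊆ S) {s : ℝ} (hs : s ∈ Ioo (-1 : ℝ) 1)
    (h1 : F.SideIn S (F.pt f s) f.2) (h2 : F.SideIn S (F.pt f s) (-f.2)) : S ∈ 𝓝 (F.pt f s) := by
  rw [← F.map_nhds _ (hf.pt_reg hs), mem_map]
  filter_upwards [h1, h2, hf.loc_arc hs] with w a b c
  rcases lt_trichotomy (wedge f.2 w) 0 with h4 | h4 | h4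
  · exact b (by simpa using h4)
  · exact hsub (c h4)
  · exact a h4

theorem nc_of_subset {S' : Set X} (hS' : F.Cx S') (he : F.IsSC e) (hsub : F.arc e ⊆ S')
    (hf : f ∈ F.Bd S') (hn : (F.arc e ∩ F.arc f).Nonempty) : wedge e.2 f.2 = 0 := by
  obtain ⟨_, ⟨t, ht, rfl⟩, ⟨s, hs, hx⟩⟩ := hn
  by_contra h0
  have key : ∀ v, wedge e.2 v ≠ 0 → ¬ F.SideIn S'ᶜ (F.pt e t) v := by
    intro v hv h
    have k2 : ∀ u, wedge e.2 u = 0 → 0 < wedge v u → False := by
      intro u h1 h2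
      obtain ⟨σ, a, b⟩ := ((h.dir h2).and ((tendsto_smul_zero' u).eventually (he.loc_arc ht))).exists
      exact a (hsub (b (by rw [wedge_smul_right, h1, mul_zero])))
    rcases lt_or_gt_of_ne hv with h1 | h1
    · exact k2 e.2 (by simp) (by rw [wedge_comm]; linarith)
    · exact k2 (-e.2) (by simp) (by rw [wedge_neg_right, wedge_comm]; linarith)
  have l1 := hS'.locLine hf s hs
  have a1 := (side_dichotomy (hf.1.pt_reg hs) l1).resolve_right (hx ▸ key _ h0)
  have a2 := (side_dichotomy (v := -f.2) (hf.1.pt_reg hs) (by simpa using l1)).resolve_right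
    (hx ▸ key _ (by simpa using h0))
  exact (hf.2 (F.pt_mem_arc f hs)).2
    (mem_interior_iff_mem_nhds.2 (nhds_of_sides hf.1 (hS'.sub f hf) hs a1 a2))

omit [T2Space X] [CompactSpace X] in
theorem arc_dich (hS : F.Cx S) {E : Set (X × ℂ)} (hE : F.Bd S ⊆ E) (hnc : F.NC E) (he : e ∈ E)
    (hsc : F.IsSC e) {t : ℝ} (ht : t ∈ Ioo (-1 : ℝ) 1) (h : F.pt e t ∈ S) : F.arc e ⊆ S := by
  rintro _ ⟨t', ht', rfl⟩
  refine preconn_ind isPreconnected_Ioo (P := fun t => F.pt e t ∈ S) ?_ ht ht' h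
  intro a ha
  have hc := hsc.contOn.continuousAt (isOpen_Ioo.mem_nhds ha)
  by_cases h1 : F.pt e a ∈ S
  · by_cases h2 : F.pt e a ∈ interior S
    · filter_upwards [hc.eventually (mem_interior_iff_mem_nhds.1 h2)] with b hb _
        using iff_of_true hb h1
    · obtain ⟨f, hf, s, hs, hx⟩ := hS.edge ⟨subset_closure h1, h2⟩ (hsc.pt_reg ha)
      have hn : (F.arc e ∩ F.arc f).Nonempty := ⟨_, F.pt_mem_arc e ha, ⟨s, hs, hx⟩⟩
      have := hsc.arc_eq hf.1 hn (hnc e he f (hE hf) hn)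
      exact Eventually.of_forall fun b hb =>
        iff_of_true (hS.sub f hf (this ▸ F.pt_mem_arc e hb)) h1
  · filter_upwards [hc.eventually (hS.closed.isOpen_compl.mem_nhds h1)] with b hb _
      using iff_of_false hb h1

theorem subset_of_parts {S' : Set X} (hS : F.Cx S) (hS' : F.Cx S') (hne : (F.Bd S).Nonempty)
    {E : Set (X × ℂ)} (hfin : E.Finite) (hsc : ∀ e ∈ E, F.IsSC e) (hnc : F.NC E)
    (hrev : ∀ e ∈ E, rev e ∈ E) (hE : F.Bd S ⊆ E) (hE' : F.Bd S' ⊆ E)
    (h1 : ∀ e ∈ E, F.arc e ⊆ S' → F.arc e ⊆ S)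
    (h2 : ∀ e ∈ E, F.SideIn S' (F.pt e 0) e.2 → F.SideIn S (F.pt e 0) e.2) : S' ⊆ S := by
  have h0 : (0 : ℝ) ∈ Ioo (-1 : ℝ) 1 := ⟨by norm_num, by norm_num⟩
  have hfr : ∀ {T}, F.Cx T → F.Bd T ⊆ E → frontier T ⊆ (F.sing : Set X) ∪ ⋃ e ∈ E, F.arc e :=
    fun hT hE => hT.fr.trans (union_subset_union_right _ (biUnion_subset_biUnion_left hE))
  have hl : ∀ {T}, F.Cx T → F.Bd T ⊆ E → ∀ e ∈ E, F.LocLine T e := by
    intro T hT hE e he t ht
    filter_upwards [loc_family hfin hsc (hsc e he) (hnc e he) ht] with w hw h using hw (hfr hT hE h)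
  have hside : ∀ e ∈ E, ∀ t ∈ Ioo (-1 : ℝ) 1, ∀ᶠ w in 𝓝 (0 : ℂ), 0 < wedge e.2 w →
      F.go (F.pt e t) w ∈ S' → F.go (F.pt e t) w ∈ S := by
    intro e he t ht
    rcases side_dichotomy ((hsc e he).pt_reg ht) (hl hS' hE' e he t ht) with h | h
    · filter_upwards [side_const (hsc e he) (hl hS hE e he) h0 ht
        (h2 e he (side_const (hsc e he) (hl hS' hE' e he) ht h0 h))] with w hw h3 _ using hw h3
    · filter_upwards [h] with w hw h3 h4 using absurd h4 (hw h3)
  intro x hx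
  by_cases hr : x ∈ F.sing
  · exact hS.sing hr
  obtain ⟨e0, he0⟩ := hne
  refine preconn_ind F.conn (P := fun y => y ∈ S' → y ∈ S) ?_ (he0.1.pt_reg h0) hr
    (fun _ => hS.sub e0 he0 (F.pt_mem_arc e0 h0)) hx
  intro y hy
  by_cases hy2 : y ∈ ⋃ e ∈ E, F.arc e
  · obtain ⟨e, he, t, ht, rfl⟩ := mem_iUnion₂.1 hy2
    have : ∀ᶠ z in 𝓝 (F.pt e t), z ∈ S' → z ∈ S := by
      rw [← F.map_nhds _ hy, eventually_map]
      have h3 := hside _ (hrev e he) _ (neg_mem_Ioo ht)
      rw [pt_rev, neg_neg] at h3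
      filter_upwards [hside e he t ht, h3, (hsc e he).loc_arc ht] with w a b c hw
      rcases lt_trichotomy (wedge e.2 w) 0 with h4 | h4 | h4
      · exact b (by simpa using h4) hw
      · obtain ⟨s, hs, h5⟩ := c h4
        exact h1 e he (arc_dich hS' hE' hnc he (hsc e he) hs (h5 ▸ hw)) (c h4)
      · exact a h4 hw
    filter_upwards [this] with z hz _ using iff_of_true hz this.self_of_nhds
  · have key : ∀ {T}, F.Cx T → F.Bd T ⊆ E → ∀ᶠ z in 𝓝 y, (z ∈ T ↔ y ∈ T) := by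
      intro T hT hE
      have : y ∈ (frontier T)ᶜ := fun h => (hfr hT hE h).elim hy hy2
      rw [compl_frontier_eq_union_interior] at this
      rcases this with h | h
      · filter_upwards [mem_interior_iff_mem_nhds.1 h] with z hz
          using iff_of_true hz (interior_subset h)
      · filter_upwards [mem_interior_iff_mem_nhds.1 h] with z hz
          using iff_of_false hz (interior_subset h)
    filter_upwards [key hS hE, key hS' hE'] with z a b _
    rw [a, b]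

theorem series_le (p : LTSeries {S : Set X // F.Cx S ∧ (F.Bd S).Nonempty}) :
    p.length ≤ 12 * F.K0 := by
  classical
  have hfin : (⋃ i, F.Bd (p i).1).Finite := finite_iUnion fun i => (p i).2.1.fin
  have hsc : ∀ e ∈ ⋃ i, F.Bd (p i).1, F.IsSC e := fun e he => by
    obtain ⟨i, hi⟩ := mem_iUnion.1 he; exact hi.1
  have hnc : F.NC (⋃ i, F.Bd (p i).1) := by
    intro e he f hf hn
    obtain ⟨i, hi⟩ := mem_iUnion.1 he
    obtain ⟨j, hj⟩ := mem_iUnion.1 hf
    rcases le_total i j with h | h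
    · exact nc_of_subset (p j).2.1 hi.1 (((p i).2.1.sub e hi).trans (p.monotone h)) hj hn
    · rw [wedge_comm, nc_of_subset (p i).2.1 hj.1 (((p j).2.1.sub f hj).trans (p.monotone h)) hi
        (by rwa [inter_comm]), neg_zero]
  have hcard := nc_card hfin.toFinset (fun e he => hsc e (hfin.mem_toFinset.1 he))
    (by simpa using hnc)
  let Ψ : Set X → Finset ((X × ℂ) × Bool) := fun S => (hfin.toFinset ×ˢ Finset.univ).filter
    fun q => if q.2 then F.arc q.1 ⊆ S else F.SideIn S (F.pt q.1 0) q.1.2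
  have hmono : StrictMono fun i => (Ψ (p i).1).card := by
    intro i j hij
    have hlt := p.strictMono hij
    have hle : (p i).1 ⊆ (p j).1 := hlt.le
    apply Finset.card_lt_card
    refine ⟨fun q hq => ?_, fun h => hlt.not_ge ?_⟩
    · obtain ⟨h1, h2⟩ := Finset.mem_filter.1 hq
      refine Finset.mem_filter.2 ⟨h1, ?_⟩
      split_ifs at h2 ⊢
      · exact h2.trans hle
      · exact h2.mono fun w hw h3 => hle (hw h3)
    · refine subset_of_parts (p i).2.1 (p j).2.1 (p i).2.2 hfin hsc hnc (fun e he => ?_)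
        (subset_iUnion (fun i => F.Bd (p i).1) i) (subset_iUnion (fun i => F.Bd (p i).1) j)
        (fun e he h1 => ?_) (fun e he h1 => ?_)
      · obtain ⟨k, hk⟩ := mem_iUnion.1 he
        exact mem_iUnion.2 ⟨k, rev_mem_Bd hk⟩
      · have := h (show (e, true) ∈ Ψ (p j).1 from Finset.mem_filter.2
          ⟨Finset.mem_product.2 ⟨hfin.mem_toFinset.2 he, Finset.mem_univ _⟩, by simpa using h1⟩)
        simpa using (Finset.mem_filter.1 this).2
      · have := h (show (e, false) ∈ Ψ (p j).1 from Finset.mem_filter.2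
          ⟨Finset.mem_product.2 ⟨hfin.mem_toFinset.2 he, Finset.mem_univ _⟩, by simpa using h1⟩)
        simpa using (Finset.mem_filter.1 this).2
  have h1 : ∀ n (hn : n < p.length + 1), n ≤ (Ψ (p ⟨n, hn⟩).1).card := by
    intro n
    induction n with
    | zero => simp
    | succ n ih =>
      intro hn
      have := hmono (show (⟨n, by omega⟩ : Fin (p.length + 1)) < ⟨n + 1, hn⟩ from by simp)
      have h2 := ih (by omega)
      simp only at this
      omega
  have h2 := (h1 p.length (by omega)).trans (Finset.card_filter_le _ _)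
  rw [Finset.card_product] at h2
  simp only [Finset.card_univ, Fintype.card_bool] at h2
  omega

variable (F) in
theorem exists_ht : ∃ ht : Set X → ℕ,
    (∀ S, F.Cx S → (F.Bd S).Nonempty → ht S ≤ 12 * F.K0) ∧
    ∀ S S', F.Cx S → (F.Bd S).Nonempty → F.Cx S' → (F.Bd S').Nonempty → S ⊂ S' → ht S < ht S' := by
  classical
  have hb : ∀ S : {S : Set X // F.Cx S ∧ (F.Bd S).Nonempty},
      Order.height S ≤ ((12 * F.K0 : ℕ) : ℕ∞) :=
    fun S => Order.height_le fun p _ => by exact_mod_cast series_le p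
  have hfin : ∀ S : {S : Set X // F.Cx S ∧ (F.Bd S).Nonempty}, Order.height S ≠ ⊤ :=
    fun S => ne_top_of_le_ne_top (ENat.natCast_ne_top _) (hb S)
  refine ⟨fun S => if h : F.Cx S ∧ (F.Bd S).Nonempty then
    (Order.height (⟨S, h⟩ : {S : Set X // F.Cx S ∧ (F.Bd S).Nonempty})).toNat else 0, ?_, ?_⟩
  · intro S h1 h2
    simp only [dif_pos (And.intro h1 h2)]
    exact ENat.toNat_le_of_le_natCast (hb _)
  · intro S S' h1 h2 h3 h4 h5
    simp only [dif_pos (And.intro h1 h2), dif_pos (And.intro h3 h4)]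
    have := Order.height_strictMono (x := (⟨S, h1, h2⟩ : {S : Set X // F.Cx S ∧ (F.Bd S).Nonempty}))
      (y := ⟨S', h3, h4⟩) h5 (hfin _).lt_top
    rw [← ENat.natCast_toNat (hfin _), ← ENat.natCast_toNat (hfin ⟨S', h3, h4⟩)] at this
    exact_mod_cast this

end Flow

end Pool.Agent.Lib.MP_1e1a64_an
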