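import Pool.Agent.Lib.MP_1e1a64_an.Cone

/-!
Segments ending at cone points, internal saddle connections, systole.
-/

open Set Filter Topology MeasureTheory Metric
open scoped ENNReal NNReal

namespace Pool.Agent.Lib.MP_1e1a64_an

/-- the determinant of two plane vectors -/
def wedge (u w : ℂ) : ℝ := u.re * w.im - u.im * w.re

@[simp] theorem wedge_add_right (u a b : ℂ) : wedge u (a + b) = wedge u a + wedge u b := by
  simp [wedge]; ring
@[simp] theorem wedge_add_left (u a b : ℂ) : wedge (a + b) u = wedge a u + wedge b u := by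
  simp [wedge]; ring
@[simp] theorem wedge_sub_right (u a b : ℂ) : wedge u (a - b) = wedge u a - wedge u b := by
  simp [wedge]; ring
@[simp] theorem wedge_sub_left (u a b : ℂ) : wedge (a - b) u = wedge a u - wedge b u := by
  simp [wedge]; ring
theorem wedge_smul_right (u a : ℂ) (t : ℝ) : wedge u (t • a) = t * wedge u a := by
  simp [wedge]; ring
theorem wedge_smul_left (u a : ℂ) (t : ℝ) : wedge (t • u) a = t * wedge u a := by
  simp [wedge]; ring
@[simp] theorem wedge_self (u : ℂ) : wedge u u = 0 := by simp [wedge]; ring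
@[simp] theorem wedge_neg_left (u a : ℂ) : wedge (-u) a = -wedge u a := by simp [wedge]; ring
@[simp] theorem wedge_neg_right (u a : ℂ) : wedge u (-a) = -wedge u a := by simp [wedge]; ring
@[simp] theorem wedge_zero_right (u : ℂ) : wedge u 0 = 0 := by simp [wedge]
@[simp] theorem wedge_zero_left (u : ℂ) : wedge 0 u = 0 := by simp [wedge]
theorem wedge_comm (u a : ℂ) : wedge u a = -wedge a u := by simp [wedge]; ring

theorem continuous_wedge (u : ℂ) : Continuous (wedge u) := by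
  unfold wedge; fun_prop

theorem exists_smul_of_wedge {u w : ℂ} (hu : u ≠ 0) (h : wedge u w = 0) :
    ∃ c : ℝ, w = c • u := by
  have hn : u.re ^ 2 + u.im ^ 2 ≠ 0 := by
    intro h0
    apply hu
    apply Complex.ext <;> simp <;> nlinarith [sq_nonneg u.re, sq_nonneg u.im]
  refine ⟨(u.re * w.re + u.im * w.im) / (u.re ^ 2 + u.im ^ 2), ?_⟩
  unfold wedge at h
  apply Complex.ext
  · rw [Complex.smul_re, smul_eq_mul]; field_simp; linear_combination (-u.im) * h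
  · rw [Complex.smul_im, smul_eq_mul]; field_simp; linear_combination (u.re) * h

theorem wedge_decomp {v d : ℂ} (h : wedge v d ≠ 0) (u : ℂ) :
    u = (wedge u d / wedge v d) • v + (wedge v u / wedge v d) • d := by
  apply Complex.ext
  · rw [Complex.add_re, Complex.smul_re, Complex.smul_re, smul_eq_mul, smul_eq_mul]
    field_simp; unfold wedge; ring
  · rw [Complex.add_im, Complex.smul_im, Complex.smul_im, smul_eq_mul, smul_eq_mul]
    field_simp; unfold wedge; ring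

theorem exists_first {A : Set ℝ} (hA : IsClosed A) {a b : ℝ} (hb : b ∈ A) (hab : a ≤ b) :
    ∃ c ∈ Icc a b, c ∈ A ∧ ∀ s ∈ Ico a c, s ∉ A := by
  have hne : (A ∩ Icc a b).Nonempty := ⟨b, hb, hab, le_rfl⟩
  have hbdd : BddBelow (A ∩ Icc a b) := ⟨a, fun s hs => hs.2.1⟩
  have := (hA.inter isClosed_Icc).csInf_mem hne hbdd
  refine ⟨_, this.2, this.1, fun s hs hsA => ?_⟩
  have h2 := csInf_le hbdd (show s ∈ A ∩ Icc a b from ⟨hsA, hs.1, hs.2.le.trans this.2.2⟩)
  linarith [hs.2]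

theorem preconn_ind {α : Type*} [TopologicalSpace α] {s : Set α} (hs : IsPreconnected s)
    {P : α → Prop} (h : ∀ x ∈ s, ∀ᶠ y in 𝓝 x, y ∈ s → (P y ↔ P x)) {x y : α} (hx : x ∈ s)
    (hy : y ∈ s) (hP : P x) : P y := by
  refine hs.induction₂' (fun a b => P a → P b) ?_ (fun a b c _ _ _ h1 h2 h3 => h2 (h1 h3))
    hx hy hP
  intro a ha
  filter_upwards [nhdsWithin_le_nhds (h a ha), self_mem_nhdsWithin] with b hb hbs
  exact ⟨(hb hbs).2, (hb hbs).1⟩

/-- a triangle with vertices `0, p, q` with `q` removed, and `p` too when `k = 1` -/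
def tri (p q : ℂ) (k : ℝ) : Set ℂ :=
  {z | ∃ α β : ℝ, 0 ≤ α ∧ 0 ≤ β ∧ α + β ≤ 1 ∧ α < k ∧ β < 1 ∧ z = α • p + β • q}

theorem convex_tri (p q : ℂ) (k : ℝ) : Convex ℝ (tri p q k) := by
  rintro _ ⟨a1, b1, h1, h2, h3, h4, h5, rfl⟩ _ ⟨a2, b2, g1, g2, g3, g4, g5, rfl⟩ s t hs ht hst
  have key : ∀ x y c : ℝ, x < c → y < c → s * x + t * y < c := by
    intro x y c hx hy
    rcases eq_or_lt_of_le hs with h | h
    · subst h; rw [zero_add] at hst; subst hst; simpa using hy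
    · have : c = s * c + t * c := by rw [← add_mul, hst, one_mul]
      nlinarith [mul_pos h (sub_pos.2 hx), mul_nonneg ht (sub_pos.2 hy).le]
  refine ⟨s * a1 + t * a2, s * b1 + t * b2, by positivity, by positivity, ?_, key _ _ _ h4 g4,
    key _ _ _ h5 g5, by module⟩
  nlinarith [mul_le_mul_of_nonneg_left h3 hs, mul_le_mul_of_nonneg_left g3 ht]

namespace Flow

variable {X : Type*} [TopologicalSpace X] {F : Flow X}

theorem Hit.reg {x : X} {w : ℂ} (h : F.Hit x w) : x ∉ F.sing :=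
  F.reg_of_mem (h.1 0 ⟨le_rfl, zero_lt_one⟩)

theorem Hit.ne_zero {x : X} {w : ℂ} (h : F.Hit x w) : w ≠ 0 := by
  rintro rfl
  exact h.2 (F.zero_mem x h.reg)

theorem exit {x : X} (hx : x ∉ F.sing) {z : ℂ} (hz : z ∉ F.D x) :
    ∃ a ∈ Ioc (0 : ℝ) 1, F.Hit x (a • z) := by
  have hA : IsClosed {a : ℝ | a • z ∉ F.D x} :=
    ((F.isOpen_D x).preimage (by fun_prop : Continuous fun a : ℝ => a • z)).isClosed_compl
  obtain ⟨c, hc, hcA, hlt⟩ := exists_first hA (a := 0) (b := 1) (by simpa using hz) zero_le_one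
  have hc0 : 0 < c := by
    rcases eq_or_lt_of_le hc.1 with h | h
    · exfalso; apply hcA; rw [← h, zero_smul]; exact F.zero_mem x hx
    · exact h
  refine ⟨c, ⟨hc0, hc.2⟩, fun t ht => ?_, hcA⟩
  rw [smul_smul]
  by_contra h
  exact hlt (t * c) ⟨mul_nonneg ht.1 hc0.le, by nlinarith [ht.2]⟩ h

theorem Hit.smul_unique {x : X} {u : ℂ} {a b : ℝ} (ha : F.Hit x (a • u)) (hb : F.Hit x (b • u))
    (ha0 : 0 < a) (hb0 : 0 < b) : a = b := by
  have key : ∀ {a b : ℝ}, F.Hit x (a • u) → F.Hit x (b • u) → 0 < a → 0 < b → ¬ a < b := by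
    intro a b ha hb ha0 hb0 hab
    have := hb.1 (a / b) ⟨by positivity, (div_lt_one hb0).2 hab⟩
    rw [smul_smul, div_mul_cancel₀ _ hb0.ne'] at this
    exact ha.2 this
  exact le_antisymm (not_lt.1 (key hb ha hb0 ha0)) (not_lt.1 (key ha hb ha0 hb0))

theorem hit_transfer {x : X} {C : Set ℂ} (hC : Convex ℝ C) (hD : C ⊆ F.D x) {z w : ℂ}
    (h0 : ∀ t ∈ Ico (0 : ℝ) 1, t • w ∈ C) (hz : ∀ t ∈ Ico (0 : ℝ) 1, z + t • (w - z) ∈ C)
    (hw : w ∉ F.D x) : F.Hit (F.go x z) (w - z) := by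
  refine ⟨fun t ht => ?_, fun h => hw (F.transfer hC hD h0 hz h)⟩
  have hzC : z ∈ C := by simpa using hz 0 ⟨le_rfl, zero_lt_one⟩
  simpa using (F.coc hC hD hzC (hz t ht)).1

variable (F) in
/-- an internal saddle connection: mid point and half of the holonomy -/
def IsSC (e : X × ℂ) : Prop := F.Hit e.1 e.2 ∧ F.Hit e.1 (-e.2)

theorem sc_of_tri {x : X} {p q : ℂ} (hp : F.Hit x p) (hq : F.Hit x q)
    (h : ∀ θ ∈ Ioo (0 : ℝ) 1, p + θ • (q - p) ∈ F.D x) :
    F.IsSC (F.go x ((1 / 2 : ℝ) • (p + q)), (1 / 2 : ℝ) • (p - q)) := by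
  have hD : tri p q 1 ⊆ F.D x := by
    rintro _ ⟨a, b, h1, h2, h3, h4, h5, rfl⟩
    rcases eq_or_lt_of_le h1 with ha | ha
    · subst ha; simpa using hq.1 b ⟨h2, h5⟩
    rcases eq_or_lt_of_le h2 with hb | hb
    · subst hb; simpa using hp.1 a ⟨h1, h4⟩
    have hab : 0 < a + b := by positivity
    have := F.star x _ (h (b / (a + b)) ⟨by positivity, (div_lt_one hab).2 (by linarith)⟩) (a + b)
      ⟨hab.le, h3⟩
    convert this using 1
    rw [smul_add, smul_smul, mul_div_cancel₀ _ hab.ne']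
    module
  constructor
  · have := hit_transfer (convex_tri p q 1) hD (z := (1 / 2 : ℝ) • (p + q)) (w := p)
      (fun t ht => ⟨t, 0, ht.1, le_rfl, by linarith [ht.2], ht.2, zero_lt_one, by simp⟩)
      (fun t ht => ⟨(1 + t) / 2, (1 - t) / 2, by linarith [ht.1], by linarith [ht.2], by linarith,
        by linarith [ht.2], by linarith [ht.1], by module⟩) hp.2
    convert this using 1
    show (1 / 2 : ℝ) • (p - q) = _
    module
  · have := hit_transfer (convex_tri p q 1) hD (z := (1 / 2 : ℝ) • (p + q)) (w := q)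
      (fun t ht => ⟨0, t, le_rfl, ht.1, by linarith [ht.2], zero_lt_one, ht.2, by simp⟩)
      (fun t ht => ⟨(1 - t) / 2, (1 + t) / 2, by linarith [ht.2], by linarith [ht.1], by linarith,
        by linarith [ht.1], by linarith [ht.2], by module⟩) hq.2
    convert this using 1
    show -((1 / 2 : ℝ) • (p - q)) = _
    module

variable [T2Space X] [CompactSpace X]

theorem Hit.near {x : X} {w : ℂ} (h : F.Hit x w) :
    ∀ᶠ z in 𝓝 w, (∀ s : ℝ, 1 ≤ s → z ≠ s • w) → z ∈ F.D x := by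
  obtain ⟨r, hr, hc⟩ := F.exists_coneRad
  obtain ⟨p, hp, hev, -⟩ := h.limit
  have hsm : ∀ᶠ t in 𝓝[<] (1 : ℝ), ‖(t - 1) • w‖ < r := by
    apply Eventually.filter_mono nhdsWithin_le_nhds
    have : ContinuousAt (fun t : ℝ => ‖(t - 1) • w‖) 1 := by fun_prop
    exact this.eventually (gt_mem_nhds (by simpa using hr))
  obtain ⟨t0, ht0, ⟨hU, hpos⟩, hr0⟩ :=
    (Eventually.and (Ioo_mem_nhdsLT (zero_lt_one' ℝ)) (hev.and hsm)).exists
  have hD : t0 • w ∈ F.D x := h.1 t0 ⟨ht0.1.le, ht0.2⟩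
  have t1 : Tendsto (fun z : ℂ => t0 • (z - w)) (𝓝 w) (𝓝 0) := by
    have : Continuous (fun z : ℂ => t0 • (z - w)) := by fun_prop
    simpa using this.tendsto w
  have e0 : t0 • w - w = (t0 - 1) • w := by module
  have t2 : ∀ᶠ z in 𝓝 w, ‖t0 • z - w‖ < r := by
    have : ContinuousAt (fun z : ℂ => ‖t0 • z - w‖) w := by fun_prop
    exact this.eventually (gt_mem_nhds (by show ‖t0 • w - w‖ < r; rwa [e0]))
  have t3 : ∀ᶠ z in 𝓝 w, ‖z - w‖ < r := by
    have : ContinuousAt (fun z : ℂ => ‖z - w‖) w := by fun_prop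
    exact this.eventually (gt_mem_nhds (by simpa using hr))
  filter_upwards [t1.eventually (F.ev_coc hD), t2, t3] with z hz1 h4 h5 hz
  obtain ⟨h1, h2, h3⟩ := hz1
  have e1 : t0 • w + t0 • (z - w) = t0 • z := by module
  have e2 : (t0 - 1) • w + t0 • (z - w) = t0 • z - w := by module
  rw [e1] at h1 h3
  have st := hc.step hp hU (w := t0 • (z - w)) (by rwa [hpos]) (by rwa [hpos, e2]) h2
  rw [h3, hpos, e2] at st
  have e3 : t0 • z - w + (1 - t0) • z = z - w := by module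
  have := hc p hp _ st.1 ((1 - t0) • z) (by rwa [st.2]) (by rwa [st.2, e3]) (by
    intro s hs h0
    rw [st.2] at h0
    have hc0 : 0 < t0 + s * (1 - t0) := by nlinarith [ht0.1, ht0.2, hs.1]
    have hc1 : t0 + s * (1 - t0) ≤ 1 := by nlinarith [ht0.1, ht0.2, hs.2]
    apply hz (t0 + s * (1 - t0))⁻¹ ((one_le_inv₀ hc0).2 hc1)
    have : w = (t0 + s * (1 - t0)) • z := by
      rw [← sub_eq_zero, ← neg_eq_zero, ← h0]; module
    rw [this, smul_smul, inv_mul_cancel₀ hc0.ne', one_smul])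
  simpa using (F.line h1 this.1).1

variable (F) in
theorem small_unique : ∃ r > 0, ∀ x w w', F.Hit x w → F.Hit x w' → ‖w‖ < r → ‖w'‖ < r →
    w = w' := by
  obtain ⟨r1, hr1, -, hn⟩ := F.near_pos
  obtain ⟨V, hV, hdis⟩ := F.sing.finite_toSet.t2_separation
  have : ∀ p ∈ F.sing, ∀ᶠ r in 𝓝[>] (0 : ℝ), ∀ y ∈ F.U p, ‖F.pos p y‖ < r → y ∈ V p := by
    intro p hp
    obtain ⟨M, hM, h⟩ := F.pos_basis p hp _ ((hV p).2.mem_nhds (hV p).1)
    obtain ⟨r0, hr0, hb⟩ := Metric.mem_nhds_iff.1 hM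
    filter_upwards [Ioo_mem_nhdsGT hr0] with r hr y hy h1
    exact h y hy (hb (by simpa using h1.trans hr.2))
  obtain ⟨r, hr, h⟩ := (Eventually.and (Ioo_mem_nhdsGT hr1)
    ((F.sing.eventually_all).2 this)).exists
  refine ⟨r, hr.1, fun x w w' h1 h2 hw hw' => ?_⟩
  obtain ⟨p, hp, hU, e⟩ := hn x w h1 (hw.trans hr.2)
  obtain ⟨p', hp', hU', e'⟩ := hn x w' h2 (hw'.trans hr.2)
  have hpp : p = p' := by
    by_contra hne
    exact Set.disjoint_left.1 (hdis hp hp' hne) (h p hp x hU (by rwa [e, norm_neg]))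
      (h p' hp' x hU' (by rwa [e', norm_neg]))
  subst hpp
  exact neg_injective (e.symm.trans e')

variable (F) in
/-- total number of prongs -/
def K0 : ℕ := F.sing.card * F.κ

variable (F) in
theorem hit_finite (w : ℂ) : ∃ G : Finset X, G.card ≤ F.K0 ∧ ∀ y, F.Hit y w → y ∈ G := by
  classical
  obtain ⟨r, hr, -, hn⟩ := F.near_pos
  have hsm : ∀ᶠ t in 𝓝[<] (1 : ℝ), ‖(1 - t) • w‖ < r := by
    apply Eventually.filter_mono nhdsWithin_le_nhds
    have : ContinuousAt (fun t : ℝ => ‖(1 - t) • w‖) 1 := by fun_prop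
    exact this.eventually (gt_mem_nhds (by simpa using hr))
  obtain ⟨t, ht, h0⟩ := (Eventually.and (Ico_mem_nhdsLT (zero_lt_one' ℝ)) hsm).exists
  choose! G hG using fun p hp => F.fib p hp (-((1 - t) • w))
  refine ⟨(F.sing.biUnion G).image (fun y => F.go y (-(t • w))), ?_, fun y hy => ?_⟩
  · refine Finset.card_image_le.trans (Finset.card_biUnion_le.trans ?_)
    exact (Finset.sum_le_card_nsmul _ _ _ fun p hp => (hG p hp).1).trans (by simp [K0])
  · obtain ⟨p, hp, hU, e⟩ := hn _ _ (hy.shift ht) h0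
    exact Finset.mem_image.2 ⟨_, Finset.mem_biUnion.2 ⟨p, hp, (hG p hp).2 _ hU e⟩,
      (F.back (hy.1 t ht)).2⟩

theorem two_hits {x : X} {w1 w2 : ℂ} (h1 : F.Hit x w1) (h2 : F.Hit x w2) (hne : w1 ≠ w2) :
    ∃ e, F.IsSC e ∧ 2 * ‖e.2‖ ≤ ‖w1‖ + ‖w2‖ := by
  have hslit : ∀ t ∈ Icc (0 : ℝ) 1, ∀ a ∈ Ioc (0 : ℝ) 1, ∀ s : ℝ, 1 ≤ s →
      w2 + a • (t • w1 - w2) ≠ s • w2 := by
    intro t ht a ha s hs h
    have hk : 0 < s - 1 + a := by linarith [ha.1]
    have e : w2 = (a * t / (s - 1 + a)) • w1 := by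
      have : (s - 1 + a) • w2 = (a * t) • w1 := by
        rw [← sub_eq_zero, ← neg_eq_zero, ← sub_eq_zero.2 h]; module
      rw [div_eq_inv_mul, mul_smul, ← this, smul_smul, inv_mul_cancel₀ hk.ne', one_smul]
    have hle : a * t / (s - 1 + a) ≤ 1 := (div_le_one hk).2 (by nlinarith [ht.2, ha.1])
    rcases eq_or_lt_of_le hle with h3 | h3
    · rw [h3, one_smul] at e; exact hne e.symm
    · exact h2.2 (e ▸ h1.1 _ ⟨div_nonneg (mul_nonneg ha.1.le ht.1) hk.le, h3⟩)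
  obtain ⟨r, hr, hb⟩ := Metric.mem_nhds_iff.1 h2.near
  set δ := min 1 (r / (‖w1‖ + ‖w2‖ + 1)) with hδ
  have hδ0 : 0 < δ := lt_min one_pos (by positivity)
  have hδ1 : δ ≤ 1 := min_le_left _ _
  have hnear : ∀ t ∈ Icc (0 : ℝ) 1, ∀ a ∈ Ioc (0 : ℝ) δ, w2 + a • (t • w1 - w2) ∈ F.D x := by
    intro t ht a ha
    apply hb _ (hslit t ht a ⟨ha.1, ha.2.trans hδ1⟩)
    rw [mem_ball, dist_eq_norm, add_sub_cancel_left, norm_smul, Real.norm_eq_abs, abs_of_pos ha.1]
    have h3 : ‖t • w1 - w2‖ ≤ ‖w1‖ + ‖w2‖ := by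
      refine (norm_sub_le _ _).trans ?_
      rw [norm_smul, Real.norm_eq_abs, abs_of_nonneg ht.1]
      nlinarith [ht.2, norm_nonneg w1]
    have h4 : a * (‖w1‖ + ‖w2‖ + 1) ≤ r :=
      (le_div_iff₀ (by positivity)).1 (ha.2.trans (min_le_right _ _))
    nlinarith [ha.1]
  have hcl : IsClosed {p : ℝ × ℝ | w2 + p.2 • (p.1 • w1 - w2) ∉ F.D x} :=
    ((F.isOpen_D x).preimage
      (by fun_prop : Continuous fun p : ℝ × ℝ => w2 + p.2 • (p.1 • w1 - w2))).isClosed_compl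
  have hK : IsCompact (Prod.fst '' ((Icc (0 : ℝ) 1 ×ˢ Icc δ 1) ∩
      {p : ℝ × ℝ | w2 + p.2 • (p.1 • w1 - w2) ∉ F.D x})) :=
    ((isCompact_Icc.prod isCompact_Icc).inter_right hcl).image continuous_fst
  obtain ⟨t, ht, ⟨⟨t', a0⟩, ⟨⟨-, ha0⟩, hbad⟩, rfl⟩, hlt⟩ := exists_first hK.isClosed (a := 0) (b := 1)
    ⟨(1, 1), ⟨⟨⟨zero_le_one, le_rfl⟩, hδ1, le_rfl⟩, by simpa using h1.2⟩, rfl⟩ zero_le_one
  simp only at ht ha0 hbad hlt
  have hgood : ∀ s ∈ Ico 0 t', ∀ a ∈ Ioc (0 : ℝ) 1, w2 + a • (s • w1 - w2) ∈ F.D x := by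
    intro s hs a ha
    have hs' : s ∈ Icc (0 : ℝ) 1 := ⟨hs.1, hs.2.le.trans ht.2⟩
    rcases le_or_gt a δ with h | h
    · exact hnear s hs' a ⟨ha.1, h⟩
    · by_contra hn
      exact hlt s hs ⟨(s, a), ⟨⟨hs', h.le, ha.2⟩, hn⟩, rfl⟩
  have hA : IsClosed {a : ℝ | w2 + a • (t' • w1 - w2) ∉ F.D x} :=
    ((F.isOpen_D x).preimage
      (by fun_prop : Continuous fun a : ℝ => w2 + a • (t' • w1 - w2))).isClosed_compl
  obtain ⟨a, ha, habad, halt⟩ := exists_first hA hbad ha0.1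
  have ha1 : a ≤ 1 := ha.2.trans ha0.2
  have hapos : 0 < a := hδ0.trans_le ha.1
  have hseg : ∀ b ∈ Ioo 0 a, w2 + b • (t' • w1 - w2) ∈ F.D x := by
    intro b hb
    rcases le_or_gt b δ with h | h
    · exact hnear t' ht b ⟨hb.1, h⟩
    · by_contra hn
      exact halt b ⟨h.le, hb.2⟩ hn
  have ht0 : 0 < t' := by
    rcases eq_or_lt_of_le ht.1 with h | h
    · exfalso
      apply habad
      have := h2.1 (1 - a) ⟨by linarith, by linarith⟩
      convert this using 1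
      rw [← h]; module
    · exact h
  have h4 : F.Hit x (w2 + a • (t' • w1 - w2)) := by
    refine ⟨fun s hs => ?_, habad⟩
    have hb0 : 0 < 1 - s * (1 - a) := by nlinarith [hs.1, hs.2]
    have := hgood (s * a * t' / (1 - s * (1 - a)))
      ⟨div_nonneg (mul_nonneg (mul_nonneg hs.1 hapos.le) ht0.le) hb0.le,
        (div_lt_iff₀ hb0).2 (by nlinarith [hs.2])⟩ (1 - s * (1 - a))
      ⟨hb0, by nlinarith [hs.1]⟩
    convert this using 1
    rw [smul_sub (1 - s * (1 - a)), smul_smul, mul_div_cancel₀ _ hb0.ne']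
    module
  refine ⟨_, sc_of_tri h2 h4 (fun θ hθ => ?_), ?_⟩
  · have := hseg (θ * a) ⟨mul_pos hθ.1 hapos, by nlinarith [hθ.2]⟩
    convert this using 1
    module
  · have e : (1 / 2 : ℝ) • (w2 - (w2 + a • (t' • w1 - w2))) = (a / 2) • (w2 - t' • w1) := by
      module
    show 2 * ‖(1 / 2 : ℝ) • (w2 - (w2 + a • (t' • w1 - w2)))‖ ≤ _
    rw [e, norm_smul, Real.norm_eq_abs, abs_of_pos (by positivity)]
    have h3 : ‖w2 - t' • w1‖ ≤ ‖w1‖ + ‖w2‖ := by
      refine (norm_sub_le _ _).trans ?_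
      rw [norm_smul, Real.norm_eq_abs, abs_of_nonneg ht.1]
      nlinarith [ht.2, norm_nonneg w1]
    nlinarith [norm_nonneg (w2 - t' • w1)]

variable (F) in
/-- all saddle connections have half length at least `ε` -/
def Sys (ε : ℝ) : Prop := ∀ e, F.IsSC e → ε ≤ ‖e.2‖

variable (F) in
theorem exists_sys : ∃ ε > 0, F.Sys ε := by
  obtain ⟨r, hr, h⟩ := F.small_unique
  refine ⟨r, hr, fun e he => ?_⟩
  by_contra hlt
  push Not at hlt
  have := h _ _ _ he.1 he.2 hlt (by simpa using hlt)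
  apply he.1.ne_zero
  have h2 : (2 : ℂ) * e.2 = 0 := by linear_combination this
  simpa using h2

theorem Sys.unique {ε : ℝ} (hs : F.Sys ε) {x : X} {w1 w2 : ℂ} (h1 : F.Hit x w1) (h2 : F.Hit x w2)
    (n1 : ‖w1‖ < ε) (n2 : ‖w2‖ < ε) : w1 = w2 := by
  by_contra hne
  obtain ⟨e, he, hl⟩ := two_hits h1 h2 hne
  linarith [hs e he]

theorem Sys.slit {ε : ℝ} (hs : F.Sys ε) {x : X} {w z : ℂ} (h : F.Hit x w) (hw : ‖w‖ < ε)
    (hz : ‖z‖ < ε) (hsl : ∀ s : ℝ, 1 ≤ s → z ≠ s • w) : z ∈ F.D x := by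
  by_contra hn
  obtain ⟨a, ha, hh⟩ := exit h.reg hn
  have := hs.unique hh h (by
    rw [norm_smul, Real.norm_eq_abs, abs_of_pos ha.1]; nlinarith [ha.2, norm_nonneg z]) hw
  apply hsl a⁻¹ ((one_le_inv₀ ha.1).2 ha.2)
  rw [← this, smul_smul, inv_mul_cancel₀ ha.1.ne', one_smul]

theorem Sys.tri_sub {ε : ℝ} (hs : F.Sys ε) {x : X} {w z : ℂ} (h : F.Hit x w) (hw : ‖w‖ < ε)
    (hz : ‖z‖ < ε) (hD : z ∈ F.D x) : tri z w 2 ⊆ F.D x := by
  rintro _ ⟨a, b, h1, h2, h3, -, h5, rfl⟩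
  apply hs.slit h hw
  · have : a • z + b • w ∈ ball (0 : ℂ) ε := by
      have h0 : (0 : ℂ) ∈ ball (0 : ℂ) ε := mem_ball_self ((norm_nonneg _).trans_lt hw)
      have := (convex_ball (0 : ℂ) ε).sum_mem (t := (Finset.univ : Finset (Fin 3)))
        (w := ![a, b, 1 - a - b]) (z := ![z, w, 0])
        (by intro i _; fin_cases i <;> simp <;> linarith)
        (by simp [Fin.sum_univ_three])
        (by intro i _; fin_cases i <;> simp [hz, hw]; simpa using h0)
      simpa [Fin.sum_univ_three] using this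
    simpa using this
  · intro s hs1 e
    rcases eq_or_lt_of_le h1 with ha | ha
    · subst ha
      have : (b - s) • w = 0 := by rw [sub_smul, ← e]; simp
      rcases smul_eq_zero.1 this with h6 | h6
      · linarith
      · exact h.ne_zero h6
    · have e2 : z = ((s - b) / a) • w := by
        have : a • z = (s - b) • w := by rw [sub_smul, ← e]; simp
        rw [div_eq_inv_mul, mul_smul, ← this, smul_smul, inv_mul_cancel₀ ha.ne', one_smul]
      apply h.2
      have := F.star' (x := x) (u := w) (a := (s - b) / a) (b := 1) (e2 ▸ hD) zero_le_one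
        ((one_le_div ha).2 (by linarith))
      simpa using this

theorem Sys.move {ε : ℝ} (hs : F.Sys ε) {x : X} {w z : ℂ} (h : F.Hit x w) (hw : ‖w‖ < ε)
    (hz : ‖z‖ < ε) (hD : z ∈ F.D x) : F.Hit (F.go x z) (w - z) :=
  hit_transfer (convex_tri z w 2) (hs.tri_sub h hw hz hD)
    (fun t ht => ⟨0, t, le_rfl, ht.1, by linarith [ht.2], two_pos, ht.2, by simp⟩)
    (fun t ht => ⟨1 - t, t, by linarith [ht.2], ht.1, by linarith, by linarith [ht.1], ht.2,
      by module⟩) h.2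

theorem Sys.inj {ε ρ : ℝ} (hs : F.Sys ε) (hne : F.sing.Nonempty) (hρ : 4 * ρ ≤ ε) {x : X}
    (hx : ball (0 : ℂ) ρ ⊆ F.D x) : InjOn (F.go x) (ball 0 ρ) := by
  intro z hz z' hz' hzz
  by_contra hn
  set h := z' - z with hh
  have h0 : h ≠ 0 := sub_ne_zero.2 (Ne.symm hn)
  have hl : ‖h‖ < 2 * ρ := by
    have := norm_sub_le z' z
    rw [mem_ball_zero_iff] at hz hz'
    linarith
  have Z1 : ∀ y, h ∈ F.D y ∧ F.go y h = y → ball (0 : ℂ) (ε - ‖h‖) ⊆ F.D y := by
    rintro y ⟨hy1, hy2⟩ w hw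
    by_contra hwn
    obtain ⟨a, ha, hhit⟩ := exit (F.reg_of_mem hy1) hwn
    have hb := F.back hy1
    rw [hy2] at hb
    have n1 : ‖a • w‖ < ε - ‖h‖ := by
      rw [mem_ball_zero_iff] at hw
      rw [norm_smul, Real.norm_eq_abs, abs_of_pos ha.1]; nlinarith [ha.2, norm_nonneg w]
    have := hs.move hhit (by linarith [norm_nonneg h]) (z := -h)
      (by rw [norm_neg]; linarith [norm_nonneg (a • w)]) hb.1
    rw [hb.2] at this
    have h3 := hs.unique this hhit (by linarith [norm_sub_le (a • w) (-h), norm_neg h])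
      (by linarith [norm_nonneg h])
    exact h0 (by simpa using h3)
  have Z2 : ∀ y, h ∈ F.D y ∧ F.go y h = y → ∀ w : ℂ, ‖w‖ < ε - 2 * ‖h‖ →
      h ∈ F.D (F.go y w) ∧ F.go (F.go y w) h = F.go y w := by
    intro y hy w hw
    have m1 : w ∈ ball (0 : ℂ) (ε - ‖h‖) := by
      rw [mem_ball_zero_iff]; linarith [norm_nonneg h]
    have m2 : w + h ∈ ball (0 : ℂ) (ε - ‖h‖) := by
      rw [mem_ball_zero_iff]; linarith [norm_add_le w h]
    have m3 : h ∈ ball (0 : ℂ) (ε - ‖h‖) := by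
      rw [mem_ball_zero_iff]; linarith
    have c1 := F.coc (convex_ball _ _) (Z1 y hy) m1 m2
    have c2 := F.coc (convex_ball _ _) (Z1 y hy) m3 m2
    simp only [add_sub_cancel_left, add_sub_cancel_right, hy.2] at c1 c2
    exact ⟨c1.1, c1.2.trans c2.2.symm⟩
  obtain ⟨p, hp⟩ := hne
  obtain ⟨y, hy, hny⟩ := F.exists_small hp (ρ := ε - ‖h‖) (by linarith [norm_nonneg h])
  apply hny
  apply Z1
  have c0 := F.coc (convex_ball _ _) hx hz hz'
  refine preconn_ind F.conn (P := fun y => h ∈ F.D y ∧ F.go y h = y) ?_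
    (F.reg x z (hx hz)) hy ⟨c0.1, c0.2.trans hzz.symm⟩
  intro a ha
  rw [← F.map_nhds a ha, eventually_map]
  filter_upwards [F.D_nhds (F.zero_mem a ha),
    ball_mem_nhds (0 : ℂ) (show 0 < ε - 2 * ‖h‖ by linarith)] with w hw1 hw2 _
  rw [mem_ball_zero_iff] at hw2
  refine ⟨fun hP => ?_, fun hP => Z2 a hP w hw2⟩
  have := Z2 _ hP (-w) (by rwa [norm_neg])
  rwa [(F.back hw1).2] at this

end Flow

end Pool.Agent.Lib.MP_1e1a64_an
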