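import Pool.Agent.Lib.MP_1e1a64_an.Defs
import Pool.Agent.Lib.MP_1e1a64_an.Hits

/-!
The developing data of a translation surface.
-/

open Set Filter Topology MeasureTheory Metric
open scoped ENNReal NNReal

namespace Pool.Agent.Lib.MP_1e1a64_an

theorem mem_seg {z w : ℂ} : w ∈ segment ℝ 0 z ↔ ∃ t ∈ Icc (0 : ℝ) 1, t • z = w := by
  rw [segment_eq_image]; simp

theorem preconn_punctured {δ : ℝ} (hδ : 0 < δ) : IsPreconnected (ball (0 : ℂ) δ \ {0}) := by
  have : ball (0 : ℂ) δ \ {0} = Complex.exp '' {z | z.re < Real.log δ} := by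
    ext w
    constructor
    · rintro ⟨h1, h2⟩
      refine ⟨Complex.log w, ?_, Complex.exp_log h2⟩
      rw [mem_ofPred_eq, Complex.log_re]
      exact Real.log_lt_log (norm_pos_iff.2 h2) (by simpa using h1)
    · rintro ⟨z, hz, rfl⟩
      refine ⟨?_, Complex.exp_ne_zero z⟩
      rw [mem_ball_zero_iff, Complex.norm_exp]
      exact (Real.lt_log_iff_exp_lt hδ).1 hz
  rw [this]
  exact (convex_halfSpace_re_lt _).isPreconnected.image _ Complex.continuous_exp.continuousOn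

namespace TranslationSurface

variable {X : Type*} [TopologicalSpace X] (T : TranslationSurface X)

def DevAt (φ : ℂ → X) (l : Filter ℂ) (z : ℂ) : Prop :=
  Tendsto φ l (𝓝 (φ z)) ∧ φ z ∉ T.sing ∧
    ∀ c ∈ T.atlas, φ z ∈ c.source → ∀ᶠ w in l, c (φ w) = c (φ z) + (w - z)

def Dev (φ : ℂ → X) (Ω : Set ℂ) : Prop := ∀ z ∈ Ω, T.DevAt φ (𝓝[Ω] z) z

def ODev (φ : ℂ → X) (Ω : Set ℂ) : Prop := ∀ z ∈ Ω, T.DevAt φ (𝓝 z) z

variable {T} {φ ψ : ℂ → X} {l l' : Filter ℂ} {z : ℂ}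

theorem DevAt.mono (h : T.DevAt φ l z) (hl : l' ≤ l) : T.DevAt φ l' z :=
  ⟨h.1.mono_left hl, h.2.1, fun c hc hz => (h.2.2 c hc hz).filter_mono hl⟩

theorem DevAt.congr (h : T.DevAt φ l z) (h1 : φ =ᶠ[l] ψ) (h2 : φ z = ψ z) : T.DevAt ψ l z := by
  refine ⟨h2 ▸ h.1.congr' h1, h2 ▸ h.2.1, fun c hc hz => ?_⟩
  filter_upwards [h.2.2 c hc (h2 ▸ hz), h1] with w a b
  rw [← b, ← h2, a]

theorem devAt_of_chart {c : OpenPartialHomeomorph X ℂ} (hc : c ∈ T.atlas) (hz : φ z ∈ c.source)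
    (h1 : Tendsto φ l (𝓝 (φ z))) (h2 : ∀ᶠ w in l, c (φ w) = c (φ z) + (w - z)) :
    T.DevAt φ l z := by
  refine ⟨h1, T.not_sing c hc _ hz, fun c' hc' hz' => ?_⟩
  obtain ⟨v, hv⟩ := T.trans c hc c' hc' _ ⟨hz, hz'⟩
  filter_upwards [h1.eventually hv, h2] with w a b
  rw [a, b, hv.self_of_nhds]; ring

theorem DevAt.ev_eq (h1 : T.DevAt φ l z) (h2 : T.DevAt ψ l z) (h : φ z = ψ z) : φ =ᶠ[l] ψ := by
  obtain ⟨c, hc, hz⟩ := T.cover _ h1.2.1
  filter_upwards [h1.2.2 c hc hz, h2.2.2 c hc (h ▸ hz), h1.1.eventually (c.open_source.mem_nhds hz),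
    h2.1.eventually (c.open_source.mem_nhds (h ▸ hz))] with w a b c1 c2
  exact c.injOn c1 c2 (by rw [a, b, h])

theorem DevAt.shift {a : ℂ} (h : T.DevAt φ (𝓝 (a + z)) (a + z)) :
    T.DevAt (fun w => φ (a + w)) (𝓝 z) z := by
  have c : Tendsto (fun w => a + w) (𝓝 z) (𝓝 (a + z)) := (continuous_const_add a).tendsto z
  refine ⟨h.1.comp c, h.2.1, fun c' hc hz => ?_⟩
  filter_upwards [c.eventually (h.2.2 c' hc hz)] with w hw
  rw [hw]; ring

theorem ODev.dev {Ω Ω' : Set ℂ} (h : T.ODev φ Ω) (hs : Ω' ⊆ Ω) : T.Dev φ Ω' :=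
  fun z hz => (h z (hs hz)).mono nhdsWithin_le_nhds

theorem Dev.mono {Ω Ω' : Set ℂ} (h : T.Dev φ Ω) (hs : Ω' ⊆ Ω) : T.Dev φ Ω' :=
  fun z hz => (h z (hs hz)).mono (nhdsWithin_mono _ hs)

variable (T) in
theorem exists_local {x : X} (hx : x ∉ T.sing) : ∃ r > 0, ∃ ψ : ℂ → X, T.ODev ψ (ball 0 r) ∧
    ψ 0 = x ∧ map ψ (𝓝 0) = 𝓝 x ∧ InjOn ψ (ball 0 r) := by
  obtain ⟨c, hc, hxc⟩ := T.cover x hx
  obtain ⟨r, hr, hb⟩ := Metric.isOpen_iff.1 c.open_target _ (c.map_source hxc)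
  have hm : ∀ w ∈ ball (0 : ℂ) r, c x + w ∈ c.target := fun w hw => hb (by simpa using hw)
  refine ⟨r, hr, fun w => c.symm (c x + w), fun z hz => ?_, by simp [c.left_inv hxc], ?_, ?_⟩
  · refine devAt_of_chart hc (c.map_target (hm z hz))
      ((c.continuousAt_symm (hm z hz)).tendsto.comp ((continuous_const_add _).tendsto z)) ?_
    filter_upwards [isOpen_ball.mem_nhds hz] with w hw
    rw [c.right_inv (hm w hw), c.right_inv (hm z hz)]; ring
  · rw [← c.symm_map_nhds_eq hxc, ← map_add_left_nhds_zero (c x), map_map]; rfl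
  · intro a ha b hb h
    exact add_left_cancel (c.symm.injOn (hm a ha) (hm b hb) h)

variable [T2Space X]

theorem Dev.unique {Ω : Set ℂ} (hΩ : IsPreconnected Ω) (h1 : T.Dev φ Ω) (h2 : T.Dev ψ Ω) {a b : ℂ}
    (ha : a ∈ Ω) (hb : b ∈ Ω) (h : φ a = ψ a) : φ b = ψ b := by
  refine preconn_ind hΩ (P := fun z => φ z = ψ z) (fun z hz => ?_) ha hb h
  rw [← eventually_nhdsWithin_iff]
  by_cases h3 : φ z = ψ z
  · filter_upwards [(h1 z hz).ev_eq (h2 z hz) h3] with w hw using iff_of_true hw h3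
  · filter_upwards [((h1 z hz).1.prodMk_nhds (h2 z hz).1).eventually
      (isClosed_diagonal.isOpen_compl.mem_nhds h3)] with w hw using iff_of_false hw h3

theorem glue {A B : Set ℂ} (hA : IsOpen A) (hB : IsOpen B) (hAB : IsPreconnected (A ∩ B))
    (h1 : T.ODev φ A) (h2 : T.ODev ψ B) {a : ℂ} (ha : a ∈ A ∩ B) (h : φ a = ψ a) :
    ∃ χ, T.ODev χ (A ∪ B) ∧ EqOn φ χ A := by
  classical
  have e1 : EqOn φ (A.piecewise φ ψ) A := fun z hz => (piecewise_eq_of_mem _ _ _ hz).symm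
  have e2 : EqOn ψ (A.piecewise φ ψ) B := fun z hz => by
    by_cases h3 : z ∈ A
    · rw [piecewise_eq_of_mem _ _ _ h3]
      exact (Dev.unique hAB (h1.dev inter_subset_left) (h2.dev inter_subset_right) ha
        ⟨h3, hz⟩ h).symm
    · rw [piecewise_eq_of_notMem _ _ _ h3]
  refine ⟨_, ?_, e1⟩
  rintro z (hz | hz)
  · exact (h1 z hz).congr (e1.eventuallyEq_of_mem (hA.mem_nhds hz)) (e1 hz)
  · exact (h2 z hz).congr (e2.eventuallyEq_of_mem (hB.mem_nhds hz)) (e2 hz)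

theorem Dev.tube (h : T.Dev φ (segment ℝ 0 z)) : ∃ C ψ, Convex ℝ C ∧ IsOpen C ∧
    segment ℝ 0 z ⊆ C ∧ T.ODev ψ C ∧ ψ 0 = φ 0 := by
  have hm : ∀ t ∈ Icc (0 : ℝ) 1, t • z ∈ segment ℝ 0 z := fun t ht => mem_seg.2 ⟨t, ht, rfl⟩
  have hloc : ∀ t ∈ Icc (0 : ℝ) 1, ∃ r > 0, ∃ ρ, T.ODev ρ (ball (t • z) r) ∧
      ρ (t • z) = φ (t • z) := by
    intro t ht
    obtain ⟨r, hr, ρ, h1, h2, -⟩ := T.exists_local (h _ (hm t ht)).2.1
    exact ⟨r, hr, fun w => ρ (-(t • z) + w), fun w hw =>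
      (h1 _ (by rwa [mem_ball_zero_iff, neg_add_eq_sub, ← dist_eq_norm])).shift, by simp [h2]⟩
  have step : ∀ t ∈ Icc (0 : ℝ) 1, ∀ r ρ, T.ODev ρ (ball (t • z) r) → ρ (t • z) = φ (t • z) →
      ∀ t' ∈ Icc (0 : ℝ) 1, ∀ t'', t' ≤ t'' → t' • z ∈ ball (t • z) r → t'' • z ∈ ball (t • z) r →
      (∃ C ψ, Convex ℝ C ∧ IsOpen C ∧ segment ℝ 0 (t' • z) ⊆ C ∧ T.ODev ψ C ∧ ψ 0 = φ 0) →
      ∃ C ψ, Convex ℝ C ∧ IsOpen C ∧ segment ℝ 0 (t'' • z) ⊆ C ∧ T.ODev ψ C ∧ ψ 0 = φ 0 := by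
    rintro t ht r ρ h1 h2 t' ht' t'' hle b1 b2 ⟨C, ψ, c1, c2, c3, c4, c5⟩
    have r0 : t • z ∈ ball (t • z) r := mem_ball_self (dist_nonneg.trans_lt b1)
    have s1 : segment ℝ 0 (t' • z) ⊆ segment ℝ 0 z :=
      (convex_segment 0 z).segment_subset (left_mem_segment _ _ _) (hm t' ht')
    have e1 := Dev.unique (convex_segment _ _).isPreconnected (c4.dev c3) (h.mono s1)
      (left_mem_segment _ _ _) (right_mem_segment _ _ _) c5
    have e2 := Dev.unique (convex_segment (t • z) (t' • z)).isPreconnected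
      (h1.dev ((convex_ball _ _).segment_subset r0 b1))
      (h.mono ((convex_segment 0 z).segment_subset (hm t ht) (hm t' ht')))
      (left_mem_segment _ _ _) (right_mem_segment _ _ _) h2
    obtain ⟨χ, g1, g2⟩ := glue c2 isOpen_ball (c1.inter (convex_ball _ _)).isPreconnected c4 h1
      ⟨c3 (right_mem_segment _ _ _), b1⟩ (e1.trans e2.symm)
    have hK : IsCompact (segment ℝ 0 (t'' • z)) := by
      rw [segment_eq_image]; exact isCompact_Icc.image (by fun_prop)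
    obtain ⟨δ, hδ, hth⟩ := hK.exists_thickening_subset_open (c2.union isOpen_ball) (by
      intro w hw
      obtain ⟨s, hs, rfl⟩ := mem_seg.1 hw
      rw [smul_smul]
      rcases le_total (s * t'') t' with h3 | h3
      · left
        apply c3
        rcases eq_or_lt_of_le ht'.1 with h4 | h4
        · have : s * t'' = 0 := le_antisymm (h4 ▸ h3) (mul_nonneg hs.1 (ht'.1.trans hle))
          rw [this, zero_smul]; exact left_mem_segment _ _ _
        · exact mem_seg.2 ⟨s * t'' / t', ⟨div_nonneg (mul_nonneg hs.1 (ht'.1.trans hle)) h4.le,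
            (div_le_one h4).2 h3⟩, by rw [smul_smul, div_mul_cancel₀ _ h4.ne']⟩
      · right
        have : Convex ℝ ((fun a : ℝ => a • z) ⁻¹' ball (t • z) r) :=
          (convex_ball _ _).linear_preimage (LinearMap.toSpanSingleton ℝ ℂ z)
        exact this.ordConnected.out b1 b2
          ⟨h3, mul_le_of_le_one_left (ht'.1.trans hle) hs.2⟩)
    exact ⟨_, χ, (convex_segment _ _).thickening δ, isOpen_thickening, self_subset_thickening hδ _,
      fun w hw => g1 w (hth hw), (g2 (c3 (left_mem_segment _ _ _))).symm.trans c5⟩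
  have hc : ∀ (t r : ℝ), 0 < r → ∀ᶠ s in 𝓝 t, s • z ∈ ball (t • z) r := fun t r hr =>
    (by fun_prop : Continuous fun s : ℝ => s • z).continuousAt.eventually (ball_mem_nhds _ hr)
  have := real_ind (P := fun t => ∃ C ψ, Convex ℝ C ∧ IsOpen C ∧ segment ℝ 0 (t • z) ⊆ C ∧
    T.ODev ψ C ∧ ψ 0 = φ 0) (a := 0) (b := 1) ?_ ?_ ?_ 1 ⟨zero_le_one, le_rfl⟩
  · simpa using this
  · obtain ⟨r, hr, ρ, h1, h2⟩ := hloc 0 ⟨le_rfl, zero_le_one⟩
    exact ⟨_, ρ, convex_ball _ _, isOpen_ball, by simpa using hr, h1, by simpa using h2⟩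
  · intro t ht hP
    have ht' : t ∈ Icc (0 : ℝ) 1 := ⟨ht.1, ht.2.le⟩
    obtain ⟨r, hr, ρ, h1, h2⟩ := hloc t ht'
    filter_upwards [nhdsWithin_le_nhds (hc t r hr), self_mem_nhdsWithin] with s a b
    exact step t ht' r ρ h1 h2 t ht' s (le_of_lt b) (mem_ball_self hr) a (hP t ⟨ht.1, le_rfl⟩)
  · intro t ht hP
    have ht' : t ∈ Icc (0 : ℝ) 1 := ⟨ht.1.le, ht.2⟩
    obtain ⟨r, hr, ρ, h1, h2⟩ := hloc t ht'
    obtain ⟨s, a, b⟩ := (Eventually.and (Ico_mem_nhdsLT ht.1)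
      (nhdsWithin_le_nhds (hc t r hr))).exists
    exact step t ht' r ρ h1 h2 s ⟨a.1, a.2.le.trans ht.2⟩ t a.2.le b (mem_ball_self hr) (hP s a)

variable (T) in
def D (x : X) : Set ℂ := {z | ∃ φ, T.Dev φ (segment ℝ 0 z) ∧ φ 0 = x}

variable (T) in
open Classical in
noncomputable def go (x : X) (z : ℂ) : X := if h : z ∈ T.D x then h.choose z else x

theorem Dev.go_eq (h : T.Dev φ (segment ℝ 0 z)) : z ∈ T.D (φ 0) ∧ T.go (φ 0) z = φ z := by
  have h1 : z ∈ T.D (φ 0) := ⟨φ, h, rfl⟩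
  refine ⟨h1, ?_⟩
  rw [go, dif_pos h1]
  exact Dev.unique (convex_segment _ _).isPreconnected h1.choose_spec.1 h (left_mem_segment _ _ _)
    (right_mem_segment _ _ _) h1.choose_spec.2

theorem ODev.go_eq {C : Set ℂ} (h : T.ODev φ C) (hC : Convex ℝ C) (h0 : (0 : ℂ) ∈ C) (hz : z ∈ C) :
    z ∈ T.D (φ 0) ∧ T.go (φ 0) z = φ z := (h.dev (hC.segment_subset h0 hz)).go_eq

theorem tube_D {x : X} (h : z ∈ T.D x) : ∃ C, Convex ℝ C ∧ IsOpen C ∧ segment ℝ 0 z ⊆ C ∧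
    C ⊆ T.D x ∧ T.ODev (T.go x) C := by
  obtain ⟨φ, h1, rfl⟩ := h
  obtain ⟨C, ψ, c1, c2, c3, c4, c5⟩ := h1.tube
  have e1 := fun w hw => c4.go_eq (z := w) c1 (c3 (left_mem_segment _ _ _)) hw
  rw [c5] at e1
  exact ⟨C, c1, c2, c3, fun w hw => (e1 w hw).1, fun w hw => (c4 w hw).congr
    (EqOn.eventuallyEq_of_mem (fun a ha => (e1 a ha).2.symm) (c2.mem_nhds hw)) (e1 w hw).2.symm⟩

theorem go_dev (x : X) : T.ODev (T.go x) (T.D x) := fun _ h => by
  obtain ⟨C, -, -, c3, -, c5⟩ := tube_D h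
  exact c5 _ (c3 (right_mem_segment _ _ _))

theorem go_zero (x : X) : T.go x 0 = x := by
  by_cases h : (0 : ℂ) ∈ T.D x
  · obtain ⟨φ, h1, rfl⟩ := h
    exact h1.go_eq.2
  · rw [go, dif_neg h]

theorem cone_data {p : X} (hp : p ∈ T.sing) : ∃ (U : Set X) (pos : X → ℂ) (n : ℕ),
    U ∈ 𝓝 p ∧ Tendsto pos (𝓝 p) (𝓝 0) ∧ pos p = 0 ∧ (∀ y ∈ U, y ≠ p → pos y ≠ 0) ∧
    (∀ N ∈ 𝓝 p, ∃ M ∈ 𝓝 (0 : ℂ), ∀ y ∈ U, pos y ∈ M → y ∈ N) ∧
    (∃ M ∈ 𝓝 (0 : ℂ), ∀ y ∈ U, ∀ w : ℂ,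
      (∀ t ∈ Icc (0 : ℝ) 1, pos y + t • w ∈ M ∧ pos y + t • w ≠ 0) →
        w ∈ T.D y ∧ T.go y w ∈ U ∧ pos (T.go y w) = pos y + w) ∧
    (∀ w : ℂ, ∃ F : Finset X, F.card ≤ n ∧ ∀ y ∈ U, pos y = w → y ∈ F) ∧
    (∃ V, IsPreconnected V ∧ V ⊆ (T.sing : Set X)ᶜ ∧ ∀ᶠ y in 𝓝 p, y ∉ T.sing → y ∈ V) ∧
    ∃ᶠ y in 𝓝 p, y ∉ T.sing := by
  classical
  obtain ⟨k, ψ, h1, h2, h3⟩ := T.cone p hp
  have hmap : map ψ.symm (𝓝 0) = 𝓝 p := h2 ▸ ψ.symm_map_nhds_eq h1
  have hs0 : ψ.symm 0 = p := h2 ▸ ψ.left_inv h1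
  have hball : ∀ δ > 0, ∀ ζ : ℂ, ζ ^ (k + 1) ∈ ball (0 : ℂ) (δ ^ (k + 1)) → ζ ∈ ball (0 : ℂ) δ := by
    intro δ hδ ζ h
    rw [mem_ball_zero_iff] at h ⊢
    rw [norm_pow] at h
    exact lt_of_pow_lt_pow_left₀ _ hδ.le h
  have hS : ((T.sing.erase p : Finset X) : Set X)ᶜ ∈ 𝓝 p :=
    (T.sing.erase p).finite_toSet.isClosed.isOpen_compl.mem_nhds (by simp)
  rw [← hmap] at hS
  obtain ⟨δ, hδ, hb⟩ := Metric.mem_nhds_iff.1 (inter_mem hS
    (ψ.open_target.mem_nhds (h2 ▸ ψ.map_source h1)))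
  have hreg : ∀ ζ ∈ ball (0 : ℂ) δ, ζ ≠ 0 → ψ.symm ζ ∉ T.sing := fun ζ hζ h0 hs => by
    refine (hb hζ).1 (Finset.mem_coe.2 (Finset.mem_erase.2 ⟨fun h => h0 ?_, hs⟩))
    rw [← ψ.right_inv (hb hζ).2, h, h2]
  refine ⟨ψ.source, fun y => ψ y ^ (k + 1), k + 1, ψ.open_source.mem_nhds h1, ?_, by simp [h2],
    fun y hy hne h => hne (ψ.injOn hy h1 (by rw [h2]; exact pow_eq_zero_iff (by omega) |>.1 h)),
    fun N hN => ?_, ⟨_, ball_mem_nhds 0 (pow_pos hδ (k + 1)), fun y hy w hw => ?_⟩, fun w => ?_,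
    ⟨ψ.symm '' (ball 0 δ \ {0}), (preconn_punctured hδ).image _
      (ψ.continuousOn_symm.mono fun ζ hζ => (hb hζ.1).2), ?_, ?_⟩, ?_⟩
  · simpa [h2] using ((ψ.continuousAt h1).tendsto).pow (k + 1)
  · rw [← hmap] at hN
    obtain ⟨r, hr, hr2⟩ := Metric.mem_nhds_iff.1 hN
    refine ⟨_, ball_mem_nhds 0 (pow_pos hr (k + 1)), fun y hy h => ?_⟩
    have := hr2 (hball r hr _ h)
    rwa [mem_preimage, ψ.left_inv hy] at this
  · have z0 : ψ y ^ (k + 1) ≠ 0 := by simpa using (hw 0 ⟨le_rfl, zero_le_one⟩).2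
    set ζ := ψ y ^ (k + 1) with hζ
    let ρ : ℂ → ℂ := fun a => ψ y * (1 + a / ζ) ^ (((k + 1 : ℕ) : ℂ)⁻¹)
    have ρ1 : ∀ a, ρ a ^ (k + 1) = ζ + a := fun a => by
      simp only [ρ]
      rw [mul_pow, Complex.cpow_nat_inv_pow _ (by omega), ← hζ]; field_simp
    have ρ2 : ∀ a ∈ segment ℝ 0 w, ρ a ∈ ball (0 : ℂ) δ ∧ ρ a ≠ 0 := fun a ha => by
      obtain ⟨t, ht, rfl⟩ := mem_seg.1 ha
      refine ⟨hball δ hδ _ (by rw [ρ1]; exact (hw t ht).1), fun h => (hw t ht).2 ?_⟩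
      rw [← ρ1, h]; simp
    have ρ3 : ∀ a ∈ segment ℝ 0 w, ContinuousAt ρ a := fun a ha => by
      obtain ⟨t, ht, rfl⟩ := mem_seg.1 ha
      refine continuousAt_const.mul (ContinuousAt.cpow (by fun_prop) continuousAt_const ?_)
      by_contra hn
      rw [Complex.mem_slitPlane_iff, not_or, not_lt, not_not] at hn
      set s := (1 + t • w / ζ).re with hs
      have e1 : 1 + t • w / ζ = (s : ℂ) := Complex.ext (by simp [hs]) (by simpa using hn.2)
      have s1 : 0 < 1 - s := by linarith [hn.1]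
      refine (hw (t / (1 - s)) ⟨div_nonneg ht.1 s1.le,
        (div_le_one s1).2 (by linarith [ht.2, hn.1])⟩).2 ?_
      have e2 : t • w = (s - 1 : ℂ) * ζ := by rw [← e1]; field_simp; ring
      have s2 : (1 - s : ℂ) ≠ 0 := by exact_mod_cast s1.ne'
      rw [div_eq_inv_mul, mul_smul, e2, Complex.real_smul]
      push_cast; field_simp; ring
    have hdev : T.ODev (fun a => ψ.symm (ρ a)) (segment ℝ 0 w) := fun a ha => by
      have t1 := (hb (ρ2 a ha).1).2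
      have c1 : Tendsto (fun a => ψ.symm (ρ a)) (𝓝 a) (𝓝 (ψ.symm (ρ a))) :=
        (ψ.continuousAt_symm t1).tendsto.comp (ρ3 a ha)
      refine ⟨c1, hreg _ (ρ2 a ha).1 (ρ2 a ha).2, fun c hc hz => ?_⟩
      obtain ⟨v, hv⟩ := h3 c hc _ ⟨hz, ψ.map_target t1⟩
      filter_upwards [c1.eventually hv, (ρ3 a ha).eventually (ψ.open_target.mem_nhds t1)]
        with b h4 h5
      rw [h4, hv.self_of_nhds, ψ.right_inv h5, ψ.right_inv t1, ρ1, ρ1]; ring
    have := (hdev.dev Subset.rfl).go_eq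
    have e0 : ψ.symm (ρ 0) = y := by simp [ρ, ψ.left_inv hy]
    simp only [e0] at this
    have t1 := (hb (ρ2 w (right_mem_segment _ _ _)).1).2
    rw [this.2]
    exact ⟨this.1, ψ.map_target t1, by simp only; rw [ψ.right_inv t1, ρ1]⟩
  · refine ⟨(Polynomial.nthRoots (k + 1) w).toFinset.image ψ.symm, Finset.card_image_le.trans
      ((Multiset.toFinset_card_le _).trans (Polynomial.card_nthRoots _ _)), fun y hy h => ?_⟩
    exact Finset.mem_image.2 ⟨ψ y, Multiset.mem_toFinset.2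
      ((Polynomial.mem_nthRoots (by omega)).2 h), ψ.left_inv hy⟩
  · rintro _ ⟨ζ, hζ, rfl⟩
    exact hreg ζ hζ.1 hζ.2
  · rw [← hmap, eventually_map]
    filter_upwards [ball_mem_nhds 0 hδ] with ζ hζ h
    exact ⟨ζ, ⟨hζ, fun h0 => h (by rw [mem_singleton_iff.1 h0, hs0]; exact hp)⟩, rfl⟩
  · rw [← hmap, frequently_map]
    refine ((frequently_nhdsWithin_iff.1 (self_mem_nhdsWithin (a := (0 : ℂ))
      (s := {0}ᶜ) |> Eventually.frequently)).and_eventually (ball_mem_nhds 0 hδ)).mono ?_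
    exact fun ζ h => hreg ζ h.2 h.1.2

theorem conn [PreconnectedSpace X] : IsPreconnected (T.sing : Set X)ᶜ := by
  rw [isPreconnected_iff_subset_of_disjoint]
  intro u v hu hv hcov hdis
  have hfr : ∀ x, ∃ᶠ y in 𝓝 x, y ∉ T.sing := fun x => by
    by_cases hx : x ∈ T.sing
    · obtain ⟨-, -, -, -, -, -, -, -, -, -, -, h⟩ := cone_data hx
      exact h
    · exact Eventually.frequently (T.sing.finite_toSet.isClosed.isOpen_compl.mem_nhds hx)
  have := (isPreconnected_iff_subset_of_disjoint.1 (isPreconnected_univ (α := X)))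
    {x | ∀ᶠ y in 𝓝 x, y ∉ T.sing → y ∈ u} {x | ∀ᶠ y in 𝓝 x, y ∉ T.sing → y ∈ v}
    isOpen_setOfPred_eventually_nhds isOpen_setOfPred_eventually_nhds (fun x _ => by
      by_cases hx : x ∈ T.sing
      · obtain ⟨-, -, -, -, -, -, -, -, -, -, ⟨V, h1, h2, h3⟩, -⟩ := cone_data hx
        refine (isPreconnected_iff_subset_of_disjoint.1 h1 u v hu hv (h2.trans hcov)
          (subset_eq_empty (inter_subset_inter_left _ h2) hdis)).imp (fun h => ?_) (fun h => ?_) <;>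
        exact h3.mono fun y hy h4 => h (hy h4)
      · refine (hcov hx).imp (fun h => ?_) (fun h => ?_)
        · exact Eventually.mono (hu.mem_nhds h) fun y hy _ => hy
        · exact Eventually.mono (hv.mem_nhds h) fun y hy _ => hy) (by
      refine eq_empty_of_forall_notMem fun x hx => ?_
      obtain ⟨y, h1, h2, h3⟩ := ((hfr x).and_eventually (Eventually.and hx.2.1 hx.2.2)).exists
      exact (eq_empty_iff_forall_notMem.1 hdis) y ⟨h1, h2 h1, h3 h1⟩)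
  exact this.imp (fun h x hx => (show ∀ᶠ y in 𝓝 x, y ∉ T.sing → y ∈ u from
    h (mem_univ x)).self_of_nhds hx) (fun h x hx => (show ∀ᶠ y in 𝓝 x, y ∉ T.sing → y ∈ v from
      h (mem_univ x)).self_of_nhds hx)

variable (T) in
theorem exists_flow [PreconnectedSpace X] : ∃ F : Flow X, F.sing = T.sing ∧
    ∀ x, T.ODev (F.go x) (F.D x) := by
  choose! U pos n h1 h2 h3 h4 h5 h6 h7 h8 h9 using fun p (hp : p ∈ T.sing) => cone_data hp
  refine ⟨{ sing := T.sing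
            D := T.D
            go := T.go
            zero_mem := fun x hx => ?_
            go_zero := go_zero
            go_out := fun x z h => by rw [go, dif_neg h]
            star := fun x z h t ht => ?_
            reg := fun x z h => (go_dev x z h).2.1
            isOpen_D := fun x => isOpen_iff_mem_nhds.2 fun z h => ?_
            cont := fun x z h => (go_dev x z h).1.mono_left nhdsWithin_le_nhds
            cocycle := fun x z w h => ?_
            ray := fun x z t ht a b => ?_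
            map_nhds := fun x hx => ?_
            inj := fun x hx => ?_
            U := U
            pos := pos
            U_nhds := h1
            pos_tendsto := h2
            pos_self := h3
            pos_ne := h4
            pos_basis := h5
            cone := h6
            κ := T.sing.sup n
            fib := fun p hp w => ?_
            conn := conn
            freq_reg := h9 }, rfl, go_dev⟩
  · obtain ⟨r, hr, ψ, a, rfl, -⟩ := T.exists_local hx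
    exact (a.go_eq (convex_ball _ _) (mem_ball_self hr) (mem_ball_self hr)).1
  · obtain ⟨C, -, -, c3, c4, -⟩ := tube_D h
    exact c4 (c3 (mem_seg.2 ⟨t, ht, rfl⟩))
  · obtain ⟨C, -, c2, c3, c4, -⟩ := tube_D h
    exact mem_of_superset (c2.mem_nhds (c3 (right_mem_segment _ _ _))) c4
  · have : T.ODev (fun a => T.go x (z + a)) (segment ℝ 0 w) := fun a ha => by
      obtain ⟨t, ht, rfl⟩ := mem_seg.1 ha
      exact (go_dev x _ (h t ht)).shift
    simpa using (this.dev Subset.rfl).go_eq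
  · obtain ⟨A, a1, a2, a3, -, a5⟩ := tube_D a
    obtain ⟨B, b1, b2, b3, -, b5⟩ := tube_D b
    obtain ⟨χ, g1, g2⟩ := glue (B := (fun w => -z + w) ⁻¹' B) (ψ := fun w => T.go (T.go x z) (-z + w))
      a2 (b2.preimage (continuous_const_add _))
      (a1.inter (b1.translate_preimage_right _)).isPreconnected a5 (fun w hw => (b5 _ hw).shift)
      (a := z) ⟨a3 (right_mem_segment _ _ _), by simpa using b3 (left_mem_segment _ _ _)⟩
      (by simp [go_zero])
    refine ⟨χ, g1.dev fun w hw => ?_, (g2 (a3 (left_mem_segment _ _ _))).symm.trans (go_zero x)⟩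
    obtain ⟨s, hs, rfl⟩ := mem_seg.1 hw
    rw [smul_smul]
    rcases le_or_gt (s * (1 + t)) 1 with h | h
    · exact Or.inl (a3 (mem_seg.2 ⟨_, ⟨mul_nonneg hs.1 (by linarith), h⟩, rfl⟩))
    · have t0 : 0 < t := by nlinarith [hs.2]
      refine Or.inr (b3 (mem_seg.2 ⟨(s * (1 + t) - 1) / t, ⟨div_nonneg (by linarith) t0.le,
        (div_le_one t0).2 (by nlinarith [hs.2])⟩, ?_⟩))
      rw [smul_smul, div_mul_cancel₀ _ t0.ne']; module
  · obtain ⟨r, hr, ψ, a, rfl, b, -⟩ := T.exists_local hx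
    rw [← b]
    exact map_congr (EqOn.eventuallyEq_of_mem (fun z hz =>
      (a.go_eq (convex_ball _ _) (mem_ball_self hr) hz).2) (ball_mem_nhds _ hr))
  · obtain ⟨r, hr, ψ, a, rfl, -, b⟩ := T.exists_local hx
    exact ⟨_, ball_mem_nhds _ hr, b.congr fun z hz =>
      (a.go_eq (convex_ball _ _) (mem_ball_self hr) hz).2.symm⟩
  · obtain ⟨G, a, b⟩ := h7 p hp w
    exact ⟨G, a.trans (Finset.le_sup hp), b⟩

omit [T2Space X] in
theorem secondCountable [CompactSpace X] (T : TranslationSurface X) :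
    SecondCountableTopology X := by
  have : ∀ x : X, ∃ c : OpenPartialHomeomorph X ℂ, x ∈ c.source := fun x => by
    by_cases hx : x ∈ T.sing
    · obtain ⟨-, ψ, h, -⟩ := T.cone x hx
      exact ⟨ψ, h⟩
    · obtain ⟨c, -, h⟩ := T.cover x hx
      exact ⟨c, h⟩
  choose c hc using this
  obtain ⟨s, hs⟩ := CompactSpace.elim_nhds_subcover (fun x => (c x).source)
    fun x => (c x).open_source.mem_nhds (hc x)
  have := fun x : s => (c x).secondCountableTopology_source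
  exact TopologicalSpace.secondCountableTopology_of_countable_cover
    (U := fun x : s => (c x).source) (fun x => (c x).open_source) (Eq.trans (by ext x; simp) hs)

end TranslationSurface

end Pool.Agent.Lib.MP_1e1a64_an
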