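import Pool.Agent.Lib.MP_1e1a64_an.Flow

/-!
Behaviour near cone points; linear change of the developing data.
-/

open Set Filter Topology MeasureTheory Metric
open scoped ENNReal NNReal

namespace Pool.Agent.Lib.MP_1e1a64_an

namespace Flow

variable {X : Type*} [TopologicalSpace X] (F : Flow X)

/-- the segment with holonomy `w` from `x` ends at a cone point -/
def Hit (x : X) (w : ℂ) : Prop := (∀ t ∈ Ico (0 : ℝ) 1, t • w ∈ F.D x) ∧ w ∉ F.D x

def ConeRad (r : ℝ) : Prop := ∀ p ∈ F.sing, ∀ y ∈ F.U p, ∀ w : ℂ, ‖F.pos p y‖ < r →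
  ‖F.pos p y + w‖ < r → (∀ t ∈ Icc (0 : ℝ) 1, F.pos p y + t • w ≠ 0) →
    w ∈ F.D y ∧ F.go y w ∈ F.U p ∧ F.pos p (F.go y w) = F.pos p y + w

theorem exists_coneRad : ∃ r > 0, F.ConeRad r := by
  have : ∀ p ∈ F.sing, ∀ᶠ r in 𝓝[>] (0 : ℝ), ∀ y ∈ F.U p, ∀ w : ℂ, ‖F.pos p y‖ < r →
      ‖F.pos p y + w‖ < r → (∀ t ∈ Icc (0 : ℝ) 1, F.pos p y + t • w ≠ 0) →
      w ∈ F.D y ∧ F.go y w ∈ F.U p ∧ F.pos p (F.go y w) = F.pos p y + w := by
    intro p hp
    obtain ⟨M, hM, h⟩ := F.cone p hp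
    obtain ⟨r0, hr0, hb⟩ := Metric.mem_nhds_iff.1 hM
    filter_upwards [Ioo_mem_nhdsGT hr0] with r hr y hy w h1 h2 h3
    apply h y hy w
    intro t ht
    refine ⟨hb ?_, h3 t ht⟩
    have := (convex_ball (0 : ℂ) r0).add_smul_sub_mem (x := F.pos p y) (y := F.pos p y + w)
      (by simpa using h1.trans hr.2) (by simpa using h2.trans hr.2) ht
    simpa using this
  have h2 := (F.sing.eventually_all).2 this
  obtain ⟨r, hr, h⟩ :=
    (Eventually.and (self_mem_nhdsWithin : Ioi (0 : ℝ) ∈ 𝓝[>] 0) h2).exists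
  exact ⟨r, hr, h⟩

variable {F}

theorem ConeRad.mono {r r' : ℝ} (h : F.ConeRad r) (hr : r' ≤ r) : F.ConeRad r' :=
  fun p hp y hy w h1 h2 h3 => h p hp y hy w (h1.trans_le hr) (h2.trans_le hr) h3

theorem ConeRad.toward {r : ℝ} (h : F.ConeRad r) {p : X} (hp : p ∈ F.sing) {y : X}
    (hy : y ∈ F.U p) (h1 : ‖F.pos p y‖ < r) (h0 : F.pos p y ≠ 0) {t : ℝ} (ht : t ∈ Ico (0 : ℝ) 1) :
    t • (-F.pos p y) ∈ F.D y ∧ F.go y (t • (-F.pos p y)) ∈ F.U p ∧
      F.pos p (F.go y (t • (-F.pos p y))) = (1 - t) • F.pos p y := by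
  have e : F.pos p y + t • (-F.pos p y) = (1 - t) • F.pos p y := by module
  have := h p hp y hy (t • (-F.pos p y)) h1 (by
    rw [e, norm_smul, Real.norm_eq_abs, abs_of_nonneg (by linarith [ht.2])]
    nlinarith [norm_nonneg (F.pos p y), ht.1]) (by
    intro s hs
    have e2 : F.pos p y + s • t • (-F.pos p y) = (1 - s * t) • F.pos p y := by module
    rw [e2]
    apply smul_ne_zero _ h0
    nlinarith [hs.1, hs.2, ht.1, ht.2])
  rwa [e] at this

theorem tendsto_of_pos {α : Type*} {l : Filter α} {p : X} (hp : p ∈ F.sing) {γ : α → X}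
    (h1 : ∀ᶠ a in l, γ a ∈ F.U p) (h2 : Tendsto (fun a => F.pos p (γ a)) l (𝓝 0)) :
    Tendsto γ l (𝓝 p) := by
  intro N hN
  obtain ⟨M, hM, h⟩ := F.pos_basis p hp N hN
  rw [mem_map]
  filter_upwards [h1, h2.eventually hM] with a ha1 ha2 using h _ ha1 ha2

variable [T2Space X]

theorem ConeRad.hit {r : ℝ} (h : F.ConeRad r) {p : X} (hp : p ∈ F.sing) {y : X}
    (hy : y ∈ F.U p) (h1 : ‖F.pos p y‖ < r) : -F.pos p y ∉ F.D y := by
  intro hD
  have h0 : F.pos p y ≠ 0 := F.pos_ne p hp y hy (by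
    rintro rfl; exact F.reg_of_mem hD hp)
  have hI := Ico_mem_nhdsLT (zero_lt_one' ℝ)
  have t1 : Tendsto (fun t : ℝ => F.go y (t • (-F.pos p y))) (𝓝[<] 1) (𝓝 p) := by
    apply tendsto_of_pos hp
    · filter_upwards [hI] with t ht using (h.toward hp hy h1 h0 ht).2.1
    · have : Tendsto (fun t : ℝ => (1 - t) • F.pos p y) (𝓝[<] 1) (𝓝 0) := by
        apply Tendsto.mono_left _ nhdsWithin_le_nhds
        have : Continuous (fun t : ℝ => (1 - t) • F.pos p y) := by fun_prop
        simpa using this.tendsto 1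
      apply this.congr'
      filter_upwards [hI] with t ht using (h.toward hp hy h1 h0 ht).2.2.symm
  have t2 : Tendsto (fun t : ℝ => F.go y (t • (-F.pos p y))) (𝓝[<] 1)
      (𝓝 (F.go y (-F.pos p y))) := by
    apply Tendsto.mono_left _ nhdsWithin_le_nhds
    apply (F.contAt hD).tendsto.comp
    have : Continuous (fun t : ℝ => t • (-F.pos p y)) := by fun_prop
    simpa using this.tendsto 1
  have := tendsto_nhds_unique t1 t2
  exact F.reg y _ hD (this ▸ hp)

theorem ConeRad.step {r : ℝ} (h : F.ConeRad r) {p : X} (hp : p ∈ F.sing) {y : X}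
    (hy : y ∈ F.U p) {w : ℂ} (h1 : ‖F.pos p y‖ < r) (h2 : ‖F.pos p y + w‖ < r)
    (hw : w ∈ F.D y) : F.go y w ∈ F.U p ∧ F.pos p (F.go y w) = F.pos p y + w := by
  refine (h p hp y hy w h1 h2 ?_).2
  intro t ht h0
  apply h.hit hp hy h1
  have : -F.pos p y = t • w := by rw [neg_eq_iff_add_eq_zero]; exact h0
  rw [this]
  exact F.star y w hw t ht

variable [CompactSpace X] (F)

omit [T2Space X] in
theorem small_hit {N : Set X} (hN : ∀ p ∈ F.sing, N ∈ 𝓝 p) :
    ∃ r > 0, ∀ x w, w ∉ F.D x → ‖w‖ < r → x ∈ N := by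
  have hK : IsCompact (interior N)ᶜ := isOpen_interior.isClosed_compl.isCompact
  have h1 : ∀ x ∈ (interior N)ᶜ, ∀ᶠ p : ℂ × X in 𝓝 ((0 : ℂ), x), p.1 ∈ F.D p.2 := by
    intro x hx
    have hxr : x ∉ F.sing := fun h => hx (mem_interior_iff_mem_nhds.2 (hN x h))
    have := (F.joint (F.zero_mem x hxr)).1
    exact (continuous_swap.tendsto ((0 : ℂ), x)).eventually this
  have h2 := hK.eventually_forall_of_forall_eventually
    (P := fun (w : ℂ) (x : X) => w ∈ F.D x) h1
  obtain ⟨r, hr, hb⟩ := Metric.mem_nhds_iff.1 h2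
  refine ⟨r, hr, fun x w hw hwr => ?_⟩
  by_contra hx
  exact hw (hb (by simpa using hwr) x (fun h => hx (interior_subset h)))

theorem near_pos : ∃ r > 0, F.ConeRad r ∧ ∀ y w, F.Hit y w → ‖w‖ < r →
    ∃ p ∈ F.sing, y ∈ F.U p ∧ F.pos p y = -w := by
  obtain ⟨r, hr, hc⟩ := F.exists_coneRad
  have hN : ∀ p ∈ F.sing, {y | ∃ p ∈ F.sing, y ∈ F.U p ∧ ‖F.pos p y‖ < r / 2} ∈ 𝓝 p := by
    intro p hp
    have := (F.pos_tendsto p hp).eventually (ball_mem_nhds (0 : ℂ) (half_pos hr))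
    filter_upwards [F.U_nhds p hp, this] with y h1 h2
    exact ⟨p, hp, h1, by simpa using h2⟩
  obtain ⟨r1, hr1, h⟩ := F.small_hit hN
  refine ⟨min r1 (r / 2), by positivity, hc.mono ((min_le_right _ _).trans (by linarith)), ?_⟩
  intro y w hw hwr
  obtain ⟨p, hp, hy, hyr⟩ := h y w hw.2 (hwr.trans_le (min_le_left _ _))
  have hw2 : ‖w‖ < r / 2 := hwr.trans_le (min_le_right _ _)
  refine ⟨p, hp, hy, ?_⟩
  by_contra hne
  apply hw.2
  refine (hc p hp y hy w (by linarith) ?_ ?_).1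
  · linarith [norm_add_le (F.pos p y) w]
  · intro t ht h0
    rcases eq_or_lt_of_le ht.2 with h1 | h1
    · apply hne
      rw [h1, one_smul] at h0
      exact eq_neg_of_add_eq_zero_left h0
    · apply hc.hit hp hy (by linarith)
      have : -F.pos p y = t • w := by rw [neg_eq_iff_add_eq_zero]; exact h0
      rw [this]
      exact hw.1 t ⟨ht.1, h1⟩

variable {F}

omit [T2Space X] [CompactSpace X] in
theorem Hit.shift {x : X} {w : ℂ} (h : F.Hit x w) {t : ℝ} (ht : t ∈ Ico (0 : ℝ) 1) :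
    F.Hit (F.go x (t • w)) ((1 - t) • w) := by
  constructor
  · intro s hs
    have := F.cocycle x (t • w) (s • (1 - t) • w) (fun a ha => by
      have e : t • w + a • s • (1 - t) • w = (t + a * s * (1 - t)) • w := by module
      rw [e]
      have h1 : 0 ≤ a * s := mul_nonneg ha.1 hs.1
      have h2 : a * s < 1 := by nlinarith [ha.1, ha.2, hs.1, hs.2]
      exact h.1 _ ⟨by nlinarith [ht.1, ht.2], by nlinarith [ht.1, ht.2]⟩)
    exact this.1
  · intro hD
    have := F.line (h.1 t ht) hD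
    apply h.2
    simpa using this.1

theorem Hit.limit {x : X} {w : ℂ} (h : F.Hit x w) : ∃ p ∈ F.sing,
    (∀ᶠ t in 𝓝[<] (1 : ℝ), F.go x (t • w) ∈ F.U p ∧ F.pos p (F.go x (t • w)) = (t - 1) • w) ∧
      Tendsto (fun t : ℝ => F.go x (t • w)) (𝓝[<] 1) (𝓝 p) := by
  obtain ⟨r, hr, hc, hn⟩ := F.near_pos
  have hsm : Tendsto (fun t : ℝ => (t - 1) • w) (𝓝[<] 1) (𝓝 0) := by
    apply Tendsto.mono_left _ nhdsWithin_le_nhds
    have : Continuous (fun t : ℝ => (t - 1) • w) := by fun_prop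
    simpa using this.tendsto 1
  have hev : ∀ᶠ t in 𝓝[<] (1 : ℝ), ‖(t - 1) • w‖ < r := by
    filter_upwards [hsm.eventually (ball_mem_nhds (0 : ℂ) hr)] with t ht using by simpa using ht
  obtain ⟨t0, ht0, h0⟩ := (Eventually.and (Ico_mem_nhdsLT (zero_lt_one' ℝ)) hev).exists
  obtain ⟨p, hp, hU, hpos⟩ := hn _ _ (h.shift ht0) (by
    rwa [← norm_neg, ← neg_smul, neg_sub])
  rw [← neg_smul, neg_sub] at hpos
  have key : ∀ᶠ t in 𝓝[<] (1 : ℝ),
      F.go x (t • w) ∈ F.U p ∧ F.pos p (F.go x (t • w)) = (t - 1) • w := by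
    filter_upwards [Ico_mem_nhdsLT ht0.2, hev] with t ht h1
    have hco := F.cocycle x (t0 • w) ((t - t0) • w) (fun a ha => by
      have e : t0 • w + a • (t - t0) • w = (t0 + a * (t - t0)) • w := by module
      rw [e]
      exact h.1 _ ⟨by nlinarith [ht0.1, ht.1, ha.1], by nlinarith [ht.2, ha.2, ht.1]⟩)
    have e : (t0 - 1) • w + (t - t0) • w = (t - 1) • w := by module
    have e' : t0 • w + (t - t0) • w = t • w := by module
    have := hc.step hp hU (w := (t - t0) • w) (by rwa [hpos]) (by rwa [hpos, e]) hco.1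
    rwa [hco.2, hpos, e, e'] at this
  refine ⟨p, hp, key, tendsto_of_pos hp (key.mono fun t ht => ht.1) (hsm.congr' ?_)⟩
  filter_upwards [key] with t ht using ht.2.symm

variable (F)

theorem unif {f : X → ℝ} (hf : Continuous f) {ω : ℝ} (hω : 0 < ω) :
    ∃ r > 0, ∀ x w, w ∈ F.D x → ‖w‖ < r → |f (F.go x w) - f x| ≤ ω := by
  have h1 : ∀ x ∈ (univ : Set X), ∀ᶠ p : ℂ × X in 𝓝 ((0 : ℂ), x),
      p.1 ∈ F.D p.2 → |f (F.go p.2 p.1) - f p.2| ≤ ω := by
    intro x _
    have hN : {y | |f y - f x| < ω / 2} ∈ 𝓝 x := by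
      have := hf.continuousAt (x := x).eventually (ball_mem_nhds (f x) (half_pos hω))
      filter_upwards [this] with y hy using by simpa [Real.dist_eq] using hy
    have hsnd : ∀ᶠ p : ℂ × X in 𝓝 ((0 : ℂ), x), |f p.2 - f x| < ω / 2 :=
      (continuous_snd.tendsto ((0 : ℂ), x)).eventually hN
    have key : ∀ᶠ p : ℂ × X in 𝓝 ((0 : ℂ), x),
        p.1 ∈ F.D p.2 → |f (F.go p.2 p.1) - f x| < ω / 2 := by
      by_cases hx : x ∈ F.sing
      · obtain ⟨r, hr, hc⟩ := F.exists_coneRad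
        obtain ⟨M, hM, hb⟩ := F.pos_basis x hx _ hN
        have t1 : Tendsto (fun p : ℂ × X => F.pos x p.2) (𝓝 ((0 : ℂ), x)) (𝓝 0) :=
          (F.pos_tendsto x hx).comp (continuous_snd.tendsto ((0 : ℂ), x))
        have t2 : Tendsto (fun p : ℂ × X => F.pos x p.2 + p.1) (𝓝 ((0 : ℂ), x)) (𝓝 0) := by
          simpa using t1.add (continuous_fst.tendsto ((0 : ℂ), x))
        filter_upwards [(continuous_snd.tendsto ((0 : ℂ), x)).eventually (F.U_nhds x hx),
          t1.eventually (ball_mem_nhds _ hr), t2.eventually (ball_mem_nhds _ hr),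
          t2.eventually hM] with p h1 h2 h3 h4 h5
        have := hc.step hx h1 (by simpa using h2) (by simpa using h3) h5
        exact hb _ this.1 (by rw [this.2]; exact h4)
      · have := (F.joint (F.zero_mem x hx)).2
        rw [F.go_zero] at this
        have h2 := (this.comp (continuous_swap.tendsto ((0 : ℂ), x))).eventually hN
        filter_upwards [h2] with p hp _ using hp
    filter_upwards [hsnd, key] with p h1 h2 h3
    have := h2 h3
    rw [abs_lt] at this h1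
    rw [abs_le]; constructor <;> linarith [this.1, this.2, h1.1, h1.2]
  have h2 := isCompact_univ.eventually_forall_of_forall_eventually
    (P := fun (w : ℂ) (x : X) => w ∈ F.D x → |f (F.go x w) - f x| ≤ ω) h1
  obtain ⟨r, hr, hb⟩ := Metric.mem_nhds_iff.1 h2
  exact ⟨r, hr, fun x w hw hwr => hb (by simpa using hwr) x trivial hw⟩

omit [CompactSpace X] in
theorem exists_small {p : X} (hp : p ∈ F.sing) {ρ : ℝ} (hρ : 0 < ρ) :
    ∃ y, y ∉ F.sing ∧ ¬ ball (0 : ℂ) ρ ⊆ F.D y := by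
  obtain ⟨r, hr, hc⟩ := F.exists_coneRad
  have h1 := (F.pos_tendsto p hp).eventually (ball_mem_nhds (0 : ℂ) (lt_min hr hρ))
  obtain ⟨y, hy, hU, h2⟩ := ((F.freq_reg p hp).and_eventually
    (Eventually.and (F.U_nhds p hp) h1)).exists
  have h3 : ‖F.pos p y‖ < min r ρ := by simpa using h2
  refine ⟨y, hy, fun h => hc.hit hp hU (h3.trans_le (min_le_left _ _)) (h ?_)⟩
  simpa using h3.trans_le (min_le_right _ _)

omit [T2Space X] [CompactSpace X]

/-- linear change of coordinates -/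
noncomputable def lin (g : ℂ ≃L[ℝ] ℂ) : Flow X where
  sing := F.sing
  D x := g.symm ⁻¹' F.D x
  go x z := F.go x (g.symm z)
  zero_mem x hx := by simpa using F.zero_mem x hx
  go_zero x := by simp [F.go_zero]
  go_out x z h := F.go_out x _ h
  star x z h t ht := by
    rw [mem_preimage, map_smul]; exact F.star x _ h t ht
  reg x z h := F.reg x _ h
  isOpen_D x := (F.isOpen_D x).preimage g.symm.continuous
  cont x := (F.cont x).comp g.symm.continuous.continuousOn (fun _ h => h)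
  cocycle x z w h := by
    have := F.cocycle x (g.symm z) (g.symm w) (fun t ht => by
      simpa only [mem_preimage, map_add, map_smul] using h t ht)
    simpa only [mem_preimage, map_add] using this
  ray x z t ht h1 h2 := by
    have := F.ray x (g.symm z) t ht h1 (by simpa only [mem_preimage, map_smul] using h2)
    simpa only [mem_preimage, map_smul] using this
  map_nhds x hx := by
    rw [← F.map_nhds x hx]
    have : map g.symm (𝓝 (0 : ℂ)) = 𝓝 0 := by
      simpa using g.symm.toHomeomorph.map_nhds_eq 0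
    conv_rhs => rw [← this, map_map]
    rfl
  inj x hx := by
    obtain ⟨N, hN, h⟩ := F.inj x hx
    refine ⟨g.symm ⁻¹' N, g.symm.continuous.continuousAt.preimage_mem_nhds (by simpa using hN), ?_⟩
    intro a ha b hb hab
    exact g.symm.injective (h ha hb hab)
  U := F.U
  pos p y := g (F.pos p y)
  U_nhds := F.U_nhds
  pos_tendsto p hp := by
    have := (g.continuous.tendsto 0).comp (F.pos_tendsto p hp)
    simpa [Function.comp_def] using this
  pos_self p hp := by simp [F.pos_self p hp]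
  pos_ne p hp y hy hne := by simpa using F.pos_ne p hp y hy hne
  pos_basis p hp N hN := by
    obtain ⟨M, hM, h⟩ := F.pos_basis p hp N hN
    refine ⟨g.symm ⁻¹' M, g.symm.continuous.continuousAt.preimage_mem_nhds (by simpa using hM), ?_⟩
    intro y hy h2
    exact h y hy (by simpa using h2)
  cone p hp := by
    obtain ⟨M, hM, h⟩ := F.cone p hp
    refine ⟨g.symm ⁻¹' M, g.symm.continuous.continuousAt.preimage_mem_nhds (by simpa using hM), ?_⟩
    intro y hy w hw
    have := h y hy (g.symm w) (fun t ht => by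
      obtain ⟨h1, h2⟩ := hw t ht
      refine ⟨by
        simpa only [mem_preimage, map_add, map_smul, ContinuousLinearEquiv.symm_apply_apply]
          using h1, fun h0 => h2 ?_⟩
      have := congrArg g h0
      simpa only [map_add, map_smul, ContinuousLinearEquiv.apply_symm_apply, map_zero]
        using this)
    refine ⟨this.1, this.2.1, ?_⟩
    rw [this.2.2]; simp
  κ := F.κ
  fib p hp w := by
    obtain ⟨G, hG, h⟩ := F.fib p hp (g.symm w)
    exact ⟨G, hG, fun y hy h2 => h y hy (by rw [← h2]; simp)⟩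
  conn := F.conn
  freq_reg := F.freq_reg

@[simp] theorem lin_sing (g : ℂ ≃L[ℝ] ℂ) : (F.lin g).sing = F.sing := rfl
@[simp] theorem lin_κ (g : ℂ ≃L[ℝ] ℂ) : (F.lin g).κ = F.κ := rfl
theorem lin_D (g : ℂ ≃L[ℝ] ℂ) (x : X) (z : ℂ) : z ∈ (F.lin g).D x ↔ g.symm z ∈ F.D x := Iff.rfl
theorem lin_go (g : ℂ ≃L[ℝ] ℂ) (x : X) (z : ℂ) : (F.lin g).go x z = F.go x (g.symm z) := rfl

end Flow

end Pool.Agent.Lib.MP_1e1a64_an
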