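import Pool.Agent.Lib.MP_1e1a64_an.Hits

/-!
Internal saddle connections and complexes.
-/

open Set Filter Topology MeasureTheory Metric
open scoped ENNReal NNReal

namespace Pool.Agent.Lib.MP_1e1a64_an

def rev {X : Type*} (e : X × ℂ) : X × ℂ := (e.1, -e.2)

@[simp] theorem rev_rev {X : Type*} (e : X × ℂ) : rev (rev e) = e := by simp [rev]
@[simp] theorem rev_snd {X : Type*} (e : X × ℂ) : (rev e).2 = -e.2 := rfl
@[simp] theorem rev_fst {X : Type*} (e : X × ℂ) : (rev e).1 = e.1 := rfl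

theorem tendsto_smul_zero (v : ℂ) (t : ℝ) :
    Tendsto (fun s : ℝ => (s - t) • v) (𝓝 t) (𝓝 0) := by
  have : Continuous (fun s : ℝ => (s - t) • v) := by fun_prop
  simpa using this.tendsto t

theorem tendsto_smul_zero' (v : ℂ) : Tendsto (fun s : ℝ => s • v) (𝓝[>] 0) (𝓝 0) := by
  have := (tendsto_smul_zero v 0).mono_left (nhdsWithin_le_nhds (s := Ioi 0))
  simpa only [sub_zero] using this

namespace Flow

variable {X : Type*} [TopologicalSpace X] (F : Flow X)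

noncomputable def pt (e : X × ℂ) (t : ℝ) : X := F.go e.1 (t • e.2)

def arc (e : X × ℂ) : Set X := F.pt e '' Ioo (-1) 1

theorem pt_rev (e : X × ℂ) (t : ℝ) : F.pt (rev e) t = F.pt e (-t) := by simp [pt]

theorem neg_mem_Ioo {t : ℝ} (ht : t ∈ Ioo (-1 : ℝ) 1) : -t ∈ Ioo (-1 : ℝ) 1 :=
  ⟨by linarith [ht.2], by linarith [ht.1]⟩

@[simp] theorem arc_rev (e : X × ℂ) : F.arc (rev e) = F.arc e := by
  ext x
  constructor
  · rintro ⟨t, ht, rfl⟩; exact ⟨-t, neg_mem_Ioo ht, (F.pt_rev e t).symm⟩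
  · rintro ⟨t, ht, rfl⟩; exact ⟨-t, neg_mem_Ioo ht, by rw [F.pt_rev, neg_neg]⟩

theorem pt_mem_arc (e : X × ℂ) {t : ℝ} (ht : t ∈ Ioo (-1 : ℝ) 1) : F.pt e t ∈ F.arc e :=
  ⟨t, ht, rfl⟩

variable {F}

theorem IsSC.rev {e : X × ℂ} (he : F.IsSC e) : F.IsSC (rev e) :=
  ⟨he.2, by simpa using he.1⟩

theorem IsSC.ne {e : X × ℂ} (he : F.IsSC e) : e.2 ≠ 0 := he.1.ne_zero

theorem IsSC.mem {e : X × ℂ} (he : F.IsSC e) {t : ℝ} (ht : t ∈ Ioo (-1 : ℝ) 1) :
    t • e.2 ∈ F.D e.1 := by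
  rcases le_or_gt 0 t with h | h
  · exact he.1.1 t ⟨h, ht.2⟩
  · simpa using he.2.1 (-t) ⟨by linarith, by linarith [ht.1]⟩

theorem IsSC.pt_reg {e : X × ℂ} (he : F.IsSC e) {t : ℝ} (ht : t ∈ Ioo (-1 : ℝ) 1) :
    F.pt e t ∉ F.sing := F.reg _ _ (he.mem ht)

theorem IsSC.step {e : X × ℂ} (he : F.IsSC e) {t t' : ℝ} (ht : t ∈ Ioo (-1 : ℝ) 1)
    (ht' : t' ∈ Ioo (-1 : ℝ) 1) :
    (t' - t) • e.2 ∈ F.D (F.pt e t) ∧ F.go (F.pt e t) ((t' - t) • e.2) = F.pt e t' := by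
  have := F.cocycle e.1 (t • e.2) ((t' - t) • e.2) (fun a ha => by
    have e1 : t • e.2 + a • (t' - t) • e.2 = (t + a • (t' - t)) • e.2 := by
      rw [smul_eq_mul]; module
    rw [e1]
    exact he.mem ((convex_Ioo (-1 : ℝ) 1).add_smul_sub_mem ht ht' ha))
  refine ⟨this.1, this.2.trans ?_⟩
  unfold pt; congr 1; module

theorem IsSC.range {e : X × ℂ} (he : F.IsSC e) {t a : ℝ} (ht : t ∈ Ioo (-1 : ℝ) 1)
    (h : a • e.2 ∈ F.D (F.pt e t)) :
    t + a ∈ Ioo (-1 : ℝ) 1 ∧ F.go (F.pt e t) (a • e.2) = F.pt e (t + a) := by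
  have := F.line (he.mem ht) h
  refine ⟨⟨?_, ?_⟩, this.2.symm⟩
  · by_contra hn
    apply he.2.2
    have h2 : (-(t + a)) • (-e.2) ∈ F.D e.1 := by simpa only [neg_smul, smul_neg, neg_neg] using this.1
    simpa using F.star' h2 zero_le_one (by linarith [not_lt.1 hn])
  · by_contra hn
    apply he.1.2
    simpa using F.star' this.1 zero_le_one (not_lt.1 hn)

theorem IsSC.hit_end {e : X × ℂ} (he : F.IsSC e) {t : ℝ} (ht : t ∈ Ioo (-1 : ℝ) 1) :
    F.Hit (F.pt e t) ((1 - t) • e.2) := by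
  constructor
  · intro s hs
    have := (he.step ht (t' := t + s * (1 - t))
      ⟨by nlinarith [ht.1, ht.2, hs.1], by nlinarith [ht.1, ht.2, hs.2]⟩).1
    rwa [add_sub_cancel_left, ← smul_smul] at this
  · intro h
    have := (he.range ht h).1.2
    linarith

theorem IsSC.eq_of_pos {e f : X × ℂ} (he : F.IsSC e) (hf : F.IsSC f) {t s c : ℝ}
    (ht : t ∈ Ioo (-1 : ℝ) 1) (hs : s ∈ Ioo (-1 : ℝ) 1) (h : F.pt e t = F.pt f s) (hc0 : 0 < c)
    (hc : f.2 = c • e.2) : f = e ∧ s = t := by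
  have h1 := he.hit_end ht
  have h2 := hf.hit_end hs
  have h3 := he.rev.hit_end (neg_mem_Ioo ht)
  have h4 := hf.rev.hit_end (neg_mem_Ioo hs)
  rw [pt_rev, neg_neg, rev_snd] at h3 h4
  rw [← h, hc, smul_smul] at h2
  rw [← h, hc, ← smul_neg, smul_smul] at h4
  have e1 := h1.smul_unique h2 (by linarith [ht.2]) (mul_pos (by linarith [hs.2]) hc0)
  have e2 := h3.smul_unique h4 (by linarith [ht.1]) (mul_pos (by linarith [hs.1]) hc0)
  have c1 : c = 1 := by linarith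
  subst c1
  have st : s = t := by linarith
  subst st
  rw [one_smul] at hc
  refine ⟨Prod.ext ?_ hc, rfl⟩
  have a1 := (he.step ht (t' := 0) ⟨by norm_num, by norm_num⟩).2
  have a2 := (hf.step ht (t' := 0) ⟨by norm_num, by norm_num⟩).2
  rw [← h, hc, a1] at a2
  simpa [pt, F.go_zero] using a2.symm

theorem IsSC.eq_or_rev {e f : X × ℂ} (he : F.IsSC e) (hf : F.IsSC f)
    (h : (F.arc e ∩ F.arc f).Nonempty) (hw : wedge e.2 f.2 = 0) :
    f = e ∨ f = MP_1e1a64_an.rev e := by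
  obtain ⟨_, ⟨t, ht, rfl⟩, ⟨s, hs, h⟩⟩ := h
  obtain ⟨c, hc⟩ := exists_smul_of_wedge he.ne hw
  rcases lt_trichotomy c 0 with h0 | h0 | h0
  · right
    exact (he.rev.eq_of_pos hf (neg_mem_Ioo ht) hs (by rw [pt_rev, neg_neg, h]) (c := -c)
      (by linarith) (by simpa using hc)).1
  · subst h0; exact absurd (by simpa using hc) hf.ne
  · left; exact (he.eq_of_pos hf ht hs h.symm h0 hc).1

theorem IsSC.arc_eq {e f : X × ℂ} (he : F.IsSC e) (hf : F.IsSC f)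
    (h : (F.arc e ∩ F.arc f).Nonempty) (hw : wedge e.2 f.2 = 0) : F.arc f = F.arc e := by
  rcases he.eq_or_rev hf h hw with h | h <;> simp [h]

theorem IsSC.pt_inj {e : X × ℂ} (he : F.IsSC e) : InjOn (F.pt e) (Ioo (-1) 1) :=
  fun _ ht _ hs h => (he.eq_of_pos he ht hs h one_pos (by simp)).2.symm

theorem IsSC.contOn {e : X × ℂ} (he : F.IsSC e) : ContinuousOn (F.pt e) (Ioo (-1) 1) :=
  (F.cont e.1).comp (by fun_prop : Continuous fun t : ℝ => t • e.2).continuousOn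
    (fun _ ht => he.mem ht)

theorem IsSC.loc_arc {e : X × ℂ} (he : F.IsSC e) {t : ℝ} (ht : t ∈ Ioo (-1 : ℝ) 1) :
    ∀ᶠ w in 𝓝 (0 : ℂ), wedge e.2 w = 0 → F.go (F.pt e t) w ∈ F.arc e := by
  filter_upwards [F.D_nhds (F.zero_mem _ (he.pt_reg ht))] with w hw h0
  obtain ⟨c, rfl⟩ := exists_smul_of_wedge he.ne h0
  rw [(he.range ht hw).2]
  exact F.pt_mem_arc e (he.range ht hw).1

variable (F) in
/-- a one-sided neighbourhood lies in `S` -/
def SideIn (S : Set X) (x : X) (v : ℂ) : Prop :=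
  ∀ᶠ w in 𝓝 (0 : ℂ), 0 < wedge v w → F.go x w ∈ S

theorem side_dichotomy {S : Set X} {x : X} (hx : x ∉ F.sing) {v : ℂ}
    (h : ∀ᶠ w in 𝓝 (0 : ℂ), F.go x w ∈ frontier S → wedge v w = 0) :
    F.SideIn S x v ∨ F.SideIn Sᶜ x v := by
  obtain ⟨r, hr, hb⟩ := Metric.mem_nhds_iff.1 (inter_mem h (F.D_nhds (F.zero_mem x hx)))
  have hconv : Convex ℝ (ball (0 : ℂ) r ∩ {w | 0 < wedge v w}) := by
    apply (convex_ball _ _).inter
    apply convex_halfSpace_gt
    exact ⟨wedge_add_right v, fun c a => wedge_smul_right v a c⟩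
  have hpre := hconv.isPreconnected.image (F.go x) ((F.cont x).mono fun w hw => (hb hw.1).2)
  have := hpre.subset_or_subset (u := interior S) (v := interior Sᶜ) isOpen_interior
    isOpen_interior (disjoint_compl_right.mono interior_subset interior_subset) (by
      rw [← compl_frontier_eq_union_interior]
      rintro _ ⟨w, hw, rfl⟩ hf
      exact hw.2.ne' ((hb hw.1).1 hf))
  refine this.imp (fun h => ?_) (fun h => ?_) <;>
  · filter_upwards [ball_mem_nhds (0 : ℂ) hr] with w hw h0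
    exact interior_subset (h ⟨w, ⟨hw, h0⟩, rfl⟩)

theorem SideIn.dir {S : Set X} {x : X} {v d : ℂ} (h : F.SideIn S x v) (hd : 0 < wedge v d) :
    ∀ᶠ σ in 𝓝[>] (0 : ℝ), F.go x (σ • d) ∈ S := by
  filter_upwards [(tendsto_smul_zero' d).eventually h, self_mem_nhdsWithin] with σ h1 h2
  exact h1 (by rw [wedge_smul_right]; exact mul_pos h2 hd)

theorem side_not_both {S : Set X} {x : X} {v : ℂ} (hv : v ≠ 0) (h1 : F.SideIn S x v)
    (h2 : F.SideIn Sᶜ x v) : False := by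
  have hd : 0 < wedge v (Complex.I * v) := by
    have : wedge v (Complex.I * v) = Complex.normSq v := by
      simp [wedge, Complex.normSq_apply]
    rw [this]; exact Complex.normSq_pos.2 hv
  obtain ⟨σ, a, b⟩ := ((h1.dir hd).and (h2.dir hd)).exists
  exact b a

theorem SideIn.ev {S : Set X} {e : X × ℂ} (he : F.IsSC e) {t : ℝ} (ht : t ∈ Ioo (-1 : ℝ) 1)
    (h : F.SideIn S (F.pt e t) e.2) : ∀ᶠ t' in 𝓝 t, F.SideIn S (F.pt e t') e.2 := by
  filter_upwards [(tendsto_smul_zero e.2 t).eventually h.eventually_nhds,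
    isOpen_Ioo.mem_nhds ht] with t' h1 ht'
  have h2 := he.step ht ht'
  have h3 : Tendsto (fun w : ℂ => (t' - t) • e.2 + w) (𝓝 0) (𝓝 ((t' - t) • e.2)) := by
    have : Continuous (fun w : ℂ => (t' - t) • e.2 + w) := by fun_prop
    simpa using this.tendsto 0
  filter_upwards [F.ev_coc h2.1, h3.eventually h1] with w h4 h5 h6
  rw [← h2.2, h4.2.2]
  exact h5 (by rw [wedge_add_right, wedge_smul_right, wedge_self]; simpa using h6)

variable (F) in
def LocLine (S : Set X) (e : X × ℂ) : Prop :=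
  ∀ t ∈ Ioo (-1 : ℝ) 1, ∀ᶠ w in 𝓝 (0 : ℂ), F.go (F.pt e t) w ∈ frontier S → wedge e.2 w = 0

theorem LocLine.compl {S : Set X} {e : X × ℂ} (h : F.LocLine S e) : F.LocLine Sᶜ e := by
  unfold LocLine; rwa [frontier_compl]

theorem LocLine.rev {S : Set X} {e : X × ℂ} (h : F.LocLine S e) : F.LocLine S (rev e) := by
  intro t ht
  filter_upwards [h (-t) (neg_mem_Ioo ht)] with w hw h1
  rw [pt_rev] at h1
  simpa using hw h1

theorem side_const {S : Set X} {e : X × ℂ} (he : F.IsSC e) (hl : F.LocLine S e) {t t' : ℝ}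
    (ht : t ∈ Ioo (-1 : ℝ) 1) (ht' : t' ∈ Ioo (-1 : ℝ) 1) (h : F.SideIn S (F.pt e t) e.2) :
    F.SideIn S (F.pt e t') e.2 := by
  refine preconn_ind isPreconnected_Ioo (P := fun t => F.SideIn S (F.pt e t) e.2) ?_ ht ht' h
  intro a ha
  rcases side_dichotomy (he.pt_reg ha) (hl a ha) with h1 | h1
  · filter_upwards [h1.ev he ha] with b hb _ using iff_of_true hb h1
  · filter_upwards [h1.ev he ha] with b hb _
    exact iff_of_false (fun h => side_not_both he.ne h hb) (fun h => side_not_both he.ne h h1)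

variable (F) in
/-- the side of `e` containing the direction `d` lies outside `S` -/
def Out (S : Set X) (e : X × ℂ) (d : ℂ) : Prop :=
  ∀ t ∈ Ioo (-1 : ℝ) 1, ∀ᶠ w in 𝓝 (0 : ℂ), 0 < wedge e.2 d * wedge e.2 w → F.go (F.pt e t) w ∉ S

theorem Out.rev {S : Set X} {e : X × ℂ} {d : ℂ} (h : F.Out S e d) : F.Out S (rev e) d := by
  intro t ht
  filter_upwards [h (-t) (neg_mem_Ioo ht)] with w hw h1
  rw [pt_rev]
  exact hw (by simpa using h1)

theorem out_of_freq {S : Set X} {e : X × ℂ} (he : F.IsSC e) (hl : F.LocLine S e) {d : ℂ}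
    (hd : wedge e.2 d ≠ 0) {s : ℝ} (hs : s ∈ Ioo (-1 : ℝ) 1)
    (h : ∃ᶠ σ in 𝓝[>] (0 : ℝ), F.go (F.pt e s) (σ • d) ∉ S) : F.Out S e d := by
  have key : ∀ {e : X × ℂ}, F.IsSC e → F.LocLine S e → 0 < wedge e.2 d → ∀ {s : ℝ},
      s ∈ Ioo (-1 : ℝ) 1 → (∃ᶠ σ in 𝓝[>] (0 : ℝ), F.go (F.pt e s) (σ • d) ∉ S) →
      F.Out S e d := by
    intro e he hl hd s hs h t ht
    rcases side_dichotomy (he.pt_reg hs) (hl s hs) with h1 | h1
    · obtain ⟨σ, a, b⟩ := (h.and_eventually (h1.dir hd)).exists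
      exact absurd b a
    · filter_upwards [side_const he hl.compl hs ht h1] with w hw h2
      exact hw ((mul_pos_iff_of_pos_left hd).1 h2)
  rcases lt_or_gt_of_ne hd with h0 | h0
  · have := key he.rev hl.rev (by simpa using h0) (neg_mem_Ioo hs) (by rwa [pt_rev, neg_neg])
    simpa using this.rev
  · exact key he hl h0 hs h

variable [T2Space X] [CompactSpace X]

theorem IsSC.closed {e : X × ℂ} (he : F.IsSC e) {C : Set ℝ} (hC : IsClosed C) :
    IsClosed ((F.sing : Set X) ∪ F.pt e '' (C ∩ Ioo (-1) 1)) := by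
  rw [← isOpen_compl_iff, isOpen_iff_mem_nhds]
  intro x hx
  rw [mem_compl_iff, mem_union, not_or] at hx
  have key : ∀ {e : X × ℂ}, F.IsSC e → ∃ V ∈ 𝓝 x, ∃ a < (1 : ℝ), ∀ t ∈ Ioo a 1, F.pt e t ∉ V := by
    intro e he
    obtain ⟨p, hp, -, hl⟩ := he.1.limit
    obtain ⟨V, N, hV, hN, hxV, hpN, hd⟩ := t2_separation (show x ≠ p from fun h => hx.1 (h ▸ hp))
    obtain ⟨a, ha, hsub⟩ := mem_nhdsLT_iff_exists_Ioo_subset.1 (hl.eventually (hN.mem_nhds hpN))
    exact ⟨V, hV.mem_nhds hxV, a, ha, fun t ht h => Set.disjoint_left.1 hd h (hsub ht)⟩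
  obtain ⟨V1, hV1, a, ha, h1⟩ := key he
  obtain ⟨V2, hV2, b, hb, h2⟩ := key he.rev
  have hsub : C ∩ Icc (-b) a ⊆ Ioo (-1) 1 := fun t ht => ⟨by linarith [ht.2.1], by linarith [ht.2.2]⟩
  have hK : IsCompact (F.pt e '' (C ∩ Icc (-b) a)) :=
    (isCompact_Icc.inter_left hC).image_of_continuousOn (he.contOn.mono hsub)
  have hxK : x ∉ F.pt e '' (C ∩ Icc (-b) a) := fun h =>
    hx.2 (image_mono (subset_inter inter_subset_left hsub) h)
  filter_upwards [hV1, hV2, hK.isClosed.isOpen_compl.mem_nhds hxK,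
    F.sing.finite_toSet.isClosed.isOpen_compl.mem_nhds hx.1] with y y1 y2 y3 y4
  rintro (h | ⟨t, ht, rfl⟩)
  · exact y4 h
  rcases lt_or_ge a t with h3 | h3
  · exact h1 t ⟨h3, ht.2.2⟩ y1
  rcases lt_or_ge t (-b) with h4 | h4
  · exact h2 (-t) ⟨by linarith, by linarith [ht.2.1]⟩ (by rwa [pt_rev, neg_neg])
  · exact y3 ⟨t, ⟨ht.1, h4, h3⟩, rfl⟩

theorem IsSC.closed_arc {e : X × ℂ} (he : F.IsSC e) : IsClosed ((F.sing : Set X) ∪ F.arc e) := by
  simpa [arc] using he.closed isClosed_univ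

theorem IsSC.loc {e : X × ℂ} (he : F.IsSC e) {t : ℝ} (ht : t ∈ Ioo (-1 : ℝ) 1) :
    ∀ᶠ w in 𝓝 (0 : ℂ), F.go (F.pt e t) w ∈ F.arc e → wedge e.2 w = 0 := by
  have hx := he.pt_reg ht
  obtain ⟨N, hN, hinj⟩ := F.inj _ hx
  have hI : {s : ℝ | (s - t) • e.2 ∈ interior N} ∈ 𝓝 t :=
    (tendsto_smul_zero e.2 t).eventually (interior_mem_nhds.2 hN)
  have hO : IsOpen {s : ℝ | (s - t) • e.2 ∈ interior N} :=
    isOpen_interior.preimage (by fun_prop : Continuous fun s : ℝ => (s - t) • e.2)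
  have hcl := he.closed hO.isClosed_compl
  have hnot : F.pt e t ∉ (F.sing : Set X) ∪
      F.pt e '' ({s : ℝ | (s - t) • e.2 ∈ interior N}ᶜ ∩ Ioo (-1) 1) := by
    rintro (h | ⟨s, hs, h⟩)
    · exact hx h
    · rw [he.pt_inj hs.2 ht h] at hs
      exact hs.1 (mem_of_mem_nhds hI)
  have h1 := hcl.isOpen_compl.mem_nhds hnot
  rw [← F.map_nhds _ hx] at h1
  filter_upwards [h1, hN] with w hw hwN
  rintro ⟨s, hs, h⟩
  have hsI : (s - t) • e.2 ∈ interior N := by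
    by_contra hn
    exact hw (Or.inr ⟨s, ⟨hn, hs⟩, h⟩)
  have := hinj hwN (interior_subset hsI) (by rw [(he.step ht hs).2, h])
  rw [this, wedge_smul_right, wedge_self, mul_zero]

variable (F) in
/-- a non crossing family -/
def NC (E : Set (X × ℂ)) : Prop :=
  ∀ e ∈ E, ∀ f ∈ E, (F.arc e ∩ F.arc f).Nonempty → wedge e.2 f.2 = 0

theorem closed_family {E : Set (X × ℂ)} (hE : E.Finite) (hsc : ∀ e ∈ E, F.IsSC e) :
    IsClosed ((F.sing : Set X) ∪ ⋃ e ∈ E, F.arc e) := by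
  have : (F.sing : Set X) ∪ ⋃ e ∈ E, F.arc e =
      (F.sing : Set X) ∪ ⋃ e ∈ E, ((F.sing : Set X) ∪ F.arc e) := by
    ext x; simp only [mem_union, mem_iUnion]
    constructor
    · rintro (h | ⟨e, he, h⟩)
      · exact Or.inl h
      · exact Or.inr ⟨e, he, Or.inr h⟩
    · rintro (h | ⟨e, he, h | h⟩)
      · exact Or.inl h
      · exact Or.inl h
      · exact Or.inr ⟨e, he, h⟩
  rw [this]
  exact F.sing.finite_toSet.isClosed.union (hE.isClosed_biUnion fun e he => (hsc e he).closed_arc)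

theorem loc_family {E : Set (X × ℂ)} (hE : E.Finite) (hsc : ∀ e ∈ E, F.IsSC e) {e : X × ℂ}
    (he : F.IsSC e) (hnc : ∀ f ∈ E, (F.arc e ∩ F.arc f).Nonempty → wedge e.2 f.2 = 0) {t : ℝ}
    (ht : t ∈ Ioo (-1 : ℝ) 1) :
    ∀ᶠ w in 𝓝 (0 : ℂ), F.go (F.pt e t) w ∈ (F.sing : Set X) ∪ ⋃ f ∈ E, F.arc f →
      wedge e.2 w = 0 := by
  have hx := he.pt_reg ht
  have h1 : ∀ f ∈ E, ∀ᶠ w in 𝓝 (0 : ℂ), F.go (F.pt e t) w ∈ F.arc f → wedge e.2 w = 0 := by
    intro f hf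
    by_cases h : F.pt e t ∈ F.arc f
    · have hn : (F.arc e ∩ F.arc f).Nonempty := ⟨_, F.pt_mem_arc e ht, h⟩
      rw [he.arc_eq (hsc f hf) hn (hnc f hf hn)]
      exact he.loc ht
    · have h2 := (hsc f hf).closed_arc.isOpen_compl.mem_nhds (x := F.pt e t)
        (by rintro (h3 | h3); exacts [hx h3, h h3])
      rw [← F.map_nhds _ hx] at h2
      filter_upwards [h2] with w hw h3 using absurd (Or.inr h3) hw
  filter_upwards [(hE.eventually_all).2 h1, F.D_nhds (F.zero_mem _ hx)] with w hw hD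
  rintro (h | h)
  · exact absurd h (F.reg _ _ hD)
  · obtain ⟨f, hf, h⟩ := mem_iUnion₂.1 h
    exact hw f hf h

variable (F) in
structure IsCx (S : Set X) (B : Set (X × ℂ)) : Prop where
  closed : IsClosed S
  sing : (F.sing : Set X) ⊆ S
  fin : B.Finite
  sc : ∀ e ∈ B, F.IsSC e
  sub : ∀ e ∈ B, F.arc e ⊆ S
  nc : F.NC B
  fr : frontier S ⊆ (F.sing : Set X) ∪ ⋃ e ∈ B, F.arc e

variable (F) in
def Bd (S : Set X) : Set (X × ℂ) := {e | F.IsSC e ∧ F.arc e ⊆ frontier S}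

variable (F) in
/-- a complex: a closed set bounded by finitely many non crossing saddle connections -/
def Cx (S : Set X) : Prop := F.IsCx S (F.Bd S)

omit [T2Space X] [CompactSpace X] in
theorem rev_mem_Bd {S : Set X} {e : X × ℂ} (h : e ∈ F.Bd S) : rev e ∈ F.Bd S :=
  ⟨h.1.rev, by simpa using h.2⟩

theorem IsCx.locLine {S : Set X} {B : Set (X × ℂ)} (h : F.IsCx S B) {e : X × ℂ} (he : e ∈ B) :
    F.LocLine S e := by
  intro t ht
  filter_upwards [loc_family h.fin h.sc (h.sc e he) (h.nc e he) ht] with w hw h1 using hw (h.fr h1)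

omit [T2Space X] [CompactSpace X] in
theorem IsCx.edge {S : Set X} {B : Set (X × ℂ)} (h : F.IsCx S B) {x : X} (hx : x ∈ frontier S)
    (hr : x ∉ F.sing) : ∃ f ∈ B, ∃ s ∈ Ioo (-1 : ℝ) 1, F.pt f s = x := by
  rcases h.fr hx with h1 | h1
  · exact absurd h1 hr
  · obtain ⟨f, hf, h2⟩ := mem_iUnion₂.1 h1
    exact ⟨f, hf, h2⟩

theorem IsCx.bd_sub {S : Set X} {B : Set (X × ℂ)} (h : F.IsCx S B) {e : X × ℂ}
    (he : e ∈ F.Bd S) : e ∈ B ∨ rev e ∈ B := by
  have h0 : (0 : ℝ) ∈ Ioo (-1 : ℝ) 1 := ⟨by norm_num, by norm_num⟩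
  obtain ⟨f, hf, s, hs, hx⟩ := h.edge (he.2 (F.pt_mem_arc e h0)) (he.1.pt_reg h0)
  have h1 := (tendsto_smul_zero' e.2).eventually (h.locLine hf s hs)
  obtain ⟨σ, hσ, h2⟩ := (Eventually.and (Ioo_mem_nhdsGT (zero_lt_one' ℝ)) h1).exists
  have hσ' : σ ∈ Ioo (-1 : ℝ) 1 := ⟨by linarith [hσ.1], hσ.2⟩
  have h3 := (he.1.step h0 hσ').2
  rw [sub_zero] at h3
  have h4 := h2 (by rw [hx, h3]; exact he.2 (F.pt_mem_arc e hσ'))
  rw [wedge_smul_right] at h4
  have h5 := (mul_eq_zero.1 h4).resolve_left hσ.1.ne'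
  rcases (h.sc f hf).eq_or_rev he.1 ⟨_, F.pt_mem_arc f hs, hx ▸ F.pt_mem_arc e h0⟩ h5 with h6 | h6
  · left; rwa [h6]
  · right; rwa [h6, rev_rev]

theorem IsCx.cx {S : Set X} {B : Set (X × ℂ)} (h : F.IsCx S B) : F.Cx S := by
  refine ⟨h.closed, h.sing, ?_, fun e he => he.1, fun e he => he.2.trans h.closed.frontier_subset,
    ?_, ?_⟩
  · refine (h.fin.union (h.fin.image rev)).subset fun e he => ?_
    exact (h.bd_sub he).imp id fun h1 => ⟨_, h1, rev_rev e⟩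
  · intro e he f hf hn
    rcases h.bd_sub he with h1 | h1 <;> rcases h.bd_sub hf with h2 | h2 <;>
      simpa using h.nc _ h1 _ h2 (by simpa using hn)
  · intro x hx
    by_cases hr : x ∈ F.sing
    · exact Or.inl hr
    obtain ⟨f, hf, s, hs, rfl⟩ := h.edge hx hr
    have hsc := h.sc f hf
    refine Or.inr (mem_iUnion₂.2 ⟨f, ⟨hsc, ?_⟩, F.pt_mem_arc f hs⟩)
    rintro _ ⟨t, ht, rfl⟩
    refine ⟨subset_closure (h.sub f hf (F.pt_mem_arc f ht)), fun hi => hx.2 ?_⟩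
    have h1 : ∀ v, F.SideIn S (F.pt f t) v := by
      intro v
      have := mem_interior_iff_mem_nhds.1 hi
      rw [← F.map_nhds _ (hsc.pt_reg ht)] at this
      filter_upwards [this] with w hw _ using hw
    have h2 := side_const hsc (h.locLine hf) ht hs (h1 _)
    have h3 := side_const hsc.rev (h.locLine hf).rev (neg_mem_Ioo ht) (neg_mem_Ioo hs)
      (by rw [pt_rev, neg_neg]; exact h1 _)
    rw [pt_rev, neg_neg] at h3
    rw [mem_interior_iff_mem_nhds, ← F.map_nhds _ hr, mem_map]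
    filter_upwards [h2, h3, hsc.loc_arc hs] with w a b c
    rcases lt_trichotomy (wedge f.2 w) 0 with h4 | h4 | h4
    · exact b (by simpa using h4)
    · exact h.sub f hf (c h4)
    · exact a h4

end Flow

end Pool.Agent.Lib.MP_1e1a64_an
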