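import Mathlib

/-!
Translation surfaces, saddle connections, flat area.
-/

open Set Filter Topology MeasureTheory
open scoped ENNReal NNReal

namespace Pool.Agent.Lib.MP_1e1a64_an

/-- A translation structure on a space `X`: a finite set `sing` of cone points, an atlas of charts
to `ℂ` covering the complement of `sing` whose transition maps are locally translations, and near
every cone point a chart `ψ` centred at it in which the flat coordinates are `ψ ^ (k + 1)` up to
translation (cone angle `2 π (k + 1)`). -/
structure TranslationSurface (X : Type*) [TopologicalSpace X] where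
  sing : Finset X
  atlas : Set (OpenPartialHomeomorph X ℂ)
  not_sing : ∀ c ∈ atlas, ∀ x ∈ c.source, x ∉ sing
  cover : ∀ x, x ∉ sing → ∃ c ∈ atlas, x ∈ c.source
  trans : ∀ c ∈ atlas, ∀ c' ∈ atlas, ∀ x ∈ c.source ∩ c'.source,
    ∃ v : ℂ, ∀ᶠ y in 𝓝 x, c' y = c y + v
  cone : ∀ p ∈ sing, ∃ (k : ℕ) (ψ : OpenPartialHomeomorph X ℂ), p ∈ ψ.source ∧ ψ p = 0 ∧
    ∀ c ∈ atlas, ∀ x ∈ c.source ∩ ψ.source, ∃ v : ℂ, ∀ᶠ y in 𝓝 x, c y = ψ y ^ (k + 1) + v

variable {X : Type*} [TopologicalSpace X]

/-- An oriented saddle connection: a continuous path from a cone point to a cone point, with no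
cone point in its interior, which in every flat chart moves with constant velocity `hol`. -/
structure SaddleConnection (T : TranslationSurface X) where
  path : C(unitInterval, X)
  hol : ℂ
  hol_ne : hol ≠ 0
  start_mem : path 0 ∈ T.sing
  end_mem : path 1 ∈ T.sing
  not_mem : ∀ t, t ≠ 0 → t ≠ 1 → path t ∉ T.sing
  straight : ∀ c ∈ T.atlas, ∀ t, path t ∈ c.source →
    ∀ᶠ s in 𝓝 t, c (path s) = c (path t) + ((s : ℝ) - (t : ℝ)) • hol

/-- The flat length of a saddle connection. -/
noncomputable def SaddleConnection.length {T : TranslationSurface X} (γ : SaddleConnection T) :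
    ℝ := ‖γ.hol‖

/-- The number of members of `S` of length at most `R`. -/
noncomputable def countUpTo {T : TranslationSurface X} (S : Set (SaddleConnection T)) (R : ℝ) :
    ℕ := {γ ∈ S | γ.length ≤ R}.ncard

variable [MeasurableSpace X]

/-- The uniform probability measure on a saddle connection. -/
noncomputable def SaddleConnection.unif {T : TranslationSurface X} (γ : SaddleConnection T) :
    Measure X := Measure.map γ.path volume

/-- The average of the uniform measures of the members of `S` of length at most `R`. -/
noncomputable def avgMeasure {T : TranslationSurface X} (S : Set (SaddleConnection T)) (R : ℝ) :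
    Measure X :=
  ((countUpTo S R : ℝ≥0∞))⁻¹ • Measure.sum (fun γ : {γ ∈ S | γ.length ≤ R} => γ.1.unif)

/-- Lebesgue measure of the target of a chart, carried back to `X`. -/
noncomputable def chartArea (c : OpenPartialHomeomorph X ℂ) : Measure X :=
  Measure.map c.symm (volume.restrict c.target)

/-- The flat area: the least measure dominating the Lebesgue measures of all flat charts. -/
noncomputable def TranslationSurface.area (T : TranslationSurface X) : Measure X :=
  ⨆ c ∈ T.atlas, chartArea c

/-- The flat area normalised to total mass one. -/
noncomputable def TranslationSurface.normArea (T : TranslationSurface X) : Measure X :=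
  (T.area univ)⁻¹ • T.area

/-- `μ` is the flat area normalised to total mass one: a probability measure giving no mass to
the cone points and equal, in every flat chart, to a fixed multiple of Lebesgue measure. -/
def IsNormalisedArea (T : TranslationSurface X) (μ : Measure X) : Prop :=
  IsProbabilityMeasure μ ∧ μ T.sing = 0 ∧
    ∃ a : ℝ≥0, ∀ c ∈ T.atlas, ∀ A ⊆ c.source, MeasurableSet A → μ A = a * volume (c '' A)

end Pool.Agent.Lib.MP_1e1a64_an
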