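import Pool.Agent.Lib.MP_1e1a64_an.Tri

/-!
The extension lemma for complexes.
-/

open Set Filter Topology MeasureTheory Metric
open scoped ENNReal NNReal

namespace Pool.Agent.Lib.MP_1e1a64_an

namespace Flow

variable {X : Type*} [TopologicalSpace X] {F : Flow X} [T2Space X] [CompactSpace X]
variable {S : Set X} {e f : X × ℂ} {d : ℂ}

variable (F) in
/-- all boundary edges have half holonomy of size at most `ℓ` -/
def Short (S : Set X) (N : Seminorm ℝ ℂ) (ℓ : ℝ) : Prop := ∀ e ∈ F.Bd S, N e.2 ≤ ℓ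

theorem chord1 (N : Seminorm ℝ ℂ) (hS : F.Cx S) (he : F.IsSC e) (hd : wedge e.2 d ≠ 0)
    (ho : F.Out S e d) (hf : f ∈ F.Bd S) {a b : ℝ} (hab : e.2 = a • f.2 + b • d) {t0 τ0 s0 ℓ L : ℝ}
    (h : F.Good S e d f t0 τ0 s0) (h1 : N e.2 ≤ ℓ) (h2 : N f.2 ≤ ℓ) (hL : N (τ0 • d) ≤ L) :
    (∃ t τ, F.Vis S e d t τ ∧ N (τ • d) ≤ L + 4 * ℓ) ∨
      ∀ t ∈ Ioo (-1 : ℝ) 1, F.Good S e d f t (τ0 - b * (t - t0)) (s0 + a * (t - t0)) := by
  have key : ∀ t τ, F.Vis S e d t τ → τ ≤ τ0 - b * (t - t0) → -1 ≤ s0 + a * (t - t0) →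
      s0 + a * (t - t0) ≤ 1 → N (τ • d) ≤ L + 4 * ℓ := by
    intro t τ hv hτ g1 g2
    have e1 : (τ0 - b * (t - t0)) • d = τ0 • d + (a * (t - t0)) • f.2 - (t - t0) • e.2 := by
      rw [hab]; module
    have n1 : N (τ • d) ≤ N ((τ0 - b * (t - t0)) • d) := by
      rw [map_smul_eq_mul, map_smul_eq_mul, Real.norm_eq_abs, Real.norm_eq_abs,
        abs_of_pos hv.2.1, abs_of_pos (hv.2.1.trans_le hτ)]
      exact mul_le_mul_of_nonneg_right hτ (apply_nonneg _ _)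
    have n2 : N ((a * (t - t0)) • f.2) ≤ 2 * ℓ := by
      rw [map_smul_eq_mul, Real.norm_eq_abs]
      have : |a * (t - t0)| ≤ 2 := abs_le.2 ⟨by linarith [h.2.1.2], by linarith [h.2.1.1]⟩
      nlinarith [apply_nonneg N f.2, abs_nonneg (a * (t - t0))]
    have n3 : N ((t - t0) • e.2) ≤ 2 * ℓ := by
      rw [map_smul_eq_mul, Real.norm_eq_abs]
      have : |t - t0| ≤ 2 := abs_le.2 ⟨by linarith [hv.1.1, h.1.1.2], by linarith [hv.1.2, h.1.1.1]⟩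
      nlinarith [apply_nonneg N e.2, abs_nonneg (t - t0)]
    rw [e1] at n1
    linarith [map_sub_le_add N (τ0 • d + (a * (t - t0)) • f.2) ((t - t0) • e.2),
      map_add_le_add N (τ0 • d) ((a * (t - t0)) • f.2)]
  rcases shadow hS he hd ho hf hab h with ⟨t, ht, ⟨τ, hτ, hv⟩, h3⟩ | h3
  · refine Or.inl ⟨t, τ, hv, key t τ hv hτ ?_ ?_⟩
    · have := le_of_Ico (φ := fun t => -(s0 + a * (t - t0))) (c := 1) (by fun_prop) ht.1
        (fun t ht => by linarith [(h3 t ht).2.1.1])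
      linarith
    · exact le_of_Ico (φ := fun t => s0 + a * (t - t0)) (by fun_prop) ht.1
        (fun t ht => (h3 t ht).2.1.2.le)
  rcases shadow_neg hS he hd ho hf hab h with ⟨t, ht, ⟨τ, hτ, hv⟩, h4⟩ | h4
  · refine Or.inl ⟨t, τ, hv, key t τ hv hτ ?_ ?_⟩
    · have := le_of_Ioc (φ := fun t => -(s0 + a * (t - t0))) (c := 1) (by fun_prop) ht.2
        (fun t ht => by linarith [(h4 t ht).2.1.1])
      linarith
    · exact le_of_Ioc (φ := fun t => s0 + a * (t - t0)) (by fun_prop) ht.2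
        (fun t ht => (h4 t ht).2.1.2.le)
  · right
    intro t ht
    rcases le_total t0 t with h5 | h5
    · exact h3 t ⟨h5, ht.2⟩
    · exact h4 t ⟨ht.1, h5⟩

theorem affine_ends {s0 a t0 : ℝ}
    (h : ∀ t ∈ Ioo (-1 : ℝ) 1, s0 + a * (t - t0) ∈ Ioo (-1 : ℝ) 1) :
    (-1 ≤ s0 + a * (1 - t0) ∧ s0 + a * (1 - t0) ≤ 1) ∧
      (-1 ≤ s0 + a * (-1 - t0) ∧ s0 + a * (-1 - t0) ≤ 1) := by
  have i1 : ∀ t ∈ Ico (0 : ℝ) 1, t ∈ Ioo (-1 : ℝ) 1 := fun t ht => ⟨by linarith [ht.1], ht.2⟩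
  have i2 : ∀ t ∈ Ioc (-1 : ℝ) 0, t ∈ Ioo (-1 : ℝ) 1 := fun t ht => ⟨ht.1, by linarith [ht.2]⟩
  have a1 := le_of_Ico (φ := fun t => -(s0 + a * (t - t0))) (c := 1) (by fun_prop) zero_lt_one
    (fun t ht => by linarith [(h t (i1 t ht)).1])
  have a2 := le_of_Ico (φ := fun t => s0 + a * (t - t0)) (c := 1) (by fun_prop) zero_lt_one
    (fun t ht => (h t (i1 t ht)).2.le)
  have a3 := le_of_Ioc (φ := fun t => -(s0 + a * (t - t0))) (c := 1) (by fun_prop)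
    (show (-1 : ℝ) < 0 by norm_num) (fun t ht => by linarith [(h t (i2 t ht)).1])
  have a4 := le_of_Ioc (φ := fun t => s0 + a * (t - t0)) (c := 1) (by fun_prop)
    (show (-1 : ℝ) < 0 by norm_num) (fun t ht => (h t (i2 t ht)).2.le)
  exact ⟨⟨by linarith, a2⟩, by linarith, a4⟩

variable (F) in
/-- a cone point visible from a boundary edge -/
def HasVis (S : Set X) (N : Seminorm ℝ ℂ) (L : ℝ) : Prop :=
  ∃ e ∈ F.Bd S, ∃ d t τ, wedge e.2 d ≠ 0 ∧ F.Out S e d ∧ F.Vis S e d t τ ∧ N (τ • d) ≤ L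

theorem chord3 {N : Seminorm ℝ ℂ} (hS : F.Cx S) (he : e ∈ F.Bd S) (hd : wedge e.2 d ≠ 0)
    (ho : F.Out S e d) (hf : f ∈ F.Bd S) {t0 τ0 s0 ℓ L : ℝ} (h : F.Good S e d f t0 τ0 s0)
    (hsh : F.Short S N ℓ) (hL : N (τ0 • d) ≤ L) (h1 : s0 ≠ t0) (h2 : s0 ≠ -t0) :
    F.HasVis S N (L + 4 * ℓ) := by
  have hfd := h.wedge_ne hf.1 (hS.sub f hf)
  have hfd' : wedge f.2 (-d) ≠ 0 := by simpa using hfd
  have hd' : wedge e.2 (-d) ≠ 0 := by simpa using hd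
  rcases chord1 N hS he.1 hd ho hf (wedge_decomp hfd e.2) h (hsh e he) (hsh f hf) hL with
    ⟨t, τ, hv, hN⟩ | h3
  · exact ⟨e, he, d, t, τ, hd, ho, hv, hN⟩
  rcases chord1 N hS hf.1 hfd' (h.out hS hf) he (wedge_decomp hd' f.2) (h.symm (hS.sub e he))
    (hsh f hf) (hsh e he) (L := L) (by rwa [smul_neg, map_neg_eq_map]) with ⟨t, τ, hv, hN⟩ | h4
  · exact ⟨f, hf, -d, t, τ, hfd', h.out hS hf, hv, hN⟩
  exfalso
  have a1 := affine_ends fun t ht => (h3 t ht).2.1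
  have a2 := affine_ends fun t ht => (h4 t ht).2.1
  have hp : wedge e.2 d / wedge f.2 d * (wedge f.2 (-d) / wedge e.2 (-d)) = 1 := by
    simp only [wedge_neg_right]; field_simp
  generalize wedge e.2 d / wedge f.2 d = a at a1 hp
  generalize wedge f.2 (-d) / wedge e.2 (-d) = a' at a2 hp
  obtain ⟨⟨b1, b2⟩, b3, b4⟩ := a1
  obtain ⟨⟨c1, c2⟩, c3, c4⟩ := a2
  have d1 : -1 ≤ a ∧ a ≤ 1 := ⟨by linarith, by linarith⟩
  have d2 : -1 ≤ a' ∧ a' ≤ 1 := ⟨by linarith, by linarith⟩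
  rcases le_or_gt 0 a with h5 | h5
  · have : a = 1 := by nlinarith [d1.2, d2.2]
    subst this
    exact h1 (by linarith)
  · have : a = -1 := by nlinarith [d1.1, d2.1]
    subst this
    exact h2 (by linarith)

theorem chord {N : Seminorm ℝ ℂ} (hS : F.Cx S) (he : e ∈ F.Bd S) (hd : wedge e.2 d ≠ 0)
    (ho : F.Out S e d) {t0 τ0 ℓ L : ℝ} (hl : F.Land S e d t0 τ0)
    (hsh : F.Short S N ℓ) (hL : N (τ0 • d) ≤ L) : F.HasVis S N (L + 6 * ℓ) := by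
  obtain ⟨f, hf, s0, h⟩ := hl.edge hS
  have hℓ : 0 ≤ ℓ := (apply_nonneg N _).trans (hsh e he)
  have hfd := h.wedge_ne hf.1 (hS.sub f hf)
  have hab := wedge_decomp hfd e.2
  have ha : wedge e.2 d / wedge f.2 d ≠ 0 := div_ne_zero hd hfd
  generalize wedge e.2 d / wedge f.2 d = a at hab ha
  generalize wedge f.2 e.2 / wedge f.2 d = b at hab
  rcases chord1 N hS he.1 hd ho hf hab h (hsh e he) (hsh f hf) hL with ⟨t, τ, hv, hN⟩ | h3
  · exact ⟨e, he, d, t, τ, hd, ho, hv, by linarith⟩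
  obtain ⟨t1, ht1, hn⟩ := (Set.Ioo_infinite (show (-1 : ℝ) < 1 by norm_num)).exists_notMem_finset
    {t0 + (t0 - s0) / a, t0 + (-t0 - s0) / a}
  simp only [Finset.mem_insert, Finset.mem_singleton, not_or] at hn
  have g1 := h3 t1 ht1
  have hl1 := g1.1.2.1
  set l1 := τ0 - b * (t1 - t0) with hl1def
  have hm : ∀ σ ∈ Icc (0 : ℝ) 1, t0 + σ * (t1 - t0) ∈ Ioo (-1 : ℝ) 1 := fun σ hσ =>
    (convex_Ioo (-1 : ℝ) 1).add_smul_sub_mem h.1.1 ht1 hσ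
  have hle : ∀ σ : ℝ, τ0 - b * (t0 + σ * (t1 - t0) - t0) = σ * l1 + (1 - σ) * τ0 := by
    intro σ; rw [hl1def]; ring
  have key : ∀ σ ∈ Icc (0 : ℝ) 1, (t0, σ) ∈ F.W e ((t1 - t0) • e.2 + l1 • d) ∧
      F.Φ e ((t1 - t0) • e.2 + l1 • d) (t0, σ) = F.Φ e d (t0 + σ * (t1 - t0), σ * l1) := by
    intro σ hσ
    have := he.1.Φ_seg (d := d) (p := (t0, 0)) (q := (t0 + σ * (t1 - t0), σ * l1)) (by
      intro θ hθ
      have h4 : θ * σ ∈ Icc (0 : ℝ) 1 := ⟨mul_nonneg hθ.1 hσ.1, mul_le_one₀ hθ.2 hσ.1 hσ.2⟩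
      have := W_down (h3 _ (hm _ h4)).1.2.2.2.1 (σ := θ * σ * l1) (mul_nonneg h4.1 hl1.le) (by
        rw [hle]; nlinarith [h4.2, h.1.2.1])
      simpa [mul_assoc] using this)
    have e1 : vec e.2 d ((t0 + σ * (t1 - t0), σ * l1) - (t0, 0)) =
        σ • ((t1 - t0) • e.2 + l1 • d) := by
      simp only [vec, Prod.fst_sub, Prod.snd_sub]; module
    rw [e1, Φ_zero] at this
    exact ⟨⟨h.1.1, this.1⟩, this.2⟩
  have k1 := key 1 ⟨zero_le_one, le_rfl⟩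
  rw [one_mul, one_mul, add_sub_cancel, g1.2.2] at k1
  have hw : wedge e.2 ((t1 - t0) • e.2 + l1 • d) = l1 * wedge e.2 d := by
    simp only [wedge_add_right, wedge_smul_right, wedge_self]; ring
  have := chord3 hS he (d := (t1 - t0) • e.2 + l1 • d) (by rw [hw]; exact mul_ne_zero hl1.ne' hd)
    (fun t ht => by
      filter_upwards [ho t ht] with w h4 h5
      rw [hw, mul_assoc] at h5
      exact h4 ((mul_pos_iff_of_pos_left hl1).1 h5)) hf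
    (t0 := t0) (τ0 := 1) (s0 := s0 + a * (t1 - t0)) (L := L + 2 * ℓ)
    ⟨⟨h.1.1, one_pos, fun σ hσ => ⟨(key σ (Ioo_subset_Icc_self hσ)).1, by
      rw [(key σ (Ioo_subset_Icc_self hσ)).2]
      refine ((h3 _ (hm _ (Ioo_subset_Icc_self hσ))).1.2.2.1 _ ⟨mul_pos hσ.1 hl1, ?_⟩).2
      rw [hle]; nlinarith [hσ.2, h.1.2.1]⟩, k1.1,
      by rw [k1.2]; exact hS.sub f hf (F.pt_mem_arc f g1.2.1)⟩, g1.2.1, k1.2⟩ hsh (by
      have e1 : (1 : ℝ) • ((t1 - t0) • e.2 + l1 • d) = τ0 • d + (a * (t1 - t0)) • f.2 := by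
        rw [hab, hl1def]; module
      have n2 : N ((a * (t1 - t0)) • f.2) ≤ 2 * ℓ := by
        rw [map_smul_eq_mul, Real.norm_eq_abs]
        have : |a * (t1 - t0)| ≤ 2 :=
          abs_le.2 ⟨by linarith [h.2.1.2, g1.2.1.1], by linarith [h.2.1.1, g1.2.1.2]⟩
        nlinarith [apply_nonneg N f.2, abs_nonneg (a * (t1 - t0)), hsh f hf]
      rw [e1]
      linarith [map_add_le_add N (τ0 • d) ((a * (t1 - t0)) • f.2)])
    (fun h5 => hn.1 (by field_simp; linarith)) (fun h5 => hn.2 (by field_simp; linarith))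
  rwa [show L + 2 * ℓ + 4 * ℓ = L + 6 * ℓ by ring] at this

theorem mixed {N : Seminorm ℝ ℂ} (hS : F.Cx S) {ℓ : ℝ} (hsh : F.Short S N ℓ) {γ : X × ℂ}
    (hγ : F.IsSC γ) (hN : N γ.2 ≤ ℓ) {ta tb : ℝ} (ha : ta ∈ Ioo (-1 : ℝ) 1)
    (hb : tb ∈ Ioo (-1 : ℝ) 1) (hab : tb ≤ ta) (h1 : F.pt γ ta ∈ S) (h2 : F.pt γ tb ∉ S) :
    F.HasVis S N (8 * ℓ) := by
  have hℓ : 0 ≤ ℓ := (apply_nonneg N _).trans hN
  have hsub : Icc tb ta ⊆ Ioo (-1 : ℝ) 1 := fun t ht => ⟨hb.1.trans_le ht.1, ht.2.trans_lt ha.2⟩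
  have hA : IsClosed (Icc tb ta ∩ F.pt γ ⁻¹' S) :=
    (hγ.contOn.mono hsub).preimage_isClosed_of_isClosed isClosed_Icc hS.closed
  obtain ⟨t0, ht0, hin, hlt⟩ := exists_first hA ⟨⟨hab, le_rfl⟩, h1⟩ hab
  have ht0' := hsub ht0
  have hlt0 : tb < t0 := lt_of_le_of_ne ht0.1 (by rintro rfl; exact h2 hin.2)
  have hev : ∀ᶠ σ in 𝓝[>] (0 : ℝ), F.go (F.pt γ t0) (σ • (-γ.2)) ∉ S := by
    filter_upwards [Ioo_mem_nhdsGT (sub_pos.2 hlt0)] with σ hσ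
    have h3 : t0 - σ ∈ Icc tb ta := ⟨by linarith [hσ.2], by linarith [hσ.1, ht0.2]⟩
    have := (hγ.step ht0' (hsub h3)).2
    rw [show (t0 - σ - t0) • γ.2 = σ • (-γ.2) by module] at this
    rw [this]
    exact fun h => hlt _ ⟨h3.1, by linarith [hσ.1]⟩ ⟨h3, h⟩
  have hr := hγ.pt_reg ht0'
  have hfr : F.pt γ t0 ∈ frontier S := by
    refine ⟨subset_closure hin.2, fun hi => ?_⟩
    have h3 := mem_interior_iff_mem_nhds.1 hi
    rw [← F.map_nhds _ hr] at h3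
    obtain ⟨σ, h4, h5⟩ := (hev.and ((tendsto_smul_zero' (-γ.2)).eventually h3)).exists
    exact h4 h5
  obtain ⟨e, he, s, hs, hx⟩ := hS.edge hfr hr
  rw [← hx] at hev
  have hd : wedge e.2 (-γ.2) ≠ 0 := by
    intro h0
    obtain ⟨σ, h4, h5⟩ := (hev.and ((tendsto_smul_zero' (-γ.2)).eventually (he.1.loc_arc hs))).exists
    exact h4 (hS.sub e he (h5 (by rw [wedge_smul_right, h0, mul_zero])))
  have ho := out_of_freq he.1 (hS.locLine he) hd hs hev.frequently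
  have hh := hγ.rev.hit_end (neg_mem_Ioo ht0')
  rw [pt_rev, neg_neg, rev_snd, ← hx] at hh
  obtain ⟨τ, hτ, hE⟩ := first_event hS.closed ho he.1 hd hs (τ' := 1 - -t0)
    (by linarith [ht0'.1]) (fun hW => absurd hW.2 hh.2)
  have hL : N (τ • (-γ.2)) ≤ 2 * ℓ := by
    rw [map_smul_eq_mul, map_neg_eq_map, Real.norm_eq_abs, abs_of_pos hτ.1]
    nlinarith [hτ.2, ht0'.2, apply_nonneg N γ.2]
  rcases hE with hv | hl
  · exact ⟨e, he, _, s, τ, hd, ho, hv, by linarith⟩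
  · have := chord hS he hd ho hl hsh hL
    rwa [show 2 * ℓ + 6 * ℓ = 8 * ℓ by ring] at this

theorem extension {N : Seminorm ℝ ℂ} {S1 S2 : Set X} (h1 : F.Cx S1) (h2 : F.Cx S2)
    (hns : ¬ S2 ⊆ S1) {ℓ : ℝ} (hℓ : 0 ≤ ℓ) (s1 : F.Short S1 N ℓ) (s2 : F.Short S2 N ℓ) :
    ∃ S3, F.Cx S3 ∧ S1 ⊂ S3 ∧ F.Short S3 N (5 * ℓ) ∧
      ∃ m, S3 ⊆ S1 ∪ S2 ∪ F.go m '' ({w | N w ≤ 9 * ℓ} ∩ F.D m) := by
  obtain ⟨x0, hx2, hx1⟩ := not_subset.1 hns
  by_cases hall : ∀ γ ∈ F.Bd S2, F.arc γ ⊆ S1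
  · have hcx := add_region h1 (h1.closed.union h2.closed) subset_union_left (by
      intro x hx
      rcases (h1.closed.union h2.closed).frontier_subset hx with h | h
      · exact h
      · rcases h2.fr (frontier_of_subset subset_union_right hx h) with h3 | h3
        · exact h1.sing h3
        · obtain ⟨γ, hγ, h4⟩ := mem_iUnion₂.1 h3
          exact hall γ hγ h4)
    refine ⟨_, hcx.cx, ⟨subset_union_left, fun h => hx1 (h (Or.inr hx2))⟩, fun e he => ?_, x0,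
      subset_union_left⟩
    rcases hcx.bd_sub he with h | h
    · linarith [s1 e h]
    · have := s1 _ h
      rw [rev_snd, map_neg_eq_map] at this
      linarith
  push Not at hall
  obtain ⟨γ, hγ, hn⟩ := hall
  by_cases hdis : Disjoint (F.arc γ) S1
  · have hcx := add_edge h1 hγ.1 hdis
    refine ⟨_, hcx.cx, ⟨subset_union_left, fun h => hn (subset_union_right.trans h)⟩,
      fun e he => ?_, x0, (union_subset_union_right _ (h2.sub γ hγ)).trans subset_union_left⟩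
    have h3 := s2 γ hγ
    rcases hcx.bd_sub he with (h | h) | (h | h)
    · rw [h]; linarith
    · linarith [s1 e h]
    · rw [← h, rev_snd, map_neg_eq_map] at h3
      linarith
    · have := s1 _ h
      rw [rev_snd, map_neg_eq_map] at this
      linarith
  obtain ⟨_, ⟨ta, ha, rfl⟩, hin⟩ := Set.not_disjoint_iff.1 hdis
  obtain ⟨_, ⟨tb, hb, rfl⟩, hout⟩ := not_subset.1 hn
  have hv : F.HasVis S1 N (8 * ℓ) := by
    rcases le_total tb ta with h | h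
    · exact mixed h1 s1 hγ.1 (s2 γ hγ) ha hb h hin hout
    · exact mixed h1 s1 hγ.1.rev (s2 _ (rev_mem_Bd hγ)) (neg_mem_Ioo ha) (neg_mem_Ioo hb)
        (by linarith) (by rwa [pt_rev, neg_neg]) (by rwa [pt_rev, neg_neg])
  obtain ⟨e, he, d, t, τ, hd, ho, hv, hL⟩ := hv
  obtain ⟨S3, c3, hss, hb3, hsub⟩ := triangle N h1 he hd ho hv (s1 e he) hL
  refine ⟨S3, c3, hss, fun g hg => ?_, e.1, hsub.trans ?_⟩
  · rcases hb3 g hg with h | h
    · linarith [s1 g h]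
    · linarith
  · rw [show ℓ + 8 * ℓ = 9 * ℓ by ring]
    exact union_subset_union_left _ subset_union_left

end Flow

end Pool.Agent.Lib.MP_1e1a64_an
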