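import Pool.Agent.Lib.MP_1e1a64_an.Along

/-!
A badly distributed saddle connection has boundedly many thick levels.
-/

open Set Filter Topology MeasureTheory Metric Function Complex
open scoped ENNReal NNReal

namespace Pool.Agent.Lib.MP_1e1a64_an

/-- shear followed by a diagonal map -/
noncomputable def sh (s Q : ℝ) : ℂ →ₗ[ℝ] ℂ where
  toFun z := ⟨Q * (z.re - s * z.im), z.im / Q⟩
  map_add' a b := by apply Complex.ext <;> simp <;> ring
  map_smul' c a := by apply Complex.ext <;> simp <;> ring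

@[simp] theorem sh_re (s Q : ℝ) (z : ℂ) : (sh s Q z).re = Q * (z.re - s * z.im) := rfl
@[simp] theorem sh_im (s Q : ℝ) (z : ℂ) : (sh s Q z).im = z.im / Q := rfl

noncomputable def shInv (s Q : ℝ) : ℂ →ₗ[ℝ] ℂ where
  toFun z := ⟨z.re / Q + s * Q * z.im, Q * z.im⟩
  map_add' a b := by apply Complex.ext <;> simp <;> ring
  map_smul' c a := by apply Complex.ext <;> simp <;> ring

@[simp] theorem shInv_re (s Q : ℝ) (z : ℂ) : (shInv s Q z).re = z.re / Q + s * Q * z.im := rfl
@[simp] theorem shInv_im (s Q : ℝ) (z : ℂ) : (shInv s Q z).im = Q * z.im := rfl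

noncomputable def shear (s Q : ℝ) (hQ : Q ≠ 0) : ℂ ≃L[ℝ] ℂ :=
  (LinearEquiv.ofLinearMap (sh s Q) (shInv s Q)
    (by ext1 z; apply Complex.ext <;> simp <;> field_simp; ring)
    (by ext1 z; apply Complex.ext <;> simp <;> field_simp; ring)).toContinuousLinearEquiv

theorem shear_apply (s Q : ℝ) (hQ : Q ≠ 0) (z : ℂ) : shear s Q hQ z = sh s Q z := rfl
theorem shear_symm_apply (s Q : ℝ) (hQ : Q ≠ 0) (z : ℂ) : (shear s Q hQ).symm z = shInv s Q z := rfl

theorem volume_shear (s Q : ℝ) (hQ : Q ≠ 0) (A : Set ℂ) :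
    volume ((shear s Q hQ).symm '' A) = volume A := by
  have : LinearMap.det (shInv s Q) = 1 := by
    rw [← LinearMap.det_toMatrix Complex.basisOneI, Matrix.det_fin_two]
    simp [LinearMap.toMatrix_apply]
    field_simp
  have h2 := Measure.addHaar_image_linearMap volume (shInv s Q) A
  rw [this, abs_one, ENNReal.ofReal_one, one_mul] at h2
  exact h2

/-- inverse slope -/
noncomputable def slp (u : ℂ) : ℝ := u.re / u.im

theorem exists_pow_ge {β : ℕ} (hβ : 2 ≤ β) (x : ℝ) : ∃ A : ℕ, x ≤ (β : ℝ) ^ A := by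
  obtain ⟨A, hA⟩ := pow_unbounded_of_one_lt x (show (1 : ℝ) < β by exact_mod_cast hβ)
  exact ⟨A, hA.le⟩

namespace Flow

variable {X : Type*} [TopologicalSpace X] {F : Flow X}

theorem hit_lin (g : ℂ ≃L[ℝ] ℂ) {x : X} {w : ℂ} : (F.lin g).Hit x w ↔ F.Hit x (g.symm w) := by
  simp only [Hit, lin_D, map_smul]

theorem isSC_lin (g : ℂ ≃L[ℝ] ℂ) {e : X × ℂ} : (F.lin g).IsSC e ↔ F.IsSC (e.1, g.symm e.2) := by
  simp only [IsSC, hit_lin, map_neg]

theorem avg_lin (g : ℂ ≃L[ℝ] ℂ) (f : X → ℝ) (e : X × ℂ) :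
    (F.lin g).avg f e = F.avg f (e.1, g.symm e.2) := by
  simp only [avg, pt, lin_go, map_smul]

variable (F) in
def Thick (ε s Q : ℝ) : Prop := ∀ e, F.IsSC e → ε ≤ ‖sh s Q e.2‖

theorem Thick.sys {ε s Q : ℝ} (h : F.Thick ε s Q) (hQ : Q ≠ 0) :
    (F.lin (shear s Q hQ)).Sys ε := by
  intro e he
  have := h _ ((isSC_lin _).1 he)
  rwa [← shear_apply s Q hQ, ContinuousLinearEquiv.apply_symm_apply] at this

variable [MeasurableSpace X] [BorelSpace X] [T2Space X] [CompactSpace X]
  [SecondCountableTopology X] {μ : Measure X} [IsProbabilityMeasure μ] {c : ℝ≥0}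

theorem few_thick (h : F.IsArea μ c) (hne : F.sing.Nonempty) {f : X → ℝ} (hf : Continuous f)
    (hb : ∀ x, |f x| ≤ 1) {ε1 ε : ℝ} (h1 : 0 < ε1) (hε : 0 < ε) {β : ℕ} (hβ : 2 ≤ β) :
    ∃ m : ℕ, ∀ e, F.IsSC e → |e.2.re| ≤ e.2.im → ε1 < |F.avg f e - ∫ y, f y ∂μ| →
      ∀ T : Finset ℕ, (∀ n ∈ T, F.Thick ε (slp e.2) ((β : ℝ) ^ n)) → T.card ≤ m := by
  classical
  have hc : (0 : ℝ) < c := h.pos
  have hβ0 : 0 < β := by omega
  have hβ1 : (1 : ℝ) ≤ β := by exact_mod_cast hβ0
  obtain ⟨a, ha, a1, a2, a3⟩ : ∃ a > 0, 32 * a ≤ ε ∧ 1024 * F.K0 * c * a ^ 2 ≤ ε1 / 4 ∧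
      156 * a / ε ≤ ε1 / 4 := by
    have t1 : ContinuousAt (fun a : ℝ => 32 * a) 0 := by fun_prop
    have t2 : ContinuousAt (fun a : ℝ => 1024 * F.K0 * c * a ^ 2) 0 := by fun_prop
    have t3 : ContinuousAt (fun a : ℝ => 156 * a / ε) 0 := by fun_prop
    exact (Eventually.and (self_mem_nhdsWithin : Ioi (0 : ℝ) ∈ 𝓝[>] 0) (nhdsWithin_le_nhds
      ((t1.eventually (ge_mem_nhds (by simpa using hε))).and
        ((t2.eventually (ge_mem_nhds (by simpa using h1))).and
          (t3.eventually (ge_mem_nhds (by simpa using h1))))))).exists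
  obtain ⟨P, hP⟩ := exists_nat_ge (2 / (c * a ^ 2))
  rw [div_le_iff₀ (by positivity)] at hP
  obtain ⟨ω, hω, o1⟩ : ∃ ω > 0, ω + 4 * P * (3 * ω + 2 * ω / (c * a ^ 2)) ≤ ε1 / 2 := by
    have t1 : ContinuousAt (fun ω : ℝ => ω + 4 * P * (3 * ω + 2 * ω / (c * a ^ 2))) 0 := by
      fun_prop
    exact (Eventually.and (self_mem_nhdsWithin : Ioi (0 : ℝ) ∈ 𝓝[>] 0) (nhdsWithin_le_nhds
      (t1.eventually (ge_mem_nhds (by simpa using h1))))).exists
  obtain ⟨r0, hr0, hu⟩ := F.unif hf hω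
  obtain ⟨ε0, hε0, hs0⟩ := F.exists_sys
  set r := min (r0 / 3) (min ε0 a) with hr
  have r1 : r ≤ r0 / 3 := min_le_left _ _
  have r2 : r ≤ ε0 := (min_le_right _ _).trans (min_le_left _ _)
  have r3 : r ≤ a := (min_le_right _ _).trans (min_le_right _ _)
  have r4 : 0 < r := by positivity
  obtain ⟨A, hA⟩ := exists_pow_ge hβ (max (8 * a / r) (64 / ω ^ 2))
  have A1 : 8 * a ≤ β ^ A * r := (div_le_iff₀ r4).1 ((le_max_left _ _).trans hA)
  have A2 : 64 ≤ β ^ A * ω ^ 2 := (div_le_iff₀ (by positivity)).1 ((le_max_right _ _).trans hA)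
  have A0 : (1 : ℝ) ≤ β ^ A := one_le_pow₀ hβ1
  refine ⟨A + ⌈32 * A / ω ^ 2⌉₊, fun e he hsec hbad T hT => ?_⟩
  have y1 : r ≤ 2 * e.2.im := by
    have := Complex.norm_le_abs_re_add_abs_im e.2
    rw [abs_of_nonneg ((abs_nonneg _).trans hsec)] at this
    linarith [hs0 e he]
  have y0 : 0 < e.2.im := by linarith
  set K := ⌈2 * e.2.im / r⌉₊ with hK
  have K1 : 2 * e.2.im ≤ K * r := (div_le_iff₀ r4).1 (Nat.le_ceil _)
  have K2 : (K : ℝ) * r ≤ 4 * e.2.im := by
    have := (Nat.ceil_lt_add_one (show 0 ≤ 2 * e.2.im / r by positivity)).le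
    have h2 := mul_le_mul_of_nonneg_right this r4.le
    rw [add_mul, div_mul_cancel₀ _ r4.ne'] at h2
    linarith
  have K0 : (0 : ℝ) < K := (mul_pos_iff_of_pos_right r4).1 (by linarith)
  set yv := 2 * e.2.im / K with hyv
  have v1 : yv ≤ r := by rw [hyv, div_le_iff₀ K0]; linarith
  have v2 : r ≤ 2 * yv := by rw [hyv, ← mul_div_assoc, le_div_iff₀ K0]; linarith
  have v0 : 0 < yv := by linarith
  have hmp := h.measurePreserving ((2 / K : ℝ) • e.2)
  have s1 : |slp e.2| ≤ 1 := by rw [slp, abs_div, abs_of_pos y0, div_le_one y0]; exact hsec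
  have key : ∀ i : ℕ, F.Thick ε (slp e.2) ((β : ℝ) ^ (i + A)) → ω ^ 2 / 16 ≤
      ∫ x, B (F.Θ ((2 / K : ℝ) • e.2)) (β ^ i) f x ^ 2 ∂μ -
        ∫ x, B (F.Θ ((2 / K : ℝ) • e.2)) (β ^ (i + 2 * A)) f x ^ 2 ∂μ := by
    intro i hth
    by_contra hdrop
    have i0 : (1 : ℝ) ≤ β ^ i := one_le_pow₀ hβ1
    set Q : ℝ := (β : ℝ) ^ (i + A) with hQ
    have Q1 : Q = β ^ i * β ^ A := pow_add _ _ _
    have Q2 : (β : ℝ) ^ A ≤ Q := by rw [Q1]; exact le_mul_of_one_le_left (by positivity) i0
    have Q0 : 0 < Q := by positivity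
    set η := yv / Q with hη
    have η1 : η * Q = yv := div_mul_cancel₀ _ Q0.ne'
    have η0 : 0 < η := by positivity
    have η2 : η ≤ a := by linarith [le_mul_of_one_le_right η0.le (A0.trans Q2)]
    have hΘ : (F.lin (shear (slp e.2) Q Q0.ne')).Θ (η * I) = F.Θ ((2 / K : ℝ) • e.2) := by
      ext x
      simp only [Θ, lin_go, shear_symm_apply]
      congr 1
      apply Complex.ext <;> simp [hη, hyv, slp] <;> field_simp
    have J1 := Nat.floor_le (show 0 ≤ a / η by positivity)
    have J2 := Nat.lt_floor_add_one (a / η)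
    have J0 : 0 < ⌊a / η⌋₊ := Nat.floor_pos.2 ((one_le_div η0).2 η2)
    have J3 : (1 : ℝ) ≤ ⌊a / η⌋₊ := by exact_mod_cast J0
    rw [le_div_iff₀ η0] at J1
    rw [div_lt_iff₀ η0] at J2
    have L : (F.lin (shear (slp e.2) Q Q0.ne')).Lev μ c f ε a η ω ω (β ^ i) ⌊a / η⌋₊ :=
      { sys := hth.sys _
        area := h.lin _ (volume_shear _ _ _)
        ne := hne
        cpos := hc
        meas := hf.measurable
        bdd := hb
        a0 := ha
        aε := a1
        η0 := η0
        ηa := η2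
        n0 := pow_pos hβ0 i
        na := by
          push_cast
          have : (β : ℝ) ^ i ≤ Q := by rw [Q1]; exact le_mul_of_one_le_right (by positivity) A0
          linarith [mul_le_mul_of_nonneg_right this η0.le]
        J0 := J0
        Ja := J1
        aJ := by linarith [mul_le_mul_of_nonneg_right J3 η0.le]
        hω := fun x w hw g1 g2 => by
          refine hu x _ hw ?_
          rw [shear_symm_apply]
          have n1 := Complex.norm_le_abs_re_add_abs_im (shInv (slp e.2) Q w)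
          rw [shInv_re, shInv_im] at n1
          have n2 : |Q * w.im| ≤ r := by
            rw [abs_mul, abs_of_pos Q0]; linarith [mul_le_mul_of_nonneg_left g2 Q0.le]
          have n3 : |slp e.2 * Q * w.im| ≤ r := by
            rw [mul_assoc, abs_mul]; exact (mul_le_of_le_one_left (abs_nonneg _) s1).trans n2
          have n4 : |w.re / Q| ≤ r / 8 := by
            rw [abs_div, abs_of_pos Q0, div_le_iff₀ Q0]
            linarith [mul_le_mul_of_nonneg_right Q2 r4.le]
          linarith [abs_add_le (w.re / Q) (slp e.2 * Q * w.im)]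
        hδ := fun j hj => by
          rw [hΘ]
          refine shift_l1_le hmp hf.measurable hb (pow_pos hβ0 i) (pow_pos hβ0 (i + 2 * A)) ?_ hω ?_
          · have : (2 : ℝ) * j ≤ β ^ (i + 2 * A) := by
              rw [show i + 2 * A = i + A + A by ring, pow_add, ← hQ]
              have h2 : 2 * j * yv ≤ 4 * a * Q := by
                rw [← η1]; linarith [mul_le_mul_of_nonneg_right hj Q0.le]
              have h3 : (2 : ℝ) * j * r ≤ Q * β ^ A * r := by
                linarith [mul_le_mul_of_nonneg_left v2 (Nat.cast_nonneg (α := ℝ) j),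
                  mul_le_mul_of_nonneg_left A1 Q0.le]
              exact le_of_mul_le_mul_right h3 r4
            exact_mod_cast this
          · have : (4 : ℝ) * (β ^ i : ℕ) / (β ^ (i + 2 * A) : ℕ) ≤ ω ^ 2 / 16 := by
              push_cast
              rw [div_le_iff₀ (by positivity), show i + 2 * A = i + A + A by ring, pow_add, pow_add]
              have : (β : ℝ) ^ i * 64 ≤ β ^ i * (β ^ A * (β ^ A * ω ^ 2)) := 
                mul_le_mul_of_nonneg_left (A2.trans (le_mul_of_one_le_left (by positivity) A0))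
                  (by positivity)
              linarith
            linarith [not_le.1 hdrop] }
    have := L.along hP (e := (e.1, sh (slp e.2) Q e.2)) ((isSC_lin _).2 (by
      rwa [← shear_apply _ _ Q0.ne', ContinuousLinearEquiv.symm_apply_apply])) (K := K) (by
      apply Complex.ext <;> simp [hη, hyv, slp] <;> field_simp; simp)
    rw [avg_lin, ← shear_apply _ _ Q0.ne', ContinuousLinearEquiv.symm_apply_apply] at this
    have k0 : (F.lin (shear (slp e.2) Q Q0.ne')).K0 = F.K0 := rfl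
    rw [k0] at this
    linarith
  have c1 := few_drops hmp hf.measurable hb hβ0 (2 * A)
    ((T.filter fun n => A ≤ n).image fun n => n - A) (fun i hi => by
      obtain ⟨n, hn, rfl⟩ := Finset.mem_image.1 hi
      obtain ⟨h2, h3⟩ := Finset.mem_filter.1 hn
      exact key _ (by rw [Nat.sub_add_cancel h3]; exact hT n h2))
  rw [Finset.card_image_of_injOn (fun n hn n' hn' h => by
    have := (Finset.mem_filter.1 hn).2
    have := (Finset.mem_filter.1 hn').2
    omega)] at c1
  have c2 : (T.filter fun n => A ≤ n).card ≤ ⌈32 * A / ω ^ 2⌉₊ := by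
    have : ((T.filter fun n => A ≤ n).card : ℝ) ≤ 32 * A / ω ^ 2 := by
      rw [le_div_iff₀ (by positivity)]; push_cast at c1; linarith
    exact_mod_cast this.trans (Nat.le_ceil _)
  have c3 : (T.filter fun n => ¬ A ≤ n).card ≤ A :=
    (Finset.card_le_card (t := Finset.range A) fun n hn =>
      Finset.mem_range.2 (not_le.1 (Finset.mem_filter.1 hn).2)).trans (by simp)
  have := Finset.card_filter_add_card_filter_not (s := T) (fun n => A ≤ n)
  omega

end Flow

end Pool.Agent.Lib.MP_1e1a64_an
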