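import Mathlib

/-!
Abstract developing data of a compact translation surface.
-/

open Set Filter Topology MeasureTheory Metric
open scoped ENNReal NNReal

namespace Pool.Agent.Lib.MP_1e1a64_an

/-- Developing data: `go x z` is the end point of the straight segment with holonomy `z`
starting at `x`, defined when `z ∈ D x`. -/
structure Flow (X : Type*) [TopologicalSpace X] where
  sing : Finset X
  D : X → Set ℂ
  go : X → ℂ → X
  zero_mem : ∀ x, x ∉ sing → (0 : ℂ) ∈ D x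
  go_zero : ∀ x, go x 0 = x
  go_out : ∀ x z, z ∉ D x → go x z = x
  star : ∀ x z, z ∈ D x → ∀ t ∈ Icc (0 : ℝ) 1, t • z ∈ D x
  reg : ∀ x z, z ∈ D x → go x z ∉ sing
  isOpen_D : ∀ x, IsOpen (D x)
  cont : ∀ x, ContinuousOn (go x) (D x)
  cocycle : ∀ x z w, (∀ t ∈ Icc (0 : ℝ) 1, z + t • w ∈ D x) →
    w ∈ D (go x z) ∧ go (go x z) w = go x (z + w)
  ray : ∀ x z (t : ℝ), 0 ≤ t → z ∈ D x → t • z ∈ D (go x z) → (1 + t) • z ∈ D x
  map_nhds : ∀ x, x ∉ sing → map (go x) (𝓝 0) = 𝓝 x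
  inj : ∀ x, x ∉ sing → ∃ N ∈ 𝓝 (0 : ℂ), InjOn (go x) N
  U : X → Set X
  pos : X → X → ℂ
  U_nhds : ∀ p ∈ sing, U p ∈ 𝓝 p
  pos_tendsto : ∀ p ∈ sing, Tendsto (pos p) (𝓝 p) (𝓝 0)
  pos_self : ∀ p ∈ sing, pos p p = 0
  pos_ne : ∀ p ∈ sing, ∀ y ∈ U p, y ≠ p → pos p y ≠ 0
  pos_basis : ∀ p ∈ sing, ∀ N ∈ 𝓝 p, ∃ M ∈ 𝓝 (0 : ℂ), ∀ y ∈ U p, pos p y ∈ M → y ∈ N
  cone : ∀ p ∈ sing, ∃ M ∈ 𝓝 (0 : ℂ), ∀ y ∈ U p, ∀ w : ℂ,
    (∀ t ∈ Icc (0 : ℝ) 1, pos p y + t • w ∈ M ∧ pos p y + t • w ≠ 0) →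
      w ∈ D y ∧ go y w ∈ U p ∧ pos p (go y w) = pos p y + w
  κ : ℕ
  fib : ∀ p ∈ sing, ∀ w : ℂ, ∃ F : Finset X, F.card ≤ κ ∧ ∀ y ∈ U p, pos p y = w → y ∈ F
  conn : IsPreconnected (sing : Set X)ᶜ
  freq_reg : ∀ p ∈ sing, ∃ᶠ y in 𝓝 p, y ∉ sing

theorem real_ind {P : ℝ → Prop} {a b : ℝ} (h0 : P a)
    (hopen : ∀ t ∈ Ico a b, (∀ s ∈ Icc a t, P s) → ∀ᶠ s in 𝓝[>] t, P s)
    (hcl : ∀ t ∈ Ioc a b, (∀ s ∈ Ico a t, P s) → P t) : ∀ t ∈ Icc a b, P t := by
  intro t ht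
  by_contra hP
  set B : Set ℝ := {s | s ∈ Icc a b ∧ ¬ P s} with hB
  have hne : B.Nonempty := ⟨t, ht, hP⟩
  have hbdd : BddBelow B := ⟨a, fun s hs => hs.1.1⟩
  set c := sInf B with hc
  have hca : a ≤ c := le_csInf hne fun s hs => hs.1.1
  have hcb : c ≤ b := (csInf_le hbdd ⟨ht, hP⟩).trans ht.2
  have hlt : ∀ s ∈ Ico a c, P s := by
    intro s hs
    by_contra h
    have := csInf_le hbdd (show s ∈ B from ⟨⟨hs.1, hs.2.le.trans hcb⟩, h⟩)
    linarith [hs.2]
  have hPc : P c := by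
    rcases eq_or_lt_of_le hca with h | h
    · rw [← h]; exact h0
    · exact hcl c ⟨h, hcb⟩ hlt
  have hall : ∀ s ∈ Icc a c, P s := by
    intro s hs
    rcases eq_or_lt_of_le hs.2 with h | h
    · rw [h]; exact hPc
    · exact hlt s ⟨hs.1, h⟩
  have hcb' : c < b := by
    rcases eq_or_lt_of_le hcb with h | h
    · exfalso
      exact hP (hall t ⟨ht.1, h ▸ ht.2⟩)
    · exact h
  have hev := hopen c ⟨hca, hcb'⟩ hall
  obtain ⟨u, hu, hsub⟩ := mem_nhdsGT_iff_exists_Ioo_subset.1 hev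
  have : u ≤ c := by
    apply le_csInf hne
    intro s hs
    by_contra hsu
    push Not at hsu
    rcases le_or_gt s c with h | h
    · exact hs.2 (hall s ⟨hs.1.1, h⟩)
    · exact hs.2 (hsub ⟨h, hsu⟩)
  exact absurd hu (by simpa using this)

namespace Flow

variable {X : Type*} [TopologicalSpace X] (F : Flow X)

theorem reg_of_mem {x : X} {z : ℂ} (h : z ∈ F.D x) : x ∉ F.sing := by
  have h0 := F.star x z h 0 ⟨le_rfl, zero_le_one⟩
  rw [zero_smul] at h0
  have := F.reg x 0 h0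
  rwa [F.go_zero] at this

theorem zero_mem_of_mem {x : X} {z : ℂ} (h : z ∈ F.D x) : (0 : ℂ) ∈ F.D x :=
  F.zero_mem x (F.reg_of_mem h)

theorem D_nhds {x : X} {z : ℂ} (h : z ∈ F.D x) : F.D x ∈ 𝓝 z := (F.isOpen_D x).mem_nhds h

theorem contAt {x : X} {z : ℂ} (h : z ∈ F.D x) : ContinuousAt (F.go x) z :=
  (F.cont x).continuousAt (F.D_nhds h)

/-- cocycle inside a convex subset of the domain -/
theorem coc {x : X} {C : Set ℂ} (hC : Convex ℝ C) (hD : C ⊆ F.D x) {z z' : ℂ} (hz : z ∈ C)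
    (hz' : z' ∈ C) : z' - z ∈ F.D (F.go x z) ∧ F.go (F.go x z) (z' - z) = F.go x z' := by
  have := F.cocycle x z (z' - z) (fun t ht => hD (hC.add_smul_sub_mem hz hz' ht))
  simpa using this

theorem back {x : X} {z : ℂ} (h : z ∈ F.D x) :
    -z ∈ F.D (F.go x z) ∧ F.go (F.go x z) (-z) = x := by
  have := F.cocycle x z (-z) (fun t ht => by
    have := F.star x z h (1 - t) ⟨by linarith [ht.2], by linarith [ht.1]⟩
    have e : z + t • -z = (1 - t) • z := by module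
    rwa [e])
  simpa [F.go_zero] using this

theorem star' {x : X} {u : ℂ} {a b : ℝ} (h : a • u ∈ F.D x) (hb0 : 0 ≤ b) (hba : b ≤ a) :
    b • u ∈ F.D x := by
  rcases eq_or_lt_of_le (hb0.trans hba) with ha | ha
  · have : b = 0 := le_antisymm (ha ▸ hba) hb0
    rw [this, zero_smul]; exact F.zero_mem_of_mem h
  · have := F.star x _ h (b / a) ⟨div_nonneg hb0 ha.le, (div_le_one ha).2 hba⟩
    rwa [smul_smul, div_mul_cancel₀ _ ha.ne'] at this

theorem line_pos {x : X} {u : ℂ} {a b : ℝ} (ha0 : 0 ≤ a) (ha : a • u ∈ F.D x)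
    (hb : b • u ∈ F.D (F.go x (a • u))) :
    (a + b) • u ∈ F.D x ∧ F.go x ((a + b) • u) = F.go (F.go x (a • u)) (b • u) := by
  rcases eq_or_lt_of_le ha0 with h0 | hapos
  · subst h0
    simp only [zero_smul, F.go_zero, zero_add] at hb ⊢
    exact ⟨hb, trivial⟩
  rcases le_or_gt 0 b with hb0 | hb0
  · have h1 : (a + b) • u ∈ F.D x := by
      have := F.ray x (a • u) (b / a) (div_nonneg hb0 ha0) ha
        (by rwa [smul_smul, div_mul_cancel₀ _ hapos.ne'])
      rwa [smul_smul, add_mul, one_mul, div_mul_cancel₀ _ hapos.ne'] at this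
    refine ⟨h1, ?_⟩
    have := F.cocycle x (a • u) (b • u) (fun t ht => by
      have e : a • u + t • b • u = (a + t * b) • u := by module
      rw [e]
      exact F.star' h1 (by nlinarith [ht.1]) (by nlinarith [ht.2]))
    rw [this.2, add_smul]
  rcases le_or_gt 0 (a + b) with hab | hab
  · have := F.cocycle x (a • u) (b • u) (fun t ht => by
      have e : a • u + t • b • u = (a + t * b) • u := by module
      rw [e]
      exact F.star' ha (by nlinarith [ht.2]) (by nlinarith [ht.1]))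
    refine ⟨F.star' ha hab (by linarith), ?_⟩
    rw [this.2, add_smul]
  · have hbk := F.back ha
    have hb' : (-b) • (-u) ∈ F.D (F.go x (a • u)) := by simpa using hb
    have := F.cocycle (F.go x (a • u)) (-(a • u)) ((a + b) • u) (fun t ht => by
      have e : -(a • u) + t • (a + b) • u = (a - t * (a + b)) • (-u) := by module
      rw [e]
      exact F.star' hb' (by nlinarith [ht.1]) (by nlinarith [ht.2]))
    rw [hbk.2] at this
    refine ⟨this.1, ?_⟩
    rw [this.2]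
    congr 1
    module

/-- composition of collinear segments -/
theorem line {x : X} {u : ℂ} {a b : ℝ} (ha : a • u ∈ F.D x)
    (hb : b • u ∈ F.D (F.go x (a • u))) :
    (a + b) • u ∈ F.D x ∧ F.go x ((a + b) • u) = F.go (F.go x (a • u)) (b • u) := by
  rcases le_or_gt 0 a with h | h
  · exact F.line_pos h ha hb
  · have e : ∀ c : ℝ, c • u = (-c) • (-u) := fun c => by simp
    have := F.line_pos (x := x) (u := -u) (a := -a) (b := -b) (by linarith) (by rwa [← e])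
      (by rwa [← e, ← e])
    rw [← e, ← e, ← neg_add, ← e] at this
    exact this

/-- local cocycle -/
theorem ev_coc {x : X} {z : ℂ} (h : z ∈ F.D x) :
    ∀ᶠ w in 𝓝 (0 : ℂ), z + w ∈ F.D x ∧ w ∈ F.D (F.go x z) ∧
      F.go (F.go x z) w = F.go x (z + w) := by
  obtain ⟨r, hr, hb⟩ := Metric.isOpen_iff.1 (F.isOpen_D x) z h
  filter_upwards [ball_mem_nhds (0 : ℂ) hr] with w hw
  have hw' : z + w ∈ ball z r := by simpa using hw
  have := F.coc (convex_ball z r) hb (mem_ball_self hr) hw'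
  simp only [add_sub_cancel_left] at this
  exact ⟨hb hw', this⟩

theorem map_go {x : X} {z : ℂ} (h : z ∈ F.D x) : map (F.go x) (𝓝 z) = 𝓝 (F.go x z) := by
  have h1 := F.map_nhds _ (F.reg x z h)
  have h2 : map (fun w => z + w) (𝓝 (0 : ℂ)) = 𝓝 z := by
    simp
  rw [← h1, ← h2, map_map]
  apply Filter.map_congr
  filter_upwards [F.ev_coc h] with w hw
  exact hw.2.2.symm

theorem isOpen_image {x : X} {A : Set ℂ} (hA : IsOpen A) (hD : A ⊆ F.D x) :
    IsOpen (F.go x '' A) := by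
  rw [isOpen_iff_mem_nhds]
  rintro _ ⟨z, hz, rfl⟩
  rw [← F.map_go (hD hz)]
  exact image_mem_map (hA.mem_nhds hz)

theorem image_nhds {x : X} {z : ℂ} (h : z ∈ F.D x) {A : Set ℂ} (hA : A ∈ 𝓝 z) :
    F.go x '' A ∈ 𝓝 (F.go x z) := by
  rw [← F.map_go h]; exact image_mem_map hA

/-- a locally straight path is a segment -/
theorem path {γ : ℝ → X} {v : ℂ} {a b : ℝ} (hab : a ≤ b)
    (hreg : ∀ t ∈ Icc a b, γ t ∉ F.sing)
    (hloc : ∀ t ∈ Icc a b, ∀ᶠ s in 𝓝[Icc a b] t, γ s = F.go (γ t) ((s - t) • v)) :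
    ∀ t ∈ Icc a b, (t - a) • v ∈ F.D (γ a) ∧ F.go (γ a) ((t - a) • v) = γ t := by
  have hsm : ∀ t : ℝ, Tendsto (fun s : ℝ => (s - t) • v) (𝓝 t) (𝓝 0) := by
    intro t
    have : Continuous (fun s : ℝ => (s - t) • v) := by fun_prop
    simpa using this.tendsto t
  apply real_ind
  · simp [F.zero_mem _ (hreg a ⟨le_rfl, hab⟩), F.go_zero]
  · intro t ht hP
    obtain ⟨h1, h2⟩ := hP t ⟨ht.1, le_rfl⟩
    have hI : Icc a b ∈ 𝓝[>] t := by
      filter_upwards [Ioo_mem_nhdsGT ht.2] with s hs using ⟨by linarith [ht.1, hs.1], hs.2.le⟩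
    have h3 : ∀ᶠ s in 𝓝[>] t, γ s = F.go (γ t) ((s - t) • v) :=
      (hloc t ⟨ht.1, ht.2.le⟩).filter_mono (le_inf nhdsWithin_le_nhds (le_principal_iff.2 hI))
    have h4 := ((hsm t).eventually (F.ev_coc h1)).filter_mono
      (nhdsWithin_le_nhds (s := Ioi t))
    filter_upwards [h3, h4] with s hs3 hs4
    have e : (s - a) • v = (t - a) • v + (s - t) • v := by module
    rw [e, hs3, ← hs4.2.2, h2]
    exact ⟨hs4.1, rfl⟩
  · intro t ht hP
    have hI : Ico a t ∈ 𝓝[<] t := Ico_mem_nhdsLT ht.1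
    have hI' : Icc a b ∈ 𝓝[<] t := by
      filter_upwards [hI] with s hs using ⟨hs.1, hs.2.le.trans ht.2⟩
    have h3 : ∀ᶠ s in 𝓝[<] t, γ s = F.go (γ t) ((s - t) • v) :=
      (hloc t ⟨ht.1.le, ht.2⟩).filter_mono (le_inf nhdsWithin_le_nhds (le_principal_iff.2 hI'))
    have h4 : ∀ᶠ s in 𝓝[<] t, (s - t) • v ∈ F.D (γ t) :=
      ((hsm t).eventually (F.D_nhds (F.zero_mem _ (hreg t ⟨ht.1.le, ht.2⟩)))).filter_mono
        nhdsWithin_le_nhds
    obtain ⟨s, hs1, hs3, hs4⟩ := (Eventually.and hI (h3.and h4)).exists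
    obtain ⟨h1, h2⟩ := hP s hs1
    have hb := F.back hs4
    rw [← hs3, ← neg_smul, neg_sub] at hb
    have := F.line h1 (b := t - s) (by rw [h2]; exact hb.1)
    rw [h2, hb.2, show s - a + (t - s) = t - a by ring] at this
    exact this

/-- joint continuity -/
theorem joint {x : X} {z : ℂ} (h : z ∈ F.D x) :
    (∀ᶠ p : X × ℂ in 𝓝 (x, z), p.2 ∈ F.D p.1) ∧
      Tendsto (fun p : X × ℂ => F.go p.1 p.2) (𝓝 (x, z)) (𝓝 (F.go x z)) := by
  have hx := F.reg_of_mem h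
  have hK : IsCompact (segment ℝ 0 z) := by
    rw [segment_eq_image]; exact isCompact_Icc.image (by fun_prop)
  have hKD : segment ℝ 0 z ⊆ F.D x := by
    rw [segment_eq_image]
    rintro _ ⟨t, ht, rfl⟩
    simpa using F.star x z h t ht
  obtain ⟨r, hr, hth⟩ := hK.exists_thickening_subset_open (F.isOpen_D x) hKD
  have hconv : Convex ℝ (thickening r (segment ℝ 0 z)) := (convex_segment 0 z).thickening r
  have hmap : 𝓝 (x, z) = map (fun p : ℂ × ℂ => (F.go x p.1, p.2)) (𝓝 ((0 : ℂ), z)) := by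
    rw [nhds_prod_eq, nhds_prod_eq, ← F.map_nhds x hx]
    have := Filter.prod_map_map_eq' (F.go x) (id : ℂ → ℂ) (𝓝 0) (𝓝 z)
    rw [map_id] at this
    rw [this]; rfl
  have hev : ∀ᶠ p : ℂ × ℂ in 𝓝 ((0 : ℂ), z), p.2 ∈ F.D (F.go x p.1) ∧
      F.go (F.go x p.1) p.2 = F.go x (p.1 + p.2) := by
    have h1 : ∀ᶠ p : ℂ × ℂ in 𝓝 ((0 : ℂ), z), p.1 ∈ thickening r (segment ℝ 0 z) :=
      continuous_fst.continuousAt.eventually (isOpen_thickening.mem_nhds
        (self_subset_thickening hr _ (left_mem_segment ℝ 0 z)))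
    have h2 : ∀ᶠ p : ℂ × ℂ in 𝓝 ((0 : ℂ), z), p.1 + p.2 ∈ thickening r (segment ℝ 0 z) := by
      have : ContinuousAt (fun p : ℂ × ℂ => p.1 + p.2) ((0 : ℂ), z) := by fun_prop
      apply this.eventually
      apply isOpen_thickening.mem_nhds
      simpa using self_subset_thickening hr _ (right_mem_segment ℝ 0 z)
    filter_upwards [h1, h2] with p hp1 hp2
    have := F.coc hconv hth hp1 hp2
    simpa using this
  constructor
  · rw [hmap, eventually_map]
    filter_upwards [hev] with p hp using hp.1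
  · rw [hmap, tendsto_map'_iff]
    have h3 : Tendsto (fun p : ℂ × ℂ => F.go x (p.1 + p.2)) (𝓝 ((0 : ℂ), z)) (𝓝 (F.go x z)) := by
      have : Tendsto (fun p : ℂ × ℂ => p.1 + p.2) (𝓝 ((0 : ℂ), z)) (𝓝 z) := by
        have : Continuous (fun p : ℂ × ℂ => p.1 + p.2) := by fun_prop
        simpa using this.tendsto ((0 : ℂ), z)
      exact (F.contAt h).tendsto.comp this
    apply h3.congr'
    filter_upwards [hev] with p hp using hp.2.symm

theorem isOpen_joint : IsOpen {p : X × ℂ | p.2 ∈ F.D p.1} :=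
  isOpen_iff_mem_nhds.2 fun p hp => (F.joint (x := p.1) (z := p.2) hp).1

/-- transfer of a boundary point between base points -/
theorem transfer {x : X} {C : Set ℂ} (hC : Convex ℝ C) (hD : C ⊆ F.D x) {z p : ℂ}
    (h0 : ∀ t ∈ Ico (0 : ℝ) 1, t • p ∈ C) (hz : ∀ t ∈ Ico (0 : ℝ) 1, z + t • (p - z) ∈ C)
    (hp : p - z ∈ F.D (F.go x z)) : p ∈ F.D x := by
  have hzC : z ∈ C := by simpa using hz 0 ⟨le_rfl, zero_lt_one⟩
  set y := F.go (F.go x z) (p - z) with hy
  have hyr : y ∉ F.sing := F.reg _ _ hp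
  obtain ⟨r, hr, hb⟩ := Metric.isOpen_iff.1 (F.isOpen_D y) 0 (F.zero_mem y hyr)
  have hev : ∀ᶠ t in 𝓝[<] (1 : ℝ), (t - 1) • (p - z) ∈ ball (0 : ℂ) r ∧
      (t - 1) • p ∈ ball (0 : ℂ) r := by
    apply Eventually.filter_mono nhdsWithin_le_nhds
    have h1 : ContinuousAt (fun t : ℝ => (t - 1) • (p - z)) 1 := by fun_prop
    have h2 : ContinuousAt (fun t : ℝ => (t - 1) • p) 1 := by fun_prop
    exact (h1.eventually (isOpen_ball.mem_nhds (by simpa using hr))).and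
      (h2.eventually (isOpen_ball.mem_nhds (by simpa using hr)))
  obtain ⟨t, ht, hb1, hb2⟩ := (Eventually.and (Ico_mem_nhdsLT (zero_lt_one' ℝ)) hev).exists
  -- first point
  have e1 : F.go x (z + t • (p - z)) = F.go y ((t - 1) • (p - z)) := by
    have h1 := F.coc hC hD hzC (hz t ht)
    simp only [add_sub_cancel_left] at h1
    have h2 := F.line (x := F.go x z) (u := p - z) (a := 1) (b := t - 1) (by simpa using hp)
      (by simpa [← hy] using hb hb1)
    rw [← h1.2]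
    simpa [← hy] using h2.2
  have e2 : F.go x (t • p) = F.go y ((t - 1) • p) := by
    have h1 := F.coc hC hD (hz t ht) (h0 t ht)
    have h2 := F.coc (convex_ball 0 r) hb hb1 hb2
    rw [← h1.2, ← h2.2, e1]
    congr 1
    module
  have h3 := F.back (hb hb2)
  rw [← e2, ← neg_smul, neg_sub] at h3
  have := F.line (hD (h0 t ht)) h3.1
  simpa using this.1

end Flow

end Pool.Agent.Lib.MP_1e1a64_an
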