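import Pool.Agent.Lib.MP_1e1a64_an.Thick

/-!
Holonomies are integer combinations of finitely many vectors with linearly bounded coefficients.
-/

open Set Filter Topology MeasureTheory Metric Function
open scoped ENNReal NNReal

namespace Pool.Agent.Lib.MP_1e1a64_an

def Rep (P : Finset ℂ) (A : ℝ) (w : ℂ) : Prop :=
  ∃ a : ℂ → ℤ, w = ∑ p ∈ P, (a p : ℝ) • p ∧ ∀ p, |(a p : ℝ)| ≤ A

theorem Rep.add {P : Finset ℂ} {A : ℝ} {w h : ℂ} (hw : Rep P A w) (hh : h ∈ P) :
    Rep P (A + 1) (w + h) := by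
  classical
  obtain ⟨a, rfl, ha⟩ := hw
  refine ⟨fun p => a p + if p = h then 1 else 0, ?_, fun p => ?_⟩
  · push_cast
    simp only [add_smul, Finset.sum_add_distrib, ite_smul, one_smul, zero_smul]
    rw [Finset.sum_ite_eq' P h, if_pos hh]
  · push_cast
    refine (abs_add_le _ _).trans (add_le_add (ha p) ?_)
    split_ifs <;> simp

theorem Rep.zero (P : Finset ℂ) : Rep P 0 0 := ⟨fun _ => 0, by simp, by simp⟩

theorem Rep.mono {P : Finset ℂ} {A A' : ℝ} {w : ℂ} (hw : Rep P A w) (h : A ≤ A') : Rep P A' w := by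
  obtain ⟨a, h1, ha⟩ := hw
  exact ⟨a, h1, fun p => (ha p).trans h⟩

namespace Flow

variable {X : Type*} [TopologicalSpace X] {F : Flow X} [T2Space X] [CompactSpace X]

omit [CompactSpace X] in
theorem near_sing {p : X} (hp : p ∈ F.sing) {ρ : ℝ} (hρ : 0 < ρ) :
    ∀ᶠ x in 𝓝 p, x ∈ F.sing ∨ ∃ w, F.Hit x w ∧ ‖w‖ < ρ := by
  obtain ⟨r, hr, hc⟩ := F.exists_coneRad
  filter_upwards [F.U_nhds p hp,
    (F.pos_tendsto p hp).eventually (ball_mem_nhds (0 : ℂ) (lt_min hr hρ))] with y hU h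
  rw [dist_zero_right, lt_min_iff] at h
  by_cases hy : y = p
  · exact Or.inl (hy ▸ hp)
  · exact Or.inr ⟨_, ⟨fun t ht => (hc.toward hp hU h.1 (F.pos_ne p hp y hU hy) ht).1,
      hc.hit hp hU h.1⟩, by rw [norm_neg]; exact h.2⟩

variable (F) in
theorem exists_gen : ∃ (P : Finset ℂ) (C : ℝ), 0 < C ∧
    ∀ e, F.IsSC e → Rep P (C * (‖e.2‖ + 1)) ((2 : ℝ) • e.2) := by
  rcases F.sing.eq_empty_or_nonempty with h0 | hne
  · refine ⟨∅, 1, one_pos, fun e he => ?_⟩
    obtain ⟨p, hp, -⟩ := he.1.limit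
    simp [h0] at hp
  obtain ⟨ε, hε, hs⟩ := F.exists_sys
  set N := interior {x | x ∈ F.sing ∨ ∃ w, F.Hit x w ∧ ‖w‖ < ε / 4} with hN
  obtain ⟨r1, hr1, hsm⟩ := F.small_hit (N := N) fun p hp =>
    interior_mem_nhds.2 (near_sing hp (by positivity))
  set r := min r1 (ε / 4) / 3 with hr
  have r0 : 0 < r := by positivity
  have r2 : 3 * r ≤ r1 := by linarith [min_le_left r1 (ε / 4)]
  have r3 : 3 * r ≤ ε / 4 := by linarith [min_le_right r1 (ε / 4)]
  have hbig : ∀ y, y ∉ N → F.Big (3 * r) y := fun y hy w hw => by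
    by_contra h
    exact hy (hsm y w h ((mem_ball_zero_iff.1 hw).trans_le r2))
  obtain ⟨Y, hY, hcov⟩ := isOpen_interior.isClosed_compl.isCompact.elim_nhds_subcover
    (fun y => F.go y '' ball 0 r) (fun y (hy : y ∉ N) => by
      have := F.image_nhds (hbig y hy (mem_ball_self (by positivity))) (ball_mem_nhds 0 r0)
      rwa [F.go_zero] at this)
  have f1 : {h | ∃ y ∈ Y, F.Hit y h ∧ ‖h‖ < ε}.Finite := by
    refine (Y.finite_toSet.biUnion (t := fun y => {h | F.Hit y h ∧ ‖h‖ < ε}) fun y _ =>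
      Set.Subsingleton.finite fun a ha b hb => hs.unique ha.1 hb.1 ha.2 hb.2).subset ?_
    rintro h ⟨y, hy, h1⟩
    exact mem_iUnion₂.2 ⟨y, hy, h1⟩
  have f2 : {h | ∃ y ∈ Y, ∃ y' ∈ Y, ‖h‖ < 3 * r ∧ F.go y h = y'}.Finite := by
    refine (Y.finite_toSet.biUnion (t := fun y => ⋃ y' ∈ Y, {h | ‖h‖ < 3 * r ∧ F.go y h = y'})
      fun y hy => Y.finite_toSet.biUnion fun y' _ => Set.Subsingleton.finite fun a ha b hb =>
        hs.inj hne (by linarith) (hbig y (hY y hy)) (mem_ball_zero_iff.2 ha.1)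
          (mem_ball_zero_iff.2 hb.1) (ha.2.trans hb.2.symm)).subset ?_
    rintro h ⟨y, hy, y', hy', h1⟩
    exact mem_iUnion₂.2 ⟨y, hy, mem_iUnion₂.2 ⟨y', hy', h1⟩⟩
  have f3 := ((f1.union (f1.image fun h => -h)).union f2).insert 0
  let Co : X → ℂ → Prop := fun x a =>
    (F.Hit x (-a) ∧ ‖a‖ < ε / 4) ∨ ∃ y ∈ Y, ‖a‖ < r ∧ F.go y a = x
  have hCo : ∀ x, x ∉ F.sing → ∃ a, Co x a := by
    intro x hx
    by_cases h : x ∈ N
    · obtain ⟨w, h1, h2⟩ := (interior_subset h).resolve_left hx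
      exact ⟨-w, Or.inl ⟨by simpa using h1, by simpa using h2⟩⟩
    · obtain ⟨y, hy, a, ha, h1⟩ := mem_iUnion₂.1 (hcov h)
      exact ⟨a, Or.inr ⟨y, hy, mem_ball_zero_iff.1 ha, h1⟩⟩
  have key : ∀ y ∈ Y, ∀ a w a' : ℂ, ‖a‖ < r → ‖w‖ < r → F.Hit (F.go (F.go y a) w) (-a') →
      ‖a'‖ < ε / 4 → F.Hit y (a + w - a') ∧ ‖a + w - a'‖ < ε := by
    intro y hy a w a' h1 h2 h3 h4
    have n1 : ‖a + w‖ < 2 * r := by linarith [norm_add_le a w]
    have hb := hbig y (hY y hy)
    rw [(hb.coc (by linarith) (by linarith)).2] at h3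
    have b := F.back (hb (mem_ball_zero_iff.2 (show ‖a + w‖ < 3 * r by linarith)))
    have := hs.move h3 (by rw [norm_neg]; linarith) (by rw [norm_neg]; linarith) b.1
    rw [b.2, show -a' - -(a + w) = a + w - a' by ring] at this
    exact ⟨this, by linarith [norm_sub_le (a + w) a']⟩
  have trans : ∀ x a w a', w ∈ F.D x → ‖w‖ < r → Co x a → Co (F.go x w) a' →
      a + w - a' ∈ f3.toFinset := by
    intro x a w a' hw n0 h1 h2
    rw [Set.Finite.mem_toFinset]
    rcases h1 with ⟨h1, n1⟩ | ⟨y, hy, n1, rfl⟩ <;> rcases h2 with ⟨h2, n2⟩ | ⟨y', hy', n2, h2⟩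
    · left
      have := hs.unique (hs.move h1 (by rw [norm_neg]; linarith) (by linarith) hw) h2
        (by linarith [norm_sub_le (-a) w, norm_neg a]) (by rw [norm_neg]; linarith)
      linear_combination -this
    · refine Or.inr (Or.inl (Or.inr ⟨a' + -w - a, ⟨y', hy', key y' hy' a' (-w) a n2
        (by rwa [norm_neg]) (by rwa [h2, (F.back hw).2]) n1⟩, by ring⟩))
    · exact Or.inr (Or.inl (Or.inl ⟨y, hy, key y hy a w a' n1 n0 h2 n2⟩))
    · have hb := hbig y (hY y hy)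
      have n3 : ‖a + w‖ < 2 * r := by linarith [norm_add_le a w]
      have n4 : ‖a + w - a'‖ < 3 * r := by linarith [norm_sub_le (a + w) a']
      refine Or.inr (Or.inr ⟨y, hy, y', hy', n4, ?_⟩)
      rw [sub_eq_add_neg] at n4 ⊢
      rw [← (hb.coc (by linarith) n4).2, ← (hb.coc (by linarith) (by linarith)).2, ← h2]
      exact (F.back (hbig y' (hY y' hy') (mem_ball_zero_iff.2 (by linarith)))).2
  refine ⟨f3.toFinset, 2 / r + 3, by positivity, fun e he => ?_⟩
  set K := ⌈2 * ‖e.2‖ / r⌉₊ + 1 with hK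
  have K0 : (0 : ℝ) < (K : ℝ) + 1 := by positivity
  have K1 : (K : ℝ) ≤ (2 / r + 3) * (‖e.2‖ + 1) := by
    have := (Nat.ceil_lt_add_one (show 0 ≤ 2 * ‖e.2‖ / r by positivity)).le
    have h2 : (2 / r + 3) * (‖e.2‖ + 1) = 2 * ‖e.2‖ / r + (2 / r + 3 * ‖e.2‖) + 3 := by ring
    have h3 : 0 ≤ 2 / r + 3 * ‖e.2‖ := by positivity
    rw [hK]; push_cast; linarith
  have hw : ‖(2 / ((K : ℝ) + 1)) • e.2‖ < r := by
    rw [norm_smul, Real.norm_of_nonneg (by positivity), div_mul_eq_mul_div, div_lt_iff₀ K0]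
    have := (div_le_iff₀ r0).1 (Nat.le_ceil (2 * ‖e.2‖ / r))
    rw [hK]; push_cast; nlinarith
  have hI : ∀ k : ℕ, k < K → -1 + 2 * ((k : ℝ) + 1) / (K + 1) ∈ Ioo (-1 : ℝ) 1 := fun k hk => by
    have h1 : (k : ℝ) < K := by exact_mod_cast hk
    have h2 : 0 < 2 * ((k : ℝ) + 1) / (K + 1) := by positivity
    have h3 : 2 * ((k : ℝ) + 1) / (K + 1) < 2 := by rw [div_lt_iff₀ K0]; linarith
    constructor <;> linarith
  have ind : ∀ k : ℕ, k < K → ∀ a, Co (F.pt e (-1 + 2 * ((k : ℝ) + 1) / (K + 1))) a →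
      Rep f3.toFinset (k + 1) (((k : ℝ) + 1) • (2 / ((K : ℝ) + 1)) • e.2 - a) := by
    intro k
    induction k with
    | zero =>
      intro hk a ha
      have h1 := he.rev.hit_end (neg_mem_Ioo (hI 0 hk))
      rw [pt_rev, neg_neg] at h1
      have := trans _ ((2 / ((K : ℝ) + 1)) • e.2) 0 a (F.zero_mem _ (he.pt_reg (hI 0 hk)))
        (by simpa using r0) (Or.inl ⟨by
          convert h1 using 1
          rw [rev_snd, smul_neg]; congr 2; push_cast; ring, by linarith⟩) (by rwa [F.go_zero])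
      simpa using (Rep.zero _).add this
    | succ k ih =>
      intro hk a ha
      obtain ⟨a0, h0⟩ := hCo _ (he.pt_reg (hI k (by omega)))
      have st := he.step (hI k (by omega)) (hI (k + 1) hk)
      rw [show -1 + 2 * (((k + 1 : ℕ) : ℝ) + 1) / (K + 1) - (-1 + 2 * ((k : ℝ) + 1) / (K + 1)) =
        2 / (K + 1) by push_cast; ring] at st
      have := (ih (by omega) a0 h0).add (trans _ a0 _ a st.1 hw h0 (by rwa [st.2]))
      convert this using 1
      · push_cast; ring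
      · push_cast; module
  have hK1 : K - 1 < K := by omega
  have e1 : ((K - 1 : ℕ) : ℝ) + 1 = K := by rw [hK]; push_cast; simp
  have := ind (K - 1) hK1 (-((2 / ((K : ℝ) + 1)) • e.2)) (Or.inl ⟨by
    convert he.hit_end (hI _ hK1) using 1
    rw [neg_neg, e1]; congr 1; field_simp; ring, by rw [norm_neg]; linarith⟩)
  rw [e1] at this
  convert this.mono K1 using 1
  rw [sub_neg_eq_add, smul_smul, ← add_smul]
  congr 1; field_simp

end Flow

theorem no_separated {ι : Type*} [Fintype ι] (ξ : ι → ℝ) {A Λ : ℝ} (hA : 1 ≤ A)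
    (hΛ : (Fintype.card ι + 1) * ((Fintype.card ι + 1) * A) ^ Fintype.card ι ≤ Λ)
    (ζ : Fin (Fintype.card ι + 1) → ℝ)
    (hζ : ∀ i, ∃ a : ι → ℤ, ζ i = ∑ k, a k * ξ k ∧ ∀ k, |(a k : ℝ)| ≤ A) (h0 : ∀ i, ζ i ≠ 0)
    (hsep : ∀ i j, i < j → Λ * |ζ j| ≤ |ζ i|) : False := by
  classical
  choose a ha hb using hζ
  rcases Nat.eq_zero_or_pos (Fintype.card ι) with hm | hm
  · have := Fintype.card_eq_zero_iff.1 hm
    exact h0 0 (by simpa using ha 0)
  let := Matrix.seminormedAddCommGroup (m := ι) (n := Fin (Fintype.card ι + 1)) (α := ℤ)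
  obtain ⟨t, t0, t1, t2⟩ := Int.Matrix.exists_ne_zero_int_vec_norm_le
    (Matrix.of fun k i => a i k) (by simp) hm
  have hM : ‖(Matrix.of fun k i => a i k : Matrix ι (Fin (Fintype.card ι + 1)) ℤ)‖ ≤ A :=
    (Matrix.norm_le_iff (by linarith)).2 fun k i => by simpa [Int.norm_eq_abs] using hb i k
  set T := ((Fintype.card ι + 1) * A) ^ Fintype.card ι with hT
  have T1 : 0 < T := by positivity
  have t3 : ∀ i, |(t i : ℝ)| ≤ T := fun i => by
    have := (norm_le_pi_norm t i).trans t2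
    simp only [Fintype.card_fin, Nat.cast_add, Nat.cast_one, add_sub_cancel_left, div_one,
      Real.rpow_natCast, Int.norm_eq_abs] at this
    refine this.trans ?_
    rw [hT]; gcongr
    exact max_le hA hM
  have s0 : ∑ i, t i * ζ i = 0 := by
    simp only [ha, Finset.mul_sum]
    rw [Finset.sum_comm]
    refine Finset.sum_eq_zero fun k _ => ?_
    have := congrFun t1 k
    simp only [Matrix.mulVec, dotProduct, Matrix.of_apply, Pi.zero_apply] at this
    have h2 : ((∑ i, a i k * t i : ℤ) : ℝ) = 0 := by rw [this]; simp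
    push_cast at h2
    calc _ = (∑ i, (a i k : ℝ) * t i) * ξ k := by
          rw [Finset.sum_mul]; exact Finset.sum_congr rfl fun i _ => by ring
      _ = 0 := by rw [h2, zero_mul]
  obtain ⟨i0, hi0, hmin⟩ := Finset.exists_min_image (Finset.univ.filter fun i => t i ≠ 0) id
    (by
      by_contra h
      rw [Finset.not_nonempty_iff_eq_empty, Finset.filter_eq_empty_iff] at h
      exact t0 (funext fun i => by simpa using h (Finset.mem_univ i)))
  have z0 := abs_pos.2 (h0 i0)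
  have Λ0 : 0 < Λ := lt_of_lt_of_le (by positivity) hΛ
  rw [← Finset.add_sum_erase _ _ (Finset.mem_univ i0)] at s0
  have b1 : |∑ i ∈ Finset.univ.erase i0, t i * ζ i| ≤ Fintype.card ι * (T * (|ζ i0| / Λ)) := by
    refine (Finset.abs_sum_le_sum_abs _ _).trans ((Finset.sum_le_card_nsmul _ _
      (T * (|ζ i0| / Λ)) fun i hi => ?_).trans (by simp))
    by_cases h : t i = 0
    · simp only [h, Int.cast_zero, zero_mul, abs_zero]; positivity
    · have := hsep i0 i (lt_of_le_of_ne (hmin i (by simpa using h)) (Finset.ne_of_mem_erase hi).symm)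
      rw [abs_mul]
      exact mul_le_mul (t3 i) ((le_div_iff₀ Λ0).2 (by linarith)) (abs_nonneg _) T1.le
  have b2 : (1 : ℝ) ≤ |(t i0 : ℝ)| := by
    exact_mod_cast Int.one_le_abs (Finset.mem_filter.1 hi0).2
  rw [← neg_eq_iff_add_eq_zero.2 s0, abs_neg, abs_mul, ← mul_div_assoc, ← mul_div_assoc,
    le_div_iff₀ Λ0] at b1
  have b3 : |ζ i0| * Λ ≤ |(t i0 : ℝ)| * |ζ i0| * Λ := by
    rw [mul_assoc]; exact le_mul_of_one_le_left (by positivity) b2
  nlinarith [mul_le_mul_of_nonneg_left hΛ z0.le, mul_pos T1 z0]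

theorem Rep.wedge {P : Finset ℂ} {A : ℝ} {v w : ℂ} (hv : Rep P A v) (hw : Rep P A w) :
    ∃ a : P × P → ℤ, wedge v w = ∑ k, a k * wedge k.1 k.2 ∧ ∀ k, |(a k : ℝ)| ≤ A ^ 2 := by
  obtain ⟨a, rfl, ha⟩ := hv
  obtain ⟨b, rfl, hb⟩ := hw
  refine ⟨fun k => a k.1 * b k.2, ?_, fun k => ?_⟩
  · rw [Fintype.sum_prod_type, ← Finset.sum_coe_sort P, ← Finset.sum_coe_sort P]
    simp only [MP_1e1a64_an.wedge, Complex.re_sum, Complex.im_sum, Complex.smul_re,
      Complex.smul_im, smul_eq_mul, Finset.sum_mul_sum, ← Finset.sum_sub_distrib]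
    refine Finset.sum_congr rfl fun i _ => Finset.sum_congr rfl fun j _ => ?_
    push_cast; ring
  · push_cast
    rw [abs_mul, sq]
    exact mul_le_mul (ha _) (hb _) (abs_nonneg _) ((abs_nonneg _).trans (ha k.1))

theorem card_levels {D L : ℕ} (T : Finset ℕ)
    (h : ∀ g : Fin (D + 1) → ℕ, (∀ i, g i ∈ T) → (∀ i j, i < j → g i + L ≤ g j) → False) :
    T.card ≤ D * L := by
  by_contra hn
  have hlt : ∀ i : Fin (D + 1), i * L < T.card := fun i =>
    lt_of_le_of_lt (Nat.mul_le_mul_right L (Nat.lt_succ_iff.1 i.2)) (not_le.1 hn)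
  have hs : ∀ (d a : ℕ) (h : a + d < T.card),
      T.orderEmbOfFin rfl ⟨a, by omega⟩ + d ≤ T.orderEmbOfFin rfl ⟨a + d, h⟩ := by
    intro d
    induction d with
    | zero => simp
    | succ d ih =>
      intro a h
      have h1 := ih a (by omega)
      have h2 := (T.orderEmbOfFin rfl).strictMono
        (show (⟨a + d, by omega⟩ : Fin T.card) < ⟨a + (d + 1), h⟩ from by simp)
      omega
  refine h (fun i => T.orderEmbOfFin rfl ⟨i * L, hlt i⟩) (fun i => T.orderEmbOfFin_mem _ _)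
    fun i j hij => ?_
  have h1 : (i : ℕ) * L + L ≤ j * L := by
    rw [← add_one_mul]; exact Nat.mul_le_mul_right L hij
  exact (hs L (i * L) (h1.trans_lt (hlt j))).trans ((T.orderEmbOfFin rfl).monotone (by simpa using h1))

end Pool.Agent.Lib.MP_1e1a64_an
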