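import Pool.Agent.Lib.MP_1e1a64_an.Thick
import Pool.Agent.Lib.MP_1e1a64_an.Birk

/-!
Equidistribution at a thick level with small energy drop.
-/

open Set Filter Topology MeasureTheory Metric Function Complex
open scoped ENNReal NNReal

namespace Pool.Agent.Lib.MP_1e1a64_an

noncomputable def up (η : ℝ) (k : ℕ) : ℂ := ((k * η : ℝ) : ℂ) * I

@[simp] theorem up_re (η : ℝ) (k : ℕ) : (up η k).re = 0 := by simp [up]
@[simp] theorem up_im (η : ℝ) (k : ℕ) : (up η k).im = k * η := by simp [up]
theorem up_succ (η : ℝ) (k : ℕ) : up η (k + 1) = up η k + η * I := by simp [up]; ring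
theorem up_add (η : ℝ) (k j : ℕ) : up η (k + j) = up η k + up η j := by simp [up]; ring

theorem norm_lt_box {a : ℝ} (ha : 0 < a) {z : ℂ} (h1 : |z.re| ≤ a) (h2 : 0 ≤ z.im)
    (h3 : z.im ≤ 5 * a) : ‖z‖ < 7 * a := by
  have := Complex.norm_le_abs_re_add_abs_im z
  rw [abs_of_nonneg h2] at this
  linarith

theorem volume_rect (a b c d : ℝ) :
    volume {z : ℂ | z.re ∈ Ico a b ∧ z.im ∈ Ico c d} =
      ENNReal.ofReal (b - a) * ENNReal.ofReal (d - c) := by
  have := Complex.volume_preserving_equiv_real_prod.measure_preimage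
    (s := Ico a b ×ˢ Ico c d) (measurableSet_Ico.prod measurableSet_Ico).nullMeasurableSet
  rw [Measure.volume_eq_prod, Measure.prod_prod, Real.volume_Ico, Real.volume_Ico] at this
  exact this

theorem measurableSet_rect (a b c d : ℝ) :
    MeasurableSet {z : ℂ | z.re ∈ Ico a b ∧ z.im ∈ Ico c d} :=
  (Complex.measurable_re measurableSet_Ico).inter (Complex.measurable_im measurableSet_Ico)

theorem card_windows {K W L : ℕ} (hW : 0 < W) (T : Finset ℕ) (hT : ∀ k ∈ T, k < K)
    (h : ∀ k ∈ T, ∀ k' ∈ T, k ≤ k' → k' - k < W → k' - k < L) : T.card ≤ L * (K / W + 1) := by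
  have := Finset.card_le_mul_card_image_of_maps_to (f := fun k => k / W) (s := T)
    (t := Finset.range (K / W + 1)) (fun k hk => Finset.mem_range.2
      (Nat.lt_succ_of_le (Nat.div_le_div_right (hT k hk).le))) L (fun b _ => by
    rcases (T.filter fun k => k / W = b).eq_empty_or_nonempty with h0 | h0
    · simp [h0]
    obtain ⟨k0, hk0, hmin⟩ := Finset.exists_min_image _ id h0
    refine (Finset.card_le_card (t := Finset.Ico k0 (k0 + L)) fun k hk => ?_).trans (by simp)
    have h1 : k0 ≤ k := hmin k hk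
    obtain ⟨a1, a2⟩ := Finset.mem_filter.1 hk0
    obtain ⟨b1, b2⟩ := Finset.mem_filter.1 hk
    have h2 := Nat.div_add_mod k W
    have h3 := Nat.div_add_mod k0 W
    have h4 := Nat.mod_lt k hW
    rw [a2] at h3
    rw [b2] at h2
    have := h k0 a1 k b1 h1 (by omega)
    exact Finset.mem_Ico.2 ⟨h1, by omega⟩)
  simpa using this

namespace Flow

variable {X : Type*} [TopologicalSpace X] {F : Flow X}

theorem Big.iter {ρ η : ℝ} {y : X} (h : F.Big ρ y) {z : ℂ} {k : ℕ}
    (hz : ∀ j ≤ k, ‖z + up η j‖ < ρ) : (F.Θ (η * I))^[k] (F.go y z) = F.go y (z + up η k) := by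
  induction k with
  | zero => simp [up]
  | succ k ih =>
    rw [iterate_succ_apply', ih fun j hj => hz j (by omega), Θ, up_succ, ← add_assoc]
    exact (h.coc (hz k (by omega)) (by rw [add_assoc, ← up_succ]; exact hz _ le_rfl)).2

variable (F) in
/-- average of `f` along an internal saddle connection -/
noncomputable def avg (f : X → ℝ) (e : X × ℂ) : ℝ := (∫ t in (-1 : ℝ)..1, f (F.pt e t)) / 2

variable [MeasurableSpace X]

variable (F) in
structure Lev (μ : Measure X) (c : ℝ≥0) (f : X → ℝ) (ε a η ω δ : ℝ) (n J : ℕ) : Prop where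
  sys : F.Sys ε
  area : F.IsArea μ c
  ne : F.sing.Nonempty
  cpos : 0 < c
  meas : Measurable f
  bdd : ∀ x, |f x| ≤ 1
  a0 : 0 < a
  aε : 32 * a ≤ ε
  η0 : 0 < η
  ηa : η ≤ a
  n0 : 0 < n
  na : n * η ≤ a
  J0 : 0 < J
  Ja : J * η ≤ a
  aJ : a ≤ 2 * J * η
  hω : ∀ x w, w ∈ F.D x → |w.re| ≤ a → |w.im| ≤ η → |f (F.go x w) - f x| ≤ ω
  hδ : ∀ j : ℕ, j * η ≤ 2 * a →
    ∫ x, |B (F.Θ (η * I)) n f ((F.Θ (η * I))^[j] x) - B (F.Θ (η * I)) n f x| ∂μ ≤ δ

variable {μ : Measure X} {c : ℝ≥0} {f : X → ℝ} {ε a η ω δ : ℝ} {n J : ℕ}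

theorem Lev.iter (L : F.Lev μ c f ε a η ω δ n J) {y : X} (hy : F.Big (7 * a) y) {z : ℂ} {k : ℕ}
    (h1 : |z.re| ≤ a) (h2 : 0 ≤ z.im) (h3 : z.im + k * η ≤ 5 * a) :
    (F.Θ (η * I))^[k] (F.go y z) = F.go y (z + up η k) := by
  refine hy.iter fun j hj => norm_lt_box L.a0 (by simpa using h1) ?_ ?_
  · have := L.η0; simp only [add_im, up_im]; positivity
  · have : (j : ℝ) ≤ k := by exact_mod_cast hj
    simp only [add_im, up_im]; nlinarith [L.η0]

theorem Lev.close (L : F.Lev μ c f ε a η ω δ n J) {y : X} (hy : F.Big (7 * a) y) {z z' : ℂ}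
    (h1 : |z.re| ≤ a) (h2 : 0 ≤ z.im) (h3 : z.im ≤ 4 * a) (g1 : |z'.re| ≤ a) (g2 : 0 ≤ z'.im)
    (g3 : z'.im ≤ 4 * a) (k1 : |z.re - z'.re| ≤ a) (k2 : |z.im - z'.im| ≤ η) :
    |B (F.Θ (η * I)) n f (F.go y z) - B (F.Θ (η * I)) n f (F.go y z')| ≤ ω := by
  have hω : 0 ≤ ω := (abs_nonneg _).trans (L.hω y 0 (hy (mem_ball_self (by linarith [L.a0])))
    (by simpa using L.a0.le) (by simpa using L.η0.le))
  rw [B, B, ← sub_div, ← Finset.sum_sub_distrib]
  refine abs_avg_le hω fun k hk => ?_
  have hk' : (k : ℝ) * η ≤ a :=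
    le_trans (mul_le_mul_of_nonneg_right (by exact_mod_cast hk.le) L.η0.le) L.na
  have hk0 : 0 ≤ (k : ℝ) * η := mul_nonneg (Nat.cast_nonneg k) L.η0.le
  rw [L.iter hy h1 h2 (by linarith), L.iter hy g1 g2 (by linarith)]
  have e1 : z' + up η k + (z - z') = z + up η k := by ring
  have := hy.coc (z := z' + up η k) (w := z - z')
    (norm_lt_box L.a0 (by simpa using g1) (by simp only [add_im, up_im]; linarith)
      (by simp only [add_im, up_im]; linarith))
    (by
      rw [e1]
      exact norm_lt_box L.a0 (by simpa using h1) (by simp only [add_im, up_im]; linarith)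
        (by simp only [add_im, up_im]; linarith))
  rw [← e1, ← this.2]
  exact L.hω _ _ this.1 k1 k2

variable [T2Space X] [CompactSpace X] [BorelSpace X] [IsProbabilityMeasure μ]

theorem Lev.shift (L : F.Lev μ c f ε a η ω δ n J) {y : X} (hy : F.Big (7 * a) y) {j : ℕ}
    (hj : j * η ≤ 2 * a) :
    (∑ k ∈ Finset.range J, (|B (F.Θ (η * I)) n f (F.go y (up η (k + j))) -
      B (F.Θ (η * I)) n f (F.go y (up η k))| - 2 * ω)) * (c * a * η) ≤ δ := by
  set G := B (F.Θ (η * I)) n f with hG
  have ha := L.a0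
  have hη := L.η0
  have hinj := L.sys.inj L.ne (by linarith [L.aε]) hy
  set R : ℕ → Set ℂ := fun k => {z : ℂ | z.re ∈ Ico 0 a ∧ z.im ∈ Ico (k * η) ((k + 1) * η)}
  have hk : ∀ k < J, 0 ≤ (k : ℝ) * η ∧ ((k : ℝ) + 1) * η ≤ a := fun k hk =>
    ⟨by positivity, le_trans (mul_le_mul_of_nonneg_right (by exact_mod_cast hk) hη.le) L.Ja⟩
  have hR : ∀ k < J, R k ⊆ ball 0 (7 * a) := fun k h z hz => by
    rw [mem_ball_zero_iff]
    exact norm_lt_box ha (abs_le.2 ⟨by linarith [hz.1.1], hz.1.2.le⟩)
      ((hk k h).1.trans hz.2.1) (by linarith [hz.2.2, (hk k h).2])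
  have hm : ∀ k < J, MeasurableSet (F.go y '' R k) := fun k h =>
    measurableSet_image ((hR k h).trans hy) (measurableSet_rect _ _ _ _) (hinj.mono (hR k h))
  have hv : ∀ k < J, μ.real (F.go y '' R k) = c * a * η := fun k h => by
    rw [Measure.real, L.area.image_eq ((hR k h).trans hy) (measurableSet_rect _ _ _ _)
      (hinj.mono (hR k h)), volume_rect]
    simp only [ENNReal.toReal_mul, ENNReal.coe_toReal, sub_zero, ENNReal.toReal_ofReal ha.le]
    rw [ENNReal.toReal_ofReal (by linarith)]; ring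
  have mG : Measurable G := measurable_B (measurable_Θ _) L.meas n
  have bG : ∀ x, |G x| ≤ 1 := abs_B_le L.bdd n
  have hj0 : 0 ≤ (j : ℝ) * η := by positivity
  refine le_trans ?_ (L.hδ j hj)
  have e1 : ∫ x, ∑ k ∈ Finset.range J, (F.go y '' R k).indicator
      (fun _ => |G (F.go y (up η (k + j))) - G (F.go y (up η k))| - 2 * ω) x ∂μ =
      (∑ k ∈ Finset.range J, (|G (F.go y (up η (k + j))) - G (F.go y (up η k))| - 2 * ω)) *
        (c * a * η) := by
    rw [integral_finsetSum _ fun k hk =>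
      (integrable_const _).indicator (hm k (Finset.mem_range.1 hk)), Finset.sum_mul]
    refine Finset.sum_congr rfl fun k hk => ?_
    rw [integral_indicator_const _ (hm k (Finset.mem_range.1 hk)), hv k (Finset.mem_range.1 hk),
      smul_eq_mul, mul_comm]
  rw [← e1]
  refine integral_mono (integrable_finsetSum _ fun k hk =>
    (integrable_const _).indicator (hm k (Finset.mem_range.1 hk)))
    (integrable_of_bdd ((mG.comp ((measurable_Θ _).iterate j)).sub mG) (c := 2) fun x =>
      (abs_sub _ _).trans (by linarith [bG x, bG ((F.Θ (η * I))^[j] x), show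
        |(G ∘ (F.Θ (η * I))^[j]) x| = |G ((F.Θ (η * I))^[j] x)| from rfl])).abs fun x => ?_
  simp only
  by_cases hx : ∃ k < J, x ∈ F.go y '' R k
  · obtain ⟨k, hkJ, z, hz, rfl⟩ := hx
    rw [Finset.sum_eq_single k (fun l hl hne => indicator_of_notMem (by
      rintro ⟨z', hz', h1⟩
      have := hinj (hR l (Finset.mem_range.1 hl) hz') (hR k hkJ hz) h1
      subst this
      rcases lt_or_gt_of_ne hne with h | h
      · have : (l : ℝ) + 1 ≤ k := by exact_mod_cast h
        nlinarith [hz.2.1, hz'.2.2]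
      · have : (k : ℝ) + 1 ≤ l := by exact_mod_cast h
        nlinarith [hz.2.2, hz'.2.1]) _) (fun h => absurd (Finset.mem_range.2 hkJ) h),
      indicator_of_mem (mem_image_of_mem _ hz)]
    obtain ⟨⟨r1, r2⟩, i1, i2⟩ := hz
    obtain ⟨k1, k2⟩ := hk k hkJ
    have hre : |z.re| ≤ a := abs_le.2 ⟨by linarith, r2.le⟩
    rw [L.iter hy hre (by linarith) (by linarith)]
    have c1 := L.close hy (z := z) (z' := up η k) hre (by linarith) (by linarith)
      (by simpa using ha.le) (by simpa using k1) (by simp only [up_im]; linarith)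
      (by simpa using hre) (by simp only [up_im]; rw [abs_le]; constructor <;> linarith)
    have c2 := L.close hy (z := z + up η j) (z' := up η (k + j)) (by simpa using hre)
      (by simp only [add_im, up_im]; linarith) (by simp only [add_im, up_im]; linarith)
      (by simpa using ha.le) (by simp only [up_im]; positivity)
      (by simp only [up_im]; push_cast; linarith) (by simpa using hre)
      (by simp only [add_im, up_im]; push_cast; rw [abs_le]; constructor <;> linarith)
    rw [← hG] at c1 c2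
    rw [sub_le_iff_le_add, abs_le]
    have := le_abs_self (G (F.go y (z + up η j)) - G (F.go y z))
    have := neg_abs_le (G (F.go y (z + up η j)) - G (F.go y z))
    rw [abs_le] at c1 c2
    constructor <;> linarith [c1.1, c1.2, c2.1, c2.2]
  · push Not at hx
    rw [Finset.sum_eq_zero fun k hk => indicator_of_notMem (hx k (Finset.mem_range.1 hk)) _]
    exact abs_nonneg _

theorem Lev.lc0 (L : F.Lev μ c f ε a η ω δ n J) {y : X} (hy : F.Big (7 * a) y) {z : ℂ}
    (h1 : |z.re| ≤ a) (h2 : 0 ≤ z.im) (h3 : z.im ≤ 2 * a) :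
    |B (F.Θ (η * I)) J (B (F.Θ (η * I)) n f) (F.go y z) -
      B (F.Θ (η * I)) J (B (F.Θ (η * I)) n f) y| ≤ 3 * ω + 2 * δ / (c * a ^ 2) := by
  set G := B (F.Θ (η * I)) n f with hG
  have ha := L.a0
  have hη := L.η0
  have hc : (0 : ℝ) < c := L.cpos
  have hJ : (0 : ℝ) < J := by exact_mod_cast L.J0
  set j := ⌊z.im / η⌋₊ with hj
  have j1 : (j : ℝ) * η ≤ z.im := (le_div_iff₀ hη).1 (Nat.floor_le (by positivity))
  have j2 : z.im < (j + 1) * η := (div_lt_iff₀ hη).1 (Nat.lt_floor_add_one _)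
  have hs := L.shift hy (j := j) (by linarith)
  rw [← hG, Finset.sum_sub_distrib, Finset.sum_const, Finset.card_range, nsmul_eq_mul] at hs
  have hδ : 0 ≤ δ := le_trans (integral_nonneg fun _ => abs_nonneg _) (L.hδ 0 (by simp [ha.le]))
  have key : ∀ k ∈ Finset.range J, |G ((F.Θ (η * I))^[k] (F.go y z)) - G ((F.Θ (η * I))^[k] y)| ≤
      |G (F.go y (up η (k + j))) - G (F.go y (up η k))| + ω := by
    intro k hk
    have k1 : 0 ≤ (k : ℝ) * η := by positivity
    have k2 : (k : ℝ) * η ≤ a := le_trans (mul_le_mul_of_nonneg_right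
      (by exact_mod_cast (Finset.mem_range.1 hk).le) hη.le) L.Ja
    have i0 := L.iter hy (z := 0) (k := k) (by simpa using ha.le) le_rfl (by simp; linarith)
    rw [F.go_zero, zero_add] at i0
    rw [L.iter hy h1 h2 (by linarith), i0]
    have c2 := L.close hy (z := z + up η k) (z' := up η (k + j)) (by simpa using h1)
      (by simp only [add_im, up_im]; linarith) (by simp only [add_im, up_im]; linarith)
      (by simpa using ha.le) (by simp only [up_im]; positivity)
      (by simp only [up_im]; push_cast; linarith) (by simpa using h1)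
      (by simp only [add_im, up_im]; push_cast; rw [abs_le]; constructor <;> linarith)
    rw [← hG] at c2
    linarith [abs_sub_le (G (F.go y (z + up η k))) (G (F.go y (up η (k + j)))) (G (F.go y (up η k)))]
  rw [B, B, ← sub_div, ← Finset.sum_sub_distrib, abs_div, abs_of_pos hJ, div_le_iff₀ hJ]
  refine ((Finset.abs_sum_le_sum_abs _ _).trans (Finset.sum_le_sum key)).trans ?_
  rw [Finset.sum_add_distrib, Finset.sum_const, Finset.card_range, nsmul_eq_mul]
  have h4 : δ ≤ 2 * δ / (c * a ^ 2) * J * (c * a * η) := by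
    have : 2 * δ / (c * a ^ 2) * J * (c * a * η) = δ * (2 * J * η / a) := by field_simp
    rw [this]
    exact le_mul_of_one_le_right hδ ((one_le_div ha).2 L.aJ)
  have h5 := le_of_mul_le_mul_right (hs.trans h4) (by positivity)
  linarith

theorem Lev.lc (L : F.Lev μ c f ε a η ω δ n J) (x : X) (hx : F.Big (8 * a) x) (z : ℂ)
    (hz : ‖z‖ < a) :
    |B (F.Θ (η * I)) J (B (F.Θ (η * I)) n f) (F.go x z) -
      B (F.Θ (η * I)) J (B (F.Θ (η * I)) n f) x| ≤ 2 * (3 * ω + 2 * δ / (c * a ^ 2)) := by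
  have ha := L.a0
  have n1 : ‖-(a * I)‖ = a := by simp [ha.le]
  have hy := hx.move (z := -(a * I)) (r := 7 * a) (by rw [n1]; linarith) (by linarith)
  have e1 := (hx.coc (z := -(a * I)) (w := z + a * I) (by rw [n1]; linarith)
    (by simp; linarith)).2
  have e2 := (hx.coc (z := -(a * I)) (w := a * I) (by rw [n1]; linarith) (by simp; linarith)).2
  rw [show -(a * I) + (z + a * I) = z by ring] at e1
  rw [neg_add_cancel, F.go_zero] at e2
  have hre := (Complex.abs_re_le_norm z).trans hz.le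
  have him := abs_le.1 ((Complex.abs_im_le_norm z).trans hz.le)
  have c1 := L.lc0 hy (z := z + a * I) (by simpa using hre) (by simp; linarith [him.1])
    (by simp; linarith [him.2])
  have c2 := L.lc0 hy (z := a * I) (by simpa using ha.le) (by simpa using ha.le)
    (by simp; linarith)
  rw [e1] at c1
  rw [e2, abs_sub_comm] at c2
  exact (abs_sub_le _ _ _).trans (by linarith)

variable [SecondCountableTopology X]

theorem Lev.sup (L : F.Lev μ c f ε a η ω δ n J) {P : ℕ} (hP : 2 ≤ P * (c * a ^ 2)) {x : X}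
    (hx : F.Big (8 * a) x) :
    |B (F.Θ (η * I)) J (B (F.Θ (η * I)) n f) x - ∫ y, f y ∂μ| ≤
      4 * P * (3 * ω + 2 * δ / (c * a ^ 2)) + 1024 * F.K0 * c * a ^ 2 := by
  have ha := L.a0
  have hc : (0 : ℝ) < c := L.cpos
  set H := B (F.Θ (η * I)) J (B (F.Θ (η * I)) n f) with hH
  have mG := measurable_B (measurable_Θ (F := F) (η * I)) L.meas n
  have bG := abs_B_le (Θ := F.Θ (η * I)) L.bdd n
  have mH : Measurable H := measurable_B (measurable_Θ _) mG J
  have bH : ∀ x, |H x| ≤ 1 := abs_B_le bG J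
  have hmp := L.area.measurePreserving (η * I)
  have eI : ∫ y, f y ∂μ = ∫ y, H y ∂μ := by
    rw [hH, integral_B hmp mG bG L.J0, integral_B hmp L.meas L.bdd L.n0]
  have hP' : 1 < P * (c * volume (ball (0 : ℂ) (a / 2))) := by
    rw [Complex.volume_ball, ← ENNReal.toReal_lt_toReal (by simp) (by finiteness)]
    simp only [ENNReal.toReal_one, ENNReal.toReal_mul, ENNReal.toReal_natCast, ENNReal.coe_toReal,
      ENNReal.toReal_pow, ENNReal.toReal_ofReal (half_pos ha).le, NNReal.coe_real_pi]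
    nlinarith [Real.pi_gt_three]
  have ho : ∀ y, F.Big (8 * a) y → |H x - H y| ≤ 4 * P * (3 * ω + 2 * δ / (c * a ^ 2)) := by
    intro y hy
    have o1 := L.sys.osc L.area L.ne (by linarith [L.aε]) ha (by linarith) L.lc hP' hx hy
    have o2 := L.sys.osc L.area L.ne (by linarith [L.aε]) ha (by linarith) L.lc hP' hy hx
    rw [abs_le]; constructor <;> linarith
  have hZ := L.sys.measure_not_big L.area (ρ := 8 * a) (by linarith) (by linarith [L.aε])
  set Z := toMeasurable μ {x | ¬ F.Big (8 * a) x} with hZdef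
  have hZr : μ.real Z ≤ 512 * F.K0 * c * a ^ 2 := by
    rw [Measure.real, hZdef, measure_toMeasurable]
    refine (ENNReal.toReal_mono (by rw [Complex.volume_ball]; finiteness) hZ).trans ?_
    rw [Complex.volume_ball]
    simp only [ENNReal.toReal_mul, ENNReal.toReal_natCast, ENNReal.coe_toReal, ENNReal.toReal_ofNat,
      ENNReal.toReal_pow, ENNReal.toReal_ofReal (show 0 ≤ 8 * a by linarith), NNReal.coe_real_pi]
    have : 0 ≤ (F.K0 : ℝ) * c * a ^ 2 := by positivity
    nlinarith [Real.pi_le_four]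
  have i1 : Integrable (Z.indicator fun _ => (2 : ℝ)) μ :=
    (integrable_const _).indicator (measurableSet_toMeasurable _ _)
  have e2 : H x - ∫ y, H y ∂μ = ∫ y, (H x - H y) ∂μ := by
    rw [integral_sub (integrable_const _) (integrable_of_bdd mH bH)]; simp
  rw [eI, e2]
  refine abs_integral_le_integral_abs.trans ((integral_mono
    ((integrable_const _).sub (integrable_of_bdd mH bH)).abs
    ((integrable_const (4 * P * (3 * ω + 2 * δ / (c * a ^ 2)))).add i1) fun y => ?_).trans ?_)
  · simp only [Pi.add_apply, Pi.sub_apply]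
    by_cases hy : y ∈ Z
    · rw [indicator_of_mem hy]
      have := (abs_nonneg _).trans (ho x hx)
      linarith [abs_sub (H x) (H y), bH x, bH y]
    · rw [indicator_of_notMem hy, add_zero]
      exact ho y (by_contra fun h => hy (subset_toMeasurable _ _ h))
  · rw [integral_add' (integrable_const _) i1,
      integral_indicator_const _ (measurableSet_toMeasurable _ _)]
    simp only [integral_const, probReal_univ, smul_eq_mul, one_mul]
    linarith

end Flow

end Pool.Agent.Lib.MP_1e1a64_an
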