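import Pool.Agent.Lib.MP_1e1a64_an.Tree
import Pool.Agent.Lib.MP_1e1a64_an.Build

/-!
From translation surfaces to developing data, and the final counting estimate.
-/

open Set Filter Topology MeasureTheory Metric
open scoped ENNReal NNReal

namespace Pool.Agent.Lib.MP_1e1a64_an

variable {X : Type*} [TopologicalSpace X] {T : TranslationSurface X} {F : Flow X}

namespace SaddleConnection

variable (γ : SaddleConnection T)

noncomputable def P (t : ℝ) : X := γ.path (projIcc 0 1 zero_le_one t)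

noncomputable def e : X × ℂ := (γ.P (1 / 2), (1 / 2 : ℝ) • γ.hol)

theorem continuous_P : Continuous γ.P := γ.path.continuous.comp continuous_projIcc

theorem P_reg {t : ℝ} (ht : t ∈ Ioo (0 : ℝ) 1) : γ.P t ∉ T.sing := by
  refine γ.not_mem _ ?_ ?_
  · rw [projIcc_of_mem _ (Ioo_subset_Icc_self ht)]
    exact fun h => ht.1.ne' (congrArg Subtype.val h)
  · rw [projIcc_of_mem _ (Ioo_subset_Icc_self ht)]
    exact fun h => ht.2.ne (congrArg Subtype.val h)

theorem P_zero : γ.P 0 ∈ T.sing := by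
  simpa [P] using γ.start_mem

theorem P_one : γ.P 1 ∈ T.sing := by
  simpa [P] using γ.end_mem

variable (hs : F.sing = T.sing) (hd : ∀ x, T.ODev (F.go x) (F.D x))
include hs hd

theorem P_loc {t : ℝ} (ht : t ∈ Ioo (0 : ℝ) 1) :
    ∀ᶠ s in 𝓝 t, γ.P s = F.go (γ.P t) ((s - t) • γ.hol) := by
  obtain ⟨c, hc, hx⟩ := T.cover _ (γ.P_reg ht)
  have d := hd _ 0 (F.zero_mem _ (hs ▸ γ.P_reg ht))
  have hsm : Tendsto (fun s : ℝ => (s - t) • γ.hol) (𝓝 t) (𝓝 0) := by
    have : Continuous (fun s : ℝ => (s - t) • γ.hol) := by fun_prop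
    simpa using this.tendsto t
  have hx' : F.go (γ.P t) 0 ∈ c.source := by rwa [F.go_zero]
  filter_upwards [(continuous_projIcc.tendsto t).eventually (γ.straight c hc _ hx),
    hsm.eventually (d.2.2 c hc hx'), hsm.eventually (d.1.eventually (c.open_source.mem_nhds hx')),
    (γ.continuous_P.tendsto t).eventually (c.open_source.mem_nhds hx),
    isOpen_Ioo.mem_nhds ht] with s h1 h2 h3 h4 h5
  refine c.injOn h4 h3 ?_
  rw [h2, F.go_zero, sub_zero]
  rw [projIcc_of_mem _ (Ioo_subset_Icc_self ht), projIcc_of_mem _ (Ioo_subset_Icc_self h5)] at h1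
  simpa only [P, projIcc_of_mem _ (Ioo_subset_Icc_self ht),
    projIcc_of_mem _ (Ioo_subset_Icc_self h5)] using h1

theorem seg {a b : ℝ} (ha : a ∈ Ioo (0 : ℝ) 1) (hb : b ∈ Ioo (0 : ℝ) 1) :
    (b - a) • γ.hol ∈ F.D (γ.P a) ∧ F.go (γ.P a) ((b - a) • γ.hol) = γ.P b := by
  have key : ∀ a ∈ Ioo (0 : ℝ) 1, ∀ b ∈ Ioo (0 : ℝ) 1, a ≤ b →
      (b - a) • γ.hol ∈ F.D (γ.P a) ∧ F.go (γ.P a) ((b - a) • γ.hol) = γ.P b := by
    intro a ha b hb hab
    have hI : ∀ t ∈ Icc a b, t ∈ Ioo (0 : ℝ) 1 := fun t ht =>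
      ⟨ha.1.trans_le ht.1, ht.2.trans_lt hb.2⟩
    exact F.path hab (fun t ht => hs ▸ γ.P_reg (hI t ht))
      (fun t ht => (γ.P_loc hs hd (hI t ht)).filter_mono nhdsWithin_le_nhds) b ⟨hab, le_rfl⟩
  rcases le_total a b with h | h
  · exact key a ha b hb h
  · obtain ⟨h1, h2⟩ := key b hb a ha h
    have := F.back h1
    rwa [h2, ← neg_smul, neg_sub] at this

theorem pt_e {t : ℝ} (ht : t ∈ Ioo (-1 : ℝ) 1) :
    t • γ.e.2 ∈ F.D γ.e.1 ∧ F.pt γ.e t = γ.P (1 / 2 + t / 2) := by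
  have := γ.seg hs hd (a := 1 / 2) (b := 1 / 2 + t / 2) (by norm_num)
    ⟨by linarith [ht.1], by linarith [ht.2]⟩
  have e1 : (1 / 2 + t / 2 - 1 / 2) • γ.hol = t • γ.e.2 := by
    simp only [e, smul_smul]; congr 1; ring
  rw [e1] at this
  exact this

variable [T2Space X]

theorem hit {σ : ℝ} (hσ : |σ| = 1) (h : γ.P (1 / 2 + σ / 2) ∈ T.sing) :
    F.Hit γ.e.1 (σ • γ.e.2) := by
  have hI : ∀ t ∈ Ico (0 : ℝ) 1, t * σ ∈ Ioo (-1 : ℝ) 1 := fun t ht => by
    have : |t * σ| < 1 := by rw [abs_mul, hσ, abs_of_nonneg ht.1]; linarith [ht.2]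
    exact abs_lt.1 this
  refine ⟨fun t ht => by rw [smul_smul]; exact (γ.pt_e hs hd (hI t ht)).1, fun hD => ?_⟩
  have h1 : Tendsto (fun t : ℝ => F.go γ.e.1 (t • σ • γ.e.2)) (𝓝[<] 1)
      (𝓝 (F.go γ.e.1 (σ • γ.e.2))) := by
    have : Continuous (fun t : ℝ => t • σ • γ.e.2) := by fun_prop
    have h2 := this.tendsto 1
    rw [one_smul] at h2
    exact ((F.contAt hD).tendsto.comp h2).mono_left nhdsWithin_le_nhds
  have h2 : Tendsto (fun t : ℝ => γ.P (1 / 2 + t * σ / 2)) (𝓝[<] 1)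
      (𝓝 (γ.P (1 / 2 + σ / 2))) := by
    have : Continuous (fun t : ℝ => γ.P (1 / 2 + t * σ / 2)) := γ.continuous_P.comp (by fun_prop)
    have h2 := this.tendsto 1
    rw [one_mul] at h2
    exact h2.mono_left nhdsWithin_le_nhds
  have h3 := tendsto_nhds_unique_of_eventuallyEq h1 h2 (by
    filter_upwards [Ico_mem_nhdsLT (zero_lt_one' ℝ)] with t ht
    rw [smul_smul]; exact (γ.pt_e hs hd (hI t ht)).2)
  exact F.reg _ _ hD (by rw [h3, hs]; exact h)

theorem isSC_e : F.IsSC γ.e := by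
  constructor
  · simpa using γ.hit hs hd (σ := 1) (by simp) (by norm_num [γ.P_one])
  · simpa using γ.hit hs hd (σ := -1) (by simp) (by norm_num [γ.P_zero])

theorem e_inj : Function.Injective (e : SaddleConnection T → X × ℂ) := by
  intro γ γ' h
  have h1 : γ.hol = γ'.hol :=
    smul_right_injective ℂ (show (1 / 2 : ℝ) ≠ 0 by norm_num) (congrArg Prod.snd h)
  have h2 : EqOn γ.P γ'.P (Ioo 0 1) := fun s hs' => by
    have hI : 2 * s - 1 ∈ Ioo (-1 : ℝ) 1 := ⟨by linarith [hs'.1], by linarith [hs'.2]⟩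
    have a := (γ.pt_e hs hd hI).2
    have b := (γ'.pt_e hs hd hI).2
    rw [show 1 / 2 + (2 * s - 1) / 2 = s by ring] at a b
    rw [← a, ← b, h]
  have h3 := h2.closure γ.continuous_P γ'.continuous_P
  rw [closure_Ioo zero_ne_one] at h3
  have h4 : γ.path = γ'.path := by
    ext t
    have := h3 t.2
    simpa only [P, projIcc_val] using this
  cases γ; cases γ'
  simp only at h1 h4
  subst h1 h4
  rfl

omit [T2Space X] in
theorem avg_e [MeasurableSpace X] [BorelSpace X] {f : X → ℝ} (hf : Continuous f) :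
    F.avg f γ.e = ∫ x, f x ∂γ.unif := by
  have h1 : ∫ t in (-1 : ℝ)..1, f (F.pt γ.e t) = ∫ t in (-1 : ℝ)..1, f (γ.P (1 / 2 + t / 2)) := by
    rw [intervalIntegral.integral_of_le (by norm_num), intervalIntegral.integral_of_le (by norm_num),
      integral_Ioc_eq_integral_Ioo, integral_Ioc_eq_integral_Ioo]
    exact setIntegral_congr_fun measurableSet_Ioo fun t ht => by
      simp only [(γ.pt_e hs hd ht).2]
  have h2 := intervalIntegral.integral_comp_add_div (a := -1) (b := 1) (fun s => f (γ.P s))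
    (c := 2) two_ne_zero (1 / 2)
  rw [Flow.avg, h1, h2, unif, integral_map γ.path.continuous.aemeasurable hf.aestronglyMeasurable]
  have h3 := integral_subtype (s := Icc (0 : ℝ) 1) measurableSet_Icc (fun s => f (γ.P s))
  simp only [P, projIcc_val] at h3
  norm_num
  rw [intervalIntegral.integral_of_le zero_le_one, ← integral_Icc_eq_integral_Ioc]
  exact h3.symm

end SaddleConnection

variable [T2Space X] [MeasurableSpace X] [BorelSpace X] {μ : Measure X}

theorem isArea (hs : F.sing = T.sing) (hd : ∀ x, T.ODev (F.go x) (F.D x))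
    (h : IsNormalisedArea T μ) : ∃ c, F.IsArea μ c := by
  obtain ⟨-, h0, a, ha⟩ := h
  refine ⟨a, hs ▸ h0, fun x hx => ?_⟩
  obtain ⟨c, hc, hxc⟩ := T.cover x (hs ▸ hx)
  have h0D := F.zero_mem x hx
  have d := hd x 0 h0D
  have hx' : F.go x 0 ∈ c.source := by rwa [F.go_zero]
  refine ⟨_, (d.2.2 c hc hx').and ((d.1.eventually (c.open_source.mem_nhds hx')).and
    (F.D_nhds h0D)), fun A hA hm => ?_⟩
  have hi : InjOn (F.go x) A := fun u hu v hv huv => by
    have a := (hA hu).1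
    rw [huv, (hA hv).1] at a
    simpa using a.symm
  rw [ha c hc _ (image_subset_iff.2 fun u hu => (hA hu).2.1)
    (Flow.measurableSet_image (fun u hu => (hA hu).2.2) hm hi), image_image,
    image_congr (g := fun w => c (F.go x 0) + w) (fun u hu => by simpa using (hA hu).1),
    image_add_left, measure_preimage_add]

variable [CompactSpace X] [SecondCountableTopology X] [IsProbabilityMeasure μ] {c : ℝ≥0}

theorem Flow.rot_count (h : F.IsArea μ c) {f : X → ℝ} (hf : Continuous f) (hb : ∀ x, |f x| ≤ 1)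
    {ε1 η : ℝ} (h1 : 0 < ε1) (hη : 0 < η) (a : Circle) :
    ∃ C : ℝ, ∀ R : ℝ, 1 ≤ R → ∀ Γ : Finset (X × ℂ), (∀ e ∈ Γ, F.IsSC e ∧
      |((a : ℂ) * e.2).re| ≤ ((a : ℂ) * e.2).im ∧
      ‖e.2‖ ≤ R ∧ ε1 < |F.avg f e - ∫ y, f y ∂μ|) → (Γ.card : ℝ) ≤ C * R ^ (1 + η) := by
  classical
  set g := (rotation a).toContinuousLinearEquiv with hg
  have hA := h.lin g (fun A => by
    have := MeasurePreserving.measure_preimage_equiv
      (f := (rotation a).toHomeomorph.toMeasurableEquiv) (rotation a).measurePreserving A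
    rw [← this, ContinuousLinearEquiv.image_symm_eq_preimage]
    rfl)
  obtain ⟨C, hC⟩ := Flow.sector_count hA hf hb h1 hη
  refine ⟨C, fun R hR Γ hΓ => ?_⟩
  have hi : Function.Injective (fun e : X × ℂ => (e.1, g e.2)) := fun u v huv =>
    Prod.ext (congrArg Prod.fst huv :) (g.injective (congrArg Prod.snd huv))
  rw [← Finset.card_image_of_injective Γ hi]
  refine hC R hR _ fun e he => ?_
  obtain ⟨u, hu, rfl⟩ := Finset.mem_image.1 he
  obtain ⟨a1, a2, a3, a4⟩ := hΓ u hu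
  rw [Flow.isSC_lin, Flow.avg_lin]
  simp only [ContinuousLinearEquiv.symm_apply_apply]
  refine ⟨a1, a2, ?_, a4⟩
  exact ((rotation a).norm_map u.2).trans_le a3

theorem Flow.count (h : F.IsArea μ c) {f : X → ℝ} (hf : Continuous f) (hb : ∀ x, |f x| ≤ 1)
    {ε1 η : ℝ} (h1 : 0 < ε1) (hη : 0 < η) :
    ∃ C : ℝ, ∀ R : ℝ, 1 ≤ R → ∀ Γ : Finset (X × ℂ), (∀ e ∈ Γ, F.IsSC e ∧
      ‖e.2‖ ≤ R ∧ ε1 < |F.avg f e - ∫ y, f y ∂μ|) → (Γ.card : ℝ) ≤ C * R ^ (1 + η) := by
  classical
  choose C hC using Flow.rot_count h hf hb h1 hη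
  let i : Circle := ⟨Complex.I, by simp [Submonoid.unitSphere]⟩
  have hi : (i : ℂ) = Complex.I := rfl
  refine ⟨∑ k ∈ Finset.range 4, C (i ^ k), fun R hR Γ hΓ => ?_⟩
  let G : ℕ → Finset (X × ℂ) := fun k => Γ.filter fun e =>
    |(((i ^ k : Circle) : ℂ) * e.2).re| ≤ (((i ^ k : Circle) : ℂ) * e.2).im
  have hsub : Γ ⊆ (Finset.range 4).biUnion G := fun e he => by
    simp only [Finset.mem_biUnion, Finset.mem_range, G, Finset.mem_filter, he, true_and,
      Circle.coe_pow, hi]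
    by_contra hn
    push Not at hn
    have a0 := hn 0 (by norm_num)
    have a1 := hn 1 (by norm_num)
    have a2 := hn 2 (by norm_num)
    have a3 := hn 3 (by norm_num)
    simp [pow_succ] at a0 a1 a2 a3
    rcases abs_cases e.2.re with ⟨b, -⟩ | ⟨b, -⟩ <;> rcases abs_cases e.2.im with ⟨d, -⟩ | ⟨d, -⟩ <;>
      linarith
  calc (Γ.card : ℝ) ≤ (∑ k ∈ Finset.range 4, (G k).card : ℕ) := by
        exact_mod_cast (Finset.card_le_card hsub).trans Finset.card_biUnion_le
    _ ≤ _ := by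
        rw [Nat.cast_sum, Finset.sum_mul]
        refine Finset.sum_le_sum fun k _ => hC _ R hR _ fun e he => ?_
        obtain ⟨he1, he2⟩ := Finset.mem_filter.1 he
        exact ⟨(hΓ e he1).1, he2, (hΓ e he1).2⟩

omit [SecondCountableTopology X] [IsProbabilityMeasure μ] in
/-- few saddle connections are far from equidistributed -/
theorem bad_count [PreconnectedSpace X] (h : IsNormalisedArea T μ) {f : X → ℝ} (hf : Continuous f)
    (hb : ∀ x, |f x| ≤ 1) {ε1 η : ℝ} (h1 : 0 < ε1) (hη : 0 < η) :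
    ∃ C : ℝ, ∀ R : ℝ, 1 ≤ R → ∀ Γ : Finset (SaddleConnection T), (∀ γ ∈ Γ, γ.length ≤ R ∧
      ε1 < |∫ y, f y ∂γ.unif - ∫ y, f y ∂μ|) → (Γ.card : ℝ) ≤ C * R ^ (1 + η) := by
  classical
  obtain ⟨F, hs, hd⟩ := T.exists_flow
  obtain ⟨c, hA⟩ := isArea hs hd h
  have := h.1
  have := T.secondCountable
  obtain ⟨C, hC⟩ := Flow.count hA hf hb h1 hη
  refine ⟨C, fun R hR Γ hΓ => ?_⟩
  rw [← Finset.card_image_of_injective Γ (SaddleConnection.e_inj hs hd)]
  refine hC R hR _ fun e he => ?_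
  obtain ⟨γ, hγ, rfl⟩ := Finset.mem_image.1 he
  refine ⟨γ.isSC_e hs hd, ?_, by rw [γ.avg_e hs hd hf]; exact (hΓ γ hγ).2⟩
  have := (hΓ γ hγ).1
  simp only [SaddleConnection.length] at this
  simp only [SaddleConnection.e, norm_smul]
  norm_num
  linarith [norm_nonneg γ.hol]

omit [SecondCountableTopology X] [IsProbabilityMeasure μ] [T2Space X] in
theorem integral_avg {S : Set (SaddleConnection T)} {R : ℝ} (hfin : {γ ∈ S | γ.length ≤ R}.Finite)
    {f : X → ℝ} (hf : Continuous f) :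
    ∫ y, f y ∂avgMeasure S R =
      (∑ γ ∈ hfin.toFinset, ∫ y, f y ∂γ.unif) / (hfin.toFinset.card : ℝ) := by
  have := hfin.fintype
  have hint : ∀ γ : SaddleConnection T, Integrable f γ.unif := fun γ => by
    have : IsProbabilityMeasure γ.unif :=
      Measure.isProbabilityMeasure_map γ.path.continuous.aemeasurable
    exact hf.integrable_of_hasCompactSupport (HasCompactSupport.of_compactSpace f)
  rw [avgMeasure, integral_smul_measure, Measure.sum_fintype,
    integral_finsetSum_measure fun γ _ => hint _, countUpTo, ncard_eq_toFinset_card _ hfin,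
    Finset.sum_subtype (F := this) hfin.toFinset (p := fun γ => γ ∈ {γ ∈ S | γ.length ≤ R})
      (by simp), ENNReal.toReal_inv, ENNReal.toReal_natCast, smul_eq_mul, div_eq_inv_mul]

omit [SecondCountableTopology X] [IsProbabilityMeasure μ] in
theorem equidist_bdd [PreconnectedSpace X] (h : IsNormalisedArea T μ) {S : Set (SaddleConnection T)}
    {a : ℝ} (ha : 1 < a) (hS : ∀ᶠ R : ℝ in atTop, R ^ a ≤ countUpTo S R) {f : X → ℝ}
    (hf : Continuous f) (hb : ∀ x, |f x| ≤ 1) :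
    Tendsto (fun R => ∫ y, f y ∂avgMeasure S R) atTop (𝓝 (∫ y, f y ∂μ)) := by
  classical
  have := h.1
  rw [Metric.tendsto_nhds]
  intro ε hε
  obtain ⟨C, hC⟩ := bad_count h hf hb (ε1 := ε / 2) (η := (a - 1) / 2) (by linarith) (by linarith)
  have hlim : Tendsto (fun R : ℝ => 2 * C * R ^ (-((a - 1) / 2))) atTop (𝓝 0) := by
    simpa using (tendsto_rpow_neg_atTop (show 0 < (a - 1) / 2 by linarith)).const_mul (2 * C)
  filter_upwards [hS, eventually_ge_atTop 1, hlim.eventually (gt_mem_nhds (half_pos hε))]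
    with R h1 hR h2
  have hR0 : 0 < R := by linarith
  have hRa := Real.rpow_pos_of_pos hR0 a
  have hfin : {γ ∈ S | γ.length ≤ R}.Finite := finite_of_ncard_ne_zero fun h0 => by
    rw [countUpTo, h0] at h1
    simp at h1
    linarith
  rw [countUpTo, ncard_eq_toFinset_card _ hfin] at h1
  rw [integral_avg hfin hf, Real.dist_eq]
  set Γ := hfin.toFinset with hΓ
  set m := ∫ y, f y ∂μ with hm
  have hN : (0 : ℝ) < Γ.card := hRa.trans_le h1
  set B := Γ.filter fun γ => ε / 2 < |∫ y, f y ∂γ.unif - m| with hB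
  have hBc := hC R hR B fun γ hγ => by
    obtain ⟨a1, a2⟩ := Finset.mem_filter.1 hγ
    exact ⟨((hfin.mem_toFinset).1 a1).2, a2⟩
  have hI : ∀ (ν : Measure X) [IsProbabilityMeasure ν], |∫ y, f y ∂ν| ≤ 1 := fun ν _ => by
    simpa using norm_integral_le_of_norm_le_const (μ := ν) (f := f) (C := 1)
      (Eventually.of_forall hb)
  have hsum : |∑ γ ∈ Γ, (∫ y, f y ∂γ.unif - m)| ≤ Γ.card * (ε / 2) + B.card * 2 := by
    refine (Finset.abs_sum_le_sum_abs _ _).trans ?_
    have : ∀ γ ∈ Γ, |∫ y, f y ∂γ.unif - m| ≤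
        ε / 2 + if ε / 2 < |∫ y, f y ∂γ.unif - m| then 2 else 0 := fun γ _ => by
      split_ifs with hc
      · have : IsProbabilityMeasure γ.unif :=
          Measure.isProbabilityMeasure_map γ.path.continuous.aemeasurable
        have := abs_sub (∫ y, f y ∂γ.unif) m
        linarith [hI γ.unif, hI μ]
      · linarith
    refine (Finset.sum_le_sum this).trans (le_of_eq ?_)
    rw [Finset.sum_add_distrib, ← Finset.sum_filter]
    simp [hB]
  have e1 : (∑ γ ∈ Γ, ∫ y, f y ∂γ.unif) / (Γ.card : ℝ) - m =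
      (∑ γ ∈ Γ, (∫ y, f y ∂γ.unif - m)) / Γ.card := by
    rw [Finset.sum_sub_distrib, Finset.sum_const, nsmul_eq_mul]
    field_simp
  rw [e1, abs_div, abs_of_pos hN, div_lt_iff₀ hN]
  have e2 : R ^ (1 + (a - 1) / 2) = R ^ (-((a - 1) / 2)) * R ^ a := by
    rw [← Real.rpow_add hR0]; congr 1; ring
  rw [e2] at hBc
  have : (B.card : ℝ) * 2 < ε / 2 * Γ.card := by
    calc (B.card : ℝ) * 2 ≤ 2 * C * R ^ (-((a - 1) / 2)) * R ^ a := by linarith
      _ < ε / 2 * R ^ a := by gcongr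
      _ ≤ _ := by gcongr
  linarith

omit [SecondCountableTopology X] [IsProbabilityMeasure μ] in
theorem equidist [PreconnectedSpace X] (h : IsNormalisedArea T μ) {S : Set (SaddleConnection T)}
    {a : ℝ} (ha : 1 < a) (hS : ∀ᶠ R : ℝ in atTop, R ^ a ≤ countUpTo S R) {f : X → ℝ}
    (hf : Continuous f) :
    Tendsto (fun R => ∫ y, f y ∂avgMeasure S R) atTop (𝓝 (∫ y, f y ∂μ)) := by
  obtain ⟨M, hM⟩ := isCompact_univ.exists_bound_of_continuousOn hf.continuousOn
  have hK : 0 < |M| + 1 := by positivity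
  have := (equidist_bdd h ha hS (f := fun x => f x / (|M| + 1)) (hf.div_const _) fun x => by
    rw [abs_div, abs_of_pos hK, div_le_one hK]
    have := hM x trivial
    rw [Real.norm_eq_abs] at this
    linarith [le_abs_self M]).mul_const (|M| + 1)
  simpa only [integral_div, div_mul_cancel₀ _ hK.ne'] using this

end Pool.Agent.Lib.MP_1e1a64_an
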