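import Pool.Agent.Lib.MP_1e1a64_an.Cx

/-!
The area measure and the straight line flow.
-/

open Set Filter Topology MeasureTheory Metric Function
open scoped ENNReal NNReal

namespace Pool.Agent.Lib.MP_1e1a64_an

theorem exists_disjoint_cover {α : Type*} [TopologicalSpace α] [SecondCountableTopology α]
    [MeasurableSpace α] [OpensMeasurableSpace α] (s : Set α) (P : Set α → Prop) (h0 : P ∅)
    (hP : ∀ x ∈ s, ∃ V ∈ 𝓝 x, P V) (hmono : ∀ V W, W ⊆ V → P V → P W) :
    ∃ N : ℕ → Set α, (∀ n, MeasurableSet (N n)) ∧ Pairwise (Disjoint on N) ∧ s ⊆ ⋃ n, N n ∧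
      ∀ n, P (N n) := by
  choose! V hV hPV using hP
  obtain ⟨t, hts, htc, hcov⟩ := TopologicalSpace.countable_cover_nhdsWithin
    (f := fun x => interior (V x)) (s := s)
    (fun x hx => mem_nhdsWithin_of_mem_nhds (interior_mem_nhds.2 (hV x hx)))
  rcases t.eq_empty_or_nonempty with rfl | hne
  · exact ⟨fun _ => ∅, fun _ => MeasurableSet.empty, fun _ _ _ => by simp [Function.onFun],
      by simpa using hcov, fun _ => h0⟩
  obtain ⟨f, rfl⟩ := htc.exists_eq_range hne
  refine ⟨disjointed fun n => interior (V (f n)),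
    MeasurableSet.disjointed fun n => isOpen_interior.measurableSet, disjoint_disjointed _, ?_,
    fun n => hmono _ _ ((disjointed_subset _ n).trans interior_subset) (hPV _ (hts ⟨n, rfl⟩))⟩
  rw [iUnion_disjointed]
  simpa using hcov

theorem measure_eq_tsum_inter {α : Type*} [MeasurableSpace α] (μ : Measure α) {N : ℕ → Set α}
    (hm : ∀ n, MeasurableSet (N n)) (hd : Pairwise (Disjoint on N)) {A : Set α}
    (hA : MeasurableSet A) (hs : A ⊆ ⋃ n, N n) : μ A = ∑' n, μ (A ∩ N n) := by
  rw [← measure_iUnion (fun i j hij => (hd hij).mono inter_subset_right inter_subset_right)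
    (fun n => hA.inter (hm n)), ← inter_iUnion, inter_eq_self_of_subset_left hs]

theorem volume_line {u : ℂ} (hu : u ≠ 0) : volume {w | wedge u w = 0} = 0 := by
  let L : ℂ →ₗ[ℝ] ℝ := ⟨⟨wedge u, wedge_add_right u⟩, fun c a => wedge_smul_right u a c⟩
  refine Measure.addHaar_submodule volume (LinearMap.ker L) fun h => ?_
  have : Complex.I * u ∈ LinearMap.ker L := h ▸ Submodule.mem_top
  have h2 : wedge u (Complex.I * u) = Complex.normSq u := by simp [wedge, Complex.normSq_apply]
  exact (Complex.normSq_pos.2 hu).ne' (h2 ▸ this)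

theorem measurableSet_line (u : ℂ) : MeasurableSet {w | wedge u w = 0} :=
  (isClosed_eq (continuous_wedge u) continuous_const).measurableSet

namespace Flow

variable {X : Type*} [TopologicalSpace X] {F : Flow X} [MeasurableSpace X]

variable (F) in
/-- `μ` is locally `c` times the flat area -/
structure IsArea (μ : Measure X) (c : ℝ≥0) : Prop where
  sing : μ F.sing = 0
  loc : ∀ x, x ∉ F.sing → ∃ N ∈ 𝓝 (0 : ℂ), ∀ A ⊆ N, MeasurableSet A →
    μ (F.go x '' A) = c * volume A

variable {μ : Measure X} {c : ℝ≥0}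

theorem IsArea.loc' (h : F.IsArea μ c) {x : X} {z : ℂ} (hz : z ∈ F.D x) :
    ∃ N ∈ 𝓝 z, ∀ A ⊆ N, MeasurableSet A → μ (F.go x '' A) = c * volume A := by
  obtain ⟨N, hN, h1⟩ := h.loc _ (F.reg x z hz)
  have h2 : Tendsto (fun w => w - z) (𝓝 z) (𝓝 0) := by
    have : Continuous (fun w : ℂ => w - z) := by fun_prop
    simpa using this.tendsto z
  refine ⟨_, h2.eventually ((F.ev_coc hz).and hN), fun A hA hm => ?_⟩
  have e1 : F.go x '' A = F.go (F.go x z) '' ((fun w => z + w) ⁻¹' A) := by
    ext y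
    constructor
    · rintro ⟨w, hw, rfl⟩
      exact ⟨w - z, by simpa using hw, by simpa using (hA hw).1.2.2⟩
    · rintro ⟨w, hw, rfl⟩
      exact ⟨z + w, hw, by simpa using (hA hw).1.2.2.symm⟩
  rw [e1, h1 _ (fun w hw => by
    have : z + w - z ∈ N := (hA hw).2
    simpa using this) (measurable_const_add z hm),
    measure_preimage_add]

theorem IsArea.cover (h : F.IsArea μ c) (x : X) :
    ∃ N : ℕ → Set ℂ, (∀ n, MeasurableSet (N n)) ∧ Pairwise (Disjoint on N) ∧ F.D x ⊆ ⋃ n, N n ∧
      ∀ n, ∀ A ⊆ N n, MeasurableSet A → μ (F.go x '' A) = c * volume A :=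
  exists_disjoint_cover (F.D x)
    (fun V => ∀ A ⊆ V, MeasurableSet A → μ (F.go x '' A) = c * volume A)
    (fun A hA _ => by simp [subset_empty_iff.1 hA]) (fun _ hz => h.loc' hz)
    (fun _ _ h1 h2 A hA => h2 A (hA.trans h1))

theorem IsArea.image_le (h : F.IsArea μ c) {x : X} {A : Set ℂ} (hD : A ⊆ F.D x)
    (hm : MeasurableSet A) : μ (F.go x '' A) ≤ c * volume A := by
  obtain ⟨N, h1, h2, h3, h4⟩ := h.cover x
  rw [measure_eq_tsum_inter volume h1 h2 hm (hD.trans h3), ← ENNReal.tsum_mul_left]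
  have : F.go x '' A = ⋃ n, F.go x '' (A ∩ N n) := by
    rw [← image_iUnion, ← inter_iUnion, inter_eq_self_of_subset_left (hD.trans h3)]
  rw [this]
  refine (measure_iUnion_le _).trans (le_of_eq (tsum_congr fun n => ?_))
  exact h4 n _ inter_subset_right (hm.inter (h1 n))

theorem IsArea.image_inter_le (h : F.IsArea μ c) (x : X) {A : Set ℂ} (hm : MeasurableSet A) :
    μ (F.go x '' (A ∩ F.D x)) ≤ c * volume A :=
  (h.image_le inter_subset_right (hm.inter (F.isOpen_D x).measurableSet)).trans
    (by gcongr; exact inter_subset_left)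

theorem IsArea.arc_null (h : F.IsArea μ c) {e : X × ℂ} (he : F.IsSC e) : μ (F.arc e) = 0 := by
  have := h.image_inter_le e.1 (measurableSet_line e.2)
  rw [volume_line he.ne, mul_zero, nonpos_iff_eq_zero] at this
  refine measure_mono_null ?_ this
  rintro _ ⟨t, ht, rfl⟩
  exact ⟨_, ⟨by simp only [mem_ofPred_eq, wedge_smul_right, wedge_self, mul_zero], he.mem ht⟩, rfl⟩

theorem IsArea.lin (h : F.IsArea μ c) (g : ℂ ≃L[ℝ] ℂ)
    (hg : ∀ A, volume (g.symm '' A) = volume A) : (F.lin g).IsArea μ c := by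
  refine ⟨h.sing, fun x hx => ?_⟩
  obtain ⟨N, hN, h1⟩ := h.loc x hx
  refine ⟨g.symm ⁻¹' N, g.symm.continuous.continuousAt.preimage_mem_nhds (by simpa using hN),
    fun A hA hm => ?_⟩
  rw [← hg, ← h1 _ (image_subset_iff.2 hA)
    (g.symm.toHomeomorph.measurableEmbedding.measurableSet_image.2 hm), image_image]
  rfl

variable [T2Space X] [BorelSpace X]

omit [T2Space X] in
theorem measurable_go (x : X) : Measurable (F.go x) := by
  classical
  have := (F.cont x).measurable_piecewise (g := fun _ => x) continuousOn_const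
    (F.isOpen_D x).measurableSet
  convert this using 1
  ext z
  by_cases h : z ∈ F.D x <;> simp [h, F.go_out]

theorem measurableSet_image {x : X} {A : Set ℂ} (hD : A ⊆ F.D x) (hm : MeasurableSet A)
    (hi : InjOn (F.go x) A) : MeasurableSet (F.go x '' A) :=
  hm.image_of_continuousOn_injOn ((F.cont x).mono hD) hi

theorem IsArea.image_eq (h : F.IsArea μ c) {x : X} {A : Set ℂ} (hD : A ⊆ F.D x)
    (hm : MeasurableSet A) (hi : InjOn (F.go x) A) : μ (F.go x '' A) = c * volume A := by
  obtain ⟨N, h1, h2, h3, h4⟩ := h.cover x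
  rw [measure_eq_tsum_inter volume h1 h2 hm (hD.trans h3), ← ENNReal.tsum_mul_left]
  have : F.go x '' A = ⋃ n, F.go x '' (A ∩ N n) := by
    rw [← image_iUnion, ← inter_iUnion, inter_eq_self_of_subset_left (hD.trans h3)]
  rw [this, measure_iUnion]
  · exact tsum_congr fun n => h4 n _ inter_subset_right (hm.inter (h1 n))
  · intro i j hij
    exact disjoint_image_image fun a ha b hb hab => Set.disjoint_left.1 (h2 hij) ha.2
      (hi ha.1 hb.1 hab ▸ hb.2)
  · exact fun n => measurableSet_image (inter_subset_left.trans hD) (hm.inter (h1 n))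
      (hi.mono inter_subset_left)

variable (F) in
/-- one step of the straight line flow -/
def Θ (v : ℂ) (x : X) : X := F.go x v

omit [MeasurableSpace X] [T2Space X] [BorelSpace X] in
theorem isOpen_O (v : ℂ) : IsOpen {x | v ∈ F.D x} :=
  F.isOpen_joint.preimage (by fun_prop : Continuous fun x : X => (x, v))

omit [T2Space X] in
theorem measurable_Θ (v : ℂ) : Measurable (F.Θ v) := by
  classical
  have h1 : ContinuousOn (F.Θ v) {x | v ∈ F.D x} := fun x hx =>
    (((F.joint hx).2).comp ((by fun_prop : Continuous fun x : X => (x, v)).tendsto x)).mono_left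
      nhdsWithin_le_nhds
  have := h1.measurable_piecewise (g := id) continuousOn_id (isOpen_O v).measurableSet
  convert this using 1
  ext x
  by_cases h : v ∈ F.D x <;> simp [h, F.go_out, Θ]

variable [SecondCountableTopology X]

omit [T2Space X] [BorelSpace X] in
theorem IsArea.pos (h : F.IsArea μ c) [IsProbabilityMeasure μ] : 0 < c := by
  by_contra hc
  have hc : c = 0 := by simpa using hc
  have h1 : μ (F.sing : Set X)ᶜ = 0 := measure_null_of_locally_null _ fun x hx => by
    obtain ⟨N, hN, h1⟩ := h.loc x hx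
    refine ⟨F.go x '' interior N, mem_nhdsWithin_of_mem_nhds ?_, ?_⟩
    · rw [← F.map_nhds x hx]; exact image_mem_map (interior_mem_nhds.2 hN)
    · rw [h1 _ interior_subset isOpen_interior.measurableSet, hc]; simp
  have := measure_union_null h.sing h1
  simp at this

omit [T2Space X] in
theorem IsArea.Θ_image_le (h : F.IsArea μ c) (v : ℂ) {B : Set X} (hB : B ⊆ {x | v ∈ F.D x})
    (hm : MeasurableSet B) : μ (F.Θ v '' B) ≤ μ B := by
  obtain ⟨N, h1, h2, h3, h4⟩ := exists_disjoint_cover {x | v ∈ F.D x}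
    (fun V => ∀ B ⊆ V, MeasurableSet B → μ (F.Θ v '' B) ≤ μ B)
    (fun A hA _ => by simp [subset_empty_iff.1 hA]) (fun x hx => by
      have hr := F.reg_of_mem hx
      obtain ⟨N, hN, h1⟩ := h.loc x hr
      have hK : IsCompact (segment ℝ 0 v) := by
        rw [segment_eq_image]; exact isCompact_Icc.image (by fun_prop)
      have hKD : segment ℝ 0 v ⊆ F.D x := by
        rw [segment_eq_image]
        rintro _ ⟨t, ht, rfl⟩
        simpa using F.star x v hx t ht
      obtain ⟨r, hr0, hth⟩ := hK.exists_thickening_subset_open (F.isOpen_D x) hKD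
      have c1 : ContinuousAt (fun w : ℂ => w + v) 0 := by fun_prop
      have hM : N ∩ (thickening r (segment ℝ 0 v) ∩ {w | w + v ∈ thickening r (segment ℝ 0 v)}) ∈
          𝓝 (0 : ℂ) := inter_mem hN (inter_mem
        (isOpen_thickening.mem_nhds (self_subset_thickening hr0 _ (left_mem_segment ℝ 0 v)))
        (c1.eventually (isOpen_thickening.mem_nhds
          (by simpa using self_subset_thickening hr0 _ (right_mem_segment ℝ 0 v)))))
      refine ⟨F.go x '' interior _, by
        rw [← F.map_nhds x hr]; exact image_mem_map (interior_mem_nhds.2 hM), fun B hB hm => ?_⟩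
      set M := interior (N ∩ (thickening r (segment ℝ 0 v) ∩
        {w | w + v ∈ thickening r (segment ℝ 0 v)})) with hMdef
      have hA : MeasurableSet (M ∩ F.go x ⁻¹' B) :=
        isOpen_interior.measurableSet.inter (measurable_go x hm)
      have e1 : B = F.go x '' (M ∩ F.go x ⁻¹' B) := by
        rw [image_inter_preimage, inter_eq_self_of_subset_right hB]
      have e2 : F.Θ v '' B ⊆ F.go x '' ((fun w => w + -v) ⁻¹' (M ∩ F.go x ⁻¹' B)) := by
        rintro _ ⟨y, hy, rfl⟩
        obtain ⟨w, hw, rfl⟩ := hB hy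
        have h5 := interior_subset hw
        refine ⟨w + v, by simpa using ⟨hw, hy⟩, ?_⟩
        simpa [Θ] using (F.coc ((convex_segment 0 v).thickening r) hth h5.2.1 h5.2.2).2.symm
      refine (measure_mono e2).trans ((h.image_le (fun w hw => hth ?_)
        (measurable_add_const (-v) hA)).trans ?_)
      · simpa using (interior_subset hw.1).2.2
      · rw [measure_preimage_add_right, ← h1 _ (fun w hw => (interior_subset hw.1).1) hA, ← e1])
    (fun _ _ h1 h2 A hA => h2 A (hA.trans h1))
  rw [measure_eq_tsum_inter μ h1 h2 hm (hB.trans h3)]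
  have : F.Θ v '' B = ⋃ n, F.Θ v '' (B ∩ N n) := by
    rw [← image_iUnion, ← inter_iUnion, inter_eq_self_of_subset_left (hB.trans h3)]
  rw [this]
  exact (measure_iUnion_le _).trans (ENNReal.tsum_le_tsum fun n =>
    h4 n _ inter_subset_right (hm.inter (h1 n)))

variable [CompactSpace X]

omit [BorelSpace X] [SecondCountableTopology X] in
theorem IsArea.O_null (h : F.IsArea μ c) (v : ℂ) : μ {x | v ∈ F.D x}ᶜ = 0 := by
  by_cases hv : v = 0
  · refine measure_mono_null (fun x hx => ?_) h.sing
    by_contra hr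
    exact hx (hv ▸ F.zero_mem x hr)
  choose G hG hG2 using fun k : ℕ => F.hit_finite ((1 / ((k : ℝ) + 1)) • v)
  have : μ ((F.sing : Set X) ∪ ⋃ k, ⋃ y ∈ G k, F.go y '' ({w | wedge v w = 0} ∩ F.D y)) = 0 := by
    refine measure_union_null h.sing (measure_iUnion_null fun k =>
      (measure_biUnion_null_iff (G k).countable_toSet).2 fun y _ => ?_)
    have := h.image_inter_le y (measurableSet_line v)
    rwa [volume_line hv, mul_zero, nonpos_iff_eq_zero] at this
  refine measure_mono_null (fun x hx => ?_) this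
  by_cases hr : x ∈ F.sing
  · exact Or.inl hr
  obtain ⟨a, ha, hh⟩ := exit hr hx
  obtain ⟨k, hk⟩ := exists_nat_one_div_lt ha.1
  have hk0 : 0 < 1 / ((k : ℝ) + 1) := by positivity
  have ht : (a - 1 / ((k : ℝ) + 1)) / a ∈ Ico (0 : ℝ) 1 :=
    ⟨div_nonneg (by linarith) ha.1.le, (div_lt_one ha.1).2 (by linarith)⟩
  have h1 := hh.shift ht
  rw [smul_smul (1 - _), show (1 - (a - 1 / ((k : ℝ) + 1)) / a) * a = 1 / ((k : ℝ) + 1) by
    have := ha.1.ne'; field_simp; ring] at h1
  have h2 := F.back (hh.1 _ ht)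
  refine Or.inr (mem_iUnion.2 ⟨k, mem_iUnion₂.2 ⟨_, hG2 k _ h1, _, ⟨?_, h2.1⟩, h2.2⟩⟩)
  simp only [mem_ofPred_eq, wedge_neg_right, wedge_smul_right, wedge_self, mul_zero, neg_zero]

theorem IsArea.measurePreserving (h : F.IsArea μ c) (v : ℂ) :
    MeasurePreserving (F.Θ v) μ μ := by
  refine ⟨measurable_Θ v, Measure.ext fun A hA => ?_⟩
  rw [Measure.map_apply (measurable_Θ v) hA]
  have key : ∀ (v : ℂ) (B : Set X), μ (B ∩ {x | v ∈ F.D x}) = μ B := fun v B =>
    measure_inter_conull (h.O_null v)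
  rw [← key v, ← key (-v) A]
  have m1 := (measurable_Θ (F := F) v hA).inter (isOpen_O (F := F) v).measurableSet
  have m2 := hA.inter (isOpen_O (F := F) (-v)).measurableSet
  apply le_antisymm
  · refine le_trans (measure_mono ?_) (h.Θ_image_le (-v) inter_subset_right m2)
    intro x hx
    exact ⟨F.Θ v x, ⟨hx.1, (F.back hx.2).1⟩, (F.back hx.2).2⟩
  · refine le_trans (measure_mono ?_) (h.Θ_image_le v inter_subset_right m1)
    intro x hx
    have := F.back hx.2
    rw [neg_neg] at this
    exact ⟨F.Θ (-v) x, ⟨by show F.go _ _ ∈ A; unfold Θ; rw [this.2]; exact hx.1, this.1⟩, this.2⟩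

end Flow

end Pool.Agent.Lib.MP_1e1a64_an
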