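import Pool.Agent.Lib.MP_1e1a64_an.Bound
import Pool.Agent.Lib.MP_1e1a64_an.Meas

/-!
A Margulis function built from complexes.
-/

open Set Filter Topology MeasureTheory Metric
open scoped ENNReal NNReal

namespace Pool.Agent.Lib.MP_1e1a64_an

/-- unimodular norms -/
structure Adm (N : Seminorm ℝ ℂ) : Prop where
  area : ∀ r, 0 ≤ r → volume {z | N z ≤ r} ≤ ENNReal.ofReal (4 * r ^ 2)
  low : ∃ q > 0, ∀ z, q * ‖z‖ ≤ N z
  cont : Continuous N

theorem Adm.pos {N : Seminorm ℝ ℂ} (h : Adm N) {z : ℂ} (hz : z ≠ 0) : 0 < N z := by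
  obtain ⟨q, hq, h1⟩ := h.low
  exact (mul_pos hq (norm_pos_iff.2 hz)).trans_le (h1 z)

namespace Flow

variable {X : Type*} [TopologicalSpace X] {F : Flow X} [T2Space X] [CompactSpace X]
  [MeasurableSpace X] {μ : Measure X} {c : ℝ≥0}

variable (F) in
noncomputable def ht : Set X → ℕ := F.exists_ht.choose

variable (F μ) in
def Fam (k : ℕ) : Set (Set X) :=
  {S | F.Cx S ∧ (F.Bd S).Nonempty ∧ F.ht S = k ∧ μ.real S ≤ 3 ^ k / 3 ^ (12 * F.K0 + 2)}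

variable (F μ) in
noncomputable def al (k : ℕ) (N : Seminorm ℝ ℂ) : ℝ :=
  sSup {x | ∃ S ∈ F.Fam μ k, ∃ ℓ > 0, F.Short S N ℓ ∧ x = 1 / ℓ}

theorem al_nonneg (k : ℕ) (N : Seminorm ℝ ℂ) : 0 ≤ F.al μ k N :=
  Real.sSup_nonneg (by rintro _ ⟨S, -, ℓ, h, -, rfl⟩; positivity)

theorem le_al {k : ℕ} {N : Seminorm ℝ ℂ} (hN : Adm N) {S : Set X} (hS : S ∈ F.Fam μ k) {ℓ : ℝ}
    (hℓ : 0 < ℓ) (h : F.Short S N ℓ) : 1 / ℓ ≤ F.al μ k N := by
  refine le_csSup ?_ ⟨S, hS, ℓ, hℓ, h, rfl⟩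
  obtain ⟨q, hq, h1⟩ := hN.low
  obtain ⟨ε, hε, hs⟩ := F.exists_sys
  refine ⟨1 / (q * ε), ?_⟩
  rintro _ ⟨S, ⟨-, ⟨e, he⟩, -⟩, ℓ, -, h, rfl⟩
  exact one_div_le_one_div_of_le (by positivity)
    ((mul_le_mul_of_nonneg_left (hs e he.1) hq.le).trans ((h1 _).trans (h e he)))

theorem al_le {k : ℕ} {N : Seminorm ℝ ℂ} {a : ℝ} (ha : 0 ≤ a)
    (h : ∀ S ∈ F.Fam μ k, ∃ e ∈ F.Bd S, 1 ≤ a * N e.2) : F.al μ k N ≤ a := by
  refine Real.sSup_le ?_ ha
  rintro _ ⟨S, hS, ℓ, hℓ, h1, rfl⟩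
  obtain ⟨e, he, h2⟩ := h S hS
  rw [div_le_iff₀ hℓ]
  exact h2.trans (mul_le_mul_of_nonneg_left (h1 e he) ha)

theorem al_lip {k : ℕ} {N N' : Seminorm ℝ ℂ} (hN : Adm N) {C : ℝ} (hC : 0 < C)
    (h : ∀ z, N z ≤ C * N' z) : F.al μ k N' ≤ C * F.al μ k N := by
  refine Real.sSup_le ?_ (mul_nonneg hC.le (al_nonneg k N))
  rintro _ ⟨S, hS, ℓ, hℓ, h1, rfl⟩
  have := le_al hN hS (ℓ := C * ℓ) (by positivity) fun e he =>
    (h _).trans (mul_le_mul_of_nonneg_left (h1 e he) hC.le)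
  rw [div_le_iff₀ (by positivity)] at this ⊢
  linarith

variable [IsProbabilityMeasure μ]

omit [T2Space X] [CompactSpace X] in
theorem bd_nonempty {S : Set X} (hS : F.Cx S) {x : X} (hx : x ∈ S) (hr : x ∉ F.sing)
    (hμ : μ.real S < 1) : (F.Bd S).Nonempty := by
  by_contra hn
  have hfr := hS.fr
  rw [Set.not_nonempty_iff_eq_empty.1 hn] at hfr
  have : S = univ := eq_univ_of_forall fun y => by
    by_cases hy : y ∈ F.sing
    · exact hS.sing hy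
    refine preconn_ind F.conn (P := fun y => y ∈ S) (fun y hy => ?_) hr hy hx
    have : y ∈ (frontier S)ᶜ := fun h => hy (by simpa using hfr h)
    rw [compl_frontier_eq_union_interior] at this
    rcases this with h | h
    · filter_upwards [mem_interior_iff_mem_nhds.1 h] with z hz _
        using iff_of_true hz (interior_subset h)
    · filter_upwards [mem_interior_iff_mem_nhds.1 h] with z hz _
        using iff_of_false hz (interior_subset h)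
  simp [this] at hμ

theorem sc_le_al (h : F.IsArea μ c) {N : Seminorm ℝ ℂ} (hN : Adm N) {e : X × ℂ} (he : F.IsSC e) :
    ∃ k ≤ 12 * F.K0, 1 / N e.2 ≤ F.al μ k N := by
  have hcx : F.IsCx (F.sing ∪ F.arc e) {e} := ⟨he.closed_arc, subset_union_left, finite_singleton e,
    by simpa using he, by simp, by simp [NC], by simpa using he.closed_arc.frontier_subset⟩
  have h0 : μ.real (F.sing ∪ F.arc e) = 0 := by
    rw [Measure.real, measure_union_null h.sing (h.arc_null he)]; simp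
  have hI : (0 : ℝ) ∈ Ioo (-1 : ℝ) 1 := ⟨by norm_num, by norm_num⟩
  have hne := bd_nonempty (μ := μ) hcx.cx (Or.inr (F.pt_mem_arc e hI)) (he.pt_reg hI) (by simp [h0])
  refine ⟨_, F.exists_ht.choose_spec.1 _ hcx.cx hne, le_al hN ⟨hcx.cx, hne, rfl, ?_⟩
    (hN.pos he.ne) fun f hf => ?_⟩
  · rw [h0]; positivity
  · rcases hcx.bd_sub hf with h1 | h1
    · rw [mem_singleton_iff.1 h1]
    · rw [← mem_singleton_iff.1 h1, rev_snd, map_neg_eq_map]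

theorem at_most_one (h : F.IsArea μ c) {N : Seminorm ℝ ℂ} (hN : Adm N) {k : ℕ} {S1 S2 : Set X}
    (h1 : S1 ∈ F.Fam μ k) (h2 : S2 ∈ F.Fam μ k) {ℓ : ℝ} (hℓ : 0 < ℓ)
    (hℓ0 : c * (4 * (9 * ℓ) ^ 2) ≤ 1 / 3 ^ (12 * F.K0 + 2)) (s1 : F.Short S1 N ℓ)
    (s2 : F.Short S2 N ℓ) (hne : S1 ≠ S2) :
    ∃ j ∈ Finset.Ioc k (12 * F.K0), 1 / (5 * ℓ) ≤ F.al μ j N := by
  have hsp := F.exists_ht.choose_spec
  have hns : ¬ S2 ⊆ S1 := fun hs => by
    have := hsp.2 S2 S1 h2.1 h2.2.1 h1.1 h1.2.1 (hs.ssubset_of_ne hne.symm)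
    have a1 : F.ht S1 = k := h1.2.2.1
    have a2 : F.ht S2 = k := h2.2.2.1
    unfold ht at a1 a2
    omega
  obtain ⟨S3, c3, hss, s3, m, hsub⟩ := extension h1.1 h2.1 hns hℓ.le s1 s2
  have hk : k ≤ 12 * F.K0 := h1.2.2.1 ▸ hsp.1 S1 h1.1 h1.2.1
  have hm : μ.real S3 ≤ 3 ^ (k + 1) / 3 ^ (12 * F.K0 + 2) := by
    have hcl : IsClosed {w | N w ≤ 9 * ℓ} :=
      isClosed_le hN.cont continuous_const
    have a1 := (h.image_inter_le m hcl.measurableSet).trans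
      (mul_le_mul_right (hN.area _ (by positivity)) _)
    have a2 := ENNReal.toReal_mono (by finiteness) a1
    rw [ENNReal.toReal_mul, ENNReal.coe_toReal, ENNReal.toReal_ofReal (by positivity)] at a2
    have a3 := (measureReal_mono (μ := μ) hsub).trans ((measureReal_union_le _ _).trans
      (add_le_add (measureReal_union_le _ _) le_rfl))
    have a4 : (1 : ℝ) / 3 ^ (12 * F.K0 + 2) ≤ 3 ^ k / 3 ^ (12 * F.K0 + 2) := by
      gcongr; exact one_le_pow₀ (by norm_num)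
    have a5 : (3 : ℝ) ^ (k + 1) / 3 ^ (12 * F.K0 + 2) = 3 * (3 ^ k / 3 ^ (12 * F.K0 + 2)) := by
      ring
    rw [← Measure.real] at a2
    linarith [h1.2.2.2, h2.2.2.2]
  obtain ⟨e, he⟩ := h1.2.1
  have hI : (0 : ℝ) ∈ Ioo (-1 : ℝ) 1 := ⟨by norm_num, by norm_num⟩
  have hne3 := bd_nonempty (μ := μ) c3 (hss.1 (h1.1.sub e he (F.pt_mem_arc e hI))) (he.1.pt_reg hI)
    (hm.trans_lt ((div_lt_one (by positivity)).2 (pow_lt_pow_right₀ (by norm_num) (by omega))))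
  have hlt : k < F.ht S3 := h1.2.2.1 ▸ hsp.2 S1 S3 h1.1 ⟨e, he⟩ c3 hne3 hss
  refine ⟨F.ht S3, Finset.mem_Ioc.2 ⟨hlt, hsp.1 S3 c3 hne3⟩,
    le_al hN ⟨c3, hne3, rfl, hm.trans ?_⟩ (by positivity) s3⟩
  gcongr
  · norm_num
  · exact hlt

theorem al_step (h : F.IsArea μ c) {N : Seminorm ℝ ℂ} (hN : Adm N) {k : ℕ} {ℓ0 : ℝ} (hℓ : 0 < ℓ0)
    (hℓ0 : c * (4 * (9 * ℓ0) ^ 2) ≤ 1 / 3 ^ (12 * F.K0 + 2)) (J : Finset ℕ)
    (M : ℕ → Seminorm ℝ ℂ) {C κ : ℝ} (hC : 0 < C) (hκ : 0 ≤ κ)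
    (hM : ∀ σ ∈ J, ∀ z, N z ≤ C * M σ z) (hs : ∀ v, v ≠ 0 → ∑ σ ∈ J, 1 / M σ v ≤ κ / N v) :
    ∑ σ ∈ J, F.al μ k (M σ) ≤
      J.card * (C * (1 / ℓ0 + 5 * ∑ j ∈ Finset.Ioc k (12 * F.K0), F.al μ j N)) +
        κ * F.al μ k N := by
  set a := 1 / ℓ0 + 5 * ∑ j ∈ Finset.Ioc k (12 * F.K0), F.al μ j N with ha
  have s0 : 0 ≤ ∑ j ∈ Finset.Ioc k (12 * F.K0), F.al μ j N :=
    Finset.sum_nonneg fun j _ => al_nonneg j N
  have a0 : 0 < a := by positivity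
  have a1 : 1 / a ≤ ℓ0 := by
    rw [one_div_le a0 hℓ]; linarith
  have hlong : ∀ S, ¬ F.Short S N (1 / a) → ∀ σ ∈ J, ∃ e ∈ F.Bd S, 1 ≤ C * a * M σ e.2 := by
    intro S hS σ hσ
    simp only [Short, not_forall, not_le] at hS
    obtain ⟨e, he, h1⟩ := hS
    refine ⟨e, he, ?_⟩
    rw [div_lt_iff₀ a0] at h1
    nlinarith [hM σ hσ e.2]
  by_cases h0 : ∃ S0 ∈ F.Fam μ k, F.Short S0 N (1 / a)
  · obtain ⟨S0, hS0, sh0⟩ := h0
    obtain ⟨e0, he0, hmax⟩ := Set.exists_max_image _ (fun e => N e.2) hS0.1.fin hS0.2.1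
    have n0 := hN.pos he0.1.ne
    have b1 := le_al hN hS0 n0 hmax
    have b2 : ∀ σ ∈ J, F.al μ k (M σ) ≤ C * a + 1 / M σ e0.2 := by
      intro σ hσ
      have m0 : 0 < M σ e0.2 := (mul_pos_iff_of_pos_left hC).1 (n0.trans_le (hM σ hσ _))
      refine al_le (by positivity) fun S hS => ?_
      by_cases hS1 : S = S0
      · refine ⟨e0, hS1 ▸ he0, ?_⟩
        rw [add_mul, one_div_mul_cancel m0.ne']
        exact le_add_of_nonneg_left (by positivity)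
      · obtain ⟨e, he, h1⟩ := hlong S (fun hsh => by
          obtain ⟨j, hj, h2⟩ := at_most_one h hN hS hS0 (by positivity)
            (le_trans (by gcongr) hℓ0) hsh sh0 hS1
          have := Finset.single_le_sum (fun j _ => al_nonneg (F := F) (μ := μ) j N) hj
          have h3 : 1 / (5 * (1 / a)) = a / 5 := by field_simp
          have h4 : 0 < 1 / ℓ0 := by positivity
          linarith) σ hσ
        exact ⟨e, he, h1.trans (mul_le_mul_of_nonneg_right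
          (le_add_of_nonneg_right (by positivity)) (apply_nonneg _ _))⟩
    refine (Finset.sum_le_sum b2).trans ?_
    rw [Finset.sum_add_distrib, Finset.sum_const, nsmul_eq_mul]
    have := hs _ he0.1.ne
    rw [div_eq_mul_one_div κ] at this
    linarith [mul_le_mul_of_nonneg_left b1 hκ]
  · push Not at h0
    refine (Finset.sum_le_sum fun σ hσ => al_le (a := C * a) (by positivity)
      fun S hS => hlong S (h0 S hS) σ hσ).trans ?_
    rw [Finset.sum_const, nsmul_eq_mul]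
    exact le_add_of_nonneg_right (mul_nonneg hκ (al_nonneg k N))

theorem margulis (h : F.IsArea μ c) {b C : ℝ} (hb : 1 ≤ b) (hC : 1 ≤ C) :
    ∃ (G : Seminorm ℝ ℂ → ℝ) (C2 : ℝ), 0 ≤ C2 ∧ (∀ N, 1 ≤ G N) ∧
      (∀ N N' (L : ℝ), Adm N → 1 ≤ L → (∀ z, N z ≤ L * N' z) → G N' ≤ L * G N) ∧
      (∀ N e, Adm N → F.IsSC e → 1 / N e.2 ≤ G N) ∧
      ∀ N (J : Finset ℕ) (M : ℕ → Seminorm ℝ ℂ) (κ : ℝ), Adm N → 1 ≤ κ → J.card ≤ b →
        (∀ σ ∈ J, ∀ z, N z ≤ C * M σ z) → (∀ v, v ≠ 0 → ∑ σ ∈ J, 1 / M σ v ≤ κ / N v) →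
        ∑ σ ∈ J, G (M σ) ≤ C2 + 2 * κ * G N := by
  obtain ⟨ℓ0, hℓ, hℓ0⟩ : ∃ ℓ0 > 0, c * (4 * (9 * ℓ0) ^ 2) ≤ (1 : ℝ) / 3 ^ (12 * F.K0 + 2) := by
    have t1 : ContinuousAt (fun a : ℝ => c * (4 * (9 * a) ^ 2)) 0 := by fun_prop
    exact (Eventually.and (self_mem_nhdsWithin : Ioi (0 : ℝ) ∈ 𝓝[>] 0) (nhdsWithin_le_nhds
      (t1.eventually (ge_mem_nhds (by simp))))).exists
  set H := 12 * F.K0 with hH
  set Λ : ℝ := 5 * b * C * (H + 1) with hΛ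
  have Λ1 : 1 ≤ Λ := by
    have : (1 : ℝ) ≤ H + 1 := by simp
    calc (1 : ℝ) ≤ 5 * 1 * 1 * 1 := by norm_num
      _ ≤ 5 * b * C * (H + 1) := by gcongr
  have t0 : ∀ N k, 0 ≤ Λ ^ k * F.al μ k N := fun N k => mul_nonneg (by positivity) (al_nonneg k N)
  have g0 : ∀ N, 0 ≤ ∑ k ∈ Finset.range (H + 1), Λ ^ k * F.al μ k N := fun N =>
    Finset.sum_nonneg fun k _ => t0 N k
  refine ⟨fun N => 1 + ∑ k ∈ Finset.range (H + 1), Λ ^ k * F.al μ k N,
    b + ∑ k ∈ Finset.range (H + 1), Λ ^ k * (b * (C * (1 / ℓ0))), by positivity,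
    fun N => le_add_of_nonneg_right (g0 N), fun N N' L hN hL h1 => ?_, fun N e hN he => ?_,
    fun N J M κ hN hκ hJ hM hs => ?_⟩
  · rw [mul_add, mul_one, Finset.mul_sum]
    refine add_le_add hL (Finset.sum_le_sum fun k _ => ?_)
    rw [mul_left_comm]
    exact mul_le_mul_of_nonneg_left (al_lip hN (by linarith) h1) (by positivity)
  · obtain ⟨k, hk, h1⟩ := sc_le_al h hN he
    have := Finset.single_le_sum (fun k _ => t0 N k) (Finset.mem_range.2 (Nat.lt_succ_of_le hk))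
    linarith [le_mul_of_one_le_left (al_nonneg (F := F) (μ := μ) k N) (one_le_pow₀ Λ1 (n := k))]
  · rw [Finset.sum_add_distrib, Finset.sum_const, nsmul_eq_mul, mul_one, Finset.sum_comm]
    have key : ∀ k ∈ Finset.range (H + 1), ∑ σ ∈ J, Λ ^ k * F.al μ k (M σ) ≤
        Λ ^ k * (b * (C * (1 / ℓ0))) +
          (∑ j ∈ Finset.range (H + 1), Λ ^ j * F.al μ j N) / (H + 1) + κ * (Λ ^ k * F.al μ k N) := by
      intro k _
      have h1 := al_step h hN (k := k) hℓ hℓ0 J M (by linarith) (by linarith) hM hs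
      have s0 : 0 ≤ ∑ j ∈ Finset.Ioc k H, F.al μ j N := Finset.sum_nonneg fun j _ => al_nonneg j N
      have h2 : Λ ^ (k + 1) * ∑ j ∈ Finset.Ioc k H, F.al μ j N ≤
          ∑ j ∈ Finset.range (H + 1), Λ ^ j * F.al μ j N := by
        rw [Finset.mul_sum]
        refine (Finset.sum_le_sum fun j hj => mul_le_mul_of_nonneg_right
          (pow_le_pow_right₀ Λ1 (Finset.mem_Ioc.1 hj).1) (al_nonneg j N)).trans
          (Finset.sum_le_sum_of_subset_of_nonneg (fun j hj => Finset.mem_range.2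
            (Nat.lt_succ_of_le (Finset.mem_Ioc.1 hj).2)) fun j _ _ => t0 N j)
      have h3 : Λ ^ k * (b * (C * (5 * ∑ j ∈ Finset.Ioc k H, F.al μ j N))) ≤
          (∑ j ∈ Finset.range (H + 1), Λ ^ j * F.al μ j N) / (H + 1) := by
        rw [le_div_iff₀ (by positivity)]
        refine le_trans (le_of_eq ?_) h2
        rw [pow_succ, hΛ]; ring
      have h4 : (J.card : ℝ) * (C * (1 / ℓ0 + 5 * ∑ j ∈ Finset.Ioc k H, F.al μ j N)) ≤
          b * (C * (1 / ℓ0 + 5 * ∑ j ∈ Finset.Ioc k H, F.al μ j N)) := by gcongr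
      rw [← Finset.mul_sum]
      have h5 := mul_le_mul_of_nonneg_left (h1.trans (add_le_add h4 le_rfl))
        (show 0 ≤ Λ ^ k by positivity)
      linarith
    have h6 := Finset.sum_le_sum key
    rw [Finset.sum_add_distrib, Finset.sum_add_distrib, ← Finset.mul_sum, Finset.sum_const,
      Finset.card_range, nsmul_eq_mul] at h6
    push_cast at h6
    rw [mul_div_cancel₀ _ (by positivity)] at h6
    nlinarith [g0 N]

end Flow

end Pool.Agent.Lib.MP_1e1a64_an
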