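import Pool.Agent.Lib.MP_1e1a64_an.Marg
import Pool.Agent.Lib.MP_1e1a64_an.Few

/-!
The norms attached to a slope and a scale.
-/

open Set Filter Topology MeasureTheory Metric
open scoped ENNReal NNReal

namespace Pool.Agent.Lib.MP_1e1a64_an

noncomputable def Nn (s Q : ℝ) : Seminorm ℝ ℂ := (normSeminorm ℝ ℂ).comp (sh s Q)

theorem Nn_apply (s Q : ℝ) (z : ℂ) : Nn s Q z = ‖sh s Q z‖ := rfl

theorem adm_Nn (s : ℝ) {Q : ℝ} (hQ : Q ≠ 0) : Adm (Nn s Q) := by
  refine ⟨fun r hr => ?_, ?_, ?_⟩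
  · have : {z | Nn s Q z ≤ r} = (shear s Q hQ).symm '' closedBall 0 r := by
      rw [ContinuousLinearEquiv.image_symm_eq_preimage]
      ext z; simp [Nn_apply, shear_apply]
    rw [this, volume_shear, Complex.volume_closedBall, mul_comm 4, ENNReal.ofReal_mul (by positivity),
      ENNReal.ofReal_pow hr]
    gcongr
    rw [← ENNReal.ofReal_coe_nnreal]
    exact ENNReal.ofReal_le_ofReal Real.pi_le_four
  · refine ⟨1 / (‖((shear s Q hQ).symm : ℂ →L[ℝ] ℂ)‖ + 1), by positivity, fun z => ?_⟩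
    have := ((shear s Q hQ).symm : ℂ →L[ℝ] ℂ).le_opNorm (shear s Q hQ z)
    simp only [ContinuousLinearEquiv.coe_coe, ContinuousLinearEquiv.symm_apply_apply] at this
    rw [Nn_apply, ← shear_apply s Q hQ, div_mul_eq_mul_div, one_mul, div_le_iff₀ (by positivity)]
    nlinarith [norm_nonneg (shear s Q hQ z)]
  · exact continuous_norm.comp (shear s Q hQ).continuous

theorem Nn_shift {s s' Q : ℝ} (hQ : 0 < Q) (h : |s' - s| * Q ^ 2 ≤ 2) (z : ℂ) :
    Nn s Q z ≤ 3 * Nn s' Q z := by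
  have e : sh s Q z = sh s' Q z + (((s' - s) * Q ^ 2 * (sh s' Q z).im : ℝ) : ℂ) := by
    apply Complex.ext <;> simp only [sh_re, sh_im, Complex.add_re, Complex.add_im,
      Complex.ofReal_re, Complex.ofReal_im] <;> field_simp <;> ring
  rw [Nn_apply, Nn_apply, e]
  refine (norm_add_le _ _).trans ?_
  rw [Complex.norm_real, Real.norm_eq_abs, abs_mul, abs_mul, abs_of_pos (pow_pos hQ 2)]
  nlinarith [Complex.abs_im_le_norm (sh s' Q z), abs_nonneg (sh s' Q z).im]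

theorem Nn_scale (s : ℝ) {Q β : ℝ} (hQ : 0 < Q) (hβ : 1 ≤ β) (z : ℂ) :
    Nn s Q z ≤ β * Nn s (Q * β) z := by
  have hβ0 : 0 < β := by linarith
  rw [Nn_apply, Nn_apply, ← sq_le_sq₀ (norm_nonneg _) (by positivity), mul_pow, Complex.sq_norm,
    Complex.sq_norm, Complex.normSq_apply, Complex.normSq_apply]
  have e1 : (sh s (Q * β) z).re = β * (sh s Q z).re := by simp only [sh_re]; ring
  have e2 : (sh s Q z).im = β * (sh s (Q * β) z).im := by simp only [sh_im]; field_simp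
  rw [e1, e2]
  have h1 : 1 ≤ β ^ 4 := one_le_pow₀ hβ
  nlinarith [mul_self_nonneg (sh s Q z).re]

theorem Nn_child {s s' Q β : ℝ} (hQ : 0 < Q) (hβ : 1 ≤ β) (h : |s' - s| * Q ^ 2 ≤ 2) (z : ℂ) :
    Nn s Q z ≤ 3 * β * Nn s' (Q * β) z := by
  linarith [Nn_shift hQ h z, Nn_scale s' hQ hβ z]

theorem Nn_self {u : ℂ} (hu : 0 < u.im) {Q : ℝ} (hQ : 0 < Q) : Nn (slp u) Q u = u.im / Q := by
  have : sh (slp u) Q u = ((u.im / Q : ℝ) : ℂ) * Complex.I := by
    apply Complex.ext <;> simp [slp]; right; field_simp; simp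
  rw [Nn_apply, this, norm_mul, Complex.norm_I, mul_one, Complex.norm_real,
    Real.norm_of_nonneg (by positivity)]

theorem sum_dist_le (J : Finset ℕ) (i m : ℕ) (hi : i ≤ m) (hJ : ∀ j ∈ J, j ≤ m) :
    ∑ j ∈ J, (1 : ℝ) / (Nat.dist j i + 1) ≤ 2 * (1 + Real.log (m + 1)) := by
  rw [Finset.sum_comp (fun d : ℕ => (1 : ℝ) / (d + 1)) (fun j => Nat.dist j i)]
  have h1 : ∑ d ∈ Finset.range (m + 1), (1 : ℝ) / (d + 1) ≤ 1 + Real.log (m + 1) := by
    have := harmonic_le_one_add_log (m + 1)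
    simp only [harmonic] at this
    push_cast at this
    simpa only [one_div] using this
  refine le_trans ?_ (mul_le_mul_of_nonneg_left h1 zero_le_two)
  rw [Finset.mul_sum]
  refine (Finset.sum_le_sum (g := fun d : ℕ => 2 * ((1 : ℝ) / (d + 1))) fun d _ => ?_).trans
    (Finset.sum_le_sum_of_subset_of_nonneg (fun d hd => ?_) fun _ _ _ => by positivity)
  · rw [nsmul_eq_mul]
    have : (J.filter fun j => Nat.dist j i = d).card ≤ 2 :=
      (Finset.card_le_card (t := {i + d, i - d}) fun j hj => by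
        have := (Finset.mem_filter.1 hj).2
        simp only [Finset.mem_insert, Finset.mem_singleton]
        unfold Nat.dist at this
        omega).trans Finset.card_le_two
    gcongr
    exact_mod_cast this
  · obtain ⟨j, hj, rfl⟩ := Finset.mem_image.1 hd
    have := hJ j hj
    rw [Finset.mem_range]
    unfold Nat.dist
    omega

theorem sum_pos_le (J : Finset ℕ) (m : ℕ) (hJ : ∀ j ∈ J, j ≤ m) (p : ℕ → ℝ)
    (hp : ∀ j ∈ J, (j : ℝ) ≤ p j ∧ p j < j + 1) (p0 : ℝ) :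
    ∑ j ∈ J, 1 / max 1 (2 * |p0 - p j|) ≤ 6 * (1 + Real.log (m + 2)) := by
  set q := max 0 (min p0 (m + 1)) with hq
  have q0 : 0 ≤ q := le_max_left _ _
  have q1 : q ≤ (m + 1 : ℕ) := by push_cast; exact max_le (by positivity) (min_le_right _ _)
  have i1 := Nat.floor_le q0
  have i2 := Nat.lt_floor_add_one q
  have h := sum_dist_le J ⌊q⌋₊ (m + 1) (Nat.floor_le_of_le q1) fun j hj => (hJ j hj).trans (by omega)
  rw [show (((m + 1 : ℕ) : ℝ) + 1) = m + 2 by push_cast; ring] at h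
  refine le_trans ?_ (show 3 * ∑ j ∈ J, (1 : ℝ) / (Nat.dist j ⌊q⌋₊ + 1) ≤ _ by linarith)
  rw [Finset.mul_sum]
  refine Finset.sum_le_sum fun j hj => ?_
  obtain ⟨a1, a2⟩ := hp j hj
  have a3 : (j : ℝ) ≤ m := by exact_mod_cast hJ j hj
  have a0 : (0 : ℝ) ≤ j := Nat.cast_nonneg j
  have b1 : |q - p j| ≤ |p0 - p j| := by
    rw [abs_le]
    rcases max_cases 0 (min p0 (m + 1)) with h | h <;> rcases min_cases p0 (m + 1) with g | g <;>
      constructor <;> linarith [h.1, h.2, g.1, g.2, le_abs_self (p0 - p j), neg_abs_le (p0 - p j)]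
  have b2 : (Nat.dist j ⌊q⌋₊ : ℝ) ≤ |q - p j| + 1 := by
    rcases le_total j ⌊q⌋₊ with h | h
    · rw [Nat.dist_eq_sub_of_le h, Nat.cast_sub h]; linarith [le_abs_self (q - p j)]
    · rw [Nat.dist_eq_sub_of_le_right h, Nat.cast_sub h]; linarith [neg_abs_le (q - p j)]
  rw [mul_one_div, div_le_div_iff₀ (by positivity) (by positivity)]
  linarith [le_max_left 1 (2 * |p0 - p j|), le_max_right 1 (2 * |p0 - p j|)]

theorem sum_Nn {s Q : ℝ} {β : ℕ} (hQ : 0 < Q) (hβ : 1 ≤ β) (J : Finset ℕ) (t : ℕ → ℝ)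
    (hJ : ∀ j ∈ J, |t j - s| * Q ^ 2 ≤ 2 ∧ ⌊((t j - s) * Q ^ 2 + 2) * β ^ 2 / 2⌋₊ = j)
    (v : ℂ) (hv : v ≠ 0) :
    ∑ j ∈ J, 1 / Nn (t j) (Q * β) v ≤ 30 * β * (1 + Real.log (2 * β ^ 2 + 2)) / Nn s Q v := by
  have hβ1 : (1 : ℝ) ≤ β := by exact_mod_cast hβ
  have hβ0 : (0 : ℝ) < β := by linarith
  have hl := (adm_Nn s hQ.ne').pos hv
  have hσ : ∀ j ∈ J, |(t j - s) * Q ^ 2| ≤ 2 := fun j hj => by
    rw [abs_mul, abs_of_pos (pow_pos hQ 2)]; exact (hJ j hj).1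
  have hm : ∀ j ∈ J, j ≤ 2 * β ^ 2 := fun j hj => by
    rw [← (hJ j hj).2]
    apply Nat.floor_le_of_le
    push_cast
    nlinarith [(abs_le.1 (hσ j hj)).2, pow_pos hβ0 2]
  have hlog : 0 ≤ Real.log (2 * β ^ 2 + 2) := Real.log_nonneg (by nlinarith)
  set X := (sh s Q v).re with hX
  set Y := (sh s Q v).im with hY
  have n0 : Nn s Q v ≤ |X| + |Y| := Complex.norm_le_abs_re_add_abs_im _
  have n1 : ∀ j, β * |X - (t j - s) * Q ^ 2 * Y| ≤ Nn (t j) (Q * β) v := fun j => by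
    refine le_trans (le_of_eq ?_) (Complex.abs_re_le_norm _)
    rw [← abs_of_pos hβ0, ← abs_mul, abs_of_pos hβ0, hX, hY]
    simp only [sh_re, sh_im]; congr 1; field_simp; ring
  have n2 : ∀ j, |Y| / β ≤ Nn (t j) (Q * β) v := fun j => by
    refine le_trans (le_of_eq ?_) (Complex.abs_im_le_norm _)
    rw [← abs_of_pos hβ0, ← abs_div, abs_of_pos hβ0, hY]
    simp only [sh_im]; congr 1; field_simp
  rcases le_or_gt (4 * |Y|) |X| with h | h
  · have c1 : ∀ j ∈ J, 1 / Nn (t j) (Q * β) v ≤ 5 / (2 * β * Nn s Q v) := fun j hj => by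
      have a1 : |(t j - s) * Q ^ 2 * Y| ≤ 2 * |Y| := by
        rw [abs_mul]; exact mul_le_mul_of_nonneg_right (hσ j hj) (abs_nonneg _)
      have a2 := abs_sub_abs_le_abs_sub X ((t j - s) * Q ^ 2 * Y)
      have a3 : 2 * β * Nn s Q v ≤ 5 * Nn (t j) (Q * β) v := by nlinarith [n1 j]
      rw [div_le_div_iff₀ (by nlinarith) (by positivity)]
      linarith
    refine (Finset.sum_le_card_nsmul _ _ _ c1).trans ?_
    have c2 : (J.card : ℝ) ≤ 3 * β ^ 2 := by
      have : J.card ≤ 2 * β ^ 2 + 1 := (Finset.card_le_card (t := Finset.range (2 * β ^ 2 + 1))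
        fun j hj => Finset.mem_range.2 (Nat.lt_succ_of_le (hm j hj))).trans (by simp)
      have h2 : (J.card : ℝ) ≤ 2 * β ^ 2 + 1 := by exact_mod_cast this
      nlinarith
    rw [nsmul_eq_mul]
    calc _ ≤ 3 * β ^ 2 * (5 / (2 * β * Nn s Q v)) := by gcongr
      _ = 15 / 2 * β * 1 / Nn s Q v := by field_simp; ring
      _ ≤ _ := by gcongr <;> linarith
  · have Y0 : 0 < |Y| := by linarith [abs_nonneg X]
    have Y1 : Y ≠ 0 := abs_pos.1 Y0
    have c1 := sum_pos_le J (2 * β ^ 2) hm (fun j => ((t j - s) * Q ^ 2 + 2) * β ^ 2 / 2)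
      (fun j hj => by
        have a0 : 0 ≤ ((t j - s) * Q ^ 2 + 2) * β ^ 2 / 2 :=
          div_nonneg (mul_nonneg (by linarith [(abs_le.1 (hσ j hj)).1]) (by positivity)) zero_le_two
        exact (Nat.floor_eq_iff a0).1 (hJ j hj).2) ((X / Y + 2) * β ^ 2 / 2)
    push_cast at c1
    refine le_trans ?_ (show β / |Y| * ∑ j ∈ J, 1 / max 1 (2 * |(X / Y + 2) * β ^ 2 / 2 -
      ((t j - s) * Q ^ 2 + 2) * β ^ 2 / 2|) ≤ _ from
      (mul_le_mul_of_nonneg_left c1 (by positivity)).trans (by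
        rw [div_mul_eq_mul_div, div_le_div_iff₀ Y0 hl]
        have : 0 ≤ β * (1 + Real.log (2 * β ^ 2 + 2)) := by positivity
        nlinarith))
    rw [Finset.mul_sum]
    refine Finset.sum_le_sum fun j _ => ?_
    have a1 : 0 < Nn (t j) (Q * β) v := lt_of_lt_of_le (by positivity) (n2 j)
    rw [mul_one_div, div_le_div_iff₀ a1 (by positivity), one_mul, max_le_iff, div_mul_eq_mul_div,
      le_div_iff₀ Y0, le_div_iff₀ Y0]
    constructor
    · have := n2 j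
      rw [div_le_iff₀ hβ0] at this
      linarith
    · have e1 : 2 * |(X / Y + 2) * β ^ 2 / 2 - ((t j - s) * Q ^ 2 + 2) * β ^ 2 / 2| * |Y| =
          β * (β * |X - (t j - s) * Q ^ 2 * Y|) := by
        rw [mul_assoc, ← abs_mul, show ((X / Y + 2) * β ^ 2 / 2 -
          ((t j - s) * Q ^ 2 + 2) * β ^ 2 / 2) * Y = β ^ 2 / 2 * (X - (t j - s) * Q ^ 2 * Y) by
            field_simp; ring, abs_mul, abs_of_pos (by positivity : (0 : ℝ) < β ^ 2 / 2)]
        ring
      rw [e1]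
      exact mul_le_mul_of_nonneg_left (n1 j) hβ0.le

end Pool.Agent.Lib.MP_1e1a64_an
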