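import Pool.Agent.Lib.MP_1e1a64_an.Cx

/-!
First return of parallel rays leaving a saddle connection.
-/

open Set Filter Topology MeasureTheory Metric
open scoped ENNReal NNReal

namespace Pool.Agent.Lib.MP_1e1a64_an

noncomputable def vec (u d : ℂ) (p : ℝ × ℝ) : ℂ := p.1 • u + p.2 • d

theorem tendsto_vec (u d : ℂ) (p : ℝ × ℝ) :
    Tendsto (fun q => vec u d (q - p)) (𝓝 p) (𝓝 0) := by
  have : Continuous (fun q => vec u d (q - p)) := by unfold vec; fun_prop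
  simpa [vec] using this.tendsto p

namespace Flow

variable {X : Type*} [TopologicalSpace X] (F : Flow X)

noncomputable def Φ (e : X × ℂ) (d : ℂ) (p : ℝ × ℝ) : X := F.go (F.pt e p.1) (p.2 • d)

def W (e : X × ℂ) (d : ℂ) : Set (ℝ × ℝ) :=
  {p | p.1 ∈ Ioo (-1 : ℝ) 1 ∧ p.2 • d ∈ F.D (F.pt e p.1)}

def Free (S : Set X) (e : X × ℂ) (d : ℂ) (t τ : ℝ) : Prop :=
  ∀ σ ∈ Ioo 0 τ, (t, σ) ∈ F.W e d ∧ F.Φ e d (t, σ) ∉ S

def Vis (S : Set X) (e : X × ℂ) (d : ℂ) (t τ : ℝ) : Prop :=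
  t ∈ Ioo (-1 : ℝ) 1 ∧ 0 < τ ∧ F.Free S e d t τ ∧ (t, τ) ∉ F.W e d

def Land (S : Set X) (e : X × ℂ) (d : ℂ) (t τ : ℝ) : Prop :=
  t ∈ Ioo (-1 : ℝ) 1 ∧ 0 < τ ∧ F.Free S e d t τ ∧ (t, τ) ∈ F.W e d ∧ F.Φ e d (t, τ) ∈ S

def Good (S : Set X) (e : X × ℂ) (d : ℂ) (f : X × ℂ) (t τ s : ℝ) : Prop :=
  F.Land S e d t τ ∧ s ∈ Ioo (-1 : ℝ) 1 ∧ F.Φ e d (t, τ) = F.pt f s

theorem tube {x : X} {z : ℂ} (h : z ∈ F.D x) :
    ∃ C : Set ℂ, Convex ℝ C ∧ IsOpen C ∧ C ⊆ F.D x ∧ 0 ∈ C ∧ z ∈ C := by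
  have hK : IsCompact (segment ℝ 0 z) := by
    rw [segment_eq_image]; exact isCompact_Icc.image (by fun_prop)
  have hKD : segment ℝ 0 z ⊆ F.D x := by
    rw [segment_eq_image]
    rintro _ ⟨t, ht, rfl⟩
    simpa using F.star x z h t ht
  obtain ⟨r, hr, hth⟩ := hK.exists_thickening_subset_open (F.isOpen_D x) hKD
  exact ⟨_, (convex_segment 0 z).thickening r, isOpen_thickening, hth,
    self_subset_thickening hr _ (left_mem_segment ℝ 0 z),
    self_subset_thickening hr _ (right_mem_segment ℝ 0 z)⟩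

theorem Φ_rev (e : X × ℂ) (d : ℂ) (t τ : ℝ) : F.Φ (rev e) d (t, τ) = F.Φ e d (-t, τ) := by
  simp [Φ, pt_rev]

theorem W_rev (e : X × ℂ) (d : ℂ) (t τ : ℝ) : (t, τ) ∈ F.W (rev e) d ↔ (-t, τ) ∈ F.W e d := by
  simp only [W, mem_ofPred_eq, pt_rev]
  exact ⟨fun h => ⟨neg_mem_Ioo h.1, h.2⟩, fun h => ⟨by simpa using neg_mem_Ioo h.1, h.2⟩⟩

@[simp] theorem Φ_zero (e : X × ℂ) (d : ℂ) (t : ℝ) : F.Φ e d (t, 0) = F.pt e t := by
  simp [Φ, F.go_zero]

variable {F} {S : Set X} {e f : X × ℂ} {d : ℂ}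

theorem Free.rev {t τ : ℝ} (h : F.Free S (rev e) d t τ) : F.Free S e d (-t) τ := fun σ hσ => by
  simpa only [W_rev, Φ_rev] using h σ hσ

theorem Vis.rev {t τ : ℝ} (h : F.Vis S (rev e) d t τ) : F.Vis S e d (-t) τ :=
  ⟨neg_mem_Ioo h.1, h.2.1, h.2.2.1.rev, by simpa only [W_rev] using h.2.2.2⟩

theorem Land.rev {t τ : ℝ} (h : F.Land S (rev e) d t τ) : F.Land S e d (-t) τ :=
  ⟨neg_mem_Ioo h.1, h.2.1, h.2.2.1.rev, by simpa only [W_rev, Φ_rev] using h.2.2.2⟩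

theorem Good.rev {t τ s : ℝ} (h : F.Good S (rev e) d f t τ s) : F.Good S e d f (-t) τ s :=
  ⟨h.1.rev, h.2.1, by simpa only [Φ_rev] using h.2.2⟩

theorem Φ_reg {p : ℝ × ℝ} (hp : p ∈ F.W e d) : F.Φ e d p ∉ F.sing := F.reg _ _ hp.2

theorem IsSC.zero_mem_W (he : F.IsSC e) {t : ℝ} (ht : t ∈ Ioo (-1 : ℝ) 1) : (t, 0) ∈ F.W e d :=
  ⟨ht, by simpa using F.zero_mem _ (he.pt_reg ht)⟩

theorem W_down {t τ σ : ℝ} (h : (t, τ) ∈ F.W e d) (h0 : 0 ≤ σ) (h1 : σ ≤ τ) :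
    (t, σ) ∈ F.W e d := ⟨h.1, F.star' h.2 h0 h1⟩

theorem IsSC.Φ_loc (he : F.IsSC e) {p : ℝ × ℝ} (hp : p ∈ F.W e d) :
    ∀ᶠ q in 𝓝 p, q ∈ F.W e d ∧ vec e.2 d (q - p) ∈ F.D (F.Φ e d p) ∧
      F.Φ e d q = F.go (F.Φ e d p) (vec e.2 d (q - p)) := by
  obtain ⟨C, hC, hO, hD, h0, hz⟩ := F.tube hp.2
  have c1 : ContinuousAt (fun q : ℝ × ℝ => (q.1 - p.1) • e.2) p := by fun_prop
  have c2 : ContinuousAt (fun q : ℝ × ℝ => (q.1 - p.1) • e.2 + q.2 • d) p := by fun_prop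
  filter_upwards [c1.eventually (hO.mem_nhds (by simpa using h0)),
    c2.eventually (hO.mem_nhds (by simpa using hz)),
    continuous_fst.continuousAt.eventually (isOpen_Ioo.mem_nhds hp.1)] with q h1 h2 h3
  have a1 := F.coc hC hD h1 h2
  have a2 := F.coc hC hD hz h2
  rw [add_sub_cancel_left, (he.step hp.1 h3).2] at a1
  have e1 : (q.1 - p.1) • e.2 + q.2 • d - p.2 • d = vec e.2 d (q - p) := by
    simp only [vec, Prod.fst_sub, Prod.snd_sub]; module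
  rw [e1] at a2
  exact ⟨⟨h3, a1.1⟩, a2.1, a1.2.trans a2.2.symm⟩

theorem IsSC.Φ_ev (he : F.IsSC e) {p : ℝ × ℝ} (hp : p ∈ F.W e d) {P : ℂ → X → Prop}
    (h : ∀ᶠ w in 𝓝 (0 : ℂ), P w (F.go (F.Φ e d p) w)) :
    ∀ᶠ q in 𝓝 p, q ∈ F.W e d ∧ P (vec e.2 d (q - p)) (F.Φ e d q) := by
  filter_upwards [he.Φ_loc hp, (tendsto_vec e.2 d p).eventually h] with q h1 h2
  exact ⟨h1.1, h1.2.2 ▸ h2⟩

theorem IsSC.isOpen_W (he : F.IsSC e) : IsOpen (F.W e d) :=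
  isOpen_iff_mem_nhds.2 fun _ hp => (he.Φ_loc hp).mono fun _ h => h.1

theorem IsSC.Φ_cont (he : F.IsSC e) {p : ℝ × ℝ} (hp : p ∈ F.W e d) :
    ContinuousAt (F.Φ e d) p := by
  intro N hN
  rw [← F.map_nhds _ (Φ_reg hp)] at hN
  exact (he.Φ_ev hp (P := fun _ x => x ∈ N) hN).mono fun _ h => h.2

theorem IsSC.Φ_seg (he : F.IsSC e) {p q : ℝ × ℝ}
    (h : ∀ θ ∈ Icc (0 : ℝ) 1, p + θ • (q - p) ∈ F.W e d) :
    vec e.2 d (q - p) ∈ F.D (F.Φ e d p) ∧ F.go (F.Φ e d p) (vec e.2 d (q - p)) = F.Φ e d q := by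
  have := F.path (γ := fun θ => F.Φ e d (p + θ • (q - p))) (v := vec e.2 d (q - p)) zero_le_one
    (fun θ hθ => Φ_reg (h θ hθ)) (fun θ hθ => by
      apply Eventually.filter_mono nhdsWithin_le_nhds
      have c : ContinuousAt (fun s : ℝ => p + s • (q - p)) θ := by fun_prop
      filter_upwards [c.eventually (he.Φ_loc (h θ hθ))] with s hs
      rw [hs.2.2]
      congr 1
      simp only [vec, Prod.fst_sub, Prod.snd_sub, Prod.fst_add, Prod.snd_add, Prod.smul_fst,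
        Prod.smul_snd, smul_eq_mul]
      module) 1 ⟨zero_le_one, le_rfl⟩
  simpa using this

theorem Out.near (ho : F.Out S e d) (he : F.IsSC e) (hd : wedge e.2 d ≠ 0) {t : ℝ}
    (ht : t ∈ Ioo (-1 : ℝ) 1) :
    ∀ᶠ q in 𝓝 (t, (0 : ℝ)), q ∈ F.W e d ∧ (0 < q.2 → F.Φ e d q ∉ S) := by
  have := he.Φ_ev (he.zero_mem_W (d := d) ht)
    (P := fun w x => 0 < wedge e.2 d * wedge e.2 w → x ∉ S) (by simpa using ho t ht)
  filter_upwards [this] with q hq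
  refine ⟨hq.1, fun h => hq.2 ?_⟩
  simp only [vec, wedge_add_right, wedge_smul_right, wedge_self, Prod.snd_sub]
  have := mul_self_pos.2 hd
  nlinarith

theorem first_event (hS : IsClosed S) (ho : F.Out S e d) (he : F.IsSC e) (hd : wedge e.2 d ≠ 0)
    {t τ' : ℝ} (ht : t ∈ Ioo (-1 : ℝ) 1) (h0 : 0 < τ')
    (h : (t, τ') ∈ F.W e d → F.Φ e d (t, τ') ∈ S) :
    ∃ τ ∈ Ioc 0 τ', F.Vis S e d t τ ∨ F.Land S e d t τ := by
  have c : Continuous (fun σ : ℝ => (t, σ)) := by fun_prop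
  have hA : IsClosed {σ : ℝ | (t, σ) ∈ F.W e d → F.Φ e d (t, σ) ∈ S} := by
    rw [← isOpen_compl_iff, isOpen_iff_mem_nhds]
    intro σ hσ
    simp only [mem_compl_iff, mem_ofPred_eq, Classical.not_imp] at hσ
    filter_upwards [c.continuousAt.eventually (he.isOpen_W.mem_nhds hσ.1),
      c.continuousAt.eventually ((he.Φ_cont hσ.1).eventually (hS.isOpen_compl.mem_nhds hσ.2))]
      with s h1 h2 h3 using h2 (h3 h1)
  obtain ⟨δ, hδ, hb⟩ := Metric.mem_nhds_iff.1 (c.continuousAt.eventually (ho.near he hd ht))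
  have hsm : ∀ σ ∈ Ioo 0 δ, (t, σ) ∈ F.W e d ∧ F.Φ e d (t, σ) ∉ S := by
    intro σ hσ
    have := hb (show σ ∈ ball (0 : ℝ) δ by simpa [abs_of_pos hσ.1] using hσ.2)
    exact ⟨this.1, this.2 hσ.1⟩
  have hδτ : δ ≤ τ' := by
    by_contra hn
    have := hsm τ' ⟨h0, not_le.1 hn⟩
    exact this.2 (h this.1)
  obtain ⟨τ, hτ, hτA, hlt⟩ := exists_first hA (a := δ) h hδτ
  have hfree : F.Free S e d t τ := by
    intro σ hσ
    rcases lt_or_ge σ δ with h1 | h1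
    · exact hsm σ ⟨hσ.1, h1⟩
    · simpa only [mem_ofPred_eq, Classical.not_imp] using hlt σ ⟨h1, hσ.2⟩
  refine ⟨τ, ⟨hδ.trans_le hτ.1, hτ.2⟩, ?_⟩
  by_cases hW : (t, τ) ∈ F.W e d
  · exact Or.inr ⟨ht, hδ.trans_le hτ.1, hfree, hW, hτA hW⟩
  · exact Or.inl ⟨ht, hδ.trans_le hτ.1, hfree, hW⟩

theorem Free.le_vis {t τ τ' : ℝ} (h : F.Free S e d t τ) (h' : F.Vis S e d t τ') : τ ≤ τ' := by
  by_contra hn
  exact h'.2.2.2 (h τ' ⟨h'.2.1, not_le.1 hn⟩).1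

theorem Free.le_land {t τ τ' : ℝ} (h : F.Free S e d t τ) (h' : F.Land S e d t τ') : τ ≤ τ' := by
  by_contra hn
  exact (h τ' ⟨h'.2.1, not_le.1 hn⟩).2 h'.2.2.2.2

theorem Land.unique {t τ τ' : ℝ} (h : F.Land S e d t τ) (h' : F.Land S e d t τ') : τ = τ' :=
  le_antisymm (h.2.2.1.le_land h') (h'.2.2.1.le_land h)

theorem Vis.unique {t τ τ' : ℝ} (h : F.Vis S e d t τ) (h' : F.Vis S e d t τ') : τ = τ' :=
  le_antisymm (h.2.2.1.le_vis h') (h'.2.2.1.le_vis h)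

theorem Vis.not_land {t τ τ' : ℝ} (h : F.Vis S e d t τ) (h' : F.Land S e d t τ') : False := by
  have := le_antisymm (h.2.2.1.le_land h') (h'.2.2.1.le_vis h)
  subst this
  exact h.2.2.2 h'.2.2.2.1

theorem Φ_back {t τ σ : ℝ} (h : (t, τ) ∈ F.W e d) (h0 : 0 ≤ σ) (h1 : σ ≤ τ) :
    σ • (-d) ∈ F.D (F.Φ e d (t, τ)) ∧ F.go (F.Φ e d (t, τ)) (σ • (-d)) = F.Φ e d (t, τ - σ) := by
  have b := (F.back h.2).1
  rw [← smul_neg] at b
  have h2 := F.star' b h0 h1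
  refine ⟨h2, ?_⟩
  have := (F.line h.2 (b := -σ) (by simpa only [neg_smul, smul_neg] using h2)).2
  simpa only [Φ, neg_smul, smul_neg, sub_eq_add_neg] using this.symm

theorem Good.symm {t τ s : ℝ} (h : F.Good S e d f t τ s) (hsub : F.arc e ⊆ S) :
    F.Good S f (-d) e s τ t := by
  obtain ⟨⟨ht, h0, hfree, hW, hS⟩, hs, hx⟩ := h
  have key : ∀ σ, 0 ≤ σ → σ ≤ τ → (s, σ) ∈ F.W f (-d) ∧
      F.Φ f (-d) (s, σ) = F.Φ e d (t, τ - σ) := by
    intro σ h1 h2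
    have := Φ_back hW h1 h2
    rw [hx] at this
    exact ⟨⟨hs, this.1⟩, this.2⟩
  have hτ := key τ h0.le le_rfl
  rw [sub_self, Φ_zero] at hτ
  refine ⟨⟨hs, h0, fun σ hσ => ⟨(key σ hσ.1.le hσ.2.le).1, ?_⟩, hτ.1, ?_⟩, ht, hτ.2⟩
  · rw [(key σ hσ.1.le hσ.2.le).2]
    exact (hfree _ ⟨by linarith [hσ.2], by linarith [hσ.1]⟩).2
  · rw [hτ.2]; exact hsub (F.pt_mem_arc e ht)

theorem Vis.hit (he : F.IsSC e) {t τ : ℝ} (h : F.Vis S e d t τ) : F.Hit (F.pt e t) (τ • d) := by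
  refine ⟨fun a ha => ?_, fun h1 => h.2.2.2 ⟨h.1, h1⟩⟩
  rcases eq_or_lt_of_le ha.1 with h0 | h0
  · rw [← h0, zero_smul]; exact F.zero_mem _ (he.pt_reg h.1)
  · rw [smul_smul]
    exact (h.2.2.1 (a * τ) ⟨mul_pos h0 h.2.1, by nlinarith [ha.2, h.2.1]⟩).1.2

theorem Good.freq {t τ s : ℝ} (h : F.Good S e d f t τ s) :
    ∀ᶠ σ in 𝓝[>] (0 : ℝ), F.go (F.pt f s) (σ • (-d)) ∉ S := by
  filter_upwards [Ioo_mem_nhdsGT h.1.2.1] with σ hσ
  rw [← h.2.2, (Φ_back h.1.2.2.2.1 hσ.1.le hσ.2.le).2]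
  exact (h.1.2.2.1 _ ⟨by linarith [hσ.2], by linarith [hσ.1]⟩).2

theorem Good.wedge_ne (hf : F.IsSC f) (hsub : F.arc f ⊆ S) {t τ s : ℝ}
    (h : F.Good S e d f t τ s) : wedge f.2 d ≠ 0 := by
  intro h0
  obtain ⟨σ, h1, h2⟩ :=
    (h.freq.and ((tendsto_smul_zero' (-d)).eventually (hf.loc_arc h.2.1))).exists
  exact h1 (hsub (h2 (by rw [wedge_smul_right, wedge_neg_right, h0]; simp)))

variable [T2Space X] [CompactSpace X]

theorem Good.out (hS : F.Cx S) (hf : f ∈ F.Bd S) {t τ s : ℝ} (h : F.Good S e d f t τ s) :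
    F.Out S f (-d) :=
  out_of_freq hf.1 (hS.locLine hf) (by simpa using h.wedge_ne hf.1 (hS.sub f hf)) h.2.1
    h.freq.frequently

omit [T2Space X] [CompactSpace X] in
theorem Land.edge (hS : F.Cx S) {t τ : ℝ} (h : F.Land S e d t τ) :
    ∃ f ∈ F.Bd S, ∃ s, F.Good S e d f t τ s := by
  have hr := Φ_reg h.2.2.2.1
  have hfr : F.Φ e d (t, τ) ∈ frontier S := by
    refine ⟨subset_closure h.2.2.2.2, fun hi => ?_⟩
    have h1 := mem_interior_iff_mem_nhds.1 hi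
    rw [← F.map_nhds _ hr] at h1
    obtain ⟨σ, hσ, h2⟩ := (Eventually.and (Ioo_mem_nhdsGT h.2.1)
      ((tendsto_smul_zero' (-d)).eventually h1)).exists
    have h3 : F.go (F.Φ e d (t, τ)) (σ • (-d)) ∈ S := h2
    rw [(Φ_back h.2.2.2.1 hσ.1.le hσ.2.le).2] at h3
    exact (h.2.2.1 _ ⟨by linarith [hσ.2], by linarith [hσ.1]⟩).2 h3
  obtain ⟨f, hf, s, hs, hx⟩ := hS.edge hfr hr
  exact ⟨f, hf, s, h, hs, hx.symm⟩

theorem Good.ev (hS : F.Cx S) (he : F.IsSC e) (hd : wedge e.2 d ≠ 0) (ho : F.Out S e d)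
    (hf : f ∈ F.Bd S) {a b : ℝ} (hab : e.2 = a • f.2 + b • d) {t τ s : ℝ}
    (h : F.Good S e d f t τ s) :
    ∀ᶠ t' in 𝓝 t, F.Good S e d f t' (τ - b * (t' - t)) (s + a * (t' - t)) := by
  have hfd := h.wedge_ne hf.1 (hS.sub f hf)
  have hof := h.out hS hf
  obtain ⟨⟨ht, h0, hfree, hW, hin⟩, hs, hx⟩ := h
  have hl : ∀ θ : ℝ, ∀ᶠ p : ℝ × ℝ in 𝓝 (t, θ), 0 < τ - b * (p.1 - t) := by
    intro θ
    have : ContinuousAt (fun p : ℝ × ℝ => τ - b * (p.1 - t)) (t, θ) := by fun_prop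
    exact this.eventually (lt_mem_nhds (by simpa using h0))
  have hc : ∀ θ : ℝ, Tendsto (fun p : ℝ × ℝ => (p.1, p.2 * (τ - b * (p.1 - t)))) (𝓝 (t, θ))
      (𝓝 (t, θ * τ)) := by
    intro θ
    have : Continuous (fun p : ℝ × ℝ => (p.1, p.2 * (τ - b * (p.1 - t)))) := by fun_prop
    simpa using this.tendsto (t, θ)
  have hvec : ∀ t' σ : ℝ, vec e.2 d ((t', σ) - (t, τ)) =
      (a * (t' - t)) • f.2 + (σ - (τ - b * (t' - t))) • d := by
    intro t' σ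
    simp only [vec, Prod.fst_sub, Prod.snd_sub, hab]; module
  have h1 : ∀ θ ∈ Icc (0 : ℝ) 1, ∀ᶠ p : ℝ × ℝ in 𝓝 (t, θ),
      (p.1, p.2 * (τ - b * (p.1 - t))) ∈ F.W e d ∧
        (p.2 ∈ Ioo (0 : ℝ) 1 → F.Φ e d (p.1, p.2 * (τ - b * (p.1 - t))) ∉ S) := by
    intro θ hθ
    rcases eq_or_lt_of_le hθ.1 with h2 | h2
    · subst h2
      have := hc 0
      rw [zero_mul] at this
      filter_upwards [this.eventually (ho.near he hd ht), hl 0] with p h3 h4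
      exact ⟨h3.1, fun h5 => h3.2 (mul_pos h5.1 h4)⟩
    rcases eq_or_lt_of_le hθ.2 with h3 | h3
    · subst h3
      have := hc 1
      rw [one_mul] at this
      have h6 := he.Φ_ev hW (P := fun w x => 0 < wedge f.2 (-d) * wedge f.2 w → x ∉ S)
        (by rw [hx]; exact hof s hs)
      filter_upwards [this.eventually h6, hl 1] with p h3 h4
      refine ⟨h3.1, fun h5 => h3.2 ?_⟩
      rw [hvec]
      simp only [wedge_add_right, wedge_smul_right, wedge_self, wedge_neg_right]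
      have := mul_pos (mul_pos (sub_pos.2 h5.2) h4) (mul_self_pos.2 hfd)
      nlinarith
    · have h4 := hfree (θ * τ) ⟨mul_pos h2 h0, by nlinarith⟩
      filter_upwards [(hc θ).eventually (he.isOpen_W.mem_nhds h4.1),
        (hc θ).eventually ((he.Φ_cont h4.1).eventually (hS.closed.isOpen_compl.mem_nhds h4.2))]
        with p h5 h6 using ⟨h5, fun _ => h6⟩
  have h2 := isCompact_Icc.eventually_forall_of_forall_eventually
    (P := fun (t' θ : ℝ) => (t', θ * (τ - b * (t' - t))) ∈ F.W e d ∧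
      (θ ∈ Ioo (0 : ℝ) 1 → F.Φ e d (t', θ * (τ - b * (t' - t))) ∉ S)) h1
  have hc' : Tendsto (fun t' : ℝ => (t', τ - b * (t' - t))) (𝓝 t) (𝓝 (t, τ)) := by
    have : Continuous (fun t' : ℝ => (t', τ - b * (t' - t))) := by fun_prop
    simpa using this.tendsto t
  have hl' : ∀ᶠ t' in 𝓝 t, 0 < τ - b * (t' - t) := by
    have : ContinuousAt (fun t' : ℝ => τ - b * (t' - t)) t := by fun_prop
    exact this.eventually (lt_mem_nhds (by simpa using h0))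
  filter_upwards [h2, hc'.eventually (he.Φ_loc hW), hl'] with t' h3 h4 h5
  rw [hvec, sub_self, zero_smul, add_zero, hx] at h4
  have h6 := hf.1.range hs h4.2.1
  refine ⟨⟨h4.1.1, h5, fun σ hσ => ?_, h4.1, ?_⟩, h6.1, h4.2.2.trans h6.2⟩
  · have h7 : σ / (τ - b * (t' - t)) ∈ Ioo (0 : ℝ) 1 :=
      ⟨div_pos hσ.1 h5, (div_lt_one h5).2 hσ.2⟩
    have := h3 _ (Ioo_subset_Icc_self h7)
    rw [div_mul_cancel₀ _ h5.ne'] at this
    exact ⟨this.1, this.2 h7⟩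
  · rw [h4.2.2, h6.2]; exact hS.sub f hf (F.pt_mem_arc f h6.1)

theorem shadow (hS : F.Cx S) (he : F.IsSC e) (hd : wedge e.2 d ≠ 0) (ho : F.Out S e d)
    (hf : f ∈ F.Bd S) {a b : ℝ} (hab : e.2 = a • f.2 + b • d) {t0 τ0 s0 : ℝ}
    (h : F.Good S e d f t0 τ0 s0) :
    (∃ t ∈ Ioo t0 1, (∃ τ ≤ τ0 - b * (t - t0), F.Vis S e d t τ) ∧
      ∀ t' ∈ Ico t0 t, F.Good S e d f t' (τ0 - b * (t' - t0)) (s0 + a * (t' - t0))) ∨
    ∀ t ∈ Ico t0 1, F.Good S e d f t (τ0 - b * (t - t0)) (s0 + a * (t - t0)) := by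
  rw [or_iff_not_imp_left]
  intro hA t1 ht1
  refine real_ind (P := fun t => F.Good S e d f t (τ0 - b * (t - t0)) (s0 + a * (t - t0)))
    (a := t0) (b := t1) (by simpa using h) ?_ ?_ t1 ⟨ht1.1, le_rfl⟩
  · intro t ht hP
    apply Eventually.filter_mono nhdsWithin_le_nhds
    filter_upwards [(hP t ⟨ht.1, le_rfl⟩).ev hS he hd ho hf hab] with t' h1
    convert h1 using 1 <;> ring
  · intro t ht hP
    have htI : t ∈ Ioo (-1 : ℝ) 1 := ⟨h.1.1.1.trans ht.1, ht.2.trans_lt ht1.2⟩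
    have hI : Ico t0 t ∈ 𝓝[<] t := Ico_mem_nhdsLT ht.1
    have hc : Tendsto (fun t' : ℝ => (t', τ0 - b * (t' - t0))) (𝓝[<] t)
        (𝓝 (t, τ0 - b * (t - t0))) := by
      apply Tendsto.mono_left _ nhdsWithin_le_nhds
      have : Continuous (fun t' : ℝ => (t', τ0 - b * (t' - t0))) := by fun_prop
      exact this.tendsto t
    have hl0 : 0 ≤ τ0 - b * (t - t0) := by
      apply ge_of_tendsto ((continuous_snd.tendsto _).comp hc)
      filter_upwards [hI] with t' ht' using (hP t' ht').1.2.1.le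
    have hl : 0 < τ0 - b * (t - t0) := by
      rcases eq_or_lt_of_le hl0 with h1 | h1
      · exfalso
        rw [← h1] at hc
        obtain ⟨t', ht', h2⟩ := (Eventually.and hI (hc.eventually (ho.near he hd htI))).exists
        exact h2.2 (hP t' ht').1.2.1 (hP t' ht').1.2.2.2.2
      · exact h1
    obtain ⟨τ, hτ, hev⟩ := first_event hS.closed ho he hd htI hl (fun hW => by
      apply hS.closed.mem_of_tendsto ((he.Φ_cont hW).tendsto.comp hc)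
      filter_upwards [hI] with t' ht' using (hP t' ht').1.2.2.2.2)
    rcases hev with hv | hland
    · exact absurd ⟨t, ⟨ht.1, htI.2⟩, ⟨τ, hτ.2, hv⟩, hP⟩ hA
    obtain ⟨g, hg, s, hgood⟩ := hland.edge hS
    have hgd := hgood.wedge_ne hg.1 (hS.sub g hg)
    have h2 := (hgood.ev hS he hd ho hg (wedge_decomp hgd e.2)).filter_mono
      (nhdsWithin_le_nhds (s := Iio t))
    have h3 : τ = τ0 - b * (t - t0) := by
      have c1 : Tendsto (fun t' : ℝ => τ - wedge g.2 e.2 / wedge g.2 d * (t' - t)) (𝓝[<] t)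
          (𝓝 τ) := by
        apply Tendsto.mono_left _ nhdsWithin_le_nhds
        have : Continuous (fun t' : ℝ => τ - wedge g.2 e.2 / wedge g.2 d * (t' - t)) := by
          fun_prop
        simpa using this.tendsto t
      refine tendsto_nhds_unique (c1.congr' ?_) ((continuous_snd.tendsto _).comp hc)
      filter_upwards [hI, h2] with t' h4 h5 using h5.1.unique (hP t' h4).1
    subst h3
    have h4 := he.Φ_seg (d := d) (p := (t0, τ0)) (q := (t, τ0 - b * (t - t0))) (by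
      intro θ hθ
      rcases eq_or_lt_of_le hθ.2 with h5 | h5
      · subst h5; rw [one_smul, add_sub_cancel]; exact hland.2.2.2.1
      · have := (hP (t0 + θ * (t - t0))
          ⟨by nlinarith [hθ.1, ht.1], by nlinarith [ht.1]⟩).1.2.2.2.1
        convert this using 1
        ext <;> simp; ring)
    have hvec : vec e.2 d ((t, τ0 - b * (t - t0)) - (t0, τ0)) = (a * (t - t0)) • f.2 := by
      simp only [vec, Prod.fst_sub, Prod.snd_sub, hab]; module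
    rw [hvec, h.2.2] at h4
    have h6 := hf.1.range h.2.1 h4.1
    exact ⟨hland, h6.1, h4.2.symm.trans h6.2⟩

theorem shadow_neg (hS : F.Cx S) (he : F.IsSC e) (hd : wedge e.2 d ≠ 0) (ho : F.Out S e d)
    (hf : f ∈ F.Bd S) {a b : ℝ} (hab : e.2 = a • f.2 + b • d) {t0 τ0 s0 : ℝ}
    (h : F.Good S e d f t0 τ0 s0) :
    (∃ t ∈ Ioo (-1) t0, (∃ τ ≤ τ0 - b * (t - t0), F.Vis S e d t τ) ∧
      ∀ t' ∈ Ioc t t0, F.Good S e d f t' (τ0 - b * (t' - t0)) (s0 + a * (t' - t0))) ∨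
    ∀ t ∈ Ioc (-1) t0, F.Good S e d f t (τ0 - b * (t - t0)) (s0 + a * (t - t0)) := by
  have h' : F.Good S (rev e) d f (-t0) τ0 s0 := by
    have : F.Good S (rev (rev e)) d f t0 τ0 s0 := by simpa using h
    exact this.rev
  rcases shadow hS he.rev (by simpa using hd) ho.rev hf (a := -a) (b := -b)
    (by rw [rev_snd, hab]; module) h' with ⟨t, ht, ⟨τ, hτ, hv⟩, h1⟩ | h1
  · left
    refine ⟨-t, ⟨by linarith [ht.2], by linarith [ht.1]⟩, ⟨τ, by linarith, hv.rev⟩, ?_⟩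
    intro t' ht'
    have := (h1 (-t') ⟨by linarith [ht'.2], by linarith [ht'.1]⟩).rev
    convert this using 1 <;> ring
  · right
    intro t' ht'
    have := (h1 (-t') ⟨by linarith [ht'.2], by linarith [ht'.1]⟩).rev
    convert this using 1 <;> ring

theorem vis_card {ι : Type*} (A : Finset ι) (x : ι → X) (τ : ι → ℝ)
    (h : ∀ i ∈ A, x i ∈ S ∧ 0 < τ i ∧ F.Hit (x i) (τ i • d) ∧
      ∀ σ ∈ Ioo 0 (τ i), F.go (x i) (σ • d) ∉ S) (hinj : InjOn x A) : A.card ≤ F.K0 := by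
  classical
  have : ∀ᶠ r in 𝓝[>] (0 : ℝ), ∀ i ∈ A, r < τ i :=
    A.eventually_all.2 fun i hi => nhdsWithin_le_nhds (gt_mem_nhds (h i hi).2.1)
  obtain ⟨r, hr0, hr⟩ := (Eventually.and (self_mem_nhdsWithin : Ioi (0 : ℝ) ∈ 𝓝[>] 0) this).exists
  have hr0 : 0 < r := hr0
  obtain ⟨G, hG, hG2⟩ := F.hit_finite (r • d)
  have hD : ∀ i ∈ A, (τ i - r) • d ∈ F.D (x i) := by
    intro i hi
    have h1 := (h i hi).2.1
    have := (h i hi).2.2.1.1 ((τ i - r) / τ i)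
      ⟨div_nonneg (by linarith [hr i hi]) h1.le, (div_lt_one h1).2 (by linarith)⟩
    rwa [smul_smul, div_mul_cancel₀ _ h1.ne'] at this
  refine (Finset.card_le_card_of_injOn (fun i => F.go (x i) ((τ i - r) • d)) ?_ ?_).trans hG
  · intro i hi
    have h1 := (h i hi).2.1
    have := (h i hi).2.2.1.shift (t := (τ i - r) / τ i)
      ⟨div_nonneg (by linarith [hr i hi]) h1.le, (div_lt_one h1).2 (by linarith)⟩
    rw [smul_smul, smul_smul, div_mul_cancel₀ _ h1.ne',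
      show (1 - (τ i - r) / τ i) * τ i = r by field_simp; ring] at this
    exact hG2 _ this
  · have key : ∀ i ∈ A, ∀ j ∈ A, τ i ≤ τ j →
        F.go (x i) ((τ i - r) • d) = F.go (x j) ((τ j - r) • d) → x i = x j := by
      intro i hi j hj hij heq
      have b := F.back (hD i hi)
      rw [heq, ← neg_smul] at b
      have l := (F.line (hD j hj) b.1).2
      rw [b.2] at l
      rcases eq_or_lt_of_le hij with h1 | h1
      · rw [h1, add_neg_cancel, zero_smul, F.go_zero] at l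
        exact l.symm
      · exfalso
        apply (h j hj).2.2.2 (τ j - r + -(τ i - r)) ⟨by linarith, by linarith [hr i hi]⟩
        rw [l]; exact (h i hi).1
    intro i hi j hj heq
    apply hinj hi hj
    rcases le_total (τ i) (τ j) with h1 | h1
    · exact key i hi j hj h1 heq
    · exact (key j hj i hi h1 heq.symm).symm

end Flow

end Pool.Agent.Lib.MP_1e1a64_an
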