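import Pool.Agent.Lib.MP_1e1a64_an.Meas
import Pool.Agent.Lib.MP_1e1a64_an.Shadow

/-!
Geometry of surfaces with a lower bound on the systole.
-/

open Set Filter Topology MeasureTheory Metric Function
open scoped ENNReal NNReal

namespace Pool.Agent.Lib.MP_1e1a64_an

noncomputable def push (ρ : ℝ) (w : ℂ) : ℂ := min 0 (1 - ρ / ‖w‖) • w

namespace Flow

variable {X : Type*} [TopologicalSpace X] {F : Flow X}

variable (F) in
def Big (ρ : ℝ) (x : X) : Prop := ball (0 : ℂ) ρ ⊆ F.D x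

theorem not_big {ρ : ℝ} {x : X} (hx : x ∉ F.sing) (h : ¬ F.Big ρ x) :
    ∃ w, F.Hit x w ∧ ‖w‖ < ρ := by
  obtain ⟨z, hz, hn⟩ := not_subset.1 h
  obtain ⟨a, ha, hh⟩ := exit hx hn
  refine ⟨_, hh, ?_⟩
  rw [mem_ball_zero_iff] at hz
  rw [norm_smul, Real.norm_eq_abs, abs_of_pos ha.1]; nlinarith [ha.2, norm_nonneg z]

theorem Big.move {ρ r : ℝ} {x : X} (h : F.Big ρ x) {z : ℂ} (hz : ‖z‖ + r ≤ ρ) (hr : 0 < r) :
    F.Big r (F.go x z) := by
  intro w hw
  rw [mem_ball_zero_iff] at hw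
  have := (F.coc (convex_ball 0 ρ) h (z := z) (z' := z + w) (by rw [mem_ball_zero_iff]; linarith)
    (by rw [mem_ball_zero_iff]; linarith [norm_add_le z w])).1
  simpa using this

theorem Big.coc {ρ : ℝ} {x : X} (h : F.Big ρ x) {z w : ℂ} (hz : ‖z‖ < ρ) (hw : ‖z + w‖ < ρ) :
    w ∈ F.D (F.go x z) ∧ F.go (F.go x z) w = F.go x (z + w) := by
  simpa using F.coc (convex_ball 0 ρ) h (z := z) (z' := z + w) (by simpa using hz) (by simpa using hw)

variable [T2Space X] [CompactSpace X] {ε : ℝ}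

theorem Sys.big (hs : F.Sys ε) {ρ : ℝ} {x : X} {w : ℂ} (h : F.Hit x w) (h1 : ρ ≤ ‖w‖)
    (h2 : ‖w‖ < ε) : F.Big ρ x := by
  intro z hz
  rw [mem_ball_zero_iff] at hz
  refine hs.slit h h2 (by linarith) fun s h3 h4 => ?_
  rw [h4, norm_smul, Real.norm_eq_abs, abs_of_pos (by linarith)] at hz
  nlinarith [norm_nonneg w]

theorem Sys.visit (hs : F.Sys ε) {ρ : ℝ} {e : X × ℂ} (he : F.IsSC e) {t t' : ℝ}
    (ht : t ∈ Ioo (-1 : ℝ) 1) (ht' : t' ∈ Ioo (-1 : ℝ) 1) (h1 : ¬ F.Big ρ (F.pt e t))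
    (h2 : ¬ F.Big ρ (F.pt e t')) (h : ‖(t' - t) • e.2‖ + ρ ≤ ε) : ‖(t' - t) • e.2‖ < 2 * ρ := by
  obtain ⟨w, hw, n1⟩ := not_big (he.pt_reg ht) h1
  obtain ⟨w', hw', n2⟩ := not_big (he.pt_reg ht') h2
  have h3 := he.step ht ht'
  have n0 := norm_nonneg ((t' - t) • e.2)
  have h4 := hs.move hw (by linarith) (by linarith [norm_nonneg w]) h3.1
  rw [h3.2] at h4
  have := hs.unique h4 hw' (by linarith [norm_sub_le w ((t' - t) • e.2)]) (by linarith)
  have e1 : (t' - t) • e.2 = w - w' := by rw [← this]; ring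
  rw [e1]
  linarith [norm_sub_le w w']

theorem Sys.push_mem (hs : F.Sys ε) {ρ : ℝ} (hρ : 0 < ρ) (hρε : ρ < ε) {x : X} {w : ℂ}
    (h : F.Hit x w) (h2 : ‖w‖ < ε) : push ρ w ∈ F.D x ∧ F.Big ρ (F.go x (push ρ w)) := by
  have hw : 0 < ‖w‖ := norm_pos_iff.2 h.ne_zero
  have hc : min 0 (1 - ρ / ‖w‖) ≤ 0 := min_le_left _ _
  have e1 : (1 - ρ / ‖w‖) * ‖w‖ = ‖w‖ - ρ := by field_simp
  have n1 : ‖push ρ w‖ < ε := by
    rw [push, norm_smul, Real.norm_eq_abs, abs_of_nonpos hc]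
    rcases min_cases 0 (1 - ρ / ‖w‖) with h3 | h3 <;> rw [h3.1] <;> nlinarith
  have hD : push ρ w ∈ F.D x := hs.slit h h2 n1 fun s h3 h4 => by
    have := smul_left_injective ℝ h.ne_zero h4
    linarith
  have n2 : ‖w - push ρ w‖ = (1 - min 0 (1 - ρ / ‖w‖)) * ‖w‖ := by
    rw [show w - push ρ w = (1 - min 0 (1 - ρ / ‖w‖)) • w by rw [push]; module, norm_smul,
      Real.norm_eq_abs, abs_of_pos (by linarith)]
  refine ⟨hD, hs.big (hs.move h h2 n1 hD) ?_ ?_⟩ <;> rw [n2] <;>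
    rcases min_cases 0 (1 - ρ / ‖w‖) with h3 | h3 <;> rw [h3.1] <;> nlinarith [h3.2]

theorem Sys.no_gap (hs : F.Sys ε) {ρ a η : ℝ} (hρ : 0 < ρ) (hρε : ρ < ε) (ha : 0 < a) {H : X → ℝ}
    (hH : ∀ x, F.Big ρ x → ∀ z : ℂ, ‖z‖ < a → |H (F.go x z) - H x| ≤ η) {x x' : X}
    (hx : F.Big ρ x) (hx' : F.Big ρ x') {s : ℝ} (h1 : H x ≤ s) (h2 : s + η < H x') :
    ∃ y, F.Big ρ y ∧ s < H y ∧ H y ≤ s + η := by
  classical
  let π : X → X := fun x =>
    if h : ∃ w, F.Hit x w ∧ ‖w‖ < ε then F.go x (push ρ h.choose) else x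
  have π1 : ∀ x w, F.Hit x w → ‖w‖ < ε → π x = F.go x (push ρ w) := by
    intro x w h1 h2
    have h : ∃ w, F.Hit x w ∧ ‖w‖ < ε := ⟨w, h1, h2⟩
    simp only [π, dif_pos h]
    rw [hs.unique h.choose_spec.1 h1 h.choose_spec.2 h2]
  have π2 : ∀ x, F.Big ρ x → π x = x := by
    intro x hx
    by_cases h : ∃ w, F.Hit x w ∧ ‖w‖ < ε
    · obtain ⟨w, h1, h2⟩ := h
      have h3 : ρ ≤ ‖w‖ := by
        by_contra h3
        exact h1.2 (hx (by simpa using h3))
      have hw : 0 < ‖w‖ := norm_pos_iff.2 h1.ne_zero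
      rw [π1 x w h1 h2, push, min_eq_left (sub_nonneg.2 ((div_le_one hw).2 h3)), zero_smul,
        F.go_zero]
    · simp only [π, dif_neg h]
  have π3 : ∀ x, x ∉ F.sing → (∃ w, F.Hit x w ∧ ‖w‖ < ε) ∨ F.Big ε x := fun x hx => by
    by_contra h
    rw [not_or] at h
    exact h.1 (not_big hx h.2)
  have π4 : ∀ x, x ∉ F.sing → F.Big ρ (π x) := by
    intro x hx
    rcases π3 x hx with ⟨w, h1, h2⟩ | h
    · rw [π1 x w h1 h2]; exact (hs.push_mem hρ hρε h1 h2).2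
    · have : F.Big ρ x := (ball_subset_ball hρε.le).trans h
      rwa [π2 x this]
  have π5 : ∀ x, x ∉ F.sing → ∀ᶠ z in 𝓝 (0 : ℂ), ∃ z', ‖z'‖ < a ∧
      π (F.go x z) = F.go (π x) z' := by
    intro x hx
    rcases π3 x hx with ⟨w, h1, h2⟩ | h
    · obtain ⟨C, hC, hO, hD, h0, hz⟩ := F.tube (hs.push_mem hρ hρε h1 h2).1
      have hw : ‖w - 0‖ ≠ 0 := by simpa using h1.ne_zero
      have c1 : ContinuousAt (fun z => z + push ρ (w - z)) 0 := by
        unfold push; fun_prop (disch := exact hw)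
      have c2 : ContinuousAt (fun z => ‖z + push ρ (w - z) - push ρ w‖) 0 := by fun_prop
      have c3 : ContinuousAt (fun z : ℂ => ‖w - z‖) 0 := by fun_prop
      filter_upwards [hO.mem_nhds h0, c1.eventually (hO.mem_nhds (by simpa using hz)),
        c2.eventually (gt_mem_nhds (by simpa using ha)),
        c3.eventually (gt_mem_nhds (by simpa using h2)),
        ball_mem_nhds (0 : ℂ) (hρ.trans hρε)] with z a1 a2 a3 a4 a5
      refine ⟨_, a3, ?_⟩
      rw [π1 _ _ (hs.move h1 h2 (by simpa using a5) (hD a1)) a4, π1 x w h1 h2,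
        (F.coc hC hD hz a2).2, ← (F.coc hC hD a1 a2).2, add_sub_cancel_left]
    · filter_upwards [ball_mem_nhds (0 : ℂ) (lt_min ha (sub_pos.2 hρε))] with z hz
      rw [mem_ball_zero_iff, lt_min_iff] at hz
      exact ⟨z, hz.1, by rw [π2 _ (h.move (by linarith [hz.2]) hρ),
        π2 x ((ball_subset_ball hρε.le).trans h)]⟩
  by_contra hn
  push Not at hn
  have hr : ∀ x, F.Big ρ x → x ∉ F.sing := fun x hx => F.reg_of_mem (hx (mem_ball_self hρ))
  have := preconn_ind F.conn (P := fun x => H (π x) ≤ s) (fun y hy => by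
    rw [← F.map_nhds y hy, eventually_map]
    filter_upwards [π5 y hy] with z ⟨z', h3, h4⟩ h5
    have h6 := abs_le.1 (hH _ (π4 y hy) z' h3)
    rw [← h4] at h6
    constructor <;> intro h7 <;> by_contra h8
    · linarith [hn _ (π4 y hy) (not_le.1 h8), h6.1]
    · linarith [hn _ (π4 _ h5) (not_le.1 h8), h6.2]) (hr x hx) (hr x' hx') (by rwa [π2 x hx])
  rw [π2 x' hx'] at this
  have h0 := hH x hx 0 (by simpa using ha)
  linarith [abs_nonneg (H (F.go x 0) - H x)]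

variable [MeasurableSpace X] {μ : Measure X} {c : ℝ≥0}

theorem Sys.measure_not_big (hs : F.Sys ε) (h : F.IsArea μ c) {ρ : ℝ} (hρ : 0 < ρ)
    (hρε : 2 * ρ ≤ ε) : μ {x | ¬ F.Big ρ x} ≤ 2 * (F.K0 * (c * volume (ball (0 : ℂ) ρ))) := by
  have key : ∀ v : ℂ, ∃ Z, μ Z ≤ F.K0 * (c * volume (ball (0 : ℂ) ρ)) ∧
      ∀ y, F.Hit y v → F.go y '' (ball v ρ ∩ F.D y) ⊆ Z := by
    intro v
    obtain ⟨G, hG, hG2⟩ := F.hit_finite v
    refine ⟨⋃ y ∈ G, F.go y '' (ball v ρ ∩ F.D y), (measure_biUnion_finset_le _ _).trans ?_,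
      fun y hy => subset_biUnion_of_mem (u := fun y => F.go y '' (ball v ρ ∩ F.D y)) (hG2 y hy)⟩
    refine (Finset.sum_le_card_nsmul _ _ (c * volume (ball (0 : ℂ) ρ)) fun y _ => ?_).trans ?_
    · rw [← Measure.addHaar_ball_center volume v]
      exact h.image_inter_le y measurableSet_ball
    · rw [nsmul_eq_mul]; gcongr
  obtain ⟨Z1, m1, s1⟩ := key ρ
  obtain ⟨Z2, m2, s2⟩ := key (-ρ)
  have : {x | ¬ F.Big ρ x} ⊆ F.sing ∪ (Z1 ∪ Z2) := by
    intro x hx
    by_cases hr : x ∈ F.sing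
    · exact Or.inl hr
    obtain ⟨w, hw, n1⟩ := not_big hr hx
    have k2 : ∀ v : ℂ, ‖v‖ = ρ → (∀ s : ℝ, 1 ≤ s → w - v ≠ s • w) →
        ∃ y, F.Hit y v ∧ x ∈ F.go y '' (ball v ρ ∩ F.D y) := by
      intro v hv hsl
      have n2 : ‖w - v‖ < ε := by linarith [norm_sub_le w v]
      have hD := hs.slit hw (by linarith) n2 hsl
      refine ⟨_, by simpa using hs.move hw (by linarith) n2 hD, _, ⟨?_, (F.back hD).1⟩,
        (F.back hD).2⟩
      rw [mem_ball, dist_eq_norm, show -(w - v) - v = -w by ring, norm_neg]; exact n1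
    right
    by_cases h1 : ∀ s : ℝ, 1 ≤ s → w - ρ ≠ s • w
    · obtain ⟨y, h2, h3⟩ := k2 ρ (by simp [hρ.le]) h1
      exact Or.inl (s1 y h2 h3)
    · push Not at h1
      obtain ⟨s, h1, h2⟩ := h1
      obtain ⟨y, h3, h4⟩ := k2 (-ρ) (by simp [hρ.le]) (fun s' h3 h4 => by
        have : (s + s' - 2) • w = 0 := by
          rw [sub_smul, add_smul, ← h2, ← h4]; simp [two_mul]
        have h5 : s = 1 := by
          have := (smul_eq_zero.1 this).resolve_right hw.ne_zero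
          linarith
        rw [h5, one_smul, sub_eq_self] at h2
        exact hρ.ne' (by exact_mod_cast h2))
      exact Or.inr (s2 y h3 h4)
  refine (measure_mono this).trans ((measure_union_le _ _).trans ?_)
  rw [h.sing, zero_add, two_mul]
  exact (measure_union_le _ _).trans (add_le_add m1 m2)

variable [BorelSpace X] [IsProbabilityMeasure μ]

theorem Sys.osc (hs : F.Sys ε) (h : F.IsArea μ c) (hne : F.sing.Nonempty) {ρ a η : ℝ}
    (hρε : 4 * ρ ≤ ε) (ha : 0 < a) (haρ : a ≤ ρ) {H : X → ℝ}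
    (hH : ∀ x, F.Big ρ x → ∀ z : ℂ, ‖z‖ < a → |H (F.go x z) - H x| ≤ η) {P : ℕ}
    (hP : 1 < P * (c * volume (ball (0 : ℂ) (a / 2)))) {x x' : X}
    (hx : F.Big ρ x) (hx' : F.Big ρ x') : H x' ≤ H x + 2 * P * η := by
  by_contra hn
  have hρ : 0 < ρ := ha.trans_le haρ
  have hη : 0 ≤ η := (abs_nonneg _).trans (hH x hx 0 (by simpa using ha))
  have : ∀ i : ℕ, ∃ y, i < P → F.Big ρ y ∧ H x + 2 * i * η < H y ∧ H y ≤ H x + 2 * i * η + η := by
    intro i
    by_cases hi : i < P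
    · have h1 : (i : ℝ) + 1 ≤ P := by exact_mod_cast hi
      obtain ⟨y, hy⟩ := hs.no_gap hρ (by linarith) ha hH hx hx' (s := H x + 2 * i * η)
        (le_add_of_nonneg_right (by positivity)) (by nlinarith [not_le.1 hn])
      exact ⟨y, fun _ => hy⟩
    · exact ⟨x, fun h => absurd h hi⟩
  choose y hy using this
  have hsub : ball (0 : ℂ) (a / 2) ⊆ ball 0 ρ := ball_subset_ball (by linarith)
  have hdis : ∀ i < P, ∀ j < P, i < j →
      Disjoint (F.go (y i) '' ball 0 (a / 2)) (F.go (y j) '' ball 0 (a / 2)) := by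
    intro i hi j hj hij
    rw [Set.disjoint_left]
    rintro _ ⟨z, hz, rfl⟩ ⟨z', hz', h1⟩
    rw [mem_ball_zero_iff] at hz hz'
    have n1 : ‖z + -z'‖ < a := by linarith [norm_add_le z (-z'), norm_neg z']
    have h2 := ((hy i hi).1.coc (z := z) (w := -z') (by linarith) (by linarith)).2
    rw [← h1, (F.back ((hy j hj).1 (by rw [mem_ball_zero_iff]; linarith))).2] at h2
    have h3 := abs_le.1 (hH _ (hy i hi).1 _ n1)
    rw [← h2] at h3
    have h4 : (i : ℝ) + 1 ≤ j := by exact_mod_cast hij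
    nlinarith [(hy i hi).2.2, (hy j hj).2.1, h3.2]
  have h1 := measure_biUnion_finset (μ := μ) (s := Finset.range P)
    (f := fun i => F.go (y i) '' ball 0 (a / 2)) (fun i hi j hj hij => by
      have hi' := Finset.mem_range.1 hi
      have hj' := Finset.mem_range.1 hj
      rcases lt_or_gt_of_ne hij with h1 | h1
      · exact hdis i hi' j hj' h1
      · exact (hdis j hj' i hi' h1).symm) (fun i hi =>
      measurableSet_image (hsub.trans (hy i (Finset.mem_range.1 hi)).1) measurableSet_ball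
        ((hs.inj hne hρε (hy i (Finset.mem_range.1 hi)).1).mono hsub))
  rw [Finset.sum_congr rfl fun i hi => h.image_eq (hsub.trans (hy i (Finset.mem_range.1 hi)).1)
    measurableSet_ball ((hs.inj hne hρε (hy i (Finset.mem_range.1 hi)).1).mono hsub)] at h1
  simp only [Finset.sum_const, Finset.card_range, nsmul_eq_mul] at h1
  exact absurd (h1 ▸ prob_le_one) (not_le.2 hP)

end Flow

end Pool.Agent.Lib.MP_1e1a64_an
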