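import Pool.Agent.Lib.MP_1e1a64_an.Norms
import Pool.Agent.Lib.MP_1e1a64_an.Gen

/-!
Counting badly distributed saddle connections in a sector.
-/

open Set Filter Topology MeasureTheory Metric
open scoped ENNReal NNReal

namespace Pool.Agent.Lib.MP_1e1a64_an

open Classical in
theorem tree {ι : Type*} (Γ : Finset ι) (s : ι → ℝ) {β : ℕ} (hβ : 1 ≤ β) (G : ι → ℕ → ℝ)
    (Th : ι → ℕ → Prop) {κ C2 E : ℝ} (hκ : 0 < κ) (hC : 0 ≤ C2) (hE : 0 ≤ E) (N : ℕ)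
    (G1 : ∀ γ n, 1 ≤ G γ n)
    (hT : ∀ γ0 ∈ Γ, ((Γ.filter fun γ => |s γ - s γ0| * ((β : ℝ) ^ N) ^ 2 ≤ 2).card : ℝ) ≤ E * G γ0 N)
    (hS : ∀ γ n, G γ (n + 1) ≤ β * G γ n)
    (hc : ∀ γ0 n (J : Finset ℕ) (r : ℕ → ι), (∀ j ∈ J, |s (r j) - s γ0| * ((β : ℝ) ^ n) ^ 2 ≤ 2 ∧
      ⌊((s (r j) - s γ0) * ((β : ℝ) ^ n) ^ 2 + 2) * β ^ 2 / 2⌋₊ = j) →
      ∑ j ∈ J, G (r j) (n + 1) ≤ C2 + 2 * κ * G γ0 n)
    (hth : ∀ γ0 n γ, G γ0 n < C2 / κ → |s γ - s γ0| * ((β : ℝ) ^ n) ^ 2 ≤ 2 → Th γ n) :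
    ∀ d n, n + d = N → ∀ γ0 ∈ Γ,
      ∑ γ ∈ Γ.filter fun γ => |s γ - s γ0| * ((β : ℝ) ^ n) ^ 2 ≤ 2,
        (1 / (1 + C2 / κ)) ^ ((Finset.Ico n N).filter (Th γ)).card ≤
      E * (∏ i ∈ Finset.Ico n N, if ∃ γ ∈ Γ, ∃ γ' ∈ Γ, |s γ - s γ'| * ((β : ℝ) ^ i) ^ 2 ≤ 2 ∧
        2 < |s γ - s γ'| * ((β : ℝ) ^ (i + 1)) ^ 2 then 3 * κ else β) * G γ0 n := by
  have hβ0 : (0 : ℝ) < β := by exact_mod_cast hβ
  have hB : 0 < 1 + C2 / κ := by positivity
  have hB1 : 1 / (1 + C2 / κ) ≤ 1 := (div_le_one hB).2 (le_add_of_nonneg_right (by positivity))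
  intro d
  induction d with
  | zero =>
    rintro n rfl γ0 h0
    simpa using hT γ0 h0
  | succ d ih =>
    intro n hn γ0 h0
    have hlt : n < N := by omega
    replace ih := ih (n + 1) (by omega)
    rw [Finset.prod_eq_prod_Ico_succ_bot hlt]
    set A := ∏ i ∈ Finset.Ico (n + 1) N, if ∃ γ ∈ Γ, ∃ γ' ∈ Γ,
      |s γ - s γ'| * ((β : ℝ) ^ i) ^ 2 ≤ 2 ∧ 2 < |s γ - s γ'| * ((β : ℝ) ^ (i + 1)) ^ 2
      then 3 * κ else (β : ℝ) with hA
    have A0 : 0 ≤ E * A := mul_nonneg hE (Finset.prod_nonneg fun i _ => by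
      split_ifs <;> positivity)
    have w1 : ∀ γ, (1 / (1 + C2 / κ)) ^ ((Finset.Ico n N).filter (Th γ)).card ≤
        (1 / (1 + C2 / κ)) ^ ((Finset.Ico (n + 1) N).filter (Th γ)).card := fun γ =>
      pow_le_pow_of_le_one (by positivity) hB1 (Finset.card_le_card
        (Finset.filter_subset_filter _ (Finset.Ico_subset_Ico_left (by omega))))
    split_ifs with hcr
    · set nd := Γ.filter fun γ => |s γ - s γ0| * ((β : ℝ) ^ n) ^ 2 ≤ 2 with hnd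
      set bk := fun γ => ⌊((s γ - s γ0) * ((β : ℝ) ^ n) ^ 2 + 2) * β ^ 2 / 2⌋₊ with hbk
      have : Nonempty ι := ⟨γ0⟩
      choose! r hr1 hr2 using fun j (hj : j ∈ nd.image bk) => Finset.mem_image.1 hj
      have s1 : ∑ γ ∈ nd, (1 / (1 + C2 / κ)) ^ ((Finset.Ico (n + 1) N).filter (Th γ)).card ≤
          E * A * (C2 + 2 * κ * G γ0 n) := by
        rw [← Finset.sum_fiberwise_of_maps_to (fun γ hγ => Finset.mem_image_of_mem bk hγ)]
        refine le_trans (Finset.sum_le_sum fun j hj => ?_) ((Finset.mul_sum _ _ _).symm.trans_le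
          (mul_le_mul_of_nonneg_left (hc γ0 n _ r fun j hj =>
            ⟨(Finset.mem_filter.1 (hr1 j hj)).2, hr2 j hj⟩) A0))
        refine le_trans (Finset.sum_le_sum_of_subset_of_nonneg (fun γ hγ => ?_)
          fun _ _ _ => by positivity) (ih (r j) (Finset.mem_filter.1 (hr1 j hj)).1)
        obtain ⟨h1, h2⟩ := Finset.mem_filter.1 hγ
        refine Finset.mem_filter.2 ⟨(Finset.mem_filter.1 h1).1, ?_⟩
        have k : ∀ γ ∈ nd, bk γ = j → (j : ℝ) ≤ ((s γ - s γ0) * ((β : ℝ) ^ n) ^ 2 + 2) * β ^ 2 / 2 ∧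
            ((s γ - s γ0) * ((β : ℝ) ^ n) ^ 2 + 2) * β ^ 2 / 2 < j + 1 := by
          intro γ h1 h2
          have h3 := (Finset.mem_filter.1 h1).2
          rw [← abs_of_pos (show 0 < ((β : ℝ) ^ n) ^ 2 by positivity), ← abs_mul] at h3
          exact (Nat.floor_eq_iff (div_nonneg (mul_nonneg (by linarith [(abs_le.1 h3).1])
            (by positivity)) zero_le_two)).1 h2
        have k1 := k γ h1 h2
        have k2 := k _ (hr1 j hj) (hr2 j hj)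
        rw [← abs_of_pos (show 0 < ((β : ℝ) ^ (n + 1)) ^ 2 by positivity), ← abs_mul, pow_succ _ n,
          mul_pow, abs_le]
        constructor <;> linarith [k1.1, k1.2, k2.1, k2.2]
      have g1 := G1 γ0 n
      rcases lt_or_ge (G γ0 n) (C2 / κ) with h | h
      · have w2 : ∀ γ ∈ nd, (1 / (1 + C2 / κ)) ^ ((Finset.Ico n N).filter (Th γ)).card =
            1 / (1 + C2 / κ) * (1 / (1 + C2 / κ)) ^ ((Finset.Ico (n + 1) N).filter (Th γ)).card := by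
          intro γ hγ
          rw [← Finset.insert_Ico_add_one_left_eq_Ico hlt, Finset.filter_insert,
            if_pos (hth γ0 n γ h (Finset.mem_filter.1 hγ).2), Finset.card_insert_of_notMem (by simp),
            pow_succ']
        rw [Finset.sum_congr rfl w2, ← Finset.mul_sum, one_div_mul_eq_div, div_le_iff₀ hB]
        refine s1.trans ?_
        have : C2 + 2 * κ * G γ0 n ≤ 3 * κ * G γ0 n * (1 + C2 / κ) := by
          have e : 3 * κ * G γ0 n * (1 + C2 / κ) = 3 * κ * G γ0 n + 3 * C2 * G γ0 n := by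
            field_simp
          rw [e]; nlinarith
        calc _ ≤ E * A * (3 * κ * G γ0 n * (1 + C2 / κ)) := by gcongr
          _ = _ := by ring
      · refine (Finset.sum_le_sum fun γ _ => w1 γ).trans (s1.trans ?_)
        rw [div_le_iff₀ hκ] at h
        calc _ ≤ E * A * (3 * κ * G γ0 n) := by gcongr; linarith
          _ = _ := by ring
    · push Not at hcr
      refine (Finset.sum_le_sum fun γ _ => w1 γ).trans ((Finset.sum_le_sum_of_subset_of_nonneg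
        (fun γ hγ => ?_) fun _ _ _ => by positivity).trans ((ih γ0 h0).trans ?_))
      · obtain ⟨h1, h2⟩ := Finset.mem_filter.1 hγ
        exact Finset.mem_filter.2 ⟨h1, hcr γ h1 γ0 h0 h2⟩
      · calc _ ≤ E * A * (β * G γ0 n) := mul_le_mul_of_nonneg_left (hS γ0 n) A0
          _ = _ := by ring

theorem exists_base (W : ℕ) {η : ℝ} (hη : 0 < η) :
    ∃ β : ℕ, 2 ≤ β ∧ (90 * (1 + Real.log (2 * β ^ 2 + 2))) ^ W ≤ (β : ℝ) ^ η := by
  have h1 := (isLittleO_log_rpow_rpow_atTop (W : ℝ) hη).bound (c := 1 / 450 ^ W) (by positivity)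
  obtain ⟨β, h2, h3⟩ := ((tendsto_natCast_atTop_atTop.eventually h1).and
    (eventually_ge_atTop 3)).exists
  have h4 : (3 : ℝ) ≤ β := by exact_mod_cast h3
  have l1 : 1 ≤ Real.log β := by
    rw [Real.le_log_iff_exp_le (by linarith)]
    linarith [Real.exp_one_lt_d9]
  have l2 : Real.log (2 * β ^ 2 + 2) ≤ 4 * Real.log β := by
    have : Real.log ((β : ℝ) ^ 4) = 4 * Real.log β := by rw [Real.log_pow]; norm_num
    rw [← this]
    refine Real.log_le_log (by positivity) ?_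
    have : 9 ≤ (β : ℝ) ^ 2 := by nlinarith
    nlinarith
  refine ⟨β, by omega, ?_⟩
  rw [Real.rpow_natCast, Real.norm_of_nonneg (by positivity), Real.norm_of_nonneg (by positivity),
    one_div_mul_eq_div, le_div_iff₀ (by positivity), ← mul_pow] at h2
  refine le_trans ?_ h2
  have : 0 ≤ Real.log (2 * β ^ 2 + 2) := Real.log_nonneg (by nlinarith)
  exact pow_le_pow_left₀ (by positivity) (by linarith) W

theorem wedge_slp {u v : ℂ} (hu : u.im ≠ 0) (hv : v.im ≠ 0) :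
    wedge u v = (slp u - slp v) * (u.im * v.im) := by
  simp only [wedge, slp]; field_simp

namespace Flow

variable {X : Type*} [TopologicalSpace X] {F : Flow X} [T2Space X] [CompactSpace X]

variable (F) in
theorem crit_card : ∃ (D : ℕ) (C : ℝ), ∀ (β L l : ℕ) (R : ℝ), 1 ≤ β → 1 ≤ R → R ≤ (β : ℝ) ^ l →
    C ≤ (β : ℝ) ^ L → ∀ T : Finset ℕ, (∀ i ∈ T, ∃ e e', F.IsSC e ∧ F.IsSC e' ∧ |e.2.re| ≤ e.2.im ∧
      |e'.2.re| ≤ e'.2.im ∧ ‖e.2‖ ≤ R ∧ ‖e'.2‖ ≤ R ∧ |slp e.2 - slp e'.2| * ((β : ℝ) ^ i) ^ 2 ≤ 2 ∧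
        2 < |slp e.2 - slp e'.2| * ((β : ℝ) ^ (i + 1)) ^ 2) →
      T.card ≤ D * (L + 1 + (D + 1) * l) := by
  obtain ⟨P, C, hC, hP⟩ := F.exists_gen
  obtain ⟨ε, hε, hs⟩ := F.exists_sys
  set D := Fintype.card (P × P) with hD
  refine ⟨D, 1 + (D + 1) * ((D + 1) * (2 * C + 1) ^ 2) ^ D * 4 / ε ^ 2,
    fun β L l R hβ hR hl hL T hT => card_levels T fun g hg hgap => ?_⟩
  have hβ1 : (1 : ℝ) ≤ β := by exact_mod_cast hβ
  choose e e' h1 h2 h3 h4 h5 h6 h7 h8 using fun i => hT _ (hg i)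
  have y1 : ∀ e, F.IsSC e → |e.2.re| ≤ e.2.im → ‖e.2‖ ≤ R → ε / 2 ≤ e.2.im ∧ e.2.im ≤ R := by
    intro e he a b
    have := Complex.norm_le_abs_re_add_abs_im e.2
    rw [abs_of_nonneg ((abs_nonneg _).trans a)] at this
    exact ⟨by linarith [hs e he], (Complex.im_le_norm _).trans b⟩
  have z1 : ∀ i, |wedge ((2 : ℝ) • (e i).2) ((2 : ℝ) • (e' i).2)| =
      4 * |slp (e i).2 - slp (e' i).2| * ((e i).2.im * (e' i).2.im) := fun i => by
    have a := (y1 _ (h1 i) (h3 i) (h5 i)).1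
    have b := (y1 _ (h2 i) (h4 i) (h6 i)).1
    rw [wedge_smul_left, wedge_smul_right, wedge_slp (by linarith) (by linarith), abs_mul, abs_mul,
      abs_mul, abs_of_pos (mul_pos (by linarith) (by linarith) : 0 < (e i).2.im * (e' i).2.im)]
    norm_num; ring
  have z2 : ∀ i, 2 * ε ^ 2 < |wedge ((2 : ℝ) • (e i).2) ((2 : ℝ) • (e' i).2)| *
      ((β : ℝ) ^ (g i + 1)) ^ 2 := fun i => by
    have a := (y1 _ (h1 i) (h3 i) (h5 i)).1
    have b := (y1 _ (h2 i) (h4 i) (h6 i)).1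
    have c : ε ^ 2 / 4 ≤ (e i).2.im * (e' i).2.im := by nlinarith
    rw [z1]
    nlinarith [h8 i, mul_lt_mul_of_pos_right (h8 i) (pow_pos hε 2)]
  have z3 : ∀ i, |wedge ((2 : ℝ) • (e i).2) ((2 : ℝ) • (e' i).2)| * ((β : ℝ) ^ g i) ^ 2 ≤
      8 * R ^ 2 := fun i => by
    have a := y1 _ (h1 i) (h3 i) (h5 i)
    have b := y1 _ (h2 i) (h4 i) (h6 i)
    have c : (e i).2.im * (e' i).2.im ≤ R ^ 2 := by nlinarith [a.1, a.2, b.1, b.2]
    have c0 : 0 ≤ (e i).2.im * (e' i).2.im := by nlinarith [a.1, b.1]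
    rw [z1]
    nlinarith [mul_le_mul (h7 i) c c0 zero_le_two]
  have hrep : ∀ e, F.IsSC e → ‖e.2‖ ≤ R → Rep P ((2 * C + 1) * R) ((2 : ℝ) • e.2) :=
    fun e he h => (hP e he).mono (by nlinarith)
  refine no_separated (ι := P × P) (fun k => wedge k.1 k.2) (A := ((2 * C + 1) * R) ^ 2)
    (one_le_pow₀ (by nlinarith)) le_rfl (fun i => wedge ((2 : ℝ) • (e i).2) ((2 : ℝ) • (e' i).2))
    (fun i => (hrep _ (h1 i) (h5 i)).wedge (hrep _ (h2 i) (h6 i))) (fun i h0 => ?_)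
    fun i j hij => ?_
  · have := z2 i
    rw [h0] at this
    simp only [abs_zero, zero_mul] at this
    nlinarith
  · rw [← hD]
    set K := (D + 1 : ℝ) * ((D + 1) * (2 * C + 1) ^ 2) ^ D with hK
    have K0 : 0 ≤ K := by positivity
    have e1 : (D + 1 : ℝ) * ((D + 1) * ((2 * C + 1) * R) ^ 2) ^ D = K * (R ^ D) ^ 2 := by
      rw [hK, mul_pow (2 * C + 1), ← mul_assoc (D + 1 : ℝ) _ (R ^ 2), mul_pow _ (R ^ 2),
        ← pow_mul R 2 D, ← pow_mul R D 2, mul_comm 2 D, mul_assoc]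
    have a1 : K * 4 ≤ ε ^ 2 * ((β : ℝ) ^ L) ^ 2 := by
      have b1 : K * 4 / ε ^ 2 ≤ (β : ℝ) ^ L := by linarith
      rw [div_le_iff₀ (by positivity)] at b1
      have b2 : (β : ℝ) ^ L ≤ ((β : ℝ) ^ L) ^ 2 := le_self_pow₀ (one_le_pow₀ hβ1) two_ne_zero
      nlinarith [mul_le_mul_of_nonneg_left b2 (pow_pos hε 2).le]
    have a2 : (β : ℝ) ^ (g i + 1) * β ^ L * R ^ (D + 1) ≤ β ^ g j := by
      calc _ ≤ (β : ℝ) ^ (g i + 1) * β ^ L * (β ^ l) ^ (D + 1) := by gcongr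
        _ = β ^ (g i + (L + 1 + (D + 1) * l)) := by ring
        _ ≤ _ := pow_le_pow_right₀ hβ1 (hgap i j hij)
    have a3 := pow_le_pow_left₀ (by positivity) a2 2
    rw [e1]
    set zi := |wedge ((2 : ℝ) • (e i).2) ((2 : ℝ) • (e' i).2)|
    set zj := |wedge ((2 : ℝ) • (e j).2) ((2 : ℝ) • (e' j).2)|
    have p1 : 0 < ((β : ℝ) ^ g j) ^ 2 := by positivity
    refine le_of_mul_le_mul_right ?_ p1
    calc K * (R ^ D) ^ 2 * zj * (β ^ g j) ^ 2 = K * (R ^ D) ^ 2 * (zj * (β ^ g j) ^ 2) := by ring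
      _ ≤ K * (R ^ D) ^ 2 * (8 * R ^ 2) := mul_le_mul_of_nonneg_left (z3 j) (by positivity)
      _ = K * 4 * (2 * (R ^ (D + 1)) ^ 2) := by ring
      _ ≤ ε ^ 2 * ((β : ℝ) ^ L) ^ 2 * (2 * (R ^ (D + 1)) ^ 2) := by gcongr
      _ = 2 * ε ^ 2 * (((β : ℝ) ^ L) ^ 2 * (R ^ (D + 1)) ^ 2) := by ring
      _ ≤ zi * ((β : ℝ) ^ (g i + 1)) ^ 2 * (((β : ℝ) ^ L) ^ 2 * (R ^ (D + 1)) ^ 2) :=
        mul_le_mul_of_nonneg_right (z2 i).le (by positivity)
      _ = zi * ((β : ℝ) ^ (g i + 1) * β ^ L * R ^ (D + 1)) ^ 2 := by ring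
      _ ≤ _ := mul_le_mul_of_nonneg_left a3 (abs_nonneg _)

variable [MeasurableSpace X] [BorelSpace X] [SecondCountableTopology X] {μ : Measure X}
  [IsProbabilityMeasure μ] {c : ℝ≥0}

theorem sector_count (h : F.IsArea μ c) {f : X → ℝ} (hf : Continuous f) (hb : ∀ x, |f x| ≤ 1)
    {ε1 η : ℝ} (h1 : 0 < ε1) (hη : 0 < η) :
    ∃ C : ℝ, ∀ R : ℝ, 1 ≤ R → ∀ Γ : Finset (X × ℂ), (∀ e ∈ Γ, F.IsSC e ∧ |e.2.re| ≤ e.2.im ∧
      ‖e.2‖ ≤ R ∧ ε1 < |F.avg f e - ∫ y, f y ∂μ|) → (Γ.card : ℝ) ≤ C * R ^ (1 + η) := by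
  classical
  rcases F.sing.eq_empty_or_nonempty with h0 | hne
  · refine ⟨0, fun R _ Γ hΓ => ?_⟩
    rcases Γ.eq_empty_or_nonempty with rfl | ⟨e, he⟩
    · simp
    obtain ⟨p, hp, -⟩ := (hΓ e he).1.1.limit
    simp [h0] at hp
  obtain ⟨D, C0, hcrit⟩ := F.crit_card
  obtain ⟨β, hβ, hθ⟩ := exists_base (D * (D + 1)) hη
  have hβ1 : (1 : ℝ) ≤ β := by exact_mod_cast (show 1 ≤ β by omega)
  have hβ0 : (0 : ℝ) < β := by linarith
  obtain ⟨L, hL⟩ := exists_pow_ge hβ C0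
  have hlog : 0 ≤ Real.log (2 * β ^ 2 + 2) := Real.log_nonneg (by nlinarith)
  set θ := 90 * (1 + Real.log (2 * β ^ 2 + 2)) with hθdef
  have θ1 : 1 ≤ θ := by linarith
  set κ := 30 * β * (1 + Real.log (2 * β ^ 2 + 2)) with hκ
  have κ1 : 1 ≤ κ := by nlinarith
  obtain ⟨G, C2, C20, G1, Glip, Gsc, Gstep⟩ := margulis h (b := 2 * β ^ 2 + 1) (C := 3 * β)
    (by nlinarith) (by linarith)
  obtain ⟨m, hm⟩ := few_thick h hne hf hb h1 (ε := 1 / (3 * (C2 / κ + 1))) (by positivity) hβ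
  have B0 : 0 < 1 + C2 / κ := by positivity
  refine ⟨(1 + C2 / κ) ^ m * (6 * F.K0 * (θ ^ (D * (L + 1)) * β ^ η) * (3 * G (Nn 0 1))),
    fun R hR Γ hΓ => ?_⟩
  rcases Γ.eq_empty_or_nonempty with rfl | ⟨γ0, h0⟩
  · have := G1 (Nn 0 1)
    simp only [Finset.card_empty, Nat.cast_zero]; positivity
  have y0 : ∀ e ∈ Γ, 0 < e.2.im := fun e he => by
    refine lt_of_le_of_ne ((abs_nonneg _).trans (hΓ e he).2.1) fun h2 => (hΓ e he).1.ne ?_
    have := (hΓ e he).2.1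
    rw [← h2, abs_nonpos_iff] at this
    exact Complex.ext this h2.symm
  have s1 : ∀ e ∈ Γ, |slp e.2| ≤ 1 := fun e he => by
    rw [slp, abs_div, abs_of_pos (y0 e he), div_le_one (y0 e he)]; exact (hΓ e he).2.1
  obtain ⟨N, hN⟩ : ∃ N : ℕ, ∀ e ∈ Γ, ∀ e' ∈ Γ,
      |slp e.2 - slp e'.2| * ((β : ℝ) ^ N) ^ 2 ≤ 2 → slp e.2 = slp e'.2 := by
    refine (Γ.eventually_all.2 fun e _ => Γ.eventually_all.2 fun e' _ => ?_ :
      ∀ᶠ N : ℕ in atTop, _).exists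
    by_cases h2 : slp e.2 = slp e'.2
    · exact Eventually.of_forall fun _ _ => h2
    have h3 := abs_pos.2 (sub_ne_zero.2 h2)
    have := (tendsto_pow_atTop_atTop_of_one_lt (show (1 : ℝ) < β by exact_mod_cast hβ)).eventually_gt_atTop
      (2 / |slp e.2 - slp e'.2|)
    filter_upwards [this] with N h4 h5
    rw [div_lt_iff₀ h3] at h4
    have b2 : (β : ℝ) ^ N ≤ ((β : ℝ) ^ N) ^ 2 := le_self_pow₀ (one_le_pow₀ hβ1) two_ne_zero
    nlinarith
  have adm : ∀ s (n : ℕ), Adm (Nn s ((β : ℝ) ^ n)) := fun s n => adm_Nn s (by positivity)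
  have key := tree Γ (fun e => slp e.2) (β := β) (by omega) (fun e n => G (Nn (slp e.2) (β ^ n)))
    (fun e n => F.Thick (1 / (3 * (C2 / κ + 1))) (slp e.2) (β ^ n)) (κ := κ) (C2 := C2)
    (E := 6 * F.K0 * R / β ^ N) (by linarith) C20 (by positivity) N (fun _ _ => G1 _)
    (fun γ hγ => by
      have a1 := nc_card (F := F) (Γ.filter fun e => |slp e.2 - slp γ.2| * ((β : ℝ) ^ N) ^ 2 ≤ 2)
        (fun e he => (hΓ e (Finset.mem_filter.1 he).1).1) (fun e he e' he' _ => by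
          obtain ⟨b1, b2⟩ := Finset.mem_filter.1 he
          obtain ⟨b3, b4⟩ := Finset.mem_filter.1 he'
          rw [wedge_slp (y0 e b1).ne' (y0 e' b3).ne', hN e b1 γ hγ b2, hN e' b3 γ hγ b4]; simp)
      have a2 := Gsc _ γ (adm (slp γ.2) N) (hΓ γ hγ).1
      rw [Nn_self (y0 γ hγ) (by positivity), one_div_div, div_le_iff₀ (y0 γ hγ)] at a2
      have a3 : γ.2.im ≤ R := (Complex.im_le_norm _).trans (hΓ γ hγ).2.2.1
      have a4 := G1 (Nn (slp γ.2) (β ^ N))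
      refine le_trans (by exact_mod_cast a1 : _ ≤ 6 * (F.K0 : ℝ)) ?_
      rw [div_mul_eq_mul_div, le_div_iff₀ (by positivity), mul_assoc _ R]
      gcongr
      nlinarith)
    (fun γ n => Glip _ _ _ (adm _ n) hβ1 fun z => by
      rw [pow_succ]; exact Nn_scale _ (by positivity) hβ1 z)
    (fun γ n J r hJ => by
      refine Gstep _ J (fun j => Nn (slp (r j).2) (β ^ (n + 1))) κ (adm _ n) κ1 ?_
        (fun j hj z => by rw [pow_succ]; exact Nn_child (by positivity) hβ1 (hJ j hj).1 z)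
        (fun v hv => by
          rw [pow_succ]; exact sum_Nn (by positivity) (by omega) J (fun j => slp (r j).2) hJ v hv)
      have : J.card ≤ 2 * β ^ 2 + 1 := (Finset.card_le_card (t := Finset.range (2 * β ^ 2 + 1))
        fun j hj => Finset.mem_range.2 (Nat.lt_succ_of_le (by
          rw [← (hJ j hj).2]
          apply Nat.floor_le_of_le
          push_cast
          have := mul_le_mul_of_nonneg_right (le_abs_self (slp (r j).2 - slp γ.2))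
            (sq_nonneg ((β : ℝ) ^ n))
          nlinarith [(hJ j hj).1, pow_pos hβ0 2]))).trans (by simp)
      exact_mod_cast this)
    (fun γ0 n γ a1 a2 e he => by
      have a3 := Gsc _ e (adm (slp γ0.2) n) he
      have a4 := Nn_shift (by positivity) a2 e.2
      have a5 := (adm (slp γ0.2) n).pos he.ne
      rw [div_le_iff₀ a5] at a3
      rw [← Nn_apply, div_le_iff₀ (by positivity)]
      nlinarith [apply_nonneg (Nn (slp γ.2) (β ^ n)) e.2, G1 (Nn (slp γ0.2) (β ^ n))])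
    N 0 (zero_add N) γ0 h0
  obtain ⟨l0, l1, l2⟩ := exists_nat_pow_near hR (show (1 : ℝ) < β by exact_mod_cast hβ)
  set T := (Finset.Ico 0 N).filter fun i => ∃ γ ∈ Γ, ∃ γ' ∈ Γ,
    |slp γ.2 - slp γ'.2| * ((β : ℝ) ^ i) ^ 2 ≤ 2 ∧
      2 < |slp γ.2 - slp γ'.2| * ((β : ℝ) ^ (i + 1)) ^ 2 with hT
  have c1 := hcrit β L (l0 + 1) R (by omega) hR l2.le hL T fun i hi => by
    obtain ⟨e, he, e', he', a⟩ := (Finset.mem_filter.1 hi).2
    exact ⟨e, e', (hΓ e he).1, (hΓ e' he').1, (hΓ e he).2.1, (hΓ e' he').2.1, (hΓ e he).2.2.1,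
      (hΓ e' he').2.2.1, a⟩
  have c2 : (∏ i ∈ Finset.Ico 0 N, if ∃ γ ∈ Γ, ∃ γ' ∈ Γ,
      |slp γ.2 - slp γ'.2| * ((β : ℝ) ^ i) ^ 2 ≤ 2 ∧
        2 < |slp γ.2 - slp γ'.2| * ((β : ℝ) ^ (i + 1)) ^ 2 then 3 * κ else (β : ℝ)) =
      β ^ N * θ ^ T.card := by
    rw [Finset.prod_congr rfl (g := fun i => (β : ℝ) * if ∃ γ ∈ Γ, ∃ γ' ∈ Γ,
      |slp γ.2 - slp γ'.2| * ((β : ℝ) ^ i) ^ 2 ≤ 2 ∧
        2 < |slp γ.2 - slp γ'.2| * ((β : ℝ) ^ (i + 1)) ^ 2 then θ else 1) (fun i _ => by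
          split_ifs
          · rw [hκ, hθdef]; ring
          · simp), Finset.prod_mul_distrib, ← Finset.prod_filter]
    simp [hT]
  have c3 : θ ^ T.card ≤ θ ^ (D * (L + 1)) * β ^ η * R ^ η := by
    calc _ ≤ θ ^ (D * (L + 1 + (D + 1) * (l0 + 1))) := pow_le_pow_right₀ θ1 c1
      _ = θ ^ (D * (L + 1)) * (θ ^ (D * (D + 1))) ^ (l0 + 1) := by ring
      _ ≤ θ ^ (D * (L + 1)) * ((β : ℝ) ^ η) ^ (l0 + 1) := by gcongr
      _ = θ ^ (D * (L + 1)) * (β * (β : ℝ) ^ l0) ^ η := by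
        rw [← pow_succ' (β : ℝ), ← Real.rpow_mul_natCast hβ0.le, mul_comm η,
          Real.rpow_natCast_mul hβ0.le]
      _ ≤ θ ^ (D * (L + 1)) * (β * R) ^ η := by gcongr
      _ = _ := by rw [Real.mul_rpow hβ0.le (by linarith), mul_assoc]
  have c4 : G (Nn (slp γ0.2) (β ^ 0)) ≤ 3 * G (Nn 0 1) := by
    rw [pow_zero]
    exact Glip _ _ _ (adm_Nn 0 one_ne_zero) (by norm_num) fun z =>
      Nn_shift one_pos (by simpa using (s1 γ0 h0).trans one_le_two) z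
  rw [c2, Finset.filter_true_of_mem (fun e he => by
    have := abs_sub (slp e.2) (slp γ0.2)
    simp only [pow_zero, one_pow, mul_one]
    linarith [s1 e he, s1 γ0 h0])] at key
  have c5 := Finset.card_nsmul_le_sum Γ (fun e => (1 / (1 + C2 / κ)) ^ ((Finset.Ico 0 N).filter
    fun n => F.Thick (1 / (3 * (C2 / κ + 1))) (slp e.2) (β ^ n)).card) ((1 / (1 + C2 / κ)) ^ m)
    fun e he => pow_le_pow_of_le_one (by positivity)
      ((div_le_one B0).2 (le_add_of_nonneg_right (by positivity)))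
      (hm e (hΓ e he).1 (hΓ e he).2.1 (hΓ e he).2.2.2 _ fun n hn => (Finset.mem_filter.1 hn).2)
  have c6 := c5.trans (le_of_eq_of_le (by congr) key)
  rw [nsmul_eq_mul, one_div_pow, mul_one_div, div_le_iff₀ (by positivity)] at c6
  refine c6.trans ?_
  have g0 := G1 (Nn (slp γ0.2) (β ^ 0))
  rw [Real.rpow_add (by linarith), Real.rpow_one]
  calc _ = (1 + C2 / κ) ^ m * (6 * F.K0 * R * θ ^ T.card * G (Nn (slp γ0.2) (β ^ 0))) := by
        field_simp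
    _ ≤ (1 + C2 / κ) ^ m * (6 * F.K0 * R * (θ ^ (D * (L + 1)) * β ^ η * R ^ η) *
        (3 * G (Nn 0 1))) := by gcongr
    _ = _ := by ring

end Flow

end Pool.Agent.Lib.MP_1e1a64_an
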