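import Pool.Agent.Lib.MP_1e1a64_an.Shadow

/-!
Enlarging a complex by an edge or a triangle.
-/

open Set Filter Topology MeasureTheory Metric
open scoped ENNReal NNReal

namespace Pool.Agent.Lib.MP_1e1a64_an

theorem le_of_Ico {φ : ℝ → ℝ} (hφ : Continuous φ) {a b c : ℝ} (hab : a < b)
    (h : ∀ t ∈ Ico a b, φ t ≤ c) : φ b ≤ c := by
  apply le_of_tendsto ((hφ.tendsto b).mono_left (nhdsWithin_le_nhds (s := Iio b)))
  filter_upwards [Ico_mem_nhdsLT hab] with t ht using h t ht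

theorem le_of_Ioc {φ : ℝ → ℝ} (hφ : Continuous φ) {a b c : ℝ} (hab : a < b)
    (h : ∀ t ∈ Ioc a b, φ t ≤ c) : φ a ≤ c := by
  apply le_of_tendsto ((hφ.tendsto a).mono_left (nhdsWithin_le_nhds (s := Ioi a)))
  filter_upwards [Ioc_mem_nhdsGT hab] with t ht using h t ht

theorem frontier_of_subset {X : Type*} [TopologicalSpace X] {S S' : Set X} (h : S ⊆ S') {x : X}
    (hx : x ∈ frontier S') (hS : x ∈ S) : x ∈ frontier S :=
  ⟨subset_closure hS, fun hi => hx.2 (interior_mono h hi)⟩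

namespace Flow

variable {X : Type*} [TopologicalSpace X] {F : Flow X} [T2Space X] [CompactSpace X]
variable {S : Set X} {e f : X × ℂ} {d : ℂ}

theorem add_edge (hS : F.Cx S) {g : X × ℂ} (hg : F.IsSC g) (hd : Disjoint (F.arc g) S) :
    F.IsCx (S ∪ F.arc g) (insert g (F.Bd S)) := by
  have hcl : IsClosed (S ∪ F.arc g) := by
    have : S ∪ F.arc g = S ∪ (F.sing ∪ F.arc g) := by
      rw [← union_assoc, union_eq_self_of_subset_right hS.sing]
    rw [this]; exact hS.closed.union hg.closed_arc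
  refine ⟨hcl, hS.sing.trans subset_union_left, hS.fin.insert g, ?_, ?_, ?_, ?_⟩
  · rintro e (rfl | he); exacts [hg, he.1]
  · rintro e (rfl | he); exacts [subset_union_right, (hS.sub e he).trans subset_union_left]
  · rintro e (rfl | he) f (rfl | hf) ⟨x, h1, h2⟩
    · simp
    · exact absurd (hS.sub f hf h2) (Set.disjoint_left.1 hd h1)
    · exact absurd (hS.sub e he h1) (Set.disjoint_left.1 hd h2)
    · exact hS.nc e he f hf ⟨x, h1, h2⟩
  · intro x hx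
    rcases hcl.frontier_subset hx with h | h
    · rcases hS.fr (frontier_of_subset subset_union_left hx h) with h1 | h1
      · exact Or.inl h1
      · exact Or.inr (biUnion_subset_biUnion_left (subset_insert _ _) h1)
    · exact Or.inr (mem_iUnion₂.2 ⟨g, mem_insert _ _, h⟩)

omit [T2Space X] [CompactSpace X] in
theorem add_region (hS : F.Cx S) {S' : Set X} (hcl : IsClosed S') (hsub : S ⊆ S')
    (hfr : frontier S' ⊆ S) : F.IsCx S' (F.Bd S) :=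
  ⟨hcl, hS.sing.trans hsub, hS.fin, hS.sc, fun e he => (hS.sub e he).trans hsub, hS.nc,
    fun _ hx => hS.fr (frontier_of_subset hsub hx (hfr hx))⟩

theorem closed_dev {x : X} {K C : Set ℂ} (hK : IsCompact K) (hCK : C ⊆ K) (hC : Convex ℝ C)
    (hD : C ⊆ F.D x) (h0 : (0 : ℂ) ∈ C) (hv : ∀ v ∈ K, v ∉ C → v ∉ F.D x)
    (hs : ∀ v ∈ K, ∀ z ∈ C, ∀ t ∈ Ico (0 : ℝ) 1, z + t • (v - z) ∈ C) :
    IsClosed ((F.sing : Set X) ∪ F.go x '' C) := by
  rw [← isOpen_compl_iff, isOpen_iff_mem_nhds]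
  intro y hy
  rw [mem_compl_iff, mem_union, not_or] at hy
  obtain ⟨N, V, hN, hV, hSN, hyV, hdis⟩ :=
    F.sing.finite_toSet.isCompact.separation_of_notMem hy.1
  obtain ⟨r, hr, hsm⟩ := F.small_hit (N := N) fun p hp => hN.mem_nhds (hSN hp)
  have hK1 : IsCompact (K \ ⋃ v ∈ K \ C, ball v r) :=
    hK.diff (isOpen_biUnion fun _ _ => isOpen_ball)
  have hsub : K \ ⋃ v ∈ K \ C, ball v r ⊆ C := by
    intro z hz
    by_contra hn
    exact hz.2 (mem_iUnion₂.2 ⟨z, ⟨hz.1, hn⟩, mem_ball_self hr⟩)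
  have hK2 := hK1.image_of_continuousOn ((F.cont x).mono (hsub.trans hD))
  filter_upwards [hV.mem_nhds hyV, hK2.isClosed.isOpen_compl.mem_nhds
    (fun h => hy.2 (image_mono hsub h)),
    F.sing.finite_toSet.isClosed.isOpen_compl.mem_nhds hy.1] with a h1 h2 h3
  rintro (h | ⟨z, hz, rfl⟩)
  · exact h3 h
  by_cases hb : z ∈ ⋃ v ∈ K \ C, ball v r
  · obtain ⟨v, hv1, hv2⟩ := mem_iUnion₂.1 hb
    have := hit_transfer hC hD (z := z) (w := v) (fun t ht => by simpa using hs v hv1.1 0 h0 t ht)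
      (hs v hv1.1 z hz) (hv v hv1.1 hv1.2)
    exact Set.disjoint_left.1 hdis
      (hsm _ _ this.2 (by rwa [mem_ball, dist_comm, dist_eq_norm] at hv2)) h1
  · exact h2 ⟨z, ⟨hCK hz, hb⟩, rfl⟩

theorem vis_min (he : F.IsSC e) (hsub : F.arc e ⊆ S) {t τ : ℝ} (h : F.Vis S e d t τ) :
    ∃ t1 τ1, F.Vis S e d t1 τ1 ∧ ∀ t τ, F.Vis S e d t τ → τ1 ≤ τ := by
  have hfin : {p : ℝ × ℝ | F.Vis S e d p.1 p.2}.Finite := by
    by_contra hn
    obtain ⟨A, hA, hc⟩ := Set.Infinite.exists_subset_card_eq hn (F.K0 + 1)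
    have := vis_card (S := S) (d := d) A (fun p => F.pt e p.1) (fun p => p.2) (fun p hp => by
      have hv : F.Vis S e d p.1 p.2 := hA hp
      exact ⟨hsub (F.pt_mem_arc e hv.1), hv.2.1, hv.hit he, fun σ hσ => (hv.2.2.1 σ hσ).2⟩)
      (fun p hp q hq hpq => by
        have hv : F.Vis S e d p.1 p.2 := hA hp
        have hv' : F.Vis S e d q.1 q.2 := hA hq
        have h1 := he.pt_inj hv.1 hv'.1 hpq
        exact Prod.ext h1 (hv.unique (h1 ▸ hv')))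
    omega
  obtain ⟨p, hp, hmin⟩ := Set.exists_min_image _ Prod.snd hfin ⟨(t, τ), h⟩
  exact ⟨p.1, p.2, hp, fun t τ h => hmin (t, τ) h⟩

theorem tent_right (hS : F.Cx S) (he : F.IsSC e) (hd : wedge e.2 d ≠ 0) (ho : F.Out S e d)
    {t1 τ1 : ℝ} (h1 : F.Vis S e d t1 τ1) (hmin : ∀ t τ, F.Vis S e d t τ → τ1 ≤ τ) :
    ∀ t ∈ Ico t1 1, F.Free S e d t (τ1 * (1 - t) / (1 - t1)) := by
  intro t2 ht2 σ hσ
  by_contra hn
  have hk : 0 < 1 - t1 := by linarith [h1.1.2]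
  have hτ1 := h1.2.1
  have hle : τ1 * (1 - t2) / (1 - t1) ≤ τ1 := by
    rw [div_le_iff₀ hk]; nlinarith [ht2.1]
  obtain ⟨τ, hτ, hev⟩ := first_event hS.closed ho he hd ⟨h1.1.1.trans_le ht2.1, ht2.2⟩ hσ.1
    (fun hW => by by_contra h; exact hn ⟨hW, h⟩)
  have hτlt : τ < τ1 * (1 - t2) / (1 - t1) := hτ.2.trans_lt hσ.2
  rcases hev with hv | hland
  · linarith [hmin _ _ hv]
  obtain ⟨f, hf, s, hgood⟩ := hland.edge hS
  have hfd := hgood.wedge_ne hf.1 (hS.sub f hf)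
  have hab := wedge_decomp hfd e.2
  generalize wedge e.2 d / wedge f.2 d = a at hab
  generalize wedge f.2 e.2 / wedge f.2 d = b at hab
  have ht12 : t1 < t2 := lt_of_le_of_ne ht2.1 (by rintro rfl; exact h1.not_land hland)
  have A : ∃ t ∈ Ico t1 t2, τ1 ≤ τ - b * (t - t2) := by
    rcases shadow_neg hS he hd ho hf hab hgood with ⟨t, ht, ⟨τ', h2, hv⟩, h3⟩ | h3
    · refine ⟨t, ⟨?_, ht.2⟩, (hmin _ _ hv).trans h2⟩
      by_contra h4
      exact h1.not_land (h3 t1 ⟨not_le.1 h4, ht12.le⟩).1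
    · exact (h1.not_land (h3 t1 ⟨h1.1.1, ht12.le⟩).1).elim
  obtain ⟨t, ht, hA⟩ := A
  have hb : 0 < b := by
    by_contra hb
    nlinarith [ht.2, not_lt.1 hb]
  rcases shadow hS he hd ho hf hab hgood with ⟨t', ht', ⟨τ', h2, hv⟩, -⟩ | h3
  · have := hmin _ _ hv
    nlinarith [ht'.1]
  · have h4 := le_of_Ico (φ := fun t => -(τ - b * (t - t2))) (by fun_prop) ht2.2
      (fun t ht => neg_nonpos.2 (h3 t ht).1.2.1.le)
    rw [lt_div_iff₀ hk] at hτlt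
    have h5 : τ1 ≤ τ + b * (t2 - t1) := by nlinarith [ht.1]
    have h6 : 0 < 1 - t2 := by linarith [ht2.2]
    nlinarith [mul_le_mul_of_nonneg_right h5 h6.le, mul_pos (sub_pos.2 ht12) hb]

theorem tent_side (hS : F.Cx S) (he : F.IsSC e) (hd : wedge e.2 d ≠ 0) (ho : F.Out S e d)
    {t1 τ1 : ℝ} (h1 : F.Vis S e d t1 τ1) (hmin : ∀ t τ, F.Vis S e d t τ → τ1 ≤ τ) :
    (∀ t ∈ Ioo t1 1, (t, τ1 * (1 - t) / (1 - t1)) ∈ F.W e d) ∧
    ∃ g, F.IsSC g ∧ g.2 = (1 / 2 : ℝ) • (τ1 • d - (1 - t1) • e.2) ∧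
      F.arc g = (fun t => F.Φ e d (t, τ1 * (1 - t) / (1 - t1))) '' Ioo t1 1 ∧
      (F.arc g ⊆ S ∨ Disjoint (F.arc g) S) := by
  have hk : 0 < 1 - t1 := by linarith [h1.1.2]
  have hτ1 := h1.2.1
  have hfree := tent_right hS he hd ho h1 hmin
  have hpos : ∀ t ∈ Ioo t1 1, 0 < τ1 * (1 - t) / (1 - t1) := fun t ht =>
    div_pos (mul_pos hτ1 (by linarith [ht.2])) hk
  have hI : ∀ t ∈ Ioo t1 1, t ∈ Ioo (-1 : ℝ) 1 := fun t ht => ⟨h1.1.1.trans ht.1, ht.2⟩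
  have hW : ∀ t ∈ Ioo t1 1, (t, τ1 * (1 - t) / (1 - t1)) ∈ F.W e d := by
    intro t ht
    by_contra hn
    have := hmin _ _ ⟨hI t ht, hpos t ht, hfree t ⟨ht.1.le, ht.2⟩, hn⟩
    rw [le_div_iff₀ hk] at this
    nlinarith [ht.1]
  refine ⟨hW, ?_⟩
  have hseg : ∀ t ∈ Ioo t1 1,
      (t - t1) • e.2 + (τ1 * (1 - t) / (1 - t1)) • d ∈ F.D (F.pt e t1) ∧
      F.go (F.pt e t1) ((t - t1) • e.2 + (τ1 * (1 - t) / (1 - t1)) • d) =
        F.Φ e d (t, τ1 * (1 - t) / (1 - t1)) := by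
    intro t ht
    have := he.Φ_seg (d := d) (p := (t1, 0)) (q := (t, τ1 * (1 - t) / (1 - t1))) (by
      intro θ hθ
      rcases eq_or_lt_of_le hθ.1 with h2 | h2
      · subst h2; simpa using he.zero_mem_W h1.1
      have h3 : t1 + θ * (t - t1) ∈ Ioo t1 1 := ⟨by nlinarith [ht.1], by nlinarith [ht.1, ht.2, hθ.2]⟩
      have := W_down (hW _ h3) (σ := θ * (τ1 * (1 - t) / (1 - t1))) (mul_pos h2 (hpos t ht)).le (by
        rw [← mul_div_assoc, div_le_div_iff_of_pos_right hk]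
        nlinarith [mul_nonneg (mul_pos hτ1 hk).le (sub_nonneg.2 hθ.2)])
      simpa using this)
    simpa [vec] using this
  have hsc := sc_of_tri (h1.hit he) (he.hit_end h1.1) (fun θ hθ => by
    have := (hseg (t1 + θ * (1 - t1)) ⟨by nlinarith [hθ.1], by nlinarith [hθ.2]⟩).1
    convert this using 1
    rw [show τ1 * (1 - (t1 + θ * (1 - t1))) / (1 - t1) = τ1 * (1 - θ) by field_simp; ring]
    module)
  set g : X × ℂ := (F.go (F.pt e t1) ((1 / 2 : ℝ) • (τ1 • d + (1 - t1) • e.2)),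
    (1 / 2 : ℝ) • (τ1 • d - (1 - t1) • e.2)) with hg
  have hpt : ∀ s ∈ Ioo (-1 : ℝ) 1, F.pt g s =
      F.Φ e d (t1 + (1 - s) / 2 * (1 - t1), τ1 * (1 - (t1 + (1 - s) / 2 * (1 - t1))) / (1 - t1)) := by
    intro s hs
    have hm : ∀ s ∈ Ioo (-1 : ℝ) 1, t1 + (1 - s) / 2 * (1 - t1) ∈ Ioo t1 1 := fun s hs =>
      ⟨by nlinarith [hs.2], by nlinarith [hs.1]⟩
    have hv : ∀ s : ℝ, (1 / 2 : ℝ) • (τ1 • d + (1 - t1) • e.2) +
        s • (1 / 2 : ℝ) • (τ1 • d - (1 - t1) • e.2) = (t1 + (1 - s) / 2 * (1 - t1) - t1) • e.2 +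
          (τ1 * (1 - (t1 + (1 - s) / 2 * (1 - t1))) / (1 - t1)) • d := by
      intro s
      rw [show τ1 * (1 - (t1 + (1 - s) / 2 * (1 - t1))) / (1 - t1) = τ1 * ((1 + s) / 2) by
        field_simp; ring]
      module
    have := F.cocycle (F.pt e t1) ((1 / 2 : ℝ) • (τ1 • d + (1 - t1) • e.2))
      (s • (1 / 2 : ℝ) • (τ1 • d - (1 - t1) • e.2)) (fun a ha => by
        rw [smul_smul a s, hv]
        exact (hseg _ (hm _ ((convex_Ioo (-1 : ℝ) 1).smul_mem_of_zero_mem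
          ⟨by norm_num, by norm_num⟩ hs ha))).1)
    rw [← (hseg _ (hm s hs)).2, ← hv, ← this.2]
    rfl
  have harc : F.arc g = (fun t => F.Φ e d (t, τ1 * (1 - t) / (1 - t1))) '' Ioo t1 1 := by
    ext x
    constructor
    · rintro ⟨s, hs, rfl⟩
      exact ⟨_, ⟨by nlinarith [hs.2], by nlinarith [hs.1]⟩, (hpt s hs).symm⟩
    · rintro ⟨t, ht, rfl⟩
      have h2 : 1 - 2 * (t - t1) / (1 - t1) ∈ Ioo (-1 : ℝ) 1 := by
        have h3 : 0 < 2 * (t - t1) / (1 - t1) := div_pos (by linarith [ht.1]) hk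
        have h4 : 2 * (t - t1) / (1 - t1) < 2 := by rw [div_lt_iff₀ hk]; linarith [ht.2]
        constructor <;> linarith
      refine ⟨_, h2, ?_⟩
      rw [hpt _ h2, show t1 + (1 - (1 - 2 * (t - t1) / (1 - t1))) / 2 * (1 - t1) = t by
        field_simp; ring]
  refine ⟨g, hsc, rfl, harc, ?_⟩
  rw [or_iff_not_imp_right]
  intro hn
  obtain ⟨x, hx, hxS⟩ := Set.not_disjoint_iff.1 hn
  obtain ⟨t, ht, rfl⟩ := harc ▸ hx
  have hland : F.Land S e d t (τ1 * (1 - t) / (1 - t1)) :=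
    ⟨hI t ht, hpos t ht, hfree t ⟨ht.1.le, ht.2⟩, hW t ht, hxS⟩
  obtain ⟨f, hf, s, hgood⟩ := hland.edge hS
  have hfd := hgood.wedge_ne hf.1 (hS.sub f hf)
  have hab := wedge_decomp hfd e.2
  generalize wedge e.2 d / wedge f.2 d = a at hab
  generalize wedge f.2 e.2 / wedge f.2 d = b at hab
  have hev : ∀ᶠ t' in 𝓝 t, (b - τ1 / (1 - t1)) * (t' - t) ≤ 0 := by
    filter_upwards [hgood.ev hS he hd ho hf hab, isOpen_Ioo.mem_nhds ht] with t' h2 h3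
    have := (hfree t' ⟨h3.1.le, h3.2⟩).le_land h2.1
    have e1 : τ1 * (1 - t') / (1 - t1) = τ1 * (1 - t) / (1 - t1) - τ1 / (1 - t1) * (t' - t) := by
      field_simp; ring
    rw [e1] at this
    nlinarith
  have hb : b = τ1 / (1 - t1) := by
    obtain ⟨t', h2, h3⟩ := (Eventually.and (self_mem_nhdsWithin : Ioi t ∈ 𝓝[>] t)
      (hev.filter_mono nhdsWithin_le_nhds)).exists
    obtain ⟨t'', h4, h5⟩ := (Eventually.and (self_mem_nhdsWithin : Iio t ∈ 𝓝[<] t)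
      (hev.filter_mono nhdsWithin_le_nhds)).exists
    have h2 : t < t' := h2
    have h4 : t'' < t := h4
    apply le_antisymm <;> by_contra h6 <;> nlinarith [not_le.1 h6]
  have hw : wedge f.2 g.2 = 0 := by
    have : τ1 = b * (1 - t1) := by rw [hb]; field_simp
    show wedge f.2 ((1 / 2 : ℝ) • (τ1 • d - (1 - t1) • e.2)) = 0
    rw [hab, this]
    simp only [wedge_smul_right, wedge_sub_right, wedge_add_right, wedge_self]
    ring
  rw [hf.1.arc_eq hsc ⟨_, by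
    show F.Φ e d (t, τ1 * (1 - t) / (1 - t1)) ∈ _
    rw [hgood.2.2]; exact F.pt_mem_arc f hgood.2.1, hx⟩ hw]
  exact hS.sub f hf

theorem triangle (N : Seminorm ℝ ℂ) (hS : F.Cx S) (he : e ∈ F.Bd S) (hd : wedge e.2 d ≠ 0)
    (ho : F.Out S e d) {t τ ℓ L : ℝ} (hv : F.Vis S e d t τ) (hℓ : N e.2 ≤ ℓ) (hL : N (τ • d) ≤ L) :
    ∃ S', F.Cx S' ∧ S ⊂ S' ∧ (∀ g ∈ F.Bd S', g ∈ F.Bd S ∨ N g.2 ≤ L / 2 + ℓ) ∧
      S' ⊆ S ∪ F.go e.1 '' ({w | N w ≤ ℓ + L} ∩ F.D e.1) := by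
  obtain ⟨t1, τ1, h1, hmin⟩ := vis_min he.1 (hS.sub e he) hv
  have hτ1 := h1.2.1
  have hk : 0 < 1 - t1 := by linarith [h1.1.2]
  have hk' : 0 < 1 + t1 := by linarith [h1.1.1]
  have hNd : ∀ σ, 0 ≤ σ → σ ≤ τ1 → N (σ • d) ≤ L := by
    intro σ h2 h3
    rw [map_smul_eq_mul, Real.norm_eq_abs, abs_of_pos hv.2.1] at hL
    rw [map_smul_eq_mul, Real.norm_eq_abs, abs_of_nonneg h2]
    nlinarith [apply_nonneg N d, hmin _ _ hv]
  have hNu : ∀ c : ℝ, |c| ≤ 2 → N (c • e.2) ≤ 2 * ℓ := by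
    intro c hc
    rw [map_smul_eq_mul, Real.norm_eq_abs]
    nlinarith [apply_nonneg N e.2, abs_nonneg c]
  have h1' : F.Vis S (rev e) d (-t1) τ1 := by
    have : F.Vis S (rev (rev e)) d t1 τ1 := by simpa using h1
    exact this.rev
  have hmin' : ∀ t τ, F.Vis S (rev e) d t τ → τ1 ≤ τ := fun t τ h => hmin _ _ h.rev
  have hd' : wedge (rev e).2 d ≠ 0 := by simpa using hd
  have fr1 := tent_right hS he.1 hd ho h1 hmin
  have fr2 := tent_right hS he.1.rev hd' ho.rev h1' hmin'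
  obtain ⟨W1, g1, sc1, u1, arc1, dich1⟩ := tent_side hS he.1 hd ho h1 hmin
  obtain ⟨W2, g2, sc2, u2, arc2, dich2⟩ := tent_side hS he.1.rev hd' ho.rev h1' hmin'
  simp only [sub_neg_eq_add, W_rev, Φ_rev] at fr2 W2 u2 arc2
  set K0 : Set (ℝ × ℝ) := {p | 0 ≤ p.2 ∧ p.2 * (1 - t1) ≤ τ1 * (1 - p.1) ∧
    p.2 * (1 + t1) ≤ τ1 * (1 + p.1)} with hK0
  set C0 : Set (ℝ × ℝ) := {p | p ∈ K0 ∧ -1 < p.1 ∧ p.1 < 1 ∧ p.2 < τ1} with hC0
  have hKb : ∀ p ∈ K0, -1 ≤ p.1 ∧ p.1 ≤ 1 ∧ p.2 ≤ τ1 := by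
    rintro p ⟨a, b, c⟩
    refine ⟨?_, ?_, by nlinarith⟩
    · by_contra h; nlinarith [mul_nonneg a hk'.le, not_le.1 h]
    · by_contra h; nlinarith [mul_nonneg a hk.le, not_le.1 h]
  have hstar : ∀ v ∈ K0, ∀ p ∈ C0, ∀ θ ∈ Ico (0 : ℝ) 1, p + θ • (v - p) ∈ C0 := by
    rintro v hv p ⟨⟨a, b, c⟩, h2, h3, h4⟩ θ hθ
    obtain ⟨b1, b2, b3⟩ := hKb v hv
    obtain ⟨a', b', c'⟩ := hv
    have h5 : 0 < 1 - θ := by linarith [hθ.2]
    simp only [hC0, hK0, mem_ofPred_eq, Prod.fst_add, Prod.snd_add, Prod.smul_fst, Prod.smul_snd,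
      Prod.fst_sub, Prod.snd_sub, smul_eq_mul]
    refine ⟨⟨?_, ?_, ?_⟩, ?_, ?_, ?_⟩
    · nlinarith [mul_nonneg hθ.1 a', mul_nonneg h5.le a]
    · nlinarith [mul_le_mul_of_nonneg_left b' hθ.1, mul_le_mul_of_nonneg_left b h5.le]
    · nlinarith [mul_le_mul_of_nonneg_left c' hθ.1, mul_le_mul_of_nonneg_left c h5.le]
    · nlinarith [mul_le_mul_of_nonneg_left b1 hθ.1, mul_lt_mul_of_pos_left h2 h5]
    · nlinarith [mul_le_mul_of_nonneg_left b2 hθ.1, mul_lt_mul_of_pos_left h3 h5]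
    · nlinarith [mul_le_mul_of_nonneg_left b3 hθ.1, mul_lt_mul_of_pos_left h4 h5]
  have hseg0 : ∀ p ∈ C0, ∀ q ∈ C0, ∀ θ ∈ Icc (0 : ℝ) 1, p + θ • (q - p) ∈ C0 := by
    intro p hp q hq θ hθ
    rcases eq_or_lt_of_le hθ.2 with h | h
    · rw [h, one_smul, add_sub_cancel]; exact hq
    · exact hstar q hq.1 p hp θ ⟨hθ.1, h⟩
  have hCW : C0 ⊆ F.W e d := by
    rintro ⟨a, σ⟩ ⟨⟨h2, h3, h4⟩, h5, h6, h7⟩
    simp only at h2 h3 h4 h5 h6 h7
    rcases lt_trichotomy a t1 with h | h | h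
    · have := W2 (-a) ⟨by linarith, by linarith⟩
      rw [neg_neg] at this
      exact W_down this h2 ((le_div_iff₀ hk').2 (by linarith))
    · subst h
      rcases eq_or_lt_of_le h2 with h8 | h8
      · rw [← h8]; exact he.1.zero_mem_W h1.1
      · exact (h1.2.2.1 σ ⟨h8, h7⟩).1
    · exact W_down (W1 a ⟨h, h6⟩) h2 ((le_div_iff₀ hk).2 h3)
  have h00 : ((0 : ℝ), (0 : ℝ)) ∈ C0 := by
    simp only [hC0, hK0, mem_ofPred_eq]; norm_num; exact ⟨hτ1.le, hτ1⟩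
  have hgo : ∀ p ∈ C0, vec e.2 d p ∈ F.D e.1 ∧ F.go e.1 (vec e.2 d p) = F.Φ e d p := by
    intro p hp
    have := he.1.Φ_seg (d := d) fun θ hθ => hCW (hseg0 _ h00 p hp θ hθ)
    rw [Φ_zero, Prod.mk_zero_zero, sub_zero] at this
    simpa [pt, F.go_zero] using this
  have hreg : vec e.2 d '' C0 ⊆ {w | N w ≤ ℓ + L} ∩ F.D e.1 := by
    rintro _ ⟨p, hp, rfl⟩
    refine ⟨(map_add_le_add N _ _).trans (add_le_add ?_ (hNd _ hp.1.1 hp.2.2.2.le)), (hgo p hp).1⟩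
    rw [map_smul_eq_mul, Real.norm_eq_abs]
    have : |p.1| ≤ 1 := abs_le.2 ⟨hp.2.1.le, hp.2.2.1.le⟩
    nlinarith [apply_nonneg N e.2, abs_nonneg p.1]
  have hin : ∀ p ∈ C0, F.Φ e d p ∈ F.go e.1 '' (vec e.2 d '' C0) := fun p hp =>
    ⟨_, ⟨p, hp, rfl⟩, (hgo p hp).2⟩
  have m1 : ∀ a ∈ Ioo t1 1, (a, τ1 * (1 - a) / (1 - t1)) ∈ C0 := by
    intro a ha
    have h2 : τ1 * (1 - a) / (1 - t1) < τ1 := by rw [div_lt_iff₀ hk]; nlinarith [ha.1]
    have h3 : 0 ≤ τ1 * (1 - a) / (1 - t1) := div_nonneg (by nlinarith [ha.2]) hk.le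
    refine ⟨⟨h3, by simp only; rw [div_mul_cancel₀ _ hk.ne'], ?_⟩, h1.1.1.trans ha.1, ha.2, h2⟩
    simp only
    nlinarith [ha.1]
  have m2 : ∀ a ∈ Ioo (-t1) 1, (-a, τ1 * (1 - a) / (1 + t1)) ∈ C0 := by
    intro a ha
    have h2 : τ1 * (1 - a) / (1 + t1) < τ1 := by rw [div_lt_iff₀ hk']; nlinarith [ha.1]
    have h3 : 0 ≤ τ1 * (1 - a) / (1 + t1) := div_nonneg (by nlinarith [ha.2]) hk'.le
    refine ⟨⟨h3, ?_, by simp only; rw [div_mul_cancel₀ _ hk'.ne']; exact le_rfl⟩,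
      by simp only; linarith [ha.2], by simp only; linarith [ha.1, h1.1.2], h2⟩
    simp only
    nlinarith [ha.1]
  have newedge : ∀ g, F.IsSC g → Disjoint (F.arc g) S → N g.2 ≤ L / 2 + ℓ →
      F.arc g ⊆ F.go e.1 '' (vec e.2 d '' C0) →
      ∃ S', F.Cx S' ∧ S ⊂ S' ∧ (∀ g ∈ F.Bd S', g ∈ F.Bd S ∨ N g.2 ≤ L / 2 + ℓ) ∧
      S' ⊆ S ∪ F.go e.1 '' ({w | N w ≤ ℓ + L} ∩ F.D e.1) := by
    intro g hg hdis hN hsub
    have hcx := add_edge hS hg hdis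
    refine ⟨_, hcx.cx, ⟨subset_union_left, fun h => ?_⟩, fun f hf => ?_,
      union_subset_union_right _ (hsub.trans (image_mono hreg))⟩
    · have h0 := F.pt_mem_arc g (t := 0) ⟨by norm_num, by norm_num⟩
      exact Set.disjoint_left.1 hdis h0 (h (Or.inr h0))
    · rcases hcx.bd_sub hf with (h | h) | (h | h)
      · right; rwa [h]
      · exact Or.inl h
      · right; rwa [← h, rev_snd, map_neg_eq_map] at hN
      · left; simpa using rev_mem_Bd h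
  have hNg : ∀ (c : ℝ) (u : ℂ), N (c • u) ≤ 2 * ℓ →
      N ((1 / 2 : ℝ) • (τ1 • d - c • u)) ≤ L / 2 + ℓ := by
    intro c u hc
    rw [map_smul_eq_mul]
    have := map_sub_le_add N (τ1 • d) (c • u)
    have h2 := hNd τ1 hτ1.le le_rfl
    rw [Real.norm_eq_abs, abs_of_pos (by norm_num : (0 : ℝ) < 1 / 2)]
    linarith
  rcases dich1 with in1 | dis1
  swap
  · refine newedge g1 sc1 dis1 (u1 ▸ hNg _ _ (hNu _ (abs_le.2 ⟨by linarith, by linarith⟩))) ?_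
    rw [arc1]; rintro _ ⟨a, ha, rfl⟩; exact hin _ (m1 a ha)
  rcases dich2 with in2 | dis2
  swap
  · refine newedge g2 sc2 dis2 (u2 ▸ hNg _ _ ?_) ?_
    · rw [rev_snd, smul_neg, map_neg_eq_map]; exact hNu _ (abs_le.2 ⟨by linarith, by linarith⟩)
    · rw [arc2]; rintro _ ⟨a, ha, rfl⟩; exact hin _ (m2 a ha)
  have hvl : ∀ (p q : ℝ × ℝ) (θ : ℝ), vec e.2 d p + θ • (vec e.2 d q - vec e.2 d p) =
      vec e.2 d (p + θ • (q - p)) := by
    intro p q θ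
    simp only [vec, Prod.fst_sub, Prod.snd_sub, Prod.fst_add, Prod.snd_add, Prod.smul_fst,
      Prod.smul_snd, smul_eq_mul]
    module
  have hKc : IsCompact K0 := by
    refine (isCompact_Icc.prod isCompact_Icc : IsCompact (Icc (-1 : ℝ) 1 ×ˢ Icc 0 τ1)).of_isClosed_subset
      ?_ fun p hp => ⟨⟨(hKb p hp).1, (hKb p hp).2.1⟩, hp.1, (hKb p hp).2.2⟩
    have c1 : IsClosed {p : ℝ × ℝ | 0 ≤ p.2} := isClosed_le (by fun_prop) (by fun_prop)
    have c2 : IsClosed {p : ℝ × ℝ | p.2 * (1 - t1) ≤ τ1 * (1 - p.1)} :=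
      isClosed_le (by fun_prop) (by fun_prop)
    have c3 : IsClosed {p : ℝ × ℝ | p.2 * (1 + t1) ≤ τ1 * (1 + p.1)} :=
      isClosed_le (by fun_prop) (by fun_prop)
    exact c1.inter (c2.inter c3)
  have hcl := closed_dev (F := F) (x := e.1) (K := vec e.2 d '' K0) (C := vec e.2 d '' C0)
    (hKc.image (by unfold vec; fun_prop)) (image_mono fun p hp => hp.1)
    (convex_iff_add_mem.2 (by
      rintro _ ⟨p, hp, rfl⟩ _ ⟨q, hq, rfl⟩ a b ha hb hab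
      refine ⟨_, hseg0 p hp q hq b ⟨hb, by linarith⟩, ?_⟩
      rw [← hvl, show a = 1 - b by linarith]; module))
    (hreg.trans inter_subset_right) ⟨_, h00, by simp [vec]⟩ (by
      rintro _ ⟨⟨a, σ⟩, hp, rfl⟩ hn hD
      obtain ⟨b1, b2, b3⟩ := hKb _ hp
      obtain ⟨a', b', c'⟩ := id hp
      simp only at b1 b2 b3 a' b' c'
      rcases eq_or_lt_of_le b1 with h2 | h2
      · have : σ = 0 := by subst h2; nlinarith
        subst this h2
        exact he.1.2.2 (by simpa [vec] using hD)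
      rcases eq_or_lt_of_le b2 with h3 | h3
      · have : σ = 0 := by subst h3; nlinarith
        subst this h3
        exact he.1.1.2 (by simpa [vec] using hD)
      rcases eq_or_lt_of_le b3 with h4 | h4
      · subst h4
        have : a = t1 := by apply le_antisymm <;> nlinarith
        subst this
        refine h1.2.2.2 ⟨h1.1, (F.cocycle e.1 (a • e.2) (σ • d) fun θ hθ => ?_).1⟩
        rcases eq_or_lt_of_le hθ.2 with h5 | h5
        · rw [h5, one_smul]; exact hD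
        · have := (hgo _ (hstar _ hp (a, 0) ⟨⟨le_rfl, by nlinarith, by nlinarith⟩, h2, h3, hτ1⟩ θ
            ⟨hθ.1, h5⟩)).1
          simpa [vec, smul_smul, mul_assoc] using this
      · exact hn ⟨_, ⟨hp, h2, h3, h4⟩, rfl⟩) (by
      rintro _ ⟨v, hv, rfl⟩ _ ⟨p, hp, rfl⟩ θ hθ
      exact ⟨_, hstar v hv p hp θ hθ, (hvl _ _ _).symm⟩)
  have hcl' : IsClosed (S ∪ F.go e.1 '' (vec e.2 d '' C0)) := by
    have : S ∪ F.go e.1 '' (vec e.2 d '' C0) = S ∪ (F.sing ∪ F.go e.1 '' (vec e.2 d '' C0)) := by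
      rw [← union_assoc, union_eq_self_of_subset_right hS.sing]
    rw [this]; exact hS.closed.union hcl
  have hcx := add_region hS hcl' subset_union_left (by
    intro x hx
    by_contra hxS
    obtain ⟨_, ⟨⟨a, σ⟩, hp, rfl⟩, rfl⟩ := (hcl'.frontier_subset hx).resolve_left hxS
    have hgp := hgo _ hp
    obtain ⟨⟨h2, h3, h4⟩, h5, h6, h7⟩ := id hp
    simp only at h2 h3 h4 h5 h6 h7
    have s1 : 0 < σ := by
      refine lt_of_le_of_ne h2 ?_
      rintro rfl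
      exact hxS (by rw [hgp.2, Φ_zero]; exact hS.sub e he (F.pt_mem_arc e ⟨h5, h6⟩))
    have s2 : σ * (1 - t1) < τ1 * (1 - a) := by
      refine lt_of_le_of_ne h3 fun h => hxS (in1 ?_)
      rw [arc1, hgp.2]
      refine ⟨a, ⟨by nlinarith, h6⟩, ?_⟩
      simp only; rw [← h, mul_div_cancel_right₀ _ hk.ne']
    have s3 : σ * (1 + t1) < τ1 * (1 + a) := by
      refine lt_of_le_of_ne h4 fun h => hxS (in2 ?_)
      rw [arc2, hgp.2]
      refine ⟨-a, ⟨by nlinarith, by linarith⟩, ?_⟩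
      simp only; rw [neg_neg, sub_neg_eq_add, ← h, mul_div_cancel_right₀ _ hk'.ne']
    apply hx.2
    rw [mem_interior_iff_mem_nhds]
    refine mem_of_superset (F.image_nhds hgp.1 (A := vec e.2 d '' C0) ?_) subset_union_right
    have hc : Tendsto (fun w => (wedge w d / wedge e.2 d, wedge e.2 w / wedge e.2 d))
        (𝓝 (vec e.2 d (a, σ))) (𝓝 (a, σ)) := by
      have : Continuous (fun w => (wedge w d / wedge e.2 d, wedge e.2 w / wedge e.2 d)) := by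
        unfold wedge; fun_prop
      convert this.tendsto _ using 2
      simp only [vec, wedge_add_left, wedge_add_right, wedge_smul_left, wedge_smul_right,
        wedge_self]
      ext <;> field_simp <;> ring
    have hnb : C0 ∈ 𝓝 (a, σ) := by
      have o1 : ∀ᶠ p : ℝ × ℝ in 𝓝 (a, σ), 0 < p.2 :=
        (isOpen_lt (by fun_prop) (by fun_prop)).mem_nhds s1
      have o2 : ∀ᶠ p : ℝ × ℝ in 𝓝 (a, σ), p.2 * (1 - t1) < τ1 * (1 - p.1) :=
        (isOpen_lt (by fun_prop) (by fun_prop)).mem_nhds s2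
      have o3 : ∀ᶠ p : ℝ × ℝ in 𝓝 (a, σ), p.2 * (1 + t1) < τ1 * (1 + p.1) :=
        (isOpen_lt (by fun_prop) (by fun_prop)).mem_nhds s3
      have o4 : ∀ᶠ p : ℝ × ℝ in 𝓝 (a, σ), -1 < p.1 :=
        (isOpen_lt (by fun_prop) (by fun_prop)).mem_nhds h5
      have o5 : ∀ᶠ p : ℝ × ℝ in 𝓝 (a, σ), p.1 < 1 :=
        (isOpen_lt (by fun_prop) (by fun_prop)).mem_nhds h6
      have o6 : ∀ᶠ p : ℝ × ℝ in 𝓝 (a, σ), p.2 < τ1 :=
        (isOpen_lt (by fun_prop) (by fun_prop)).mem_nhds h7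
      filter_upwards [o1, o2, o3, o4, o5, o6] with p a1 a2 a3 a4 a5 a6
        using ⟨⟨a1.le, a2.le, a3.le⟩, a4, a5, a6⟩
    filter_upwards [hc.eventually hnb] with w hw
    exact ⟨_, hw, (wedge_decomp hd w).symm⟩)
  refine ⟨_, hcx.cx, ⟨subset_union_left, fun h => ?_⟩, fun f hf => Or.inl ?_,
    union_subset_union_right _ (image_mono hreg)⟩
  · refine (h1.2.2.1 (τ1 / 2) ⟨by linarith, by linarith⟩).2 (h (Or.inr (hin _ ?_)))
    exact ⟨⟨by simp only; linarith, by simp only; nlinarith, by simp only; nlinarith⟩,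
      h1.1.1, h1.1.2, by simp only; linarith⟩
  · exact (hcx.bd_sub hf).elim id fun h => by simpa using rev_mem_Bd h

end Flow

end Pool.Agent.Lib.MP_1e1a64_an
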